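import Pool.Agent.H6.MB.Defs

/-!
# MER: elementary estimates for products over primes

* `mer1`. Chebyshev: `π(2y) ≤ C y/log y` (Mathlib: `Chebyshev.theta`, `Nat.primeCounting`; also
  `primorial_le_four_pow`: `∏_{y < p ≤ 2y} p ≤ 4^{2y}` so `#{y < p ≤ 2y} ≤ 2 y log 4/log y`). So
  `∑_{y < p ≤ 2y} 1/p ≤ C/log y`. The interval `(√z, z]` is covered by at most `log z/log 2 + 1` dyadic intervals
  `(y, 2y]` with `y ≥ √z`, each contributing `≤ 2C/log z`. For `z ≤ 4` the sum is bounded trivially.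
* `mer2`. By `mer1`-like sums `∑_{p ≤ z} 1/p ≤ log log z + C`? An easy way to `c/log z ≤ ∏_{p ≤ z} (1 - 1/p)`: write
  `(0, z]` dyadically: `∑_{p ≤ z} 1/p ≤ 1 + ∑_{2^j ≤ z, j ≥ 1} C₀/j` is not sharp enough (it gives a power of
  `log z`). Sharp: `∑_{p ≤ n} (log p)/p ≤ log n + C` (Mertens' first theorem, from `log n! = ∑ ⌊n/p^k⌋ log p`:
  `n ∑_{p ≤ n} (log p)/p - θ(n) ≤ log n! ≤ n log n`, and `θ(n) ≤ n log 4`), then partial summation:
  `∑_{2 ≤ p ≤ z} 1/p = A(z)/log z + ∫_2^z A(t)/(t log^2 t) dt ≤ log log z + C` (`A(t) = ∑_{p ≤ t} (log p)/p`;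
  discrete Abel summation `Finset.sum_range_by_parts` or `sum_mul_eq_sub_integral_mul`). Then
  `∏ (1 - 1/p) ≥ exp (- ∑ 1/p - ∑ 1/p^2) ≥ c/log z` (`1 - u ≥ exp(-u-u^2)` for `0 ≤ u ≤ 1/2`).
  Please look first whether Mathlib or the pool already has a Mertens theorem
  (`grep -rn Mertens Pool/Agent`).
* `mer3`. `∏_{p ≤ z} (1 - 1/p)^{-1} ≥ ∑_{n ≤ z} 1/n ≥ log z` (every `n ≤ z` is a product of primes `≤ z`; Mathlib:
  `Nat.smoothNumbers`, `EulerProduct`; or `GK_lower 1` in `Pool/Agent/H6/MF/GLK.lean`: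
  `log v ≤ Op S (hwK 1) one1 ⌊v⌋₊ ≤ ∏_{p ∈ S} (1 + 1/(p-1)) = ∏ (1-1/p)^{-1}`, with `Op_upper`).
* `mer4`. `∑_{z^δ < p ≤ z} 1/p ≤ C` (at most `log_2(1/δ) + 1` intervals `(√y, y]`, `mer1`) and
  `1 + B/p ≤ exp (B/p)`.
-/

set_option autoImplicit false

namespace Pool.Agent.H6.MB

open Finset

private theorem MER_mem {w z : ℝ} {p : ℕ} :
    p ∈ PI w z ↔ p.Prime ∧ w < (p : ℝ) ∧ (p : ℝ) ≤ z := by
  unfold PI
  rw [Finset.mem_filter, Finset.mem_range, Nat.lt_succ_iff]
  constructor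
  · rintro ⟨h1, h2, h3⟩
    exact ⟨h2, h3, (Nat.le_floor_iff' h2.ne_zero).1 h1⟩
  · rintro ⟨h1, h2, h3⟩
    exact ⟨Nat.le_floor h3, h1, h2⟩

private theorem MER_empty {w z : ℝ} (hz : z < 2) : PI w z = ∅ := by
  apply Finset.eq_empty_of_forall_notMem
  intro p hp
  rw [MER_mem] at hp
  have : (2 : ℝ) ≤ p := by exact_mod_cast hp.1.two_le
  linarith [hp.2.2]

private theorem MER_div (n : ℕ) :
    ∑ p ∈ (Ioc 0 n).filter Nat.Prime, ((n / p : ℕ) : ℝ) * Real.log p ≤ n * Real.log n := by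
  have h1 : ∀ p ∈ (Ioc 0 n).filter Nat.Prime, ((n / p : ℕ) : ℝ) * Real.log p =
      ∑ m ∈ Ioc 0 n, if p ∣ m then Real.log p else 0 := by
    intro p _
    rw [← Finset.sum_filter, Finset.sum_const, Nat.Ioc_filter_dvd_card_eq_div, nsmul_eq_mul]
  rw [Finset.sum_congr rfl h1, Finset.sum_comm]
  calc _ ≤ ∑ m ∈ Ioc 0 n, Real.log n := by
        apply Finset.sum_le_sum
        intro m hm
        rw [Finset.mem_Ioc] at hm
        rw [← Finset.sum_filter, Finset.filter_filter]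
        have h2 : (Ioc 0 n).filter (fun p => p.Prime ∧ p ∣ m) ⊆ m.primeFactors := by
          intro p hp
          rw [Finset.mem_filter] at hp
          exact Nat.mem_primeFactors.2 ⟨hp.2.1, hp.2.2, hm.1.ne'⟩
        calc _ ≤ ∑ p ∈ m.primeFactors, Real.log p :=
              Finset.sum_le_sum_of_subset_of_nonneg h2 (fun p hp _ => Real.log_natCast_nonneg p)
          _ = Real.log (∏ p ∈ m.primeFactors, (p : ℝ)) :=
              (Real.log_prod (fun p hp => by
                exact_mod_cast (Nat.prime_of_mem_primeFactors hp).ne_zero)).symm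
          _ ≤ Real.log n := by
              apply Real.log_le_log
              · exact Finset.prod_pos (fun p hp => by
                  exact_mod_cast (Nat.prime_of_mem_primeFactors hp).pos)
              · have : ∏ p ∈ m.primeFactors, p ≤ n :=
                  (Nat.le_of_dvd hm.1 (Nat.prod_primeFactors_dvd m)).trans hm.2
                rw [← Nat.cast_prod]
                exact Nat.cast_le.2 this
    _ = n * Real.log n := by rw [Finset.sum_const, Nat.card_Ioc, nsmul_eq_mul, Nat.sub_zero]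

private theorem MER_PI0 (z : ℝ) : PI 0 z = (Ioc 0 ⌊z⌋₊).filter Nat.Prime := by
  ext p
  rw [MER_mem, Finset.mem_filter, Finset.mem_Ioc]
  constructor
  · rintro ⟨h1, h2, h3⟩
    exact ⟨⟨h1.pos, Nat.le_floor h3⟩, h1⟩
  · rintro ⟨⟨h1, h2⟩, h3⟩
    exact ⟨h3, by exact_mod_cast h1, (Nat.le_floor_iff' h3.ne_zero).1 h2⟩

/-- Mertens' first theorem, upper bound -/
private theorem MER_first {z : ℝ} (hz : 1 ≤ z) :
    ∑ p ∈ PI 0 z, Real.log p / p ≤ Real.log z + Real.log 4 := by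
  set n := ⌊z⌋₊ with hn
  have hn1 : 1 ≤ n := by
    rw [hn, Nat.one_le_floor_iff]
    exact hz
  have hnpos : (0 : ℝ) < n := by exact_mod_cast hn1
  have h1 : (n : ℝ) * ∑ p ∈ PI 0 z, Real.log p / p ≤ n * Real.log n + Real.log 4 * n := by
    rw [MER_PI0, ← hn, Finset.mul_sum]
    calc _ ≤ ∑ p ∈ (Ioc 0 n).filter Nat.Prime,
          (((n / p : ℕ) : ℝ) * Real.log p + Real.log p) := by
          apply Finset.sum_le_sum
          intro p hp
          have hp' := (Finset.mem_filter.1 hp).2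
          have h2 : (n : ℝ) / p ≤ ((n / p : ℕ) : ℝ) + 1 := by
            have h3 := (Nat.lt_floor_add_one ((n : ℝ) / p)).le
            rwa [Nat.floor_div_eq_div] at h3
          have h4 : 0 ≤ Real.log p := Real.log_natCast_nonneg p
          calc (n : ℝ) * (Real.log p / p) = (n / p) * Real.log p := by ring
            _ ≤ (((n / p : ℕ) : ℝ) + 1) * Real.log p := mul_le_mul_of_nonneg_right h2 h4
            _ = _ := by ring
      _ = ∑ p ∈ (Ioc 0 n).filter Nat.Prime, ((n / p : ℕ) : ℝ) * Real.log p + 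
          Chebyshev.theta n := by
          rw [Finset.sum_add_distrib]
          congr 1
          unfold Chebyshev.theta
          rw [Nat.floor_natCast]
      _ ≤ _ := add_le_add (MER_div n) (Chebyshev.theta_le_log4_mul_x hnpos.le)
  have h2 : Real.log n ≤ Real.log z := Real.log_le_log hnpos (Nat.floor_le (by linarith))
  have h3 : (n : ℝ) * ∑ p ∈ PI 0 z, Real.log p / p ≤ n * (Real.log z + Real.log 4) := by
    refine h1.trans ?_
    nlinarith
  exact le_of_mul_le_mul_left h3 hnpos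

private theorem MER_recip {z δ : ℝ} (hz : 2 ≤ z) (hδ : 0 < δ) :
    ∑ p ∈ PI (z ^ δ) z, 1 / (p : ℝ) ≤ 3 / δ := by
  have hlz : Real.log 2 ≤ Real.log z := Real.log_le_log (by norm_num) hz
  have hl2 : 0 < Real.log 2 := Real.log_pos (by norm_num)
  have hl4 : Real.log 4 = 2 * Real.log 2 := by
    rw [show (4 : ℝ) = 2 ^ 2 by norm_num, Real.log_pow]
    norm_num
  have hlpos : 0 < Real.log z := by linarith
  have hzpos : 0 < z := by linarith
  have h1 : ∀ p ∈ PI (z ^ δ) z, 1 / (p : ℝ) ≤ 1 / (δ * Real.log z) * (Real.log p / p) := by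
    intro p hp
    obtain ⟨hp1, hp2, hp3⟩ := MER_mem.1 hp
    have hppos : (0 : ℝ) < p := by exact_mod_cast hp1.pos
    have h2 : δ * Real.log z ≤ Real.log p := by
      rw [← Real.log_rpow hzpos]
      exact Real.log_le_log (Real.rpow_pos_of_pos hzpos δ) hp2.le
    have h3 : 0 < δ * Real.log z := mul_pos hδ hlpos
    rw [div_mul_div_comm, one_mul, div_le_div_iff₀ hppos (mul_pos h3 hppos)]
    nlinarith
  calc _ ≤ ∑ p ∈ PI (z ^ δ) z, 1 / (δ * Real.log z) * (Real.log p / p) := Finset.sum_le_sum h1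
    _ = 1 / (δ * Real.log z) * ∑ p ∈ PI (z ^ δ) z, Real.log p / p := by rw [Finset.mul_sum]
    _ ≤ 1 / (δ * Real.log z) * (Real.log z + Real.log 4) := by
        apply mul_le_mul_of_nonneg_left _ (by positivity)
        refine le_trans ?_ (MER_first (by linarith : (1 : ℝ) ≤ z))
        apply Finset.sum_le_sum_of_subset_of_nonneg
        · intro p hp
          obtain ⟨hp1, hp2, hp3⟩ := MER_mem.1 hp
          exact MER_mem.2 ⟨hp1, by exact_mod_cast hp1.pos, hp3⟩
        · intro p _ _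
          exact div_nonneg (Real.log_natCast_nonneg p) (Nat.cast_nonneg p)
    _ ≤ 3 / δ := by
        rw [one_div_mul_eq_div, div_le_div_iff₀ (by positivity) hδ, hl4]
        nlinarith [mul_pos hδ hlpos]

theorem mer1 : ∃ L : ℝ, 0 < L ∧ ∀ z : ℝ, 1 ≤ z → ∑ p ∈ PI (Real.sqrt z) z, 1 / (p : ℝ) ≤ L := by
  refine ⟨6, by norm_num, fun z hz => ?_⟩
  rcases lt_or_ge z 2 with h | h
  · rw [MER_empty h]
    simp
  · have := MER_recip h (δ := 1 / 2) (by norm_num)
    rw [← Real.sqrt_eq_rpow] at this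
    linarith

private theorem MER_step {ε : ℝ} (hε : 0 < ε) {N : ℕ} (hN : 1 ≤ N) :
    ((N + 1 : ℕ) : ℝ) ^ (-(1 + ε)) ≤ ((N : ℝ) ^ (-ε) - ((N + 1 : ℕ) : ℝ) ^ (-ε)) / ε := by
  have hNpos : (0 : ℝ) < N := by exact_mod_cast hN
  set a : ℝ := ((N + 1 : ℕ) : ℝ) with ha
  have haN : (N : ℝ) = a - 1 := by rw [ha]; push_cast; ring
  have hapos : 0 < a := by linarith
  have h1 : (N : ℝ) ^ (-ε) = a ^ (-ε) * (N / a : ℝ) ^ (-ε) := by
    rw [← Real.mul_rpow hapos.le (by positivity)]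
    congr 1
    field_simp
  have h2 : 1 + ε / a ≤ (N / a : ℝ) ^ (-ε) := by
    rw [Real.rpow_def_of_pos (by positivity)]
    have h3 := Real.log_le_sub_one_of_pos (show (0 : ℝ) < N / a by positivity)
    have h4 := Real.add_one_le_exp (Real.log (N / a) * -ε)
    have h5 : (N : ℝ) / a - 1 = - (1 / a) := by
      rw [haN]
      field_simp
      ring
    rw [h5] at h3
    have h6 : ε / a ≤ Real.log (N / a) * -ε := by
      have := mul_le_mul_of_nonneg_right h3 hε.le
      have h7 : ε / a = (1 / a) * ε := by ring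
      rw [h7]
      linarith
    linarith
  have h3 : a ^ (-(1 + ε)) = a ^ (-ε) / a := by
    rw [show -(1 + ε) = -ε - 1 by ring, Real.rpow_sub_one hapos.ne']
  rw [h3, h1, le_div_iff₀ hε]
  have h4 : 0 < a ^ (-ε) := Real.rpow_pos_of_pos hapos _
  have h5 := mul_le_mul_of_nonneg_left h2 h4.le
  have h6 : a ^ (-ε) / a * ε = a ^ (-ε) * (1 + ε / a) - a ^ (-ε) := by ring
  rw [h6]
  linarith

private theorem MER_zeta {ε : ℝ} (hε : 0 < ε) (N : ℕ) :
    ∑ n ∈ Icc 1 (N + 1), (n : ℝ) ^ (-(1 + ε)) ≤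
      1 + (1 - ((N + 1 : ℕ) : ℝ) ^ (-ε)) / ε := by
  induction N with
  | zero => simp
  | succ N ih =>
    rw [Finset.sum_Icc_succ_top (by omega)]
    have h1 := MER_step hε (N := N + 1) (by omega)
    have h2 : (1 - ((N + 1 : ℕ) : ℝ) ^ (-ε)) / ε + (((N + 1 : ℕ) : ℝ) ^ (-ε) -
        ((N + 1 + 1 : ℕ) : ℝ) ^ (-ε)) / ε = (1 - ((N + 1 + 1 : ℕ) : ℝ) ^ (-ε)) / ε := by
      rw [← add_div]
      congr 1
      ring
    linarith

private theorem MER_zeta' {ε : ℝ} (hε : 0 < ε) (N : ℕ) :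
    ∑ n ∈ Icc 1 N, (n : ℝ) ^ (-(1 + ε)) ≤ 1 + 1 / ε := by
  rcases Nat.eq_zero_or_pos N with h | h
  · subst h
    simp
    positivity
  · obtain ⟨M, rfl⟩ := Nat.exists_eq_add_of_le h
    rw [add_comm 1 M]
    refine (MER_zeta hε M).trans ?_
    have : 0 < ((M + 1 : ℕ) : ℝ) ^ (-ε) := Real.rpow_pos_of_pos (by positivity) _
    gcongr
    linarith

private theorem MER_prod {ε : ℝ} (hε : 0 < ε) (P : Finset ℕ) (hP : ∀ p ∈ P, p.Prime) :
    ∏ p ∈ P, (1 + (p : ℝ) ^ (-(1 + ε))) ≤ 1 + 1 / ε := by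
  classical
  rw [Finset.prod_one_add]
  have h1 : ∀ S ∈ P.powerset, ∏ p ∈ S, (p : ℝ) ^ (-(1 + ε)) =
      ((∏ p ∈ S, p : ℕ) : ℝ) ^ (-(1 + ε)) := by
    intro S _
    rw [Real.finsetProd_rpow S (fun p => (p : ℝ)) (fun p _ => Nat.cast_nonneg p)]
    push_cast
    rfl
  rw [Finset.sum_congr rfl h1]
  have hinj : Set.InjOn (fun S : Finset ℕ => ∏ p ∈ S, p) (P.powerset : Set (Finset ℕ)) := by
    intro S hS T hT hST
    have hS' : S ⊆ P := by simpa using hS
    have hT' : T ⊆ P := by simpa using hT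
    have e1 := Nat.primeFactors_prod (fun p hp => hP p (hS' hp))
    have e2 := Nat.primeFactors_prod (fun p hp => hP p (hT' hp))
    have hST' : ∏ p ∈ S, p = ∏ p ∈ T, p := hST
    rw [← e1, ← e2, hST']
  rw [← Finset.sum_image (f := fun n : ℕ => (n : ℝ) ^ (-(1 + ε)))
    (g := fun S : Finset ℕ => ∏ p ∈ S, p) hinj]
  refine le_trans ?_ (MER_zeta' hε (∏ p ∈ P, p))
  apply Finset.sum_le_sum_of_subset_of_nonneg
  · intro n hn
    obtain ⟨S, hS, rfl⟩ := Finset.mem_image.1 hn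
    have hS' := Finset.mem_powerset.1 hS
    rw [Finset.mem_Icc]
    refine ⟨Nat.one_le_iff_ne_zero.2 (Finset.prod_ne_zero_iff.2 fun p hp =>
      (hP p (hS' hp)).ne_zero), ?_⟩
    exact Nat.le_of_dvd (Nat.pos_of_ne_zero (Finset.prod_ne_zero_iff.2 fun p hp =>
      (hP p hp).ne_zero)) (Finset.prod_dvd_prod_of_subset _ _ _ hS')
  · intro n _ _
    exact Real.rpow_nonneg (Nat.cast_nonneg n) _

private theorem MER_one_sub {u : ℝ} (h0 : 0 ≤ u) (h1 : u ≤ 1 / 2) :
    Real.exp (-(u + 2 * u ^ 2)) ≤ 1 - u := by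
  have h2 := Real.add_one_le_exp (u / (1 - u))
  have h3 : 0 < 1 - u := by linarith
  have h4 : u / (1 - u) + 1 = 1 / (1 - u) := by field_simp; ring
  rw [h4] at h2
  have h5 : u / (1 - u) ≤ u + 2 * u ^ 2 := by
    rw [div_le_iff₀ h3]
    nlinarith [mul_nonneg h0 h0, mul_nonneg (mul_nonneg h0 h0) (by linarith : 0 ≤ 1 - 2 * u)]
  have h6 : 1 / (1 - u) ≤ Real.exp (u + 2 * u ^ 2) := h2.trans (Real.exp_le_exp.2 h5)
  rw [Real.exp_neg, inv_le_comm₀ (Real.exp_pos _) h3, ← one_div]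
  exact h6

private theorem MER_one_add {v : ℝ} (h0 : 0 ≤ v) : Real.exp (v - v ^ 2) ≤ 1 + v := by
  have h3 : 0 < 1 + v := by linarith
  have h2 := Real.add_one_le_exp (-(v / (1 + v)))
  have h4 : -(v / (1 + v)) + 1 = 1 / (1 + v) := by field_simp; ring
  rw [h4, Real.exp_neg, one_div] at h2
  have h5 : Real.exp (v / (1 + v)) ≤ 1 + v := (inv_le_inv₀ h3 (Real.exp_pos _)).1 h2
  refine le_trans (Real.exp_le_exp.2 ?_) h5
  rw [le_div_iff₀ h3]
  nlinarith [pow_nonneg h0 3]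

private theorem MER_sq (z : ℝ) : ∑ p ∈ PI 0 z, (1 / (p : ℝ)) ^ 2 ≤ 1 := by
  rcases lt_or_ge z 2 with h | h
  · rw [MER_empty h]
    simp
  · have h1 : 1 ≤ ⌊z⌋₊ := by
      rw [Nat.one_le_floor_iff]
      linarith
    have h2 := sum_Ioc_inv_sq_le_sub (α := ℝ) one_ne_zero h1
    have h3 : ∑ p ∈ PI 0 z, (1 / (p : ℝ)) ^ 2 ≤ ∑ i ∈ Ioc 1 ⌊z⌋₊, ((i : ℝ) ^ 2)⁻¹ := by
      calc ∑ p ∈ PI 0 z, (1 / (p : ℝ)) ^ 2 = ∑ p ∈ PI 0 z, ((p : ℝ) ^ 2)⁻¹ := by
            apply Finset.sum_congr rfl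
            intro p _
            rw [one_div, inv_pow]
        _ ≤ _ := by
            apply Finset.sum_le_sum_of_subset_of_nonneg
            · intro p hp
              obtain ⟨hp1, hp2, hp3⟩ := MER_mem.1 hp
              exact Finset.mem_Ioc.2 ⟨hp1.one_lt, Nat.le_floor hp3⟩
            · intro i _ _
              positivity
    have h4 : (0 : ℝ) ≤ ((⌊z⌋₊ : ℕ) : ℝ)⁻¹ := by positivity
    have h5 : (((1 : ℕ) : ℝ))⁻¹ = 1 := by norm_num
    linarith

theorem mer2 : ∃ c : ℝ, 0 < c ∧ ∀ z : ℝ, 2 ≤ z → c / Real.log z ≤ EP 0 z := by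
  refine ⟨Real.exp (-6) / 3, by positivity, fun z hz => ?_⟩
  have hlz : Real.log 2 ≤ Real.log z := Real.log_le_log (by norm_num) hz
  have hl2 : 1 / 2 < Real.log 2 := by
    have := Real.log_two_gt_d9
    linarith
  have hl4 : Real.log 4 = 2 * Real.log 2 := by
    rw [show (4 : ℝ) = 2 ^ 2 by norm_num, Real.log_pow]
    norm_num
  have hlpos : 0 < Real.log z := by linarith
  set ε : ℝ := 1 / Real.log z with hε
  have hεpos : 0 < ε := by positivity
  have key : ∀ p ∈ PI 0 z, Real.exp (-(ε * (Real.log p / p) + 3 * (1 / (p : ℝ)) ^ 2)) ≤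
      (1 - 1 / (p : ℝ)) * (1 + (p : ℝ) ^ (-(1 + ε))) := by
    intro p hp
    obtain ⟨hp1, hp2, hp3⟩ := MER_mem.1 hp
    have h2p : (2 : ℝ) ≤ p := by exact_mod_cast hp1.two_le
    set u : ℝ := 1 / (p : ℝ) with hu
    have hu0 : 0 < u := by positivity
    have hu1 : u ≤ 1 / 2 := by
      rw [hu]
      exact one_div_le_one_div_of_le (by norm_num) h2p
    set v : ℝ := (p : ℝ) ^ (-(1 + ε)) with hv
    have hv1 : v = u * Real.exp (-(ε * Real.log p)) := by
      rw [hv, show -(1 + ε) = -ε - 1 by ring, Real.rpow_sub_one hp2.ne',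
        Real.rpow_def_of_pos hp2, hu]
      rw [show Real.log p * -ε = -(ε * Real.log p) by ring]
      ring
    have hlp : 0 ≤ Real.log p := Real.log_natCast_nonneg p
    have hv0 : 0 ≤ v := Real.rpow_nonneg hp2.le _
    have hvu : v ≤ u := by
      rw [hv1]
      have : Real.exp (-(ε * Real.log p)) ≤ 1 := by
        rw [Real.exp_le_one_iff]
        have := mul_nonneg hεpos.le hlp
        linarith
      nlinarith
    have hvl : u - v ≤ ε * (Real.log p / p) := by
      have h1 := Real.add_one_le_exp (-(ε * Real.log p))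
      have h2 : u - v = u * (1 - Real.exp (-(ε * Real.log p))) := by rw [hv1]; ring
      have h3 : ε * (Real.log p / p) = u * (ε * Real.log p) := by rw [hu]; ring
      rw [h2, h3]
      apply mul_le_mul_of_nonneg_left _ hu0.le
      linarith
    have hA := MER_one_sub hu0.le hu1
    have hB := MER_one_add hv0
    calc Real.exp (-(ε * (Real.log p / p) + 3 * u ^ 2))
        ≤ Real.exp (-(u + 2 * u ^ 2) + (v - v ^ 2)) := by
          apply Real.exp_le_exp.2
          have : v ^ 2 ≤ u ^ 2 := by gcongr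
          linarith
      _ = Real.exp (-(u + 2 * u ^ 2)) * Real.exp (v - v ^ 2) := Real.exp_add _ _
      _ ≤ (1 - u) * (1 + v) := mul_le_mul hA hB (Real.exp_pos _).le (by linarith)
  have h1 : Real.exp (-6) ≤ EP 0 z * (1 + 1 / ε) := by
    calc Real.exp (-6) ≤ Real.exp (∑ p ∈ PI 0 z,
          (-(ε * (Real.log p / p) + 3 * (1 / (p : ℝ)) ^ 2))) := by
          apply Real.exp_le_exp.2
          rw [Finset.sum_neg_distrib, Finset.sum_add_distrib, ← Finset.mul_sum, ← Finset.mul_sum]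
          have e1 := MER_first (by linarith : (1 : ℝ) ≤ z)
          have e2 := MER_sq z
          have e3 : ε * ∑ p ∈ PI 0 z, Real.log p / p ≤ 3 := by
            calc _ ≤ ε * (Real.log z + Real.log 4) := mul_le_mul_of_nonneg_left e1 hεpos.le
              _ ≤ 3 := by
                rw [hε, one_div_mul_eq_div, div_le_iff₀ hlpos, hl4]
                linarith
          linarith
      _ = ∏ p ∈ PI 0 z, Real.exp (-(ε * (Real.log p / p) + 3 * (1 / (p : ℝ)) ^ 2)) :=
          Real.exp_sum _ _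
      _ ≤ ∏ p ∈ PI 0 z, ((1 - 1 / (p : ℝ)) * (1 + (p : ℝ) ^ (-(1 + ε)))) :=
          Finset.prod_le_prod (fun p _ => (Real.exp_pos _).le) key
      _ = EP 0 z * ∏ p ∈ PI 0 z, (1 + (p : ℝ) ^ (-(1 + ε))) := by
          rw [Finset.prod_mul_distrib, EP]
      _ ≤ EP 0 z * (1 + 1 / ε) := by
          apply mul_le_mul_of_nonneg_left (MER_prod hεpos _ (fun p hp => (MER_mem.1 hp).1))
          apply Finset.prod_nonneg
          intro p hp
          have h2p : (2 : ℝ) ≤ p := by exact_mod_cast (MER_mem.1 hp).1.two_le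
          have : 1 / (p : ℝ) ≤ 1 := by
            rw [div_le_one (by linarith)]
            linarith
          linarith
  have h2 : 1 + 1 / ε ≤ 3 * Real.log z := by
    rw [hε, one_div_one_div]
    linarith
  have h3 : 0 ≤ EP 0 z := by
    apply Finset.prod_nonneg
    intro p hp
    have h2p : (2 : ℝ) ≤ p := by exact_mod_cast (MER_mem.1 hp).1.two_le
    have : 1 / (p : ℝ) ≤ 1 := by
      rw [div_le_one (by linarith)]
      linarith
    linarith
  rw [div_le_iff₀ hlpos]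
  have h4 := mul_le_mul_of_nonneg_left h2 h3
  linarith

private noncomputable def MER_inv : ℕ →* ℝ where
  toFun n := ((n : ℝ))⁻¹
  map_one' := by simp
  map_mul' a b := by
    push_cast
    rw [mul_inv]

theorem mer3 (z : ℝ) (hz : 2 ≤ z) : EP 0 z ≤ 1 / Real.log z := by
  have hlpos : 0 < Real.log z := Real.log_pos (by linarith)
  set N := ⌊z⌋₊ with hN
  have h1 := EulerProduct.summable_and_hasSum_smoothNumbers_prod_primesBelow_geometric
    (f := MER_inv) (fun {p} hp => by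
      show ‖((p : ℝ))⁻¹‖ < 1
      rw [norm_inv, Real.norm_natCast]
      exact inv_lt_one_of_one_lt₀ (by exact_mod_cast hp.one_lt)) (N + 1)
  have h2 : Real.log z ≤ ∏ p ∈ (N + 1).primesBelow, (1 - ((p : ℝ))⁻¹)⁻¹ := by
    have e1 : Real.log z ≤ ((harmonic N : ℚ) : ℝ) := by
      refine le_trans ?_ (log_add_one_le_harmonic N)
      apply Real.log_le_log (by linarith)
      rw [hN]
      push_cast
      exact (Nat.lt_floor_add_one z).le
    have e2 : ((harmonic N : ℚ) : ℝ) = ∑ i ∈ Finset.range N, (((i + 1 : ℕ) : ℝ))⁻¹ := by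
      unfold harmonic
      push_cast
      rfl
    rw [e2] at e1
    refine e1.trans ?_
    have hmem : ∀ i ∈ Finset.range N, (i + 1) ∈ Nat.smoothNumbers (N + 1) := by
      intro i hi
      rw [Finset.mem_range] at hi
      exact Nat.mem_smoothNumbers_of_lt (by omega) (by omega)
    have e3 : ∑ i ∈ Finset.range N, (((i + 1 : ℕ) : ℝ))⁻¹ =
        ∑ m ∈ (Finset.range N).attach.image (fun i => (⟨i.1 + 1, hmem _ i.2⟩ :
          Nat.smoothNumbers (N + 1))), MER_inv m := by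
      rw [Finset.sum_image]
      · rw [← Finset.sum_attach]
        rfl
      · intro a _ b _ hab
        have := congrArg Subtype.val hab
        apply Subtype.ext
        simpa using this
    rw [e3]
    exact sum_le_hasSum _ (fun m _ => by
      show 0 ≤ ((m : ℝ))⁻¹
      positivity) h1.2
  have h3 : (∏ p ∈ (N + 1).primesBelow, (1 - ((p : ℝ))⁻¹)⁻¹) = (EP 0 z)⁻¹ := by
    rw [Finset.prod_inv_distrib]
    congr 1
    unfold EP
    apply Finset.prod_congr
    · ext p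
      rw [Nat.mem_primesBelow, MER_mem, Nat.lt_succ_iff]
      constructor
      · rintro ⟨a, b⟩
        exact ⟨b, by exact_mod_cast b.pos, (Nat.le_floor_iff' b.ne_zero).1 a⟩
      · rintro ⟨a, b, c⟩
        exact ⟨Nat.le_floor c, a⟩
    · intro p _
      rw [one_div]
  rw [h3] at h2
  have h4 : 0 < (EP 0 z)⁻¹ := by linarith
  have h5 : 0 < EP 0 z := inv_pos.1 h4
  rw [le_div_iff₀ hlpos]
  have h6 := mul_le_mul_of_nonneg_left h2 h5.le
  rwa [mul_inv_cancel₀ h5.ne'] at h6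

theorem mer4 (B δ : ℝ) (hB : 0 ≤ B) (hδ : 0 < δ) (hδ1 : δ ≤ 1) : ∃ C : ℝ, 0 < C ∧ ∀ z : ℝ, 1 ≤ z →
    ∏ p ∈ PI (z ^ δ) z, (1 + B / (p : ℝ)) ≤ C := by
  refine ⟨Real.exp (B * (3 / δ)), Real.exp_pos _, fun z hz => ?_⟩
  rcases lt_or_ge z 2 with h | h
  · rw [MER_empty h, Finset.prod_empty]
    exact Real.one_le_exp (by positivity)
  · calc _ ≤ ∏ p ∈ PI (z ^ δ) z, Real.exp (B * (1 / (p : ℝ))) := by
          apply Finset.prod_le_prod
          · intro p _
            positivity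
          · intro p _
            have := Real.add_one_le_exp (B * (1 / (p : ℝ)))
            rw [mul_one_div] at this ⊢
            linarith
      _ = Real.exp (B * ∑ p ∈ PI (z ^ δ) z, 1 / (p : ℝ)) := by
          rw [← Real.exp_sum, Finset.mul_sum]
      _ ≤ _ := by
          apply Real.exp_le_exp.2
          exact mul_le_mul_of_nonneg_left (MER_recip h hδ) hB

theorem EP_mul {w y z : ℝ} (h1 : w ≤ y) (h2 : y ≤ z) : EP w z = EP w y * EP y z := by
  unfold EP
  have hd : Disjoint (PI w y) (PI y z) := by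
    rw [Finset.disjoint_left]
    intro p hp hp'
    have e1 := (MER_mem.1 hp).2.2
    have e2 := (MER_mem.1 hp').2.1
    linarith
  rw [← Finset.prod_union hd]
  congr 1
  ext p
  rw [Finset.mem_union, MER_mem, MER_mem, MER_mem]
  constructor
  · rintro ⟨a, b, c⟩
    rcases le_or_gt (p : ℝ) y with h | h
    · exact Or.inl ⟨a, b, h⟩
    · exact Or.inr ⟨a, h, c⟩
  · rintro (⟨a, b, c⟩ | ⟨a, b, c⟩)
    · exact ⟨a, b, c.trans h2⟩
    · exact ⟨a, lt_of_le_of_lt h1 b, c⟩

private theorem MER_fac {w z : ℝ} {p : ℕ} (hp : p ∈ PI w z) :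
    0 < 1 / (p : ℝ) ∧ 1 / (p : ℝ) ≤ 1 / 2 := by
  have h2p : (2 : ℝ) ≤ p := by exact_mod_cast (MER_mem.1 hp).1.two_le
  exact ⟨by positivity, one_div_le_one_div_of_le (by norm_num) h2p⟩

theorem EP_pos (w z : ℝ) : 0 < EP w z := by
  apply Finset.prod_pos
  intro p hp
  have := MER_fac hp
  linarith [this.2]

theorem EP_le_one (w z : ℝ) : EP w z ≤ 1 := by
  apply Finset.prod_le_one
  · intro p hp
    have := MER_fac hp
    linarith [this.2]
  · intro p hp
    have := MER_fac hp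
    linarith [this.1]

/-- `1 - 1/p ≥ (1 + 2/p)⁻¹` for `p ≥ 2` and `mer4` -/
theorem mer5 (δ : ℝ) (hδ : 0 < δ) (hδ1 : δ ≤ 1) : ∃ c : ℝ, 0 < c ∧ ∀ z : ℝ, 1 ≤ z → c ≤ EP (z ^ δ) z := by
  refine ⟨Real.exp (-(2 * (3 / δ))), Real.exp_pos _, fun z hz => ?_⟩
  rcases lt_or_ge z 2 with h | h
  · unfold EP
    rw [MER_empty h, Finset.prod_empty, Real.exp_le_one_iff]
    have : 0 < 3 / δ := by positivity
    linarith
  · calc _ ≤ Real.exp (-(2 * ∑ p ∈ PI (z ^ δ) z, 1 / (p : ℝ))) := by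
          apply Real.exp_le_exp.2
          have := MER_recip h hδ
          linarith
      _ = ∏ p ∈ PI (z ^ δ) z, Real.exp (-(2 * (1 / (p : ℝ)))) := by
          rw [← Real.exp_sum, Finset.mul_sum, ← Finset.sum_neg_distrib]
      _ ≤ _ := by
          apply Finset.prod_le_prod
          · intro p _
            exact (Real.exp_pos _).le
          · intro p hp
            obtain ⟨e1, e2⟩ := MER_fac hp
            refine le_trans (Real.exp_le_exp.2 ?_) (MER_one_sub e1.le e2)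
            nlinarith

end Pool.Agent.H6.MB
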