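import Pool.Agent.H6.MB.TDT
import Pool.Agent.H6.MB.MER
import Pool.Agent.H6.MF.GLK
import Pool.Agent.H17.Selberg

/-!
# RHO: Selberg's majorant for the primes in `(x^δ, x^θ]`

`z = x^δ`, `R = x^θ`, `S = PI z R`, `P = ∏_{p ∈ S} p`, `G = ∑_{r ∣ P, r ≤ R} 1/φ(r)` (`r` squarefree), and for `d ∣ P`
`ρ_d = μ(d) (d/φ(d)) G^{-1} ∑_{m ∣ P, (m,d)=1, d m ≤ R} 1/φ(m)` (Selberg's weights). Classical facts (all proved in
`Pool/Agent/H17/Selberg.lean` for a general `BoundingSieve`: `ww`, `ww_one`, `ww_eq_zero`, `abs_ww_le`, `mainSum_eq`; use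
`nu(d) = 1/d`, `prodPrimes = P`, the support does not matter): `ρ_1 = 1`, `ρ_d = 0` for `d > R`, `|ρ_d| ≤ 1`,
`∑_{d₁,d₂} ρ_{d₁} ρ_{d₂}/[d₁,d₂] = 1/G`. Put `β(n) = (∑_{d ∣ (n,P)} ρ_d)^2 = ∑_{d₁,d₂ ≤ R} ρ_{d₁} ρ_{d₂} 1[[d₁,d₂] ∣ n]`.
* `β ≥ 0`, `β n = 1` if no prime of `S` divides `n` (`ρ_1 = 1`). `TD P (R^2) β` (at most `R^2` pairs).
* `avgP P β = 1/G =: μ₂` (`avg` of `1[d ∣ n]` is `1/d`).
* `G ∏_{p ≤ z} (1-1/p)^{-1} ≥ ∑_{r ≤ R squarefree} 1/φ(r) ≥ log R`: every squarefree `r ≤ R` is `r = a b` with `a` composed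
  of primes `≤ z` and `b ∣ P`, `b ≤ R`; `∑_a 1/φ(a) ≤ ∏_{p ≤ z} (1 + 1/(p-1))`. (`GK_lower 1`, `Op_union`, `Op_upper` in
  `GLK.lean`/`GBound.lean` with `hwK 1 p = 1/(p-1)`: `log R ≤ Op (all primes ≤ R) ≤ ∏_{p ≤ z} (1 + 1/(p-1)) · Op S`.)
  So `μ₂ EP 0 z ≤ 1/log R = 1/(θ log x)`.
* `G ≤ ∏_{p ∈ S} (1 + 1/(p-1)) = (EP z R)^{-1}`, i.e. `EP z R ≤ μ₂`.
* *Pair correlation.* `0 < |k| ≤ 4 Λ^2 < z`. `β(m) = ∑_d λ_d 1[d ∣ m]`, `λ_d = ∑_{[d₁,d₂] = d} ρ ρ`, `|λ_d| ≤ 3^{ω(d)}`. If a prime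
  `p ∈ S` divides `d` and `e` then `d ∣ m`, `e ∣ m + k` is impossible (`p ∣ k`, `p > z > |k|`). So
  `avg β(m) β(m+k) = ∑_{(d,e)=1} λ_d λ_e/(d e) = μ₂^2 - ∑_{(d,e)>1} λ_d λ_e/(d e)` and
  `|∑_{(d,e)>1}| ≤ ∑_{p ∈ S} p^{-2} (3 ∑_{d' ∣ P} 3^{ω(d')}/d')^2 ≤ (2/z) · 9 · (∏_{p ∈ S} (1+3/p))^2 ≤ C/z` (`mer4`, with
  `z = R^{δ/θ}`). As `μ₂ ≥ EP z R ≥ c > 0` (`mer5`), this is `≤ μ₂^2/log x` for large `x`.
* *Pointwise.* For `0 < n ≤ 2x`: `n` has at most `log(2x)/(δ log x) ≤ 1/δ + 1` prime factors `> z`, so `∑_{d ∣ (n,P)} |ρ_d| ≤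
  2^{1/δ+1}` and `β n ≤ 4^{1/δ+1}`.
-/

set_option autoImplicit false

namespace Pool.Agent.H6.MB

open Finset

private lemma RHO_dvd {T : Finset ℕ} (hT : ∀ p ∈ T, p.Prime) (n : ℤ) :
    ((∏ p ∈ T, p : ℕ) : ℤ) ∣ n ↔ ∀ p ∈ T, (p : ℤ) ∣ n := by
  constructor
  · intro h p hp
    exact (Int.natCast_dvd_natCast.mpr (Finset.dvd_prod_of_mem _ hp)).trans h
  · intro h
    rw [Int.natCast_dvd]
    apply Finset.prod_primes_dvd
    · intro p hp; exact (hT p hp).prime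
    · intro p hp; exact Int.natCast_dvd.mp (h p hp)

private lemma RHO_pos {T : Finset ℕ} (hT : ∀ p ∈ T, p.Prime) : 0 < ∏ p ∈ T, p :=
  Finset.prod_pos (fun p hp => (hT p hp).pos)

private lemma RHO_one_period {q : ℕ} (hq : 0 < q) (s r : ℤ) :
    ∑ j ∈ Finset.range q, (if (q : ℤ) ∣ ((q : ℤ) * s + (j : ℤ)) - r then (1 : ℝ) else 0) = 1 := by
  have hq' : (0 : ℤ) < q := by exact_mod_cast hq
  have h0 := Int.emod_nonneg r hq'.ne'
  have h1 := Int.emod_lt_of_pos r hq'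
  rw [Finset.sum_eq_single (r % (q : ℤ)).toNat]
  · rw [if_pos]
    rw [Int.toNat_of_nonneg h0]
    have h2 : (q : ℤ) ∣ r - r % (q : ℤ) := Int.dvd_self_sub_emod
    have h3 : (q : ℤ) * s + r % (q : ℤ) - r = (q : ℤ) * s - (r - r % (q : ℤ)) := by ring
    rw [h3]
    exact dvd_sub (dvd_mul_right _ _) h2
  · intro j hj hne
    rw [Finset.mem_range] at hj
    rw [if_neg]
    intro hd
    apply hne
    have h2 : (q : ℤ) ∣ r - r % (q : ℤ) := Int.dvd_self_sub_emod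
    have h3 : (q : ℤ) ∣ (j : ℤ) - r % (q : ℤ) := by
      have h4 : (j : ℤ) - r % (q : ℤ) = ((q : ℤ) * s + (j : ℤ) - r) - (q : ℤ) * s + (r - r % (q : ℤ)) := by ring
      rw [h4]
      exact dvd_add (dvd_sub hd (dvd_mul_right _ _)) h2
    have h5 : (j : ℤ) - r % (q : ℤ) = 0 := by
      apply Int.eq_zero_of_abs_lt_dvd h3
      rw [abs_lt]
      have hj' : (j : ℤ) < q := by exact_mod_cast hj
      constructor <;> omega
    omega
  · intro h
    exfalso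
    apply h
    rw [Finset.mem_range]
    omega

private lemma RHO_sum_ind {q : ℕ} (hq : 0 < q) (r : ℤ) (t : ℕ) :
    ∑ m ∈ Finset.range (q * t), (if (q : ℤ) ∣ (m : ℤ) - r then (1 : ℝ) else 0) = t := by
  induction t with
  | zero => simp
  | succ t ih =>
    have h1 : q * (t + 1) = q * t + q := by ring
    rw [h1, Finset.sum_range_add, ih]
    have h2 := RHO_one_period hq (t : ℤ) r
    push_cast
    rw [h2]

private lemma RHO_avg_ind {P q : ℕ} (hP : 0 < P) (hq : q ∣ P) (r : ℤ) :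
    avgP P (fun n => if (q : ℤ) ∣ n - r then (1 : ℝ) else 0) = 1 / (q : ℝ) := by
  obtain ⟨t, rfl⟩ := hq
  have hq0 : 0 < q := Nat.pos_of_ne_zero (by rintro rfl; simp at hP)
  have ht0 : 0 < t := Nat.pos_of_ne_zero (by rintro rfl; simp at hP)
  unfold avgP
  have h1 := RHO_sum_ind hq0 r t
  simp only
  rw [h1]
  have hq1 : (0 : ℝ) < q := by exact_mod_cast hq0
  have ht1 : (0 : ℝ) < t := by exact_mod_cast ht0
  push_cast
  field_simp

private lemma RHO_avg_two {P a b : ℕ} (hP : 0 < P) (hab : a.Coprime b) (hd : a * b ∣ P) (k : ℤ) :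
    avgP P (fun n => (if (a : ℤ) ∣ n then (1 : ℝ) else 0) * (if (b : ℤ) ∣ n + k then (1 : ℝ) else 0))
      = 1 / (a : ℝ) * (1 / (b : ℝ)) := by
  have hc : IsCoprime (a : ℤ) (b : ℤ) := Nat.isCoprime_iff_coprime.mpr hab
  obtain ⟨u, v, huv⟩ := id hc
  have h1 := RHO_avg_ind hP hd (-(k * (u * a)))
  have h2 : (fun n : ℤ => (if (a : ℤ) ∣ n then (1 : ℝ) else 0) * (if (b : ℤ) ∣ n + k then (1 : ℝ) else 0))
      = (fun n : ℤ => if ((a * b : ℕ) : ℤ) ∣ n - (-(k * (u * a))) then (1 : ℝ) else 0) := by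
    funext n
    have ha : (a : ℤ) ∣ n - (-(k * (u * a))) ↔ (a : ℤ) ∣ n := by
      have e1 : n - (-(k * (u * a))) = n + a * (k * u) := by ring
      rw [e1]
      exact dvd_add_left (dvd_mul_right _ _)
    have hb : (b : ℤ) ∣ n - (-(k * (u * a))) ↔ (b : ℤ) ∣ n + k := by
      have e1 : n - (-(k * (u * a))) = (n + k) - b * (k * v) := by
        linear_combination k * huv
      rw [e1]
      exact dvd_sub_left (dvd_mul_right _ _)
    have h3 : ((a * b : ℕ) : ℤ) ∣ n - (-(k * (u * a))) ↔ ((a : ℤ) ∣ n ∧ (b : ℤ) ∣ n + k) := by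
      rw [← ha, ← hb]
      push_cast
      constructor
      · intro h
        exact ⟨(dvd_mul_right _ _).trans h, (dvd_mul_left _ _).trans h⟩
      · rintro ⟨h5, h6⟩
        exact hc.mul_dvd h5 h6
    by_cases h4 : (a : ℤ) ∣ n
    · by_cases h5 : (b : ℤ) ∣ n + k
      · rw [if_pos h4, if_pos h5, if_pos (h3.mpr ⟨h4, h5⟩), one_mul]
      · rw [if_pos h4, if_neg h5, if_neg (fun h => h5 (h3.mp h).2), mul_zero]
    · rw [if_neg h4, if_neg (fun h => h4 (h3.mp h).1), zero_mul]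
  rw [h2, h1]
  push_cast
  rw [one_div_mul_one_div]

private lemma RHO_avg_sum {ι : Type*} (s : Finset ι) (P : ℕ) (c : ι → ℝ) (F : ι → ℤ → ℝ) :
    avgP P (fun m => ∑ i ∈ s, c i * F i m) = ∑ i ∈ s, c i * avgP P (F i) := by
  unfold avgP
  rw [Finset.sum_comm, Finset.sum_div]
  apply Finset.sum_congr rfl
  intro i _
  rw [← Finset.mul_sum, mul_div_assoc]

private lemma RHO_cop {A B : Finset ℕ} (hA : ∀ p ∈ A, p.Prime) (hB : ∀ p ∈ B, p.Prime) (h : Disjoint A B) :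
    (∏ p ∈ A, p).Coprime (∏ p ∈ B, p) := by
  apply Nat.Coprime.prod_left
  intro p hp
  apply Nat.Coprime.prod_right
  intro q hq
  rw [Nat.coprime_primes (hA p hp) (hB q hq)]
  rintro rfl
  exact (Finset.disjoint_left.mp h hp) hq

/-- the pair correlation in terms of the coefficients -/
private lemma RHO_corr {S : Finset ℕ} (hS : ∀ p ∈ S, p.Prime) (k : ℤ) (hk : ∀ p ∈ S, ¬ (p : ℤ) ∣ k)
    (lam : Finset ℕ → ℝ) {F : ℤ → ℝ}
    (hF : ∀ m, F m = ∑ A ∈ S.powerset, lam A * (if ((∏ p ∈ A, p : ℕ) : ℤ) ∣ m then (1 : ℝ) else 0)) :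
    avgP (∏ p ∈ S, p) (fun m => F m * F (m + k))
      = ∑ A ∈ S.powerset, ∑ B ∈ S.powerset,
        (if Disjoint A B then (lam A / ((∏ p ∈ A, p : ℕ) : ℝ)) * (lam B / ((∏ p ∈ B, p : ℕ) : ℝ)) else 0) := by
  have h1 : (fun m => F m * F (m + k)) = (fun m => ∑ q ∈ S.powerset ×ˢ S.powerset, (lam q.1 * lam q.2) *
      ((if ((∏ p ∈ q.1, p : ℕ) : ℤ) ∣ m then (1 : ℝ) else 0) *
        (if ((∏ p ∈ q.2, p : ℕ) : ℤ) ∣ m + k then (1 : ℝ) else 0))) := by
    funext m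
    rw [hF, hF, Finset.sum_mul_sum, ← Finset.sum_product']
    apply Finset.sum_congr rfl
    intro q _
    ring
  rw [h1, RHO_avg_sum, Finset.sum_product]
  apply Finset.sum_congr rfl
  intro A hA
  apply Finset.sum_congr rfl
  intro B hB
  rw [Finset.mem_powerset] at hA hB
  simp only
  have hA' : ∀ p ∈ A, p.Prime := fun p hp => hS p (hA hp)
  have hB' : ∀ p ∈ B, p.Prime := fun p hp => hS p (hB hp)
  by_cases hd : Disjoint A B
  · rw [if_pos hd, RHO_avg_two (RHO_pos hS) (RHO_cop hA' hB' hd)]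
    · ring
    · rw [← Finset.prod_union hd]
      exact Finset.prod_dvd_prod_of_subset _ _ _ (Finset.union_subset hA hB)
  · rw [if_neg hd]
    rw [Finset.not_disjoint_iff] at hd
    obtain ⟨p, hpA, hpB⟩ := hd
    have h2 : (fun m : ℤ => (if ((∏ p ∈ A, p : ℕ) : ℤ) ∣ m then (1 : ℝ) else 0) *
        (if ((∏ p ∈ B, p : ℕ) : ℤ) ∣ m + k then (1 : ℝ) else 0)) = fun _ => 0 := by
      funext m
      by_cases h3 : ((∏ p ∈ A, p : ℕ) : ℤ) ∣ m
      · by_cases h4 : ((∏ p ∈ B, p : ℕ) : ℤ) ∣ m + k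
        · exfalso
          have h5 := (RHO_dvd hA' m).mp h3 p hpA
          have h6 := (RHO_dvd hB' (m + k)).mp h4 p hpB
          exact hk p (hA hpA) ((dvd_add_right h5).mp h6)
        · rw [if_neg h4, mul_zero]
      · rw [if_neg h3, zero_mul]
    rw [h2]
    simp [avgP]

private lemma RHO_avgF {S : Finset ℕ} (hS : ∀ p ∈ S, p.Prime)
    (lam : Finset ℕ → ℝ) {F : ℤ → ℝ}
    (hF : ∀ m, F m = ∑ A ∈ S.powerset, lam A * (if ((∏ p ∈ A, p : ℕ) : ℤ) ∣ m then (1 : ℝ) else 0)) :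
    avgP (∏ p ∈ S, p) F = ∑ A ∈ S.powerset, lam A / ((∏ p ∈ A, p : ℕ) : ℝ) := by
  have h1 : F = (fun m => ∑ A ∈ S.powerset, lam A * (if ((∏ p ∈ A, p : ℕ) : ℤ) ∣ m then (1 : ℝ) else 0)) := by
    funext m
    exact hF m
  rw [h1, RHO_avg_sum]
  apply Finset.sum_congr rfl
  intro A hA
  rw [Finset.mem_powerset] at hA
  have h2 := RHO_avg_ind (RHO_pos hS) (Finset.prod_dvd_prod_of_subset A S (fun p => p) hA) 0
  simp only [sub_zero] at h2
  rw [h2]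
  ring

private lemma RHO_powerset_mem {S : Finset ℕ} {g : ℕ → ℝ} (hg : ∀ p ∈ S, 0 ≤ g p) {p : ℕ} (hp : p ∈ S) :
    ∑ A ∈ S.powerset.filter (fun A => p ∈ A), ∏ q ∈ A, g q ≤ g p * ∏ q ∈ S, (1 + g q) := by
  have h1 : ∑ A ∈ S.powerset.filter (fun A => p ∈ A), ∏ q ∈ A, g q
      = ∑ A ∈ (S.erase p).powerset, g p * ∏ q ∈ A, g q := by
    apply Finset.sum_nbij' (i := fun A => A.erase p) (j := fun A => insert p A)
    · intro A hA
      rw [Finset.mem_filter, Finset.mem_powerset] at hA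
      rw [Finset.mem_powerset]
      exact Finset.erase_subset_erase p hA.1
    · intro A hA
      rw [Finset.mem_powerset] at hA
      rw [Finset.mem_filter, Finset.mem_powerset]
      refine ⟨?_, Finset.mem_insert_self _ _⟩
      intro q hq
      rw [Finset.mem_insert] at hq
      rcases hq with rfl | hq
      · exact hp
      · exact Finset.mem_of_mem_erase (hA hq)
    · intro A hA
      rw [Finset.mem_filter] at hA
      exact Finset.insert_erase hA.2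
    · intro A hA
      rw [Finset.mem_powerset] at hA
      exact Finset.erase_insert (fun h => Finset.notMem_erase p S (hA h))
    · intro A hA
      rw [Finset.mem_filter] at hA
      exact (Finset.mul_prod_erase A g hA.2).symm
  rw [h1, ← Finset.mul_sum, ← Finset.prod_one_add]
  apply mul_le_mul_of_nonneg_left _ (hg p hp)
  apply Finset.prod_le_prod_of_subset_of_one_le (Finset.erase_subset _ _)
  · intro q hq
    linarith [hg q (Finset.mem_of_mem_erase hq)]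
  · intro q hq _
    linarith [hg q hq]

private lemma RHO_nondisj {S : Finset ℕ} {g : ℕ → ℝ} (hg : ∀ p ∈ S, 0 ≤ g p) :
    ∑ A ∈ S.powerset, ∑ B ∈ S.powerset, (if Disjoint A B then 0 else (∏ q ∈ A, g q) * ∏ q ∈ B, g q)
      ≤ (∑ p ∈ S, g p ^ 2) * (∏ q ∈ S, (1 + g q)) ^ 2 := by
  have hn : ∀ A ∈ S.powerset, 0 ≤ ∏ q ∈ A, g q := by
    intro A hA
    rw [Finset.mem_powerset] at hA
    exact Finset.prod_nonneg (fun q hq => hg q (hA hq))
  calc ∑ A ∈ S.powerset, ∑ B ∈ S.powerset, (if Disjoint A B then 0 else (∏ q ∈ A, g q) * ∏ q ∈ B, g q)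
      ≤ ∑ A ∈ S.powerset, ∑ B ∈ S.powerset, ∑ p ∈ S,
          (if p ∈ A then ∏ q ∈ A, g q else 0) * (if p ∈ B then ∏ q ∈ B, g q else 0) := by
        apply Finset.sum_le_sum
        intro A hA
        apply Finset.sum_le_sum
        intro B hB
        have hnn : ∀ p ∈ S, 0 ≤ (if p ∈ A then ∏ q ∈ A, g q else 0) * (if p ∈ B then ∏ q ∈ B, g q else 0) := by
          intro p _
          apply mul_nonneg
          · split_ifs
            · exact hn A hA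
            · exact le_rfl
          · split_ifs
            · exact hn B hB
            · exact le_rfl
        split_ifs with hd
        · exact Finset.sum_nonneg hnn
        · rw [Finset.not_disjoint_iff] at hd
          obtain ⟨p, hpA, hpB⟩ := hd
          have h1 := Finset.single_le_sum (f := fun p => (if p ∈ A then ∏ q ∈ A, g q else 0) *
            (if p ∈ B then ∏ q ∈ B, g q else 0)) hnn (Finset.mem_powerset.mp hA hpA)
          simp only [if_pos hpA, if_pos hpB] at h1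
          exact h1
    _ = ∑ p ∈ S, (∑ A ∈ S.powerset, if p ∈ A then ∏ q ∈ A, g q else 0) ^ 2 := by
        have h1 : ∀ p ∈ S, (∑ A ∈ S.powerset, if p ∈ A then ∏ q ∈ A, g q else 0) ^ 2
            = ∑ A ∈ S.powerset, ∑ B ∈ S.powerset,
              (if p ∈ A then ∏ q ∈ A, g q else 0) * (if p ∈ B then ∏ q ∈ B, g q else 0) := by
          intro p _
          rw [sq, Finset.sum_mul_sum]
        rw [Finset.sum_congr rfl h1]
        symm
        rw [Finset.sum_comm]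
        apply Finset.sum_congr rfl
        intro A _
        rw [Finset.sum_comm]
    _ ≤ ∑ p ∈ S, (g p * ∏ q ∈ S, (1 + g q)) ^ 2 := by
        apply Finset.sum_le_sum
        intro p hp
        rw [← Finset.sum_filter]
        apply pow_le_pow_left₀ _ (RHO_powerset_mem hg hp)
        apply Finset.sum_nonneg
        intro A hA
        exact hn A (Finset.mem_filter.mp hA).1
    _ = _ := by
        rw [Finset.sum_mul]
        apply Finset.sum_congr rfl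
        intro p _
        ring

/-- the local densities `1/d` -/
noncomputable def RHO_nu : ArithmeticFunction ℝ := ArithmeticFunction.prodPrimeFactors (fun p => 1 / (p : ℝ))

private lemma RHO_nu_apply {n : ℕ} (hn : n ≠ 0) : RHO_nu n = ∏ p ∈ n.primeFactors, 1 / (p : ℝ) := by
  unfold RHO_nu
  rw [ArithmeticFunction.prodPrimeFactors_apply hn]

private lemma RHO_nu_prime {p : ℕ} (hp : p.Prime) : RHO_nu p = 1 / (p : ℝ) := by
  rw [RHO_nu_apply hp.ne_zero, hp.primeFactors, Finset.prod_singleton]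

private lemma RHO_nu_prod {T : Finset ℕ} (hT : ∀ p ∈ T, p.Prime) :
    RHO_nu (∏ p ∈ T, p) = 1 / ((∏ p ∈ T, p : ℕ) : ℝ) := by
  rw [RHO_nu_apply (RHO_pos hT).ne', Nat.primeFactors_prod hT]
  push_cast
  rw [Finset.prod_div_distrib, Finset.prod_const_one]

/-- the sieve problem -/
noncomputable def RHO_sv (S : Finset ℕ) (hS : ∀ p ∈ S, p.Prime) : BoundingSieve where
  support := ∅
  prodPrimes := ∏ p ∈ S, p
  prodPrimes_squarefree := by
    apply Finset.squarefree_prod_of_pairwise_isCoprime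
    · intro p hp q hq hpq
      show IsRelPrime p q
      rw [← Nat.coprime_iff_isRelPrime]
      exact (Nat.coprime_primes (hS p hp) (hS q hq)).mpr hpq
    · intro p hp
      exact (hS p hp).squarefree
  weights := fun _ => 0
  weights_nonneg := fun _ => le_rfl
  totalMass := 0
  nu := RHO_nu
  nu_mult := by
    unfold RHO_nu
    exact ArithmeticFunction.IsMultiplicative.prodPrimeFactors _
  nu_pos_of_prime := by
    intro p hp _
    rw [RHO_nu_prime hp]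
    have h2 : (0 : ℝ) < p := by exact_mod_cast hp.pos
    positivity
  nu_lt_one_of_prime := by
    intro p hp _
    rw [RHO_nu_prime hp]
    have h2 : (1 : ℝ) < p := by exact_mod_cast hp.one_lt
    rw [div_lt_one (by linarith)]
    exact h2

private lemma RHO_sum_divisors {S : Finset ℕ} (hS : ∀ p ∈ S, p.Prime) (F : ℕ → ℝ) :
    ∑ l ∈ Nat.divisors (∏ p ∈ S, p), F l = ∑ T ∈ S.powerset, F (∏ p ∈ T, p) := by
  have hsq : Squarefree (∏ p ∈ S, p) := (RHO_sv S hS).prodPrimes_squarefree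
  apply Finset.sum_nbij' (i := fun l => l.primeFactors) (j := fun T => ∏ p ∈ T, p)
  · intro l hl
    rw [Nat.mem_divisors] at hl
    rw [Finset.mem_powerset, ← Nat.primeFactors_prod hS]
    exact Nat.primeFactors_mono hl.1 hl.2
  · intro T hT
    rw [Finset.mem_powerset] at hT
    rw [Nat.mem_divisors]
    exact ⟨Finset.prod_dvd_prod_of_subset _ _ _ hT, (RHO_pos hS).ne'⟩
  · intro l hl
    rw [Nat.mem_divisors] at hl
    exact Nat.prod_primeFactors_of_squarefree (Squarefree.squarefree_of_dvd hl.1 hsq)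
  · intro T hT
    rw [Finset.mem_powerset] at hT
    exact Nat.primeFactors_prod (fun p hp => hS p (hT hp))
  · intro l hl
    rw [Nat.mem_divisors] at hl
    rw [Nat.prod_primeFactors_of_squarefree (Squarefree.squarefree_of_dvd hl.1 hsq)]

private lemma RHO_GG {S : Finset ℕ} (hS : ∀ p ∈ S, p.Prime) (D : ℕ) :
    Pool.Agent.H17.Selb.GG (RHO_sv S hS) D
      = Pool.Agent.H17.Op S (Pool.Agent.H6.MF.hwK 1) Pool.Agent.H17.one1 D := by
  unfold Pool.Agent.H17.Selb.GG Pool.Agent.H17.Op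
  rw [Finset.sum_filter]
  show ∑ l ∈ Nat.divisors (∏ p ∈ S, p), (if l ≤ D then (RHO_sv S hS).selbergTerms l else 0) = _
  rw [RHO_sum_divisors hS]
  apply Finset.sum_congr rfl
  intro T hT
  rw [Finset.mem_powerset] at hT
  have hpr : ∀ p ∈ T, p.Prime := fun p hp => hS p (hT hp)
  have hpos : 0 < ∏ p ∈ T, p := RHO_pos hpr
  have h1 : (RHO_sv S hS).selbergTerms (∏ p ∈ T, p) = ∏ p ∈ T, Pool.Agent.H6.MF.hwK 1 p := by
    rw [BoundingSieve.selbergTerms_apply, Nat.primeFactors_prod hpr]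
    show RHO_nu (∏ p ∈ T, p) * ∏ p ∈ T, (1 - RHO_nu p)⁻¹ = _
    rw [RHO_nu_apply hpos.ne', Nat.primeFactors_prod hpr, ← Finset.prod_mul_distrib]
    apply Finset.prod_congr rfl
    intro p hp
    rw [RHO_nu_prime (hpr p hp)]
    have h2 : (1 : ℝ) < p := by exact_mod_cast (hpr p hp).one_lt
    have h3 : (p : ℝ) ≠ 0 := by linarith
    have h4 : (p : ℝ) - 1 ≠ 0 := by linarith
    unfold Pool.Agent.H6.MF.hwK
    rw [one_sub_div h3, inv_div]
    field_simp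
    ring
  rw [h1]
  unfold Pool.Agent.H17.one1
  by_cases h2 : ∏ p ∈ T, p ≤ D
  · rw [if_pos h2, if_pos (show 1 ≤ D / ∏ p ∈ T, p from Nat.div_pos h2 hpos), mul_one]
  · rw [if_neg h2, if_neg (by rw [Nat.div_eq_of_lt (not_le.mp h2)]; omega), mul_zero]

private lemma RHO_gcd {T U : Finset ℕ} (hT : ∀ p ∈ T, p.Prime) (hU : ∀ p ∈ U, p.Prime) :
    Nat.gcd (∏ p ∈ T, p) (∏ p ∈ U, p) = ∏ p ∈ T ∩ U, p := by
  have h1 : ∏ p ∈ T, p = (∏ p ∈ T ∩ U, p) * ∏ p ∈ T \ U, p := (Finset.prod_inter_mul_prod_sdiff T U _).symm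
  have h2 : ∏ p ∈ U, p = (∏ p ∈ T ∩ U, p) * ∏ p ∈ U \ T, p := by
    rw [Finset.inter_comm]
    exact (Finset.prod_inter_mul_prod_sdiff U T _).symm
  rw [h1, h2, Nat.gcd_mul_left]
  have h3 : Nat.gcd (∏ p ∈ T \ U, p) (∏ p ∈ U \ T, p) = 1 := by
    apply RHO_cop
    · intro p hp; exact hT p (Finset.mem_sdiff.mp hp).1
    · intro p hp; exact hU p (Finset.mem_sdiff.mp hp).1
    · exact disjoint_sdiff_sdiff
  rw [h3, mul_one]

/-- Selberg's weights indexed by sets of primes -/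
private lemma RHO_weights {S : Finset ℕ} (hS : ∀ p ∈ S, p.Prime) {D : ℕ} (hD : 1 ≤ D) :
    ∃ r : Finset ℕ → ℝ, r ∅ = 1 ∧ (∀ T, |r T| ≤ 1) ∧ (∀ T, D < ∏ p ∈ T, p → r T = 0) ∧
      ∑ T ∈ S.powerset, ∑ U ∈ S.powerset, r T * r U / ((∏ p ∈ T ∪ U, p : ℕ) : ℝ)
        = (Pool.Agent.H17.Op S (Pool.Agent.H6.MF.hwK 1) Pool.Agent.H17.one1 D)⁻¹ := by
  refine ⟨fun T => Pool.Agent.H17.Selb.ww (RHO_sv S hS) D (∏ p ∈ T, p), ?_, ?_, ?_, ?_⟩
  · simp only [Finset.prod_empty]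
    exact Pool.Agent.H17.Selb.ww_one hD
  · intro T
    exact Pool.Agent.H17.Selb.abs_ww_le hD _
  · intro T hT
    exact Pool.Agent.H17.Selb.ww_eq_zero hT
  · rw [← RHO_GG hS D, ← Pool.Agent.H17.Selb.mainSum_eq hD,
      BoundingSieve.mainSum_lambdaSquared_eq_sum_sum_mul]
    show _ = ∑ d1 ∈ Nat.divisors (∏ p ∈ S, p), ∑ d2 ∈ Nat.divisors (∏ p ∈ S, p),
      RHO_nu d1 * Pool.Agent.H17.Selb.ww (RHO_sv S hS) D d1 * RHO_nu d2 *
        Pool.Agent.H17.Selb.ww (RHO_sv S hS) D d2 * (RHO_nu (d1.gcd d2))⁻¹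
    rw [RHO_sum_divisors hS]
    apply Finset.sum_congr rfl
    intro T hT
    rw [RHO_sum_divisors hS]
    apply Finset.sum_congr rfl
    intro U hU
    rw [Finset.mem_powerset] at hT hU
    have hT' : ∀ p ∈ T, p.Prime := fun p hp => hS p (hT hp)
    have hU' : ∀ p ∈ U, p.Prime := fun p hp => hS p (hU hp)
    have hTU : ∀ p ∈ T ∩ U, p.Prime := fun p hp => hT' p (Finset.mem_inter.mp hp).1
    have hTU2 : ∀ p ∈ T ∪ U, p.Prime := fun p hp => by
      rw [Finset.mem_union] at hp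
      rcases hp with h | h
      · exact hT' p h
      · exact hU' p h
    rw [RHO_gcd hT' hU', RHO_nu_prod hT', RHO_nu_prod hU', RHO_nu_prod hTU]
    have h1 : (∏ p ∈ T ∪ U, p) * (∏ p ∈ T ∩ U, p) = (∏ p ∈ T, p) * ∏ p ∈ U, p := Finset.prod_union_inter
    have h2 : ((∏ p ∈ T ∪ U, p : ℕ) : ℝ) * ((∏ p ∈ T ∩ U, p : ℕ) : ℝ)
        = ((∏ p ∈ T, p : ℕ) : ℝ) * ((∏ p ∈ U, p : ℕ) : ℝ) := by exact_mod_cast h1
    have e1 : ((∏ p ∈ T, p : ℕ) : ℝ) ≠ 0 := by exact_mod_cast (RHO_pos hT').ne'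
    have e2 : ((∏ p ∈ U, p : ℕ) : ℝ) ≠ 0 := by exact_mod_cast (RHO_pos hU').ne'
    have e3 : ((∏ p ∈ T ∩ U, p : ℕ) : ℝ) ≠ 0 := by exact_mod_cast (RHO_pos hTU).ne'
    have e4 : ((∏ p ∈ T ∪ U, p : ℕ) : ℝ) ≠ 0 := by exact_mod_cast (RHO_pos hTU2).ne'
    generalize ((∏ p ∈ T, p : ℕ) : ℝ) = a at *
    generalize ((∏ p ∈ U, p : ℕ) : ℝ) = b at *
    generalize ((∏ p ∈ T ∩ U, p : ℕ) : ℝ) = c at *
    generalize ((∏ p ∈ T ∪ U, p : ℕ) : ℝ) = d at *
    have h3 : d = a * b / c := by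
      rw [eq_div_iff e3]; exact h2
    rw [h3]
    field_simp

/-- the number of subsets with bounded product -/
private lemma RHO_card {S : Finset ℕ} (hS : ∀ p ∈ S, p.Prime) (D : ℕ) :
    (S.powerset.filter (fun T => ∏ p ∈ T, p ≤ D)).card ≤ D := by
  calc (S.powerset.filter (fun T => ∏ p ∈ T, p ≤ D)).card ≤ (Finset.Icc 1 D).card := by
        apply Finset.card_le_card_of_injOn (fun T => ∏ p ∈ T, p)
        · intro T hT
          simp only [Finset.coe_filter, Set.mem_ofPred_eq, Finset.mem_powerset] at hT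
          simp only [Finset.coe_Icc, Set.mem_Icc]
          exact ⟨RHO_pos (fun p hp => hS p (hT.1 hp)), hT.2⟩
        · intro T hT U hU h
          simp only [Finset.coe_filter, Set.mem_ofPred_eq, Finset.mem_powerset] at hT hU
          have h1 : ∏ p ∈ T, p = ∏ p ∈ U, p := h
          rw [← Nat.primeFactors_prod (fun p hp => hS p (hT.1 hp)), h1,
            Nat.primeFactors_prod (fun p hp => hS p (hU.1 hp))]
    _ = D := by simp

private lemma RHO_l1 {S : Finset ℕ} (hS : ∀ p ∈ S, p.Prime) (D : ℕ) {r : Finset ℕ → ℝ} (h1 : ∀ T, |r T| ≤ 1)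
    (h2 : ∀ T, D < ∏ p ∈ T, p → r T = 0) : ∑ T ∈ S.powerset, |r T| ≤ D := by
  calc ∑ T ∈ S.powerset, |r T| ≤ ∑ T ∈ S.powerset, (if ∏ p ∈ T, p ≤ D then (1 : ℝ) else 0) := by
        apply Finset.sum_le_sum
        intro T _
        split_ifs with h
        · exact h1 T
        · rw [h2 T (not_le.mp h), abs_zero]
    _ = ((S.powerset.filter (fun T => ∏ p ∈ T, p ≤ D)).card : ℝ) := by
        rw [← Finset.sum_filter]
        simp
    _ ≤ D := by exact_mod_cast RHO_card hS D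

/-- the divisor-type sum -/
noncomputable def RHO_f (S : Finset ℕ) (r : Finset ℕ → ℝ) (n : ℤ) : ℝ :=
  ∑ T ∈ S.powerset, if ((∏ p ∈ T, p : ℕ) : ℤ) ∣ n then r T else 0

/-- its coefficients -/
noncomputable def RHO_lam (S : Finset ℕ) (r : Finset ℕ → ℝ) (A : Finset ℕ) : ℝ :=
  ∑ q ∈ (S.powerset ×ˢ S.powerset).filter (fun q => q.1 ∪ q.2 = A), r q.1 * r q.2

private lemma RHO_sq {S : Finset ℕ} (hS : ∀ p ∈ S, p.Prime) (r : Finset ℕ → ℝ) (n : ℤ) :
    RHO_f S r n ^ 2 = ∑ A ∈ S.powerset, RHO_lam S r A *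
      (if ((∏ p ∈ A, p : ℕ) : ℤ) ∣ n then (1 : ℝ) else 0) := by
  have h1 : ∀ A ∈ S.powerset, RHO_lam S r A * (if ((∏ p ∈ A, p : ℕ) : ℤ) ∣ n then (1 : ℝ) else 0)
      = ∑ q ∈ (S.powerset ×ˢ S.powerset).filter (fun q => q.1 ∪ q.2 = A),
        r q.1 * r q.2 * (if ((∏ p ∈ q.1 ∪ q.2, p : ℕ) : ℤ) ∣ n then (1 : ℝ) else 0) := by
    intro A _
    unfold RHO_lam
    rw [Finset.sum_mul]
    apply Finset.sum_congr rfl
    intro q hq
    rw [Finset.mem_filter] at hq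
    rw [hq.2]
  rw [Finset.sum_congr rfl h1, Finset.sum_fiberwise_of_maps_to]
  · unfold RHO_f
    rw [sq, Finset.sum_mul_sum, ← Finset.sum_product']
    apply Finset.sum_congr rfl
    intro q hq
    rw [Finset.mem_product, Finset.mem_powerset, Finset.mem_powerset] at hq
    have hT : ∀ p ∈ q.1, p.Prime := fun p hp => hS p (hq.1 hp)
    have hU : ∀ p ∈ q.2, p.Prime := fun p hp => hS p (hq.2 hp)
    have hTU : ∀ p ∈ q.1 ∪ q.2, p.Prime := fun p hp => by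
      rw [Finset.mem_union] at hp
      rcases hp with h | h
      · exact hT p h
      · exact hU p h
    have h2 : ((∏ p ∈ q.1 ∪ q.2, p : ℕ) : ℤ) ∣ n ↔
        (((∏ p ∈ q.1, p : ℕ) : ℤ) ∣ n ∧ ((∏ p ∈ q.2, p : ℕ) : ℤ) ∣ n) := by
      rw [RHO_dvd hTU, RHO_dvd hT, RHO_dvd hU]
      constructor
      · intro h
        exact ⟨fun p hp => h p (Finset.mem_union_left _ hp), fun p hp => h p (Finset.mem_union_right _ hp)⟩
      · rintro ⟨h3, h4⟩ p hp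
        rw [Finset.mem_union] at hp
        rcases hp with h | h
        · exact h3 p h
        · exact h4 p h
    by_cases h3 : ((∏ p ∈ q.1, p : ℕ) : ℤ) ∣ n
    · by_cases h4 : ((∏ p ∈ q.2, p : ℕ) : ℤ) ∣ n
      · rw [if_pos h3, if_pos h4, if_pos (h2.mpr ⟨h3, h4⟩), mul_one]
      · rw [if_neg h4, if_neg (fun h => h4 (h2.mp h).2), mul_zero, mul_zero]
    · rw [if_neg h3, if_neg (fun h => h3 (h2.mp h).1), zero_mul, mul_zero]
  · intro q hq
    rw [Finset.mem_product, Finset.mem_powerset, Finset.mem_powerset] at hq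
    rw [Finset.mem_powerset]
    exact Finset.union_subset hq.1 hq.2

private lemma RHO_lam_le {S : Finset ℕ} {r : Finset ℕ → ℝ} (h1 : ∀ T, |r T| ≤ 1) (A : Finset ℕ) :
    |RHO_lam S r A| ≤ ∏ _p ∈ A, (4 : ℝ) := by
  unfold RHO_lam
  calc |∑ q ∈ (S.powerset ×ˢ S.powerset).filter (fun q => q.1 ∪ q.2 = A), r q.1 * r q.2|
      ≤ ∑ q ∈ (S.powerset ×ˢ S.powerset).filter (fun q => q.1 ∪ q.2 = A), |r q.1 * r q.2| :=
        Finset.abs_sum_le_sum_abs _ _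
    _ ≤ ∑ q ∈ (S.powerset ×ˢ S.powerset).filter (fun q => q.1 ∪ q.2 = A), (1 : ℝ) := by
        apply Finset.sum_le_sum
        intro q _
        rw [abs_mul]
        exact mul_le_one₀ (h1 _) (abs_nonneg _) (h1 _)
    _ ≤ ∑ q ∈ A.powerset ×ˢ A.powerset, (1 : ℝ) := by
        apply Finset.sum_le_sum_of_subset_of_nonneg
        · intro q hq
          rw [Finset.mem_filter] at hq
          rw [Finset.mem_product, Finset.mem_powerset, Finset.mem_powerset, ← hq.2]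
          exact ⟨Finset.subset_union_left, Finset.subset_union_right⟩
        · intro _ _ _; norm_num
    _ = _ := by
        simp only [Finset.sum_const, Finset.card_product, Finset.card_powerset, nsmul_eq_mul, mul_one,
          Finset.prod_const]
        push_cast
        rw [← mul_pow]
        norm_num

private lemma RHO_sum_lam {S : Finset ℕ} (r : Finset ℕ → ℝ) :
    ∑ A ∈ S.powerset, RHO_lam S r A / ((∏ p ∈ A, p : ℕ) : ℝ)
      = ∑ T ∈ S.powerset, ∑ U ∈ S.powerset, r T * r U / ((∏ p ∈ T ∪ U, p : ℕ) : ℝ) := by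
  have h1 : ∀ A ∈ S.powerset, RHO_lam S r A / ((∏ p ∈ A, p : ℕ) : ℝ)
      = ∑ q ∈ (S.powerset ×ˢ S.powerset).filter (fun q => q.1 ∪ q.2 = A),
        r q.1 * r q.2 / ((∏ p ∈ q.1 ∪ q.2, p : ℕ) : ℝ) := by
    intro A _
    unfold RHO_lam
    rw [Finset.sum_div]
    apply Finset.sum_congr rfl
    intro q hq
    rw [Finset.mem_filter] at hq
    rw [hq.2]
  rw [Finset.sum_congr rfl h1, Finset.sum_fiberwise_of_maps_to, Finset.sum_product]
  intro q hq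
  rw [Finset.mem_product, Finset.mem_powerset, Finset.mem_powerset] at hq
  rw [Finset.mem_powerset]
  exact Finset.union_subset hq.1 hq.2

private lemma RHO_TD {S : Finset ℕ} (hS : ∀ p ∈ S, p.Prime) (r : Finset ℕ → ℝ) {B : ℝ}
    (hB : (∑ T ∈ S.powerset, |r T|) ^ 2 ≤ B) :
    TD (∏ p ∈ S, p) B (fun n => RHO_f S r n ^ 2) := by
  have h1 : ∀ T ∈ S.powerset, TD (∏ p ∈ S, p) |r T| (fun n => if ((∏ p ∈ T, p : ℕ) : ℤ) ∣ n - 0 then r T else 0) := by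
    intro T hT
    rw [Finset.mem_powerset] at hT
    exact TD_ind (RHO_pos (fun p hp => hS p (hT hp))) (Finset.prod_dvd_prod_of_subset _ _ _ hT) 0 (r T)
  have h2 := TD_pow (RHO_pos hS) (TD_sum S.powerset h1) 2
  simp only [sub_zero] at h2
  exact TD_mono h2 dvd_rfl hB

private lemma RHO_f_eq {S : Finset ℕ} (hS : ∀ p ∈ S, p.Prime) (r : Finset ℕ → ℝ) (n : ℤ) :
    RHO_f S r n = ∑ T ∈ (S.filter (fun p : ℕ => (p : ℤ) ∣ n)).powerset, r T := by
  unfold RHO_f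
  rw [← Finset.sum_filter]
  apply Finset.sum_congr _ (fun _ _ => rfl)
  ext T
  rw [Finset.mem_filter, Finset.mem_powerset, Finset.mem_powerset]
  constructor
  · rintro ⟨h1, h2⟩ p hp
    rw [Finset.mem_filter]
    exact ⟨h1 hp, (RHO_dvd (fun p hp => hS p (h1 hp)) n).mp h2 p hp⟩
  · intro h
    have h1 : T ⊆ S := fun p hp => (Finset.mem_filter.mp (h hp)).1
    exact ⟨h1, (RHO_dvd (fun p hp => hS p (h1 hp)) n).mpr (fun p hp => (Finset.mem_filter.mp (h hp)).2)⟩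

private lemma RHO_f_one {S : Finset ℕ} (hS : ∀ p ∈ S, p.Prime) {r : Finset ℕ → ℝ} (hr : r ∅ = 1) {n : ℤ}
    (hn : ∀ p ∈ S, ¬ (p : ℤ) ∣ n) : RHO_f S r n = 1 := by
  rw [RHO_f_eq hS]
  have h1 : S.filter (fun p : ℕ => (p : ℤ) ∣ n) = ∅ := by
    rw [Finset.filter_eq_empty_iff]
    intro p hp
    exact hn p hp
  rw [h1]
  simp [hr]

private lemma RHO_f_le {S : Finset ℕ} (hS : ∀ p ∈ S, p.Prime) {r : Finset ℕ → ℝ} (h1 : ∀ T, |r T| ≤ 1) (n : ℤ) :
    RHO_f S r n ^ 2 ≤ 4 ^ (S.filter (fun p : ℕ => (p : ℤ) ∣ n)).card := by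
  rw [RHO_f_eq hS, ← sq_abs]
  have h2 : |∑ T ∈ (S.filter (fun p : ℕ => (p : ℤ) ∣ n)).powerset, r T|
      ≤ 2 ^ (S.filter (fun p : ℕ => (p : ℤ) ∣ n)).card := by
    calc |∑ T ∈ (S.filter (fun p : ℕ => (p : ℤ) ∣ n)).powerset, r T|
        ≤ ∑ T ∈ (S.filter (fun p : ℕ => (p : ℤ) ∣ n)).powerset, |r T| := Finset.abs_sum_le_sum_abs _ _
      _ ≤ ∑ T ∈ (S.filter (fun p : ℕ => (p : ℤ) ∣ n)).powerset, (1 : ℝ) :=
          Finset.sum_le_sum (fun T _ => h1 T)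
      _ = _ := by
          rw [Finset.sum_const, Finset.card_powerset, nsmul_eq_mul, mul_one]
          push_cast
          rfl
  calc |∑ T ∈ (S.filter (fun p : ℕ => (p : ℤ) ∣ n)).powerset, r T| ^ 2
      ≤ (2 ^ (S.filter (fun p : ℕ => (p : ℤ) ∣ n)).card) ^ 2 := pow_le_pow_left₀ (abs_nonneg _) h2 2
    _ = _ := by
        rw [← pow_mul, mul_comm, pow_mul]
        norm_num

/-- number of large prime factors -/
private lemma RHO_omega {S : Finset ℕ} (hS : ∀ p ∈ S, p.Prime) {δ x : ℝ} (hδ : 0 < δ) (hx : 2 ≤ x)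
    (hz : ∀ p ∈ S, x ^ δ ≤ (p : ℝ)) {n : ℤ} (hn : 0 < n) (hn2 : (n : ℝ) ≤ 2 * x) :
    ((S.filter (fun p : ℕ => (p : ℤ) ∣ n)).card : ℝ) ≤ 2 / δ := by
  set T := S.filter (fun p : ℕ => (p : ℤ) ∣ n) with hT
  have hT1 : ∀ p ∈ T, p.Prime := fun p hp => hS p (Finset.mem_filter.mp hp).1
  have h1 : ((∏ p ∈ T, p : ℕ) : ℤ) ∣ n := (RHO_dvd hT1 n).mpr (fun p hp => (Finset.mem_filter.mp hp).2)
  have h2 : ((∏ p ∈ T, p : ℕ) : ℤ) ≤ n := Int.le_of_dvd hn h1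
  have h3 : ((∏ p ∈ T, p : ℕ) : ℝ) ≤ n := by exact_mod_cast h2
  have hx0 : (0 : ℝ) < x := by linarith
  have h4 : (x ^ δ) ^ T.card ≤ ((∏ p ∈ T, p : ℕ) : ℝ) := by
    push_cast
    rw [← Finset.prod_const]
    apply Finset.prod_le_prod
    · intro p _
      exact (Real.rpow_pos_of_pos hx0 δ).le
    · intro p hp
      exact hz p (Finset.mem_filter.mp hp).1
  have h5 : x ^ (δ * T.card) ≤ x ^ (2 : ℝ) := by
    rw [Real.rpow_mul hx0.le, Real.rpow_natCast]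
    have h6 : x ^ (2 : ℝ) = x * x := by
      rw [show (2 : ℝ) = ((2 : ℕ) : ℝ) by norm_num, Real.rpow_natCast]
      ring
    rw [h6]
    nlinarith
  have h7 : δ * T.card ≤ 2 := (Real.rpow_le_rpow_left_iff (by linarith)).mp h5
  rw [le_div_iff₀ hδ]
  linarith

private lemma RHO_PI_prime {w z : ℝ} : ∀ p ∈ PI w z, p.Prime := fun p hp => by
  unfold PI at hp
  exact (Finset.mem_filter.mp hp).2.1

private lemma RHO_mem_PI {w z : ℝ} (hz : 0 ≤ z) {p : ℕ} : p ∈ PI w z ↔ p.Prime ∧ w < (p : ℝ) ∧ (p : ℝ) ≤ z := by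
  unfold PI
  rw [Finset.mem_filter, Finset.mem_range, Nat.lt_succ_iff, Nat.le_floor_iff hz]
  tauto

private lemma RHO_EP_inv (w z : ℝ) : EP w z * ∏ p ∈ PI w z, (1 + Pool.Agent.H6.MF.hwK 1 p) = 1 := by
  unfold EP
  rw [← Finset.prod_mul_distrib]
  apply Finset.prod_eq_one
  intro p hp
  have h2 : (1 : ℝ) < p := by exact_mod_cast (RHO_PI_prime p hp).one_lt
  have h3 : (p : ℝ) ≠ 0 := by linarith
  have h4 : (p : ℝ) - 1 ≠ 0 := by linarith
  unfold Pool.Agent.H6.MF.hwK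
  field_simp
  ring

private lemma RHO_G_lower {w z : ℝ} (h0 : 0 ≤ w) (hz : 1 ≤ z) :
    EP 0 w * Real.log z ≤ Pool.Agent.H17.Op (PI w z) (Pool.Agent.H6.MF.hwK 1) Pool.Agent.H17.one1 ⌊z⌋₊ := by
  have hz0 : 0 ≤ z := by linarith
  have hdis : Disjoint (PI 0 w) (PI w z) := by
    rw [Finset.disjoint_left]
    intro p h1 h2
    rw [RHO_mem_PI h0] at h1
    rw [RHO_mem_PI hz0] at h2
    linarith [h1.2.2, h2.2.1]
  have hS : ∀ p ∈ PI 0 w ∪ PI w z, p.Prime := by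
    intro p hp
    rw [Finset.mem_union] at hp
    rcases hp with h | h
    · exact RHO_PI_prime p h
    · exact RHO_PI_prime p h
  have h1 := Pool.Agent.H6.MF.GK_lower 1 hS hz (by
    intro p hp hpz
    rw [Finset.mem_union, RHO_mem_PI h0, RHO_mem_PI hz0]
    by_cases h : (p : ℝ) ≤ w
    · left
      exact ⟨hp, by exact_mod_cast hp.pos, h⟩
    · right
      exact ⟨hp, not_le.mp h, hpz⟩)
  rw [Pool.Agent.H17.Op_union hdis] at h1
  have hw1 : ∀ p ∈ PI 0 w, 0 ≤ Pool.Agent.H6.MF.hwK 1 p := fun p hp => Pool.Agent.H6.MF.hwK_nonneg 1 (RHO_PI_prime p hp)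
  have hw2 : ∀ p ∈ PI w z, 0 ≤ Pool.Agent.H6.MF.hwK 1 p := fun p hp => Pool.Agent.H6.MF.hwK_nonneg 1 (RHO_PI_prime p hp)
  have h2 := Pool.Agent.H17.Op_upper hw1 (Pool.Agent.H17.Op_mono hw2 Pool.Agent.H17.one1_mono) ⌊z⌋₊
  have h3 : Real.log z ≤ (∏ p ∈ PI 0 w, (1 + Pool.Agent.H6.MF.hwK 1 p)) *
      Pool.Agent.H17.Op (PI w z) (Pool.Agent.H6.MF.hwK 1) Pool.Agent.H17.one1 ⌊z⌋₊ := by
    have := h1.trans h2
    simpa using this
  have h4 := RHO_EP_inv 0 w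
  calc EP 0 w * Real.log z ≤ EP 0 w * ((∏ p ∈ PI 0 w, (1 + Pool.Agent.H6.MF.hwK 1 p)) *
      Pool.Agent.H17.Op (PI w z) (Pool.Agent.H6.MF.hwK 1) Pool.Agent.H17.one1 ⌊z⌋₊) :=
        mul_le_mul_of_nonneg_left h3 (EP_pos 0 w).le
    _ = _ := by rw [← mul_assoc, h4, one_mul]

private lemma RHO_G_upper {w z : ℝ} (hz : 1 ≤ z) :
    EP w z * Pool.Agent.H17.Op (PI w z) (Pool.Agent.H6.MF.hwK 1) Pool.Agent.H17.one1 ⌊z⌋₊ ≤ 1 := by
  have hw2 : ∀ p ∈ PI w z, 0 ≤ Pool.Agent.H6.MF.hwK 1 p := fun p hp => Pool.Agent.H6.MF.hwK_nonneg 1 (RHO_PI_prime p hp)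
  have h2 := Pool.Agent.H17.Op_upper hw2 Pool.Agent.H17.one1_mono ⌊z⌋₊
  have h5 : Pool.Agent.H17.one1 ⌊z⌋₊ = 1 := by
    unfold Pool.Agent.H17.one1
    rw [if_pos (Nat.le_floor (by exact_mod_cast hz))]
  rw [h5, mul_one] at h2
  calc _ ≤ EP w z * ∏ p ∈ PI w z, (1 + Pool.Agent.H6.MF.hwK 1 p) :=
        mul_le_mul_of_nonneg_left h2 (EP_pos w z).le
    _ = 1 := RHO_EP_inv w z

private lemma RHO_sum_le_prod {S : Finset ℕ} {g : ℕ → ℝ} (hg : ∀ p ∈ S, 0 ≤ g p) :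
    1 + ∑ p ∈ S, g p ≤ ∏ p ∈ S, (1 + g p) := by
  induction S using Finset.induction_on with
  | empty => simp
  | insert p S hp ih =>
    rw [Finset.sum_insert hp, Finset.prod_insert hp]
    have h1 := ih (fun q hq => hg q (Finset.mem_insert_of_mem hq))
    have h2 := hg p (Finset.mem_insert_self _ _)
    have h3 : 0 ≤ ∑ q ∈ S, g q := Finset.sum_nonneg (fun q hq => hg q (Finset.mem_insert_of_mem hq))
    nlinarith

private lemma RHO_pair {S : Finset ℕ} (hS : ∀ p ∈ S, p.Prime) {r : Finset ℕ → ℝ} (h1 : ∀ T, |r T| ≤ 1)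
    {z C : ℝ} (hz : 0 < z) (hzS : ∀ p ∈ S, z ≤ (p : ℝ)) (hC : ∏ p ∈ S, (1 + 4 / (p : ℝ)) ≤ C) (k : ℤ)
    (hk : ∀ p ∈ S, ¬ (p : ℤ) ∣ k) :
    avgP (∏ p ∈ S, p) (fun m => RHO_f S r m ^ 2 * RHO_f S r (m + k) ^ 2)
      ≤ (avgP (∏ p ∈ S, p) (fun m => RHO_f S r m ^ 2)) ^ 2 + 4 * C ^ 3 / z := by
  have hg : ∀ p ∈ S, 0 ≤ 4 / (p : ℝ) := by
    intro p _
    positivity
  rw [RHO_avgF hS (RHO_lam S r) (F := fun m => RHO_f S r m ^ 2) (RHO_sq hS r)]
  have h2 := RHO_corr hS k hk (RHO_lam S r) (F := fun m => RHO_f S r m ^ 2) (RHO_sq hS r)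
  rw [h2]
  set a : Finset ℕ → ℝ := fun A => RHO_lam S r A / ((∏ p ∈ A, p : ℕ) : ℝ) with ha
  have ha1 : ∀ A, |a A| ≤ ∏ q ∈ A, (4 / (q : ℝ)) := by
    intro A
    rw [ha]
    simp only
    rw [abs_div, Finset.prod_div_distrib, Nat.abs_cast]
    push_cast
    apply div_le_div_of_nonneg_right (RHO_lam_le h1 A)
    exact Finset.prod_nonneg (fun p _ => Nat.cast_nonneg p)
  have h3 : ∑ A ∈ S.powerset, ∑ B ∈ S.powerset, (if Disjoint A B then a A * a B else 0)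
      ≤ (∑ A ∈ S.powerset, a A) ^ 2 + ∑ A ∈ S.powerset, ∑ B ∈ S.powerset,
        (if Disjoint A B then 0 else (∏ q ∈ A, (4 / (q : ℝ))) * ∏ q ∈ B, (4 / (q : ℝ))) := by
    rw [sq, Finset.sum_mul_sum, ← Finset.sum_add_distrib]
    apply Finset.sum_le_sum
    intro A hA
    rw [← Finset.sum_add_distrib]
    apply Finset.sum_le_sum
    intro B hB
    split_ifs with hd
    · linarith
    · have e1 : |a A * a B| ≤ (∏ q ∈ A, (4 / (q : ℝ))) * ∏ q ∈ B, (4 / (q : ℝ)) := by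
        rw [abs_mul]
        exact mul_le_mul (ha1 A) (ha1 B) (abs_nonneg _) ((abs_nonneg _).trans (ha1 A))
      have e2 := neg_abs_le (a A * a B)
      linarith
  refine h3.trans ?_
  apply add_le_add le_rfl
  refine (RHO_nondisj hg).trans ?_
  have hPnn : 0 ≤ ∏ q ∈ S, (1 + 4 / (q : ℝ)) := Finset.prod_nonneg (fun q hq => by linarith [hg q hq])
  have hC0 : 0 ≤ C := hPnn.trans hC
  have h4 : ∑ p ∈ S, (4 / (p : ℝ)) ^ 2 ≤ 4 / z * C := by
    calc ∑ p ∈ S, (4 / (p : ℝ)) ^ 2 ≤ ∑ p ∈ S, 4 / z * (4 / (p : ℝ)) := by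
          apply Finset.sum_le_sum
          intro p hp
          rw [sq]
          apply mul_le_mul_of_nonneg_right _ (hg p hp)
          exact div_le_div_of_nonneg_left (by norm_num) hz (hzS p hp)
      _ = 4 / z * ∑ p ∈ S, (4 / (p : ℝ)) := by rw [Finset.mul_sum]
      _ ≤ 4 / z * C := by
          apply mul_le_mul_of_nonneg_left _ (by positivity)
          have := RHO_sum_le_prod hg
          linarith
  calc (∑ p ∈ S, (4 / (p : ℝ)) ^ 2) * (∏ q ∈ S, (1 + 4 / (q : ℝ))) ^ 2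
      ≤ (4 / z * C) * C ^ 2 := by
        apply mul_le_mul h4 (pow_le_pow_left₀ hPnn hC 2) (by positivity) (by positivity)
    _ = 4 * C ^ 3 / z := by ring

private lemma RHO_large (δ K c : ℝ) (hδ : 0 < δ) (hc : 0 < c) : ∃ X : ℝ, ∀ x : ℝ, X ≤ x →
    3 ≤ x ∧ 4 * (Real.log x) ^ 2 < x ^ δ ∧ K * Real.log x ≤ c * x ^ δ := by
  have h1 : ∀ᶠ x : ℝ in Filter.atTop, 4 * (Real.log x) ^ 2 < x ^ δ := by
    have h2 := (isLittleO_log_rpow_rpow_atTop (2 : ℝ) hδ).bound (show (0 : ℝ) < 1 / 8 by norm_num)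
    filter_upwards [h2, Filter.eventually_ge_atTop (3 : ℝ)] with x hx hx3
    have hl : 0 ≤ Real.log x := Real.log_nonneg (by linarith)
    have hp : 0 < x ^ δ := Real.rpow_pos_of_pos (by linarith) δ
    rw [Real.norm_of_nonneg (Real.rpow_nonneg hl _), Real.norm_of_nonneg hp.le] at hx
    have h3 : Real.log x ^ (2 : ℝ) = Real.log x ^ 2 := by
      rw [show (2 : ℝ) = ((2 : ℕ) : ℝ) by norm_num, Real.rpow_natCast]
    rw [h3] at hx
    linarith
  have h2 : ∀ᶠ x : ℝ in Filter.atTop, K * Real.log x ≤ c * x ^ δ := by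
    have h3 := (isLittleO_log_rpow_atTop hδ).bound (show (0 : ℝ) < c / (|K| + 1) by positivity)
    filter_upwards [h3, Filter.eventually_ge_atTop (3 : ℝ)] with x hx hx3
    have hl : 0 ≤ Real.log x := Real.log_nonneg (by linarith)
    have hp : 0 < x ^ δ := Real.rpow_pos_of_pos (by linarith) δ
    rw [Real.norm_of_nonneg hl, Real.norm_of_nonneg hp.le] at hx
    have hK : 0 < |K| + 1 := by positivity
    have h4 : (|K| + 1) * Real.log x ≤ c * x ^ δ := by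
      calc (|K| + 1) * Real.log x ≤ (|K| + 1) * (c / (|K| + 1) * x ^ δ) := mul_le_mul_of_nonneg_left hx hK.le
        _ = c * x ^ δ := by field_simp
    have h5 : K * Real.log x ≤ (|K| + 1) * Real.log x := by
      apply mul_le_mul_of_nonneg_right _ hl
      linarith [le_abs_self K]
    linarith
  obtain ⟨X, hX⟩ := Filter.eventually_atTop.mp ((Filter.eventually_ge_atTop (3 : ℝ)).and (h1.and h2))
  exact ⟨X, hX⟩

theorem RHO (δ θ : ℝ) (hδ : 0 < δ) (hδθ : δ < θ) (hθ : θ ≤ 1 / 4) : ∃ C X : ℝ, 0 < C ∧ ∀ x : ℝ, X ≤ x →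
    ∃ (β : ℤ → ℝ) (μ₂ : ℝ),
      (∀ n, 0 ≤ β n) ∧
      (∀ n : ℤ, (∀ p ∈ PI (x ^ δ) (x ^ θ), ¬ (p : ℤ) ∣ n) → β n = 1) ∧
      TD (PR (x ^ δ) (x ^ θ)) (x ^ (2 * θ)) β ∧
      avgP (PR (x ^ δ) (x ^ θ)) β = μ₂ ∧
      μ₂ * EP 0 (x ^ δ) ≤ 1 / (θ * Real.log x) ∧
      EP (x ^ δ) (x ^ θ) ≤ μ₂ ∧
      (∀ k : ℤ, k ≠ 0 → |(k : ℝ)| ≤ 4 * (Real.log x) ^ 2 →
        avgP (PR (x ^ δ) (x ^ θ)) (fun m => β m * β (m + k)) ≤ (1 + 1 / Real.log x) * μ₂ ^ 2) ∧
      (∀ n : ℤ, 0 < n → (n : ℝ) ≤ 2 * x → β n ≤ C) := by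
  have hθ0 : 0 < θ := hδ.trans hδθ
  have hq0 : 0 < δ / θ := div_pos hδ hθ0
  have hq1 : δ / θ ≤ 1 := by rw [div_le_one hθ0]; exact hδθ.le
  obtain ⟨C4, hC4, hC4'⟩ := mer4 4 (δ / θ) (by norm_num) hq0 hq1
  obtain ⟨c, hc, hc'⟩ := mer5 (δ / θ) hq0 hq1
  obtain ⟨X, hX⟩ := RHO_large δ (4 * C4 ^ 3) (c ^ 2) hδ (by positivity)
  refine ⟨(4 : ℝ) ^ (2 / δ), X, by positivity, ?_⟩
  intro x hx
  obtain ⟨hx3, hxk, hxc⟩ := hX x hx
  have hx0 : 0 < x := by linarith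
  have hx1 : 1 ≤ x := by linarith
  have hlog : 0 < Real.log x := Real.log_pos (by linarith)
  have hz0 : 0 < x ^ δ := Real.rpow_pos_of_pos hx0 δ
  have hR0 : 0 < x ^ θ := Real.rpow_pos_of_pos hx0 θ
  have hR1 : 1 ≤ x ^ θ := Real.one_le_rpow hx1 hθ0.le
  have hRz : (x ^ θ) ^ (δ / θ) = x ^ δ := by
    rw [← Real.rpow_mul hx0.le]
    congr 1
    field_simp
  have hC := hC4' (x ^ θ) hR1
  have hce := hc' (x ^ θ) hR1
  rw [hRz] at hC hce
  have hS : ∀ p ∈ PI (x ^ δ) (x ^ θ), p.Prime := RHO_PI_prime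
  have hzS : ∀ p ∈ PI (x ^ δ) (x ^ θ), x ^ δ < (p : ℝ) := fun p hp => ((RHO_mem_PI hR0.le).mp hp).2.1
  have hD1 : 1 ≤ ⌊x ^ θ⌋₊ := Nat.le_floor (by exact_mod_cast hR1)
  obtain ⟨r, hr1, hr2, hr3, hr4⟩ := RHO_weights hS hD1
  set G : ℝ := Pool.Agent.H17.Op (PI (x ^ δ) (x ^ θ)) (Pool.Agent.H6.MF.hwK 1) Pool.Agent.H17.one1 ⌊x ^ θ⌋₊ with hG
  have hGl := RHO_G_lower (w := x ^ δ) (z := x ^ θ) hz0.le hR1
  have hGu := RHO_G_upper (w := x ^ δ) (z := x ^ θ) hR1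
  rw [← hG] at hGl hGu
  have hlogR : Real.log (x ^ θ) = θ * Real.log x := Real.log_rpow hx0 θ
  rw [hlogR] at hGl
  have hE0 := EP_pos 0 (x ^ δ)
  have hGpos : 0 < G := lt_of_lt_of_le (by positivity) hGl
  have havg : avgP (PR (x ^ δ) (x ^ θ)) (fun n => RHO_f (PI (x ^ δ) (x ^ θ)) r n ^ 2) = G⁻¹ := by
    unfold PR
    rw [RHO_avgF hS (RHO_lam (PI (x ^ δ) (x ^ θ)) r) (F := fun m => RHO_f (PI (x ^ δ) (x ^ θ)) r m ^ 2) (RHO_sq hS r),
      RHO_sum_lam, hr4]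
  have hEle : EP (x ^ δ) (x ^ θ) ≤ G⁻¹ := by
    rw [← one_div, le_div_iff₀ hGpos]
    exact hGu
  refine ⟨fun n => RHO_f (PI (x ^ δ) (x ^ θ)) r n ^ 2, G⁻¹, ?_, ?_, ?_, havg, ?_, hEle, ?_, ?_⟩
  · intro n
    exact sq_nonneg _
  · intro n hn
    simp only
    rw [RHO_f_one hS hr1 hn, one_pow]
  · unfold PR
    apply RHO_TD hS r
    have h1 := RHO_l1 hS ⌊x ^ θ⌋₊ hr2 hr3
    have h2 : ((⌊x ^ θ⌋₊ : ℕ) : ℝ) ≤ x ^ θ := Nat.floor_le hR0.le
    have h3 : 0 ≤ ∑ T ∈ (PI (x ^ δ) (x ^ θ)).powerset, |r T| := Finset.sum_nonneg (fun T _ => abs_nonneg _)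
    have h4 : x ^ (2 * θ) = (x ^ θ) ^ 2 := by
      rw [← Real.rpow_natCast, ← Real.rpow_mul hx0.le]
      congr 1
      push_cast
      ring
    rw [h4]
    exact pow_le_pow_left₀ h3 (h1.trans h2) 2
  · rw [inv_mul_eq_div, div_le_div_iff₀ hGpos (by positivity), one_mul]
    exact hGl
  · intro k hk hk2
    have hkS : ∀ p ∈ PI (x ^ δ) (x ^ θ), ¬ (p : ℤ) ∣ k := by
      intro p hp hdvd
      have h1 := Int.le_of_dvd (abs_pos.mpr hk) ((dvd_abs _ _).mpr hdvd)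
      have h2 : (p : ℝ) ≤ |(k : ℝ)| := by exact_mod_cast h1
      linarith [hzS p hp]
    have h1 := RHO_pair hS hr2 hz0 (fun p hp => (hzS p hp).le) hC k hkS
    have havg' := havg
    unfold PR at havg' ⊢
    rw [havg'] at h1
    refine h1.trans ?_
    have h2 : c ≤ G⁻¹ := hce.trans hEle
    have h3 : c ^ 2 ≤ (G⁻¹) ^ 2 := pow_le_pow_left₀ hc.le h2 2
    have h4 : 4 * C4 ^ 3 / x ^ δ ≤ 1 / Real.log x * (G⁻¹) ^ 2 := by
      have h5 : 4 * C4 ^ 3 / x ^ δ ≤ 1 / Real.log x * c ^ 2 := by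
        rw [one_div, inv_mul_eq_div, div_le_div_iff₀ hz0 hlog]
        exact hxc
      refine h5.trans ?_
      apply mul_le_mul_of_nonneg_left h3 (by positivity)
    have h6 : (1 + 1 / Real.log x) * (G⁻¹) ^ 2 = (G⁻¹) ^ 2 + 1 / Real.log x * (G⁻¹) ^ 2 := by ring
    rw [h6]
    linarith
  · intro n hn hn2
    simp only
    have h1 := RHO_omega hS hδ (by linarith) (fun p hp => (hzS p hp).le) hn hn2
    refine (RHO_f_le hS hr2 n).trans ?_
    rw [← Real.rpow_natCast]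
    exact Real.rpow_le_rpow_of_exponent_le (by norm_num) h1

end Pool.Agent.H6.MB
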