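import Pool.Agent.H6.MB.NUA
import Pool.Agent.H6.MB.RHO

/-!
# MAJ: a majorant of the primes with concentration properties

`θ = 1/4 - η`, `δ = min (δ₀(η/8)) (θ/2)`-small (`NUA` with `η' = η/8`; `δ < θ`), `ν = nu · β`, `μ = EP w z · μ₂` with
`w = yy x`, `z = x^δ`, `R = x^θ`. `N = ⌊x⌋₊ + 1`, `W = WW (yy x)`; `1/EP 0 w = W/φ(W) = wphi x`.
* primes `p > x^(1/4) ≥ R`: `nu p = β p = 1`.
* `μ = wphi x · EP 0 z · μ₂ ≤ wphi x/(θ log x) ≤ (4 + 32 η) wphi x/log x` (`RHO`, `EP_mul`);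
  `μ ≥ EP w z · EP z R = wphi x · EP 0 R ≥ wphi x · c/log x` (`mer2`).
* For sums over `cls x t` use `TRN` with `P = PR w z · PR z R` (coprime to `W`): `TD` of `ν` is `≤ x^{η'} x^{2θ}`, of
  `n ↦ ν(n+a) ν(n+a')` it is `≤ x^{2η'+4θ} ≤ x^{1-3η}` (`TD_mul`, `TD_add_shift`, `TD_mono`). The error `x^{1-3η}` is
  `≤ (η/4) (N/W) μ^2` for large `x` (`W ≤ log x`, `μ ≥ c/log x`).
  - first moment: `avg ν = avg nu · avg β ≥ EP w z · μ₂ = μ` (`avg_mul`: `nu` has period `PR w z`, `β` has period `PR z R`,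
    which are coprime; `avg_shift`).
  - pairs: `avg ν(·+a) ν(·+a') = avg nu nu' · avg β β' ≤ (1+η') (EP w z)^2 (1+1/log x) μ₂^2` (`s = {a, a'}`, `e = 1`).
  - diagonal: `ν(n+a)^2 ≤ C² nu(n+a)^2` for `0 < n + a ≤ 2x` (the single `n` with `n + a = 0` has to be treated apart:
    `ν(0)^2 ≤` (its `TD` bound)`^2 ≤ x^{1-3η}`), `avg nu^2 ≤ (1+η') EP w z` (`s = {a}`, `e = 2`), `TRN` for `nu^2`
    (`TD ≤ x^{2η'}`), and `EP w z ≤ C' μ` since `μ₂ ≥ EP z R ≥ c` (`mer5`, `z = R^{δ/θ}`).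
-/

set_option autoImplicit false
set_option linter.unusedVariables false

namespace Pool.Agent.H6.MB

open Finset Pool.Agent.H17

theorem MAJ_PI0 (y : ℕ) : PI 0 (y : ℝ) = PP y := by
  ext p
  simp only [PI, Finset.mem_filter, Finset.mem_range, Nat.floor_natCast, mem_PP]
  constructor
  · rintro ⟨h1, h2, _⟩
    exact ⟨by omega, h2⟩
  · rintro ⟨h1, h2⟩
    exact ⟨by omega, h2, by exact_mod_cast h2.pos⟩

theorem wphi_eq (x : ℝ) : wphi x = (EP 0 (yy x : ℝ))⁻¹ := by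
  rw [wphi, EP, MAJ_PI0, totient_WW, ← Finset.prod_inv_distrib, WW, Nat.cast_prod,
    ← Finset.prod_div_distrib]
  apply Finset.prod_congr rfl
  intro p hp
  have h := (mem_PP.mp hp).2
  have h1 : (2 : ℝ) ≤ p := by exact_mod_cast h.two_le
  have h3 : (p : ℝ) ≠ 0 := by linarith
  rw [one_sub_div h3, inv_div]

theorem MAJ_mem {p : ℕ} {w z : ℝ} (hz : 0 ≤ z) : p ∈ PI w z ↔ p.Prime ∧ w < (p : ℝ) ∧ (p : ℝ) ≤ z := by
  simp only [PI, Finset.mem_filter, Finset.mem_range, Nat.lt_succ_iff, Nat.le_floor_iff hz]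
  tauto

theorem MAJ_dvd {p : ℕ} (hp : p.Prime) {w z : ℝ} (h : p ∣ PR w z) : p ∈ PI w z := by
  unfold PR at h
  obtain ⟨q, hq, hpq⟩ := (Prime.dvd_finsetProd_iff hp.prime _).1 h
  have hqp : q.Prime := by
    simp only [PI, Finset.mem_filter] at hq
    exact hq.2.1
  rwa [(Nat.prime_dvd_prime_iff_eq hp hqp).1 hpq]

theorem MAJ_PR_pos (w z : ℝ) : 0 < PR w z := by
  unfold PR
  apply Finset.prod_pos
  intro q hq
  simp only [PI, Finset.mem_filter] at hq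
  exact hq.2.1.pos

theorem MAJ_copW {y : ℕ} {w z : ℝ} (hz : 0 ≤ z) (h : (y : ℝ) ≤ w) : (WW y).Coprime (PR w z) := by
  rw [Nat.coprime_comm, coprime_WW]
  intro p hp hd
  have h1 := (MAJ_mem hz).1 (MAJ_dvd (mem_PP.mp hp).2 hd)
  have h2 : (p : ℝ) ≤ y := by exact_mod_cast (mem_PP.mp hp).1
  linarith [h1.2.1]

theorem MAJ_cop {w z R : ℝ} (hz : 0 ≤ z) (hR : 0 ≤ R) : (PR w z).Coprime (PR z R) := by
  apply Nat.coprime_of_dvd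
  intro k hk h1 h2
  have h3 := (MAJ_mem hz).1 (MAJ_dvd hk h1)
  have h4 := (MAJ_mem hR).1 (MAJ_dvd hk h2)
  linarith [h3.2.2, h4.2.1]

theorem MAJ_abs {P : ℕ} {B : ℝ} {F : ℤ → ℝ} (h : TD P B F) (n : ℤ) : |F n| ≤ B := by
  obtain ⟨D, lam, _, h2, h3⟩ := h
  rw [h2]
  refine (Finset.abs_sum_le_sum_abs _ _).trans (le_trans (Finset.sum_le_sum fun d _ => ?_) h3)
  split_ifs
  · exact le_rfl
  · simp

theorem MAJ_nodvd {p : ℕ} (hp : p.Prime) {w z : ℝ} (hz : 0 ≤ z) (h : z < p) :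
    ∀ q ∈ PI w z, ¬ (q : ℤ) ∣ (p : ℤ) := by
  intro q hq hd
  have h1 := (MAJ_mem hz).1 hq
  have h2 : q ∣ p := by exact_mod_cast hd
  rw [Nat.prime_dvd_prime_iff_eq h1.1 hp] at h2
  rw [h2] at h1
  linarith [h1.2.2]

theorem MAJ_cls (x : ℝ) (t : ℕ) : cls x t = (Finset.range (⌊x⌋₊ + 1)).filter (fun n => n % WW (yy x) = t) := rfl

theorem MAJ_avg_nonneg {P : ℕ} {G : ℤ → ℝ} (h : ∀ n, 0 ≤ G n) : 0 ≤ avgP P G := by
  unfold avgP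
  exact div_nonneg (Finset.sum_nonneg fun _ _ => h _) (Nat.cast_nonneg _)

/-- growth of the logarithm -/
theorem MAJ_ev (η δ θ c κ : ℝ) (hη : 0 < η) (hδ : 0 < δ) (hθ : 0 < θ) (hκ : 0 < κ) (X1 X2 : ℝ) :
    ∃ X : ℝ, ∀ x : ℝ, X ≤ x → X1 ≤ x ∧ X2 ≤ x ∧ 1 ≤ x ∧ 1 ≤ Real.log x ∧ Real.log x ≤ x ^ δ ∧
      2 ≤ x ^ θ ∧ c ≤ Real.log x ∧ 3 * (Real.log x) ^ 2 ≤ x ∧ (Real.log x) ^ 3 ≤ κ * x ^ (3 * η) := by
  have h0 := (isLittleO_log_rpow_atTop hδ).bound (show (0 : ℝ) < 1 by norm_num)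
  have h1 : ∀ᶠ x : ℝ in Filter.atTop, 2 ≤ x ^ θ :=
    (tendsto_rpow_atTop hθ).eventually_ge_atTop 2
  have h2 : ∀ᶠ x : ℝ in Filter.atTop, max 1 c ≤ Real.log x :=
    Real.tendsto_log_atTop.eventually_ge_atTop _
  have h3 := (isLittleO_log_rpow_rpow_atTop (3 : ℝ) (s := 3 * η) (by positivity)).bound hκ
  have h4 := eventually_log_pow_le 2 (show (0 : ℝ) < 1 / 3 by norm_num)
  obtain ⟨X, hX⟩ := Filter.eventually_atTop.1 (h0.and (h1.and (h2.and (h3.and (h4.and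
    (Filter.eventually_ge_atTop (max X1 (max X2 1))))))))
  refine ⟨X, fun x hx => ?_⟩
  obtain ⟨a0, a1, a2, a3, a4, a5⟩ := hX x hx
  have b1 : X1 ≤ x := (le_max_left _ _).trans a5
  have b2 : X2 ≤ x := ((le_max_left _ _).trans (le_max_right _ _)).trans a5
  have b3 : 1 ≤ x := ((le_max_right _ _).trans (le_max_right _ _)).trans a5
  have b4 : 1 ≤ Real.log x := (le_max_left _ _).trans a2
  have b5 : c ≤ Real.log x := (le_max_right _ _).trans a2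
  have b0 : 0 < x := by linarith
  have bl : 0 ≤ Real.log x := by linarith
  have b6 : Real.log x ≤ x ^ δ := by
    have := a0
    rw [Real.norm_of_nonneg bl, Real.norm_of_nonneg (Real.rpow_nonneg b0.le _), one_mul] at this
    exact this
  have b7 : (Real.log x) ^ 3 ≤ κ * x ^ (3 * η) := by
    have := a3
    rw [Real.norm_of_nonneg (Real.rpow_nonneg bl _), Real.norm_of_nonneg (Real.rpow_nonneg b0.le _)] at this
    have h5 : Real.log x ^ (3 : ℝ) = Real.log x ^ 3 := by exact_mod_cast Real.rpow_natCast _ 3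
    rwa [h5] at this
  exact ⟨b1, b2, b3, b4, b6, a1, b5, by linarith, b7⟩

theorem MAJ_first {x η : ℝ} (hx0 : 0 < x) (hη : 0 < η) (hη1 : η ≤ 1 / 100) {P1 P2 : ℕ} {nu β : ℤ → ℝ}
    {B1 B2 E1 μ₂ : ℝ} (hP10 : 0 < P1) (hP20 : 0 < P2) (hcP : P1.Coprime P2)
    (hW0 : 0 < WW (yy x)) (hW1 : (WW (yy x)).Coprime P1) (hWP : (WW (yy x)).Coprime (P1 * P2))
    (n1 : ∀ n, 0 ≤ nu n) (b1 : ∀ n, 0 ≤ β n) (n3 : TD P1 B1 nu) (b3 : TD P2 B2 β)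
    (hE10 : 0 < E1) (hμ₂0 : 0 < μ₂)
    (n5 : E1 ≤ avgP P1 nu) (b4 : avgP P2 β = μ₂)
    (hB : B1 * B2 ≤ η * (((⌊x⌋₊ : ℝ) + 1) / (WW (yy x) : ℝ) * (E1 * μ₂)))
    {t : ℕ} (ht : t < WW (yy x)) (a : ℕ) :
    (1 - η) * ((⌊x⌋₊ : ℝ) + 1) / (WW (yy x) : ℝ) * (E1 * μ₂)
      ≤ ∑ n ∈ cls x t, nu ((n : ℤ) + a) * β ((n : ℤ) + a) := by
  have hP0 : 0 < P1 * P2 := Nat.mul_pos hP10 hP20
  have n3' : TD (P1 * P2) B1 nu := TD_mono n3 (Dvd.intro _ rfl) le_rfl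
  have b3' : TD (P1 * P2) B2 β := TD_mono b3 (Dvd.intro_left _ rfl) le_rfl
  have hν : TD (P1 * P2) (B1 * B2) (fun n => nu n * β n) := TD_mul hP0 n3' b3'
  have hnuper : ∀ n k : ℤ, nu (n + k * P1) = nu n := fun n k => TD_period n3 n k
  have hβper : ∀ n k : ℤ, β (n + k * P2) = β n := fun n k => TD_period b3 n k
  set Nn : ℝ := (⌊x⌋₊ : ℝ) + 1 with hNn
  have hNx : x ≤ Nn := (Nat.lt_floor_add_one x).le
  set W : ℕ := WW (yy x) with hW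
  have hWR0 : (0 : ℝ) < (W : ℝ) := by exact_mod_cast hW0
  set NW : ℝ := Nn / W with hNW
  have hNW0 : 0 < NW := div_pos (by linarith) hWR0
  set μ := E1 * μ₂ with hμ
  have hμ0 : 0 < μ := mul_pos hE10 hμ₂0
  have h1 := TRN (TD_add_shift hν (a : ℤ)) hW0 hWP ht (⌊x⌋₊ + 1) (by first | assumption | positivity)
  have h2 : avgP (P1 * P2) (fun n => nu (n + (a : ℤ)) * β (n + (a : ℤ))) = avgP P1 nu * avgP P2 β := by
    rw [← avg_mul hP10 hP20 hcP hnuper hβper]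
    exact avg_shift hP0 (G := fun n => nu n * β n) (fun n k => TD_period hν n k) (a : ℤ)
  have h3 : μ ≤ avgP (P1 * P2) (fun n => nu (n + (a : ℤ)) * β (n + (a : ℤ))) := by
    rw [h2, b4]
    exact mul_le_mul_of_nonneg_right n5 hμ₂0.le
  rw [MAJ_cls]
  have h4 : (((⌊x⌋₊ + 1 : ℕ)) : ℝ) = Nn := by push_cast; rfl
  rw [h4] at h1
  have h5 := (abs_le.1 h1).1
  have h6 : NW * μ ≤ Nn / (W : ℝ) * avgP (P1 * P2) (fun n => nu (n + (a : ℤ)) * β (n + (a : ℤ))) :=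
    mul_le_mul_of_nonneg_left h3 hNW0.le
  have h7 : (1 - η) * Nn / (W : ℝ) * μ = NW * μ - η * (NW * μ) := by
    rw [hNW]
    ring
  have h8 : (0 : ℝ) ≤ NW * μ := (mul_pos hNW0 hμ0).le
  have h9 : B1 * B2 ≤ η * (NW * μ) := by
    exact hB
  rw [h7]
  linarith

theorem MAJ_second {x η : ℝ} (hx0 : 0 < x) (hη : 0 < η) (hη1 : η ≤ 1 / 100) {P1 P2 : ℕ} {nu β : ℤ → ℝ}
    {B1 B2 E1 μ₂ : ℝ} (hP10 : 0 < P1) (hP20 : 0 < P2) (hcP : P1.Coprime P2)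
    (hW0 : 0 < WW (yy x)) (hW1 : (WW (yy x)).Coprime P1) (hWP : (WW (yy x)).Coprime (P1 * P2))
    (n1 : ∀ n, 0 ≤ nu n) (b1 : ∀ n, 0 ≤ β n) (n3 : TD P1 B1 nu) (b3 : TD P2 B2 β)
    (hE10 : 0 < E1) (hμ₂0 : 0 < μ₂)
    (hΛ0 : 0 < Real.log x) (hsq : (1 + η / 8) * (1 + 1 / Real.log x) ≤ 1 + η / 2)
    (n4 : ∀ s : Finset ℤ, 1 ≤ s.card → s.card ≤ 4 →
      (∀ a ∈ s, ∀ a' ∈ s, |((a - a' : ℤ) : ℝ)| ≤ 4 * (Real.log x) ^ 2) →
        ∀ e : ℤ → ℕ, (∀ a, 1 ≤ e a ∧ e a ≤ 4) →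
        avgP P1 (fun m => ∏ a ∈ s, nu (m + a) ^ e a) ≤ (1 + η / 8) * E1 ^ s.card)
    (b7 : ∀ k : ℤ, k ≠ 0 → |(k : ℝ)| ≤ 4 * (Real.log x) ^ 2 →
        avgP P2 (fun m => β m * β (m + k)) ≤ (1 + 1 / Real.log x) * μ₂ ^ 2)
    (hBB : (B1 * B2) * (B1 * B2) ≤ η / 2 * (((⌊x⌋₊ : ℝ) + 1) / (WW (yy x) : ℝ) * (E1 * μ₂) ^ 2))
    {t : ℕ} (ht : t < WW (yy x)) (a a' : ℕ) (haa : a ≠ a') (ha : (a : ℝ) ≤ 3 * (Real.log x) ^ 2)
    (ha' : (a' : ℝ) ≤ 3 * (Real.log x) ^ 2) :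
    ∑ n ∈ cls x t, (nu ((n : ℤ) + a) * β ((n : ℤ) + a)) * (nu ((n : ℤ) + a') * β ((n : ℤ) + a'))
      ≤ (1 + η) * ((⌊x⌋₊ : ℝ) + 1) / (WW (yy x) : ℝ) * (E1 * μ₂) ^ 2 := by
  have hP0 : 0 < P1 * P2 := Nat.mul_pos hP10 hP20
  have n3' : TD (P1 * P2) B1 nu := TD_mono n3 (Dvd.intro _ rfl) le_rfl
  have b3' : TD (P1 * P2) B2 β := TD_mono b3 (Dvd.intro_left _ rfl) le_rfl
  have hν : TD (P1 * P2) (B1 * B2) (fun n => nu n * β n) := TD_mul hP0 n3' b3'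
  have hnuper : ∀ n k : ℤ, nu (n + k * P1) = nu n := fun n k => TD_period n3 n k
  have hβper : ∀ n k : ℤ, β (n + k * P2) = β n := fun n k => TD_period b3 n k
  set Nn : ℝ := (⌊x⌋₊ : ℝ) + 1 with hNn
  have hNx : x ≤ Nn := (Nat.lt_floor_add_one x).le
  set W : ℕ := WW (yy x) with hW
  have hWR0 : (0 : ℝ) < (W : ℝ) := by exact_mod_cast hW0
  set NW : ℝ := Nn / W with hNW
  have hNW0 : 0 < NW := div_pos (by linarith) hWR0
  set μ := E1 * μ₂ with hμ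
  have hμ0 : 0 < μ := mul_pos hE10 hμ₂0
  set Λ := Real.log x with hΛ
  have hTD : TD (P1 * P2) ((B1 * B2) * (B1 * B2))
      (fun n => (nu (n + (a : ℤ)) * β (n + (a : ℤ))) * (nu (n + (a' : ℤ)) * β (n + (a' : ℤ)))) :=
    TD_mul hP0 (TD_add_shift hν (a : ℤ)) (TD_add_shift hν (a' : ℤ))
  have h1 := TRN hTD hW0 hWP ht (⌊x⌋₊ + 1) (by first | assumption | positivity)
  have haa' : (a : ℤ) ≠ (a' : ℤ) := by exact_mod_cast haa
  have hp1 : ∀ n k : ℤ, (fun n : ℤ => nu (n + (a : ℤ)) * nu (n + (a' : ℤ))) (n + k * P1)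
      = (fun n : ℤ => nu (n + (a : ℤ)) * nu (n + (a' : ℤ))) n := by
    intro n k
    simp only
    rw [show n + k * P1 + (a : ℤ) = (n + a) + k * P1 by ring, hnuper,
      show n + k * P1 + (a' : ℤ) = (n + a') + k * P1 by ring, hnuper]
  have hp2 : ∀ n k : ℤ, (fun n : ℤ => β (n + (a : ℤ)) * β (n + (a' : ℤ))) (n + k * P2)
      = (fun n : ℤ => β (n + (a : ℤ)) * β (n + (a' : ℤ))) n := by
    intro n k
    simp only
    rw [show n + k * P2 + (a : ℤ) = (n + a) + k * P2 by ring, hβper,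
      show n + k * P2 + (a' : ℤ) = (n + a') + k * P2 by ring, hβper]
  have h2 : avgP (P1 * P2)
      (fun n => (nu (n + (a : ℤ)) * β (n + (a : ℤ))) * (nu (n + (a' : ℤ)) * β (n + (a' : ℤ))))
      = avgP P1 (fun n : ℤ => nu (n + (a : ℤ)) * nu (n + (a' : ℤ)))
        * avgP P2 (fun n : ℤ => β (n + (a : ℤ)) * β (n + (a' : ℤ))) := by
    rw [← avg_mul hP10 hP20 hcP hp1 hp2]
    congr 1
    funext n
    ring
  have hlog : (0 : ℝ) ≤ Λ ^ 2 := by positivity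
  have ha0 : (0 : ℝ) ≤ (a : ℝ) := Nat.cast_nonneg _
  have ha'0 : (0 : ℝ) ≤ (a' : ℝ) := Nat.cast_nonneg _
  have h3 : avgP P1 (fun n : ℤ => nu (n + (a : ℤ)) * nu (n + (a' : ℤ))) ≤ (1 + η / 8) * E1 ^ 2 := by
    have h4 := n4 {(a : ℤ), (a' : ℤ)} (by rw [Finset.card_pair haa']; norm_num)
      (by rw [Finset.card_pair haa']; norm_num) ?_ (fun _ => 1) (fun _ => ⟨le_rfl, by norm_num⟩)
    · rw [Finset.card_pair haa'] at h4
      refine le_trans (le_of_eq ?_) h4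
      congr 1
      funext n
      rw [Finset.prod_pair haa', pow_one, pow_one]
    · intro b hb b' hb'
      have hb1 : (b = a ∨ b = a') := by simpa using hb
      have hb2 : (b' = a ∨ b' = a') := by simpa using hb'
      rcases hb1 with rfl | rfl <;> rcases hb2 with rfl | rfl <;> push_cast <;>
        rw [abs_le] <;> constructor <;> linarith
  have h5 : avgP P2 (fun n : ℤ => β (n + (a : ℤ)) * β (n + (a' : ℤ))) ≤ (1 + 1 / Λ) * μ₂ ^ 2 := by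
    have h6 := b7 ((a' : ℤ) - a) (by omega) (by
      push_cast
      rw [abs_le]
      constructor <;> linarith)
    refine le_trans (le_of_eq ?_) h6
    have h7 := avg_shift (P := P2) hP20 (G := fun m => β m * β (m + ((a' : ℤ) - a))) (by
      intro n k
      rw [hβper, show n + k * P2 + ((a' : ℤ) - a) = (n + ((a' : ℤ) - a)) + k * P2 by ring, hβper]) (a : ℤ)
    rw [← h7]
    congr 1
    funext n
    rw [show n + (a : ℤ) + ((a' : ℤ) - a) = n + a' by ring]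
  have h50 : 0 ≤ avgP P2 (fun n : ℤ => β (n + (a : ℤ)) * β (n + (a' : ℤ))) :=
    MAJ_avg_nonneg fun n => mul_nonneg (b1 _) (b1 _)
  have h8 : avgP (P1 * P2)
      (fun n => (nu (n + (a : ℤ)) * β (n + (a : ℤ))) * (nu (n + (a' : ℤ)) * β (n + (a' : ℤ))))
      ≤ (1 + η / 2) * μ ^ 2 := by
    rw [h2]
    calc _ ≤ ((1 + η / 8) * E1 ^ 2) * ((1 + 1 / Λ) * μ₂ ^ 2) :=
          mul_le_mul h3 h5 h50 (by positivity)
      _ = ((1 + η / 8) * (1 + 1 / Λ)) * μ ^ 2 := by rw [hμ]; ring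
      _ ≤ (1 + η / 2) * μ ^ 2 := mul_le_mul_of_nonneg_right hsq (by positivity)
  rw [MAJ_cls]
  have h9 : (((⌊x⌋₊ + 1 : ℕ)) : ℝ) = Nn := by push_cast; rfl
  rw [h9] at h1
  have h10 := (abs_le.1 h1).2
  have h11 := mul_le_mul_of_nonneg_left h8 hNW0.le
  have h12 : (1 + η) * Nn / (W : ℝ) * μ ^ 2 = NW * ((1 + η / 2) * μ ^ 2) + η / 2 * (NW * μ ^ 2) := by
    rw [hNW]
    ring
  rw [h12]
  linarith

theorem MAJ_third {x η : ℝ} (hx0 : 0 < x) (hη : 0 < η) (hη1 : η ≤ 1 / 100) {P1 P2 : ℕ} {nu β : ℤ → ℝ}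
    {B1 B2 E1 μ₂ : ℝ} (hP10 : 0 < P1) (hP20 : 0 < P2) (hcP : P1.Coprime P2)
    (hW0 : 0 < WW (yy x)) (hW1 : (WW (yy x)).Coprime P1) (hWP : (WW (yy x)).Coprime (P1 * P2))
    (n1 : ∀ n, 0 ≤ nu n) (b1 : ∀ n, 0 ≤ β n) (n3 : TD P1 B1 nu) (b3 : TD P2 B2 β)
    (hE10 : 0 < E1) (hμ₂0 : 0 < μ₂)
    {c5 C2 : ℝ} (hc5 : 0 < c5) (hC2 : 0 < C2) (hc5' : c5 ≤ μ₂) (e8 : 3 * (Real.log x) ^ 2 ≤ x)
    (n4 : ∀ s : Finset ℤ, 1 ≤ s.card → s.card ≤ 4 →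
      (∀ a ∈ s, ∀ a' ∈ s, |((a - a' : ℤ) : ℝ)| ≤ 4 * (Real.log x) ^ 2) →
        ∀ e : ℤ → ℕ, (∀ a, 1 ≤ e a ∧ e a ≤ 4) →
        avgP P1 (fun m => ∏ a ∈ s, nu (m + a) ^ e a) ≤ (1 + η / 8) * E1 ^ s.card)
    (b8 : ∀ n : ℤ, 0 < n → (n : ℝ) ≤ 2 * x → β n ≤ C2)
    (hBB : (B1 * B2) * (B1 * B2) ≤ ((⌊x⌋₊ : ℝ) + 1) / (WW (yy x) : ℝ) * (E1 * μ₂))
    (hB11 : B1 ^ 2 ≤ ((⌊x⌋₊ : ℝ) + 1) / (WW (yy x) : ℝ) * (E1 * μ₂))
    {t : ℕ} (ht : t < WW (yy x)) (a : ℕ) (ha : (a : ℝ) ≤ 3 * (Real.log x) ^ 2) :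
    ∑ n ∈ cls x t, (nu ((n : ℤ) + a) * β ((n : ℤ) + a)) ^ 2
      ≤ (C2 ^ 2 * (2 / c5 + 1) + 1) * (((⌊x⌋₊ : ℝ) + 1) / (WW (yy x) : ℝ) * (E1 * μ₂)) := by
  have hP0 : 0 < P1 * P2 := Nat.mul_pos hP10 hP20
  have n3' : TD (P1 * P2) B1 nu := TD_mono n3 (Dvd.intro _ rfl) le_rfl
  have b3' : TD (P1 * P2) B2 β := TD_mono b3 (Dvd.intro_left _ rfl) le_rfl
  have hν : TD (P1 * P2) (B1 * B2) (fun n => nu n * β n) := TD_mul hP0 n3' b3'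
  have hnuper : ∀ n k : ℤ, nu (n + k * P1) = nu n := fun n k => TD_period n3 n k
  have hβper : ∀ n k : ℤ, β (n + k * P2) = β n := fun n k => TD_period b3 n k
  set Nn : ℝ := (⌊x⌋₊ : ℝ) + 1 with hNn
  have hNx : x ≤ Nn := (Nat.lt_floor_add_one x).le
  set W : ℕ := WW (yy x) with hW
  have hWR0 : (0 : ℝ) < (W : ℝ) := by exact_mod_cast hW0
  set NW : ℝ := Nn / W with hNW
  have hNW0 : 0 < NW := div_pos (by linarith) hWR0
  set μ := E1 * μ₂ with hμ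
  have hμ0 : 0 < μ := mul_pos hE10 hμ₂0
  have hTD : TD P1 (B1 ^ 2) (fun n => nu (n + (a : ℤ)) ^ 2) := TD_pow hP10 (TD_add_shift n3 (a : ℤ)) 2
  have h1 := TRN hTD hW0 hW1 ht (⌊x⌋₊ + 1) (by first | assumption | positivity)
  have h9 : (((⌊x⌋₊ + 1 : ℕ)) : ℝ) = Nn := by push_cast; rfl
  rw [h9] at h1
  have h3 : avgP P1 (fun n : ℤ => nu (n + (a : ℤ)) ^ 2) ≤ (1 + η / 8) * E1 := by
    have h4 := n4 {(a : ℤ)} (by simp) (by simp) ?_ (fun _ => 2) (fun _ => ⟨by norm_num, by norm_num⟩)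
    · rw [Finset.card_singleton, pow_one] at h4
      refine le_trans (le_of_eq ?_) h4
      congr 1
      funext n
      rw [Finset.prod_singleton]
    · intro b hb b' hb'
      rw [Finset.mem_singleton] at hb hb'
      rw [hb, hb', sub_self, Int.cast_zero, abs_zero]
      positivity
  have h5 : E1 ≤ μ / c5 := by
    rw [le_div_iff₀ hc5, hμ]
    exact mul_le_mul_of_nonneg_left hc5' hE10.le
  have h6 : avgP P1 (fun n : ℤ => nu (n + (a : ℤ)) ^ 2) ≤ 2 / c5 * μ := by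
    calc _ ≤ (1 + η / 8) * E1 := h3
      _ ≤ 2 * E1 := mul_le_mul_of_nonneg_right (by linarith) hE10.le
      _ ≤ 2 * (μ / c5) := mul_le_mul_of_nonneg_left h5 (by norm_num)
      _ = 2 / c5 * μ := by ring
  have h7 : ∑ n ∈ cls x t, nu ((n : ℤ) + a) ^ 2 ≤ (2 / c5 + 1) * (NW * μ) := by
    rw [MAJ_cls]
    have h10 := (abs_le.1 h1).2
    have h11 := mul_le_mul_of_nonneg_left h6 hNW0.le
    have h12 := hB11
    have h13 : (2 / c5 + 1) * (NW * μ) = NW * (2 / c5 * μ) + NW * μ := by ring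
    rw [h13]
    linarith
  have h20 : ∀ n ∈ cls x t, (nu ((n : ℤ) + a) * β ((n : ℤ) + a)) ^ 2
      ≤ C2 ^ 2 * nu ((n : ℤ) + a) ^ 2 + if n = 0 then (B1 * B2) * (B1 * B2) else 0 := by
    intro n hn
    have hn1 : n < ⌊x⌋₊ + 1 := by
      have := (Finset.mem_filter.1 hn).1
      exact Finset.mem_range.1 this
    by_cases h0 : n = 0
    · rw [if_pos h0]
      have h21 := MAJ_abs hν ((n : ℤ) + a)
      have h22 : (nu ((n : ℤ) + a) * β ((n : ℤ) + a)) ^ 2 ≤ (B1 * B2) * (B1 * B2) := by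
        rw [← sq_abs, pow_two]
        exact mul_self_le_mul_self (abs_nonneg _) h21
      have h23 : 0 ≤ C2 ^ 2 * nu ((n : ℤ) + a) ^ 2 := by positivity
      linarith
    · rw [if_neg h0, add_zero, mul_pow, mul_comm]
      have h24 : (0 : ℤ) < (n : ℤ) + a := by omega
      have h25 : (((n : ℤ) + a : ℤ) : ℝ) ≤ 2 * x := by
        push_cast
        have h26 : (n : ℝ) ≤ x := by
          have : n ≤ ⌊x⌋₊ := by omega
          exact (Nat.le_floor_iff hx0.le).1 this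
        linarith
      have h27 := b8 _ h24 h25
      exact mul_le_mul_of_nonneg_right (pow_le_pow_left₀ (b1 _) h27 2) (by positivity)
  have h30 : ∑ n ∈ cls x t, (if n = 0 then (B1 * B2) * (B1 * B2) else 0) ≤ (B1 * B2) * (B1 * B2) := by
    rw [Finset.sum_ite_eq']
    split_ifs
    · exact le_rfl
    · exact mul_self_nonneg _
  calc ∑ n ∈ cls x t, (nu ((n : ℤ) + a) * β ((n : ℤ) + a)) ^ 2
      ≤ ∑ n ∈ cls x t, (C2 ^ 2 * nu ((n : ℤ) + a) ^ 2 + if n = 0 then (B1 * B2) * (B1 * B2) else 0) :=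
        Finset.sum_le_sum h20
    _ = C2 ^ 2 * ∑ n ∈ cls x t, nu ((n : ℤ) + a) ^ 2
        + ∑ n ∈ cls x t, (if n = 0 then (B1 * B2) * (B1 * B2) else 0) := by
        rw [Finset.sum_add_distrib, Finset.mul_sum]
    _ ≤ C2 ^ 2 * ((2 / c5 + 1) * (NW * μ)) + NW * μ :=
        add_le_add (mul_le_mul_of_nonneg_left h7 (by positivity)) (h30.trans hBB)
    _ = (C2 ^ 2 * (2 / c5 + 1) + 1) * (Nn / (W : ℝ) * μ) := by rw [hNW]; ring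


theorem MAJ_mu {θ η c2 Λ wp E0w E0z E0R E1 EzR μ₂ : ℝ} (hθ : θ = 1 / 4 - η) (hη : 0 < η)
    (hη1 : η ≤ 1 / 100) (hΛ0 : 0 < Λ) (hwp1 : 1 ≤ wp) (hwp : wp * E0w = 1) (hEz : E0z = E0w * E1)
    (hER : E0R = E0z * EzR) (b6 : EzR ≤ μ₂) (b5 : μ₂ * E0z ≤ 1 / (θ * Λ)) (hm : c2 / (θ * Λ) ≤ E0R)
    (hE1 : 0 < E1) (hc2 : 0 < c2) :
    c2 * (wp / Λ) ≤ E1 * μ₂ ∧ E1 * μ₂ ≤ (4 + 32 * η) * (wp / Λ) ∧ c2 / Λ ≤ E1 * μ₂ := by
  have hwp0 : 0 < wp := by linarith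
  have hθ0 : 0 < θ := by linarith
  have hθ1 : θ ≤ 1 := by linarith
  have hμeq : E1 = wp * E0z := by
    rw [hEz, ← mul_assoc, hwp, one_mul]
  have hlow : c2 * (wp / Λ) ≤ E1 * μ₂ := by
    have h3 : c2 / Λ ≤ c2 / (θ * Λ) := by
      apply div_le_div_of_nonneg_left hc2.le (by positivity)
      exact mul_le_of_le_one_left hΛ0.le hθ1
    have h4 : E1 * EzR ≤ E1 * μ₂ := mul_le_mul_of_nonneg_left b6 hE1.le
    have h5 : E1 * EzR = wp * E0R := by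
      rw [hER, ← mul_assoc, ← hμeq]
    rw [h5] at h4
    calc c2 * (wp / Λ) = wp * (c2 / Λ) := by ring
      _ ≤ wp * E0R := mul_le_mul_of_nonneg_left (h3.trans hm) hwp0.le
      _ ≤ E1 * μ₂ := h4
  refine ⟨hlow, ?_, ?_⟩
  · have h1 : E1 * μ₂ = wp * (μ₂ * E0z) := by
      rw [hμeq]
      ring
    have h2 : 1 / (θ * Λ) ≤ (4 + 32 * η) / Λ := by
      rw [div_le_div_iff₀ (by positivity) hΛ0]
      have h3 : 1 ≤ (4 + 32 * η) * θ := by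
        rw [hθ]
        nlinarith
      calc 1 * Λ ≤ ((4 + 32 * η) * θ) * Λ := mul_le_mul_of_nonneg_right h3 hΛ0.le
        _ = (4 + 32 * η) * (θ * Λ) := by ring
    rw [h1]
    calc wp * (μ₂ * E0z) ≤ wp * ((4 + 32 * η) / Λ) :=
          mul_le_mul_of_nonneg_left (b5.trans h2) hwp0.le
      _ = (4 + 32 * η) * (wp / Λ) := by ring
  · refine le_trans ?_ hlow
    rw [mul_div_assoc']
    apply div_le_div_of_nonneg_right _ hΛ0.le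
    nlinarith

theorem MAJ_size {x η c2 Λ κ NW μ Eb : ℝ} (hx0 : 0 < x) (hη : 0 < η) (hη1 : η ≤ 1 / 100)
    (e4 : 1 ≤ Λ) (hc2 : 0 < c2) (hκ : κ = η / 2 * min c2 (c2 ^ 2)) (hNWlow : x / Λ ≤ NW)
    (hμc : c2 / Λ ≤ μ) (hEbk : Eb ≤ κ * x / Λ ^ 3) :
    Eb ≤ η / 2 * (NW * μ ^ 2) ∧ Eb ≤ η / 2 * (NW * μ) ∧ Eb ≤ NW * μ := by
  have hΛ0 : 0 < Λ := by linarith
  have hNW0 : 0 < NW := lt_of_lt_of_le (by positivity) hNWlow
  have hμ0 : 0 < μ := lt_of_lt_of_le (by positivity) hμc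
  have h2 : Eb ≤ η / 2 * (NW * μ ^ 2) := by
    have h1 : c2 ^ 2 * x / Λ ^ 3 ≤ NW * μ ^ 2 := by
      have h2 : (c2 / Λ) ^ 2 ≤ μ ^ 2 := pow_le_pow_left₀ (by positivity) hμc 2
      calc c2 ^ 2 * x / Λ ^ 3 = (x / Λ) * (c2 / Λ) ^ 2 := by field_simp
        _ ≤ NW * μ ^ 2 := mul_le_mul hNWlow h2 (by positivity) hNW0.le
    have h3 : κ * x / Λ ^ 3 ≤ η / 2 * (c2 ^ 2 * x / Λ ^ 3) := by
      rw [hκ]
      have : min c2 (c2 ^ 2) ≤ c2 ^ 2 := min_le_right _ _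
      have h4 : η / 2 * min c2 (c2 ^ 2) * x / Λ ^ 3 = (η / 2 * (x / Λ ^ 3)) * min c2 (c2 ^ 2) := by ring
      have h5 : η / 2 * (c2 ^ 2 * x / Λ ^ 3) = (η / 2 * (x / Λ ^ 3)) * c2 ^ 2 := by ring
      rw [h4, h5]
      exact mul_le_mul_of_nonneg_left this (by positivity)
    refine hEbk.trans (h3.trans ?_)
    exact mul_le_mul_of_nonneg_left h1 (by positivity)
  have h1' : Eb ≤ η / 2 * (NW * μ) := by
    have h1 : c2 * x / Λ ^ 3 ≤ NW * μ := by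
      calc c2 * x / Λ ^ 3 ≤ c2 * x / Λ ^ 2 := by
            apply div_le_div_of_nonneg_left (by positivity) (by positivity)
            exact pow_le_pow_right₀ e4 (by norm_num)
        _ = (x / Λ) * (c2 / Λ) := by field_simp
        _ ≤ NW * μ := mul_le_mul hNWlow hμc (by positivity) hNW0.le
    have h3 : κ * x / Λ ^ 3 ≤ η / 2 * (c2 * x / Λ ^ 3) := by
      rw [hκ]
      have : min c2 (c2 ^ 2) ≤ c2 := min_le_left _ _
      have h4 : η / 2 * min c2 (c2 ^ 2) * x / Λ ^ 3 = (η / 2 * (x / Λ ^ 3)) * min c2 (c2 ^ 2) := by ring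
      have h5 : η / 2 * (c2 * x / Λ ^ 3) = (η / 2 * (x / Λ ^ 3)) * c2 := by ring
      rw [h4, h5]
      exact mul_le_mul_of_nonneg_left this (by positivity)
    refine hEbk.trans (h3.trans ?_)
    exact mul_le_mul_of_nonneg_left h1 (by positivity)
  refine ⟨h2, h1', h1'.trans ?_⟩
  have : 0 < NW * μ := mul_pos hNW0 hμ0
  exact mul_le_of_le_one_left this.le (by linarith)

theorem MAJ_hsq {η Λ : ℝ} (hη : 0 < η) (hη1 : η ≤ 1 / 100) (hΛ0 : 0 < Λ) (e7 : 8 / η ≤ Λ) :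
    (1 + η / 8) * (1 + 1 / Λ) ≤ 1 + η / 2 := by
  have h1 : 1 / Λ ≤ η / 8 := by
    rw [div_le_iff₀ hΛ0]
    rw [div_le_iff₀ hη] at e7
    linarith
  calc (1 + η / 8) * (1 + 1 / Λ) ≤ (1 + η / 8) * (1 + η / 8) :=
        mul_le_mul_of_nonneg_left (by linarith) (by linarith)
    _ ≤ 1 + η / 2 := by nlinarith

theorem MAJ_Eb {x η κ Λ : ℝ} (hx0 : 0 < x) (hΛ0 : 0 < Λ) (e9 : Λ ^ 3 ≤ κ * x ^ (3 * η)) :
    x ^ (1 - 3 * η) ≤ κ * x / Λ ^ 3 := by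
  have h1 : 0 < x ^ (3 * η) := Real.rpow_pos_of_pos hx0 _
  rw [Real.rpow_sub hx0, Real.rpow_one, div_le_div_iff₀ h1 (by positivity)]
  calc x * Λ ^ 3 ≤ x * (κ * x ^ (3 * η)) := mul_le_mul_of_nonneg_left e9 hx0.le
    _ = κ * x * x ^ (3 * η) := by ring

theorem MAJ_W {x : ℝ} (e4 : 1 ≤ Real.log x) : ((WW (yy x) : ℕ) : ℝ) ≤ Real.log x := by
  have h1 := WW_yy_pow_le e4
  have h2 : Real.sqrt (Real.log x) ≤ Real.log x := by
    rw [Real.sqrt_le_left (by linarith)]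
    nlinarith
  have h3 : (1 : ℝ) ≤ ((WW (yy x) : ℕ) : ℝ) := by exact_mod_cast WW_pos (yy x)
  exact (le_self_pow₀ h3 (by norm_num)).trans (h1.trans h2)

theorem MAJ (η : ℝ) (hη : 0 < η) (hη1 : η ≤ 1 / 100) : ∃ C c X : ℝ, 0 < C ∧ 0 < c ∧ ∀ x : ℝ, X ≤ x →
    ∃ (ν : ℤ → ℝ) (μ : ℝ),
      (∀ n, 0 ≤ ν n) ∧ (∀ p : ℕ, p.Prime → x ^ (1 / 4 : ℝ) < (p : ℝ) → 1 ≤ ν (p : ℤ)) ∧
      c * (wphi x / Real.log x) ≤ μ ∧ μ ≤ (4 + 32 * η) * (wphi x / Real.log x) ∧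
      (∀ t : ℕ, t < WW (yy x) → ∀ a : ℕ, (a : ℝ) ≤ 3 * (Real.log x) ^ 2 →
        (1 - η) * ((⌊x⌋₊ : ℝ) + 1) / (WW (yy x) : ℝ) * μ ≤ ∑ n ∈ cls x t, ν ((n : ℤ) + a)) ∧
      (∀ t : ℕ, t < WW (yy x) → ∀ a a' : ℕ, a ≠ a' → (a : ℝ) ≤ 3 * (Real.log x) ^ 2 → (a' : ℝ) ≤ 3 * (Real.log x) ^ 2 →
        ∑ n ∈ cls x t, ν ((n : ℤ) + a) * ν ((n : ℤ) + a') ≤ (1 + η) * ((⌊x⌋₊ : ℝ) + 1) / (WW (yy x) : ℝ) * μ ^ 2) ∧
      (∀ t : ℕ, t < WW (yy x) → ∀ a : ℕ, (a : ℝ) ≤ 3 * (Real.log x) ^ 2 →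
        ∑ n ∈ cls x t, ν ((n : ℤ) + a) ^ 2 ≤ C * (((⌊x⌋₊ : ℝ) + 1) / (WW (yy x) : ℝ) * μ)) := by
  have hη'0 : 0 < η / 8 := by linarith
  obtain ⟨δ, hδ0, hδη, hNUA⟩ := NUA (η / 8) hη'0 (by linarith)
  obtain ⟨X1, hX1⟩ := hNUA δ hδ0 le_rfl
  set θ : ℝ := 1 / 4 - η with hθ
  have hθ0 : 0 < θ := by rw [hθ]; linarith
  have hδθ : δ < θ := by rw [hθ]; linarith
  obtain ⟨C2, X2, hC2, hRHO⟩ := RHO δ θ hδ0 hδθ (by rw [hθ]; linarith)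
  obtain ⟨c2, hc2, hmer2⟩ := mer2
  obtain ⟨c5, hc5, hmer5⟩ := mer5 (δ / θ) (by positivity) ((div_le_one hθ0).2 hδθ.le)
  set κ : ℝ := η / 2 * min c2 (c2 ^ 2) with hκ
  have hκ0 : 0 < κ := by
    have : 0 < min c2 (c2 ^ 2) := lt_min hc2 (by positivity)
    positivity
  obtain ⟨X, hX⟩ := MAJ_ev η δ θ (8 / η) κ hη hδ0 hθ0 hκ0 X1 X2
  refine ⟨C2 ^ 2 * (2 / c5 + 1) + 1, c2, X, by positivity, hc2, fun x hx => ?_⟩
  obtain ⟨e1, e2, e3, e4, e5, e6, e7, e8, e9⟩ := hX x hx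
  obtain ⟨nu, n1, n2, n3, n4, n5⟩ := hX1 x e1
  obtain ⟨β, μ₂, b1, b2, b3, b4, b5, b6, b7, b8⟩ := hRHO x e2
  have hx0 : 0 < x := by linarith
  set Λ := Real.log x with hΛ
  have hΛ0 : 0 < Λ := by linarith
  set w : ℝ := (yy x : ℝ) with hw
  set z : ℝ := x ^ δ with hz
  set R : ℝ := x ^ θ with hR
  have hz0 : 0 ≤ z := Real.rpow_nonneg hx0.le _
  have hR0 : 0 ≤ R := Real.rpow_nonneg hx0.le _
  have hw0 : 0 ≤ w := Nat.cast_nonneg _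
  have hwz : w ≤ z := by
    have h1 : w ≤ Real.log Λ / 100 := Nat.floor_le (by have := Real.log_nonneg e4; positivity)
    have h2 : Real.log Λ ≤ Λ := (Real.log_le_sub_one_of_pos hΛ0).trans (by linarith)
    have h3 : 0 ≤ Real.log Λ := Real.log_nonneg e4
    linarith
  have hzR : z ≤ R := Real.rpow_le_rpow_of_exponent_le e3 hδθ.le
  have hRx : R ≤ x ^ (1 / 4 : ℝ) := Real.rpow_le_rpow_of_exponent_le e3 (by rw [hθ]; linarith)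
  set E1 := EP w z with hE1
  have hE10 : 0 < E1 := EP_pos _ _
  have hμ₂0 : 0 < μ₂ := lt_of_lt_of_le (EP_pos _ _) b6
  have hc5' : c5 ≤ μ₂ := by
    have h1 := hmer5 R (by linarith)
    have h2 : R ^ (δ / θ) = z := by
      rw [hR, hz, ← Real.rpow_mul hx0.le]
      congr 1
      field_simp
    rw [h2] at h1
    exact h1.trans b6
  have hwp : wphi x * EP 0 w = 1 := by
    rw [wphi_eq]
    exact inv_mul_cancel₀ (EP_pos _ _).ne'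
  have hwp1 : 1 ≤ wphi x := by
    rw [wphi_eq]
    exact (one_le_inv₀ (EP_pos _ _)).2 (EP_le_one _ _)
  have hwp0 : 0 < wphi x := by linarith
  have hEz : EP 0 z = EP 0 w * E1 := EP_mul hw0 hwz
  have hER : EP 0 R = EP 0 z * EP z R := EP_mul (hw0.trans hwz) hzR
  set μ := E1 * μ₂ with hμ
  have hμ0 : 0 < μ := mul_pos hE10 hμ₂0
  have hlogR : Real.log R = θ * Λ := by rw [hR, Real.log_rpow hx0]
  obtain ⟨hμlow, hμup, hμc⟩ : c2 * (wphi x / Λ) ≤ μ ∧ μ ≤ (4 + 32 * η) * (wphi x / Λ) ∧ c2 / Λ ≤ μ :=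
    MAJ_mu hθ hη hη1 hΛ0 hwp1 hwp hEz hER b6 b5 (by rw [← hlogR]; exact hmer2 R e6) hE10 hc2
  -- sizes
  set Nn : ℝ := (⌊x⌋₊ : ℝ) + 1 with hNn
  have hNx : x ≤ Nn := (Nat.lt_floor_add_one x).le
  set W : ℕ := WW (yy x) with hW
  have hW0 : 0 < W := WW_pos _
  have hWR0 : (0 : ℝ) < (W : ℝ) := by exact_mod_cast hW0
  have hWΛ : (W : ℝ) ≤ Λ := MAJ_W e4
  set NW : ℝ := Nn / W with hNW
  have hNWlow : x / Λ ≤ NW := div_le_div₀ (by linarith) hNx hWR0 hWΛ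
  have hNW0 : 0 < NW := lt_of_lt_of_le (by positivity) hNWlow
  set Eb : ℝ := x ^ (1 - 3 * η) with hEb
  have hEb0 : 0 < Eb := Real.rpow_pos_of_pos hx0 _
  have hEbk : Eb ≤ κ * x / Λ ^ 3 := MAJ_Eb hx0 hΛ0 e9
  obtain ⟨hEb2, hEb1, hEb1'⟩ := MAJ_size hx0 hη hη1 e4 hc2 hκ hNWlow hμc hEbk
  -- the moduli
  set P1 := PR w z with hP1
  set P2 := PR z R with hP2
  have hP10 : 0 < P1 := MAJ_PR_pos _ _
  have hP20 : 0 < P2 := MAJ_PR_pos _ _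
  have hP0 : 0 < P1 * P2 := Nat.mul_pos hP10 hP20
  have hcP : P1.Coprime P2 := MAJ_cop hz0 hR0
  have hW1 : W.Coprime P1 := MAJ_copW hz0 le_rfl
  have hW2 : W.Coprime P2 := MAJ_copW hR0 hwz
  have hWP : W.Coprime (P1 * P2) := Nat.Coprime.mul_right hW1 hW2
  set B1 : ℝ := x ^ (η / 8) with hB1
  set B2 : ℝ := x ^ (2 * θ) with hB2
  have hB : B1 * B2 ≤ Eb := by
    rw [hB1, hB2, ← Real.rpow_add hx0]
    apply Real.rpow_le_rpow_of_exponent_le e3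
    rw [hθ]
    linarith
  have hBB : (B1 * B2) * (B1 * B2) ≤ Eb := by
    rw [hB1, hB2, ← Real.rpow_add hx0, ← Real.rpow_add hx0]
    apply Real.rpow_le_rpow_of_exponent_le e3
    rw [hθ]
    linarith
  have hB11 : B1 ^ 2 ≤ Eb := by
    rw [hB1, ← Real.rpow_natCast, ← Real.rpow_mul hx0.le]
    apply Real.rpow_le_rpow_of_exponent_le e3
    push_cast
    linarith
  have hsq : (1 + η / 8) * (1 + 1 / Λ) ≤ 1 + η / 2 := MAJ_hsq hη hη1 hΛ0 e7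
  refine ⟨fun n => nu n * β n, μ, fun n => mul_nonneg (n1 n) (b1 n), ?_, hμlow, hμup, ?_, ?_, ?_⟩
  · intro p hp hpx
    have h1 : nu (p : ℤ) = 1 := n2 _ (MAJ_nodvd hp hz0 (by linarith))
    have h2 : β (p : ℤ) = 1 := b2 _ (MAJ_nodvd hp hR0 (by linarith))
    show 1 ≤ nu (p : ℤ) * β (p : ℤ)
    rw [h1, h2, one_mul]
  · intro t ht a _
    refine MAJ_first hx0 hη hη1 hP10 hP20 hcP hW0 hW1 hWP n1 b1 n3 b3 hE10 hμ₂0 n5 b4 ?_ ht a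
    refine hB.trans (hEb1.trans ?_)
    have : 0 < NW * μ := mul_pos hNW0 hμ0
    exact mul_le_mul_of_nonneg_right (by linarith) this.le
  · intro t ht a a' haa ha ha'
    exact MAJ_second hx0 hη hη1 hP10 hP20 hcP hW0 hW1 hWP n1 b1 n3 b3 hE10 hμ₂0 hΛ0 hsq n4 b7
      (hBB.trans hEb2) ht a a' haa ha ha'
  · intro t ht a ha
    exact MAJ_third hx0 hη hη1 hP10 hP20 hcP hW0 hW1 hWP n1 b1 n3 b3 hE10 hμ₂0 hc5 hC2 hc5' e8 n4 b8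
      (hBB.trans hEb1') (hB11.trans hEb1') ht a ha

end Pool.Agent.H6.MB
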