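import Pool.Agent.H6.MB.BLK
import Pool.Agent.H6.MB.MER

/-!
# NUA: the Brun-Hooley majorant for the primes in `(yy x, x^δ]`

Let `L` be the constant of `mer1`, `b₀` from `BLK` (for `L`), and enlarge `b₀` such that
`∏_{j ≥ 0} (1 + (1/2)^{b₀+j}) ≤ exp (2^{1-b₀}) ≤ 1 + η/4`. Let `δ₀ = η/(4 b₀ + 8)`. For `δ ≤ δ₀`, `w = yy x`, `z = x^δ` put
`z_j = z^{(1/2)^j}`, `B_j = PI (max w z_{j+1}) z_j` (`j = 0, ..., J-1`, `J` the first index with `z_J ≤ w`; `w ≥ 2` for large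
`x`, so `J` exists; for simplicity one may take `J = ⌈log_2 (log x)⌉₊ + 1`, later blocks are empty). The `B_j` are disjoint
and their union is `PI w z`; `∑_{p ∈ B_j} 1/p ≤ L`. Put `nu n = ∏_{j<J} gb (b₀ + j) (om B_j n)`.
* nonnegative (`gb_nonneg`), and `1` if no prime of `PI w z` divides `n`.
* `TD`: `gb_TD` for each block with `z_j^{2(b₀+j)} = x^{2 δ (b₀+j)/2^j}`; the product over `j` is
  `≤ x^{δ (4 b₀ + 4)} ≤ x^η` (`∑_j (b₀+j)/2^j = 2 b₀ + 2`), `TD_prod`, `TD_mono`.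
* upper bound: the average of the product factors over the blocks (`avg_mul`, the block functions are periodic with
  coprime periods): by `BLK` it is `≤ ∏_j (1 + 2^{-b₀-j}) · (EP w z)^{|s|} · ∏_{w < p, p ∣ some difference} (1 + 14/p)`.
  The differences `k ≠ 0` satisfy `|k| ≤ 4 Λ^2`; there are at most `16` of them, each has at most `log (4Λ^2)/log 2 ≤ 4 log log x`
  prime factors, hence `∑_{p ∣ k, p > w} 14/p ≤ 56 log log x/w`: this is only bounded. Better: the number `r` of prime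
  factors `> w` of `k` satisfies `w^r ≤ 4 Λ^2`, so `r ≤ 3 log log x/log w` and
  `∑ 14/p ≤ 42 log log x/(w log w) ≤ 42 · 200/log w → 0` (`yy_lower`: `log log x ≤ 200 yy x`). So the last product is
  `≤ 1 + η/4` for large `x`.
* lower bound: `BLK_lower` and `avg_mul`.
-/

set_option autoImplicit false

namespace Pool.Agent.H6.MB

open Finset Pool.Agent.H17 Filter

theorem NUA_mem {w z : ℝ} (hz : 0 ≤ z) {p : ℕ} :
    p ∈ PI w z ↔ p.Prime ∧ w < (p : ℝ) ∧ (p : ℝ) ≤ z := by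
  rw [PI, Finset.mem_filter, Finset.mem_range, Nat.lt_succ_iff, Nat.le_floor_iff hz]
  tauto

/-- the iterated square roots -/
noncomputable def NUA_z (z : ℝ) (j : ℕ) : ℝ := z ^ ((1 / 2 : ℝ) ^ j)

theorem NUA_z_zero (z : ℝ) : NUA_z z 0 = z := by
  rw [NUA_z, pow_zero, Real.rpow_one]

theorem NUA_z_succ {z : ℝ} (hz : 0 ≤ z) (j : ℕ) : Real.sqrt (NUA_z z j) = NUA_z z (j + 1) := by
  rw [NUA_z, NUA_z, Real.sqrt_eq_rpow, ← Real.rpow_mul hz, pow_succ]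

theorem NUA_one_le {z : ℝ} (hz : 1 ≤ z) (j : ℕ) : 1 ≤ NUA_z z j :=
  Real.one_le_rpow hz (by positivity)

theorem NUA_anti {z : ℝ} (hz : 1 ≤ z) : Antitone (NUA_z z) := by
  refine antitone_nat_of_succ_le fun j => ?_
  rw [← NUA_z_succ (by linarith)]
  have h1 := NUA_one_le hz j
  exact Real.sqrt_le_iff.2 ⟨by linarith, by nlinarith⟩

theorem NUA_exJ {z : ℝ} (hz : 1 ≤ z) : ∃ J : ℕ, NUA_z z J < 2 := by
  have h1 : Tendsto (fun j : ℕ => z ^ ((1 / 2 : ℝ) ^ j)) atTop (nhds (z ^ (0 : ℝ))) := by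
    refine ((Real.continuous_const_rpow (by linarith : z ≠ 0)).tendsto 0).comp ?_
    exact tendsto_pow_atTop_nhds_zero_of_lt_one (by norm_num) (by norm_num)
  rw [Real.rpow_zero] at h1
  obtain ⟨J, hJ⟩ := (h1.eventually (gt_mem_nhds (by norm_num : (1 : ℝ) < 2))).exists
  exact ⟨J, hJ⟩

/-- the blocks -/
noncomputable def NUA_B (w z : ℝ) (j : ℕ) : Finset ℕ := PI (max w (NUA_z z (j + 1))) (NUA_z z j)

theorem NUA_memB {w z : ℝ} (hz : 1 ≤ z) {j p : ℕ} : p ∈ NUA_B w z j ↔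
    p.Prime ∧ w < (p : ℝ) ∧ NUA_z z (j + 1) < (p : ℝ) ∧ (p : ℝ) ≤ NUA_z z j := by
  rw [NUA_B, NUA_mem (by linarith [NUA_one_le hz j]), max_lt_iff]
  tauto

theorem NUA_step {M : Type*} [CommMonoid M] {w z : ℝ} (hz : 1 ≤ z) (f : ℕ → M) (J : ℕ) :
    ∏ p ∈ PI w (NUA_z z J), f p = (∏ p ∈ NUA_B w z J, f p) * ∏ p ∈ PI w (NUA_z z (J + 1)), f p := by
  classical
  rw [← Finset.prod_filter_mul_prod_filter_not (PI w (NUA_z z J))
    (fun p : ℕ => NUA_z z (J + 1) < (p : ℝ)) f]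
  have h0 : (0 : ℝ) ≤ NUA_z z J := by linarith [NUA_one_le hz J]
  have h1 : (0 : ℝ) ≤ NUA_z z (J + 1) := by linarith [NUA_one_le hz (J + 1)]
  have h2 : NUA_z z (J + 1) ≤ NUA_z z J := NUA_anti hz (Nat.le_succ J)
  congr 1
  · refine Finset.prod_congr ?_ fun _ _ => rfl
    ext p
    rw [Finset.mem_filter, NUA_mem h0, NUA_memB hz]
    tauto
  · refine Finset.prod_congr ?_ fun _ _ => rfl
    ext p
    rw [Finset.mem_filter, NUA_mem h0, NUA_mem h1, not_lt]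
    constructor
    · rintro ⟨⟨a, b, _⟩, d⟩
      exact ⟨a, b, d⟩
    · rintro ⟨a, b, d⟩
      exact ⟨⟨a, b, d.trans h2⟩, d⟩

theorem NUA_prod' {M : Type*} [CommMonoid M] {w z : ℝ} (hz : 1 ≤ z) (f : ℕ → M) (J : ℕ) :
    ∏ p ∈ PI w z, f p =
      (∏ j ∈ range J, ∏ p ∈ NUA_B w z j, f p) * ∏ p ∈ PI w (NUA_z z J), f p := by
  induction J with
  | zero => rw [Finset.prod_range_zero, one_mul, NUA_z_zero]
  | succ J ih => rw [ih, NUA_step hz, Finset.prod_range_succ, mul_assoc]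

theorem NUA_empty {w z : ℝ} (hz : 1 ≤ z) {J : ℕ} (hJ : NUA_z z J < 2) :
    PI w (NUA_z z J) = ∅ := by
  rw [Finset.eq_empty_iff_forall_notMem]
  intro p hp
  rw [NUA_mem (by linarith [NUA_one_le hz J])] at hp
  have h1 : (2 : ℝ) ≤ p := by exact_mod_cast hp.1.two_le
  linarith [hp.2.2]

theorem NUA_prod {M : Type*} [CommMonoid M] {w z : ℝ} (hz : 1 ≤ z) (f : ℕ → M) {J : ℕ}
    (hJ : NUA_z z J < 2) :
    ∏ p ∈ PI w z, f p = ∏ j ∈ range J, ∏ p ∈ NUA_B w z j, f p := by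
  rw [NUA_prod' hz f J, NUA_empty hz hJ, Finset.prod_empty, mul_one]

theorem NUA_pos (w z : ℝ) (hz : 1 ≤ z) (j : ℕ) : 0 < ∏ p ∈ NUA_B w z j, p :=
  Finset.prod_pos fun p hp => ((NUA_memB hz).1 hp).1.pos

theorem NUA_cop {w z : ℝ} (hz : 1 ≤ z) (j : ℕ) :
    (∏ i ∈ range j, ∏ p ∈ NUA_B w z i, p).Coprime (∏ p ∈ NUA_B w z j, p) := by
  refine Nat.Coprime.prod_left fun i hi => Nat.Coprime.prod_left fun p hp =>
    Nat.Coprime.prod_right fun q hq => ?_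
  rw [Finset.mem_range] at hi
  rw [NUA_memB hz] at hp hq
  rw [Nat.coprime_primes hp.1 hq.1]
  rintro rfl
  have h1 := NUA_anti hz (Nat.succ_le_of_lt hi)
  rw [Nat.succ_eq_add_one] at h1
  linarith [hp.2.2.1, hq.2.2.2]

theorem NUA_avg (P : ℕ → ℕ) (G : ℕ → ℤ → ℝ) (hP : ∀ j, 0 < P j)
    (hG : ∀ j, ∀ n k : ℤ, G j (n + k * P j) = G j n)
    (hc : ∀ j, (∏ i ∈ range j, P i).Coprime (P j)) (J : ℕ) :
    avgP (∏ j ∈ range J, P j) (fun m => ∏ j ∈ range J, G j m) = ∏ j ∈ range J, avgP (P j) (G j) := by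
  induction J with
  | zero =>
    simp [avgP]
  | succ J ih =>
    rw [Finset.prod_range_succ, Finset.prod_range_succ, ← ih]
    have h1 : (fun m => ∏ j ∈ range (J + 1), G j m) =
        fun m => (∏ j ∈ range J, G j m) * G J m := by
      funext m
      rw [Finset.prod_range_succ]
    rw [h1]
    refine avg_mul (Finset.prod_pos fun i _ => hP i) (hP J) (hc J) (fun n k => ?_) (hG J)
    refine Finset.prod_congr rfl fun j hj => ?_
    obtain ⟨c, hc⟩ := Finset.dvd_prod_of_mem P hj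
    rw [hc, Nat.cast_mul, mul_comm (P j : ℤ) (c : ℤ), ← mul_assoc]
    exact hG j n (k * c)

theorem NUA_om {B : Finset ℕ} {n : ℤ} (h : ∀ p ∈ B, ¬ (p : ℤ) ∣ n) : om B n = 0 := by
  rw [om, Finset.card_eq_zero, Finset.filter_eq_empty_iff]
  exact fun p hp => h p hp

theorem NUA_om_per (B : Finset ℕ) (n k : ℤ) : om B (n + k * ((∏ p ∈ B, p : ℕ) : ℤ)) = om B n := by
  rw [om, om]
  congr 1
  refine Finset.filter_congr fun p hp => ?_
  have h1 : (p : ℤ) ∣ k * ((∏ p ∈ B, p : ℕ) : ℤ) := by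
    refine Dvd.dvd.mul_left ?_ k
    exact_mod_cast Finset.dvd_prod_of_mem (fun p : ℕ => p) hp
  exact (dvd_add_left h1)

theorem NUA_sumj (b : ℝ) (J : ℕ) : (∑ j ∈ range J, (1 / 2 : ℝ) ^ j * (b + j)) +
    2 * (b + J + 1) * (1 / 2 : ℝ) ^ J = 2 * b + 2 := by
  induction J with
  | zero => simp; ring
  | succ J ih =>
    rw [Finset.sum_range_succ, ← ih, pow_succ]
    push_cast
    ring

theorem NUA_exp_prod {ι : Type*} (s : Finset ι) (f : ι → ℝ) (hf : ∀ i ∈ s, 0 ≤ f i) :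
    ∏ i ∈ s, (1 + f i) ≤ Real.exp (∑ i ∈ s, f i) := by
  rw [Real.exp_sum]
  refine Finset.prod_le_prod (fun i hi => by linarith [hf i hi]) fun i _ => ?_
  rw [add_comm]
  exact Real.add_one_le_exp _

theorem NUA_geom (b J : ℕ) : ∏ j ∈ range J, (1 + (1 / 2 : ℝ) ^ (b + j)) ≤
    Real.exp (2 * (1 / 2 : ℝ) ^ b) := by
  refine (NUA_exp_prod _ _ fun _ _ => by positivity).trans (Real.exp_le_exp.2 ?_)
  have h1 : ∑ j ∈ range J, (1 / 2 : ℝ) ^ (b + j) = (1 / 2 : ℝ) ^ b * ∑ j ∈ range J, (1 / 2 : ℝ) ^ j := by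
    rw [Finset.mul_sum]
    exact Finset.sum_congr rfl fun j _ => pow_add _ _ _
  rw [h1, mul_comm 2]
  refine mul_le_mul_of_nonneg_left ?_ (by positivity)
  have h2 := Summable.sum_le_tsum (range J) (fun j _ => by positivity) summable_geometric_two
  rwa [tsum_geometric_two] at h2

theorem NUA_card {w : ℝ} (hw : 1 < w) {k : ℤ} (hk : k ≠ 0) {M : ℝ} (hM : |(k : ℝ)| ≤ M)
    {S : Finset ℕ} (hS : ∀ p ∈ S, p.Prime ∧ w < (p : ℝ) ∧ (p : ℤ) ∣ k) :
    (S.card : ℝ) * Real.log w ≤ Real.log M := by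
  have h1 : ∏ p ∈ S, p ∣ k.natAbs := by
    refine Finset.prod_primes_dvd _ (fun p hp => (hS p hp).1.prime) fun p hp => ?_
    exact Int.natCast_dvd.1 (hS p hp).2.2
  have h2 : (∏ p ∈ S, p) ≤ k.natAbs := Nat.le_of_dvd (Int.natAbs_pos.2 hk) h1
  have h3 : ((∏ p ∈ S, p : ℕ) : ℝ) ≤ M := by
    refine le_trans ?_ hM
    have h4 : ((k.natAbs : ℕ) : ℝ) = |(k : ℝ)| := by
      rw [Nat.cast_natAbs, Int.cast_abs]
    rw [← h4]
    exact_mod_cast h2
  have h5 : w ^ S.card ≤ ((∏ p ∈ S, p : ℕ) : ℝ) := by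
    rw [Nat.cast_prod, ← Finset.prod_const]
    exact Finset.prod_le_prod (fun _ _ => by linarith) fun p hp => (hS p hp).2.1.le
  rw [← Real.log_pow]
  exact Real.log_le_log (by positivity) (h5.trans h3)

theorem NUA_sumk {w : ℝ} (hw : 1 < w) {k : ℤ} (hk : k ≠ 0) {M : ℝ} (hM : |(k : ℝ)| ≤ M)
    {S : Finset ℕ} (hS : ∀ p ∈ S, p.Prime ∧ w < (p : ℝ) ∧ (p : ℤ) ∣ k) :
    ∑ p ∈ S, 14 / (p : ℝ) ≤ 14 * Real.log M / (w * Real.log w) := by
  have hlw : 0 < Real.log w := Real.log_pos hw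
  have h1 : ∑ p ∈ S, 14 / (p : ℝ) ≤ S.card * (14 / w) := by
    rw [← nsmul_eq_mul]
    refine Finset.sum_le_card_nsmul _ _ _ fun p hp => ?_
    exact div_le_div_of_nonneg_left (by norm_num) (by linarith) (hS p hp).2.1.le
  refine h1.trans ?_
  have h2 := NUA_card hw hk hM hS
  rw [le_div_iff₀ (by positivity)]
  have h3 : (S.card : ℝ) * (14 / w) * (w * Real.log w) = 14 * ((S.card : ℝ) * Real.log w) := by
    field_simp
  rw [h3]
  linarith

theorem NUA_diff {w M z : ℝ} (hw : 1 < w) (hM1 : 1 ≤ M) (s : Finset ℤ) (hs4 : s.card ≤ 4)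
    (hs : ∀ a ∈ s, ∀ a' ∈ s, |((a - a' : ℤ) : ℝ)| ≤ M) (hz : 0 ≤ z) :
    ∏ p ∈ PI w z, (if ∃ a ∈ s, ∃ a' ∈ s, a ≠ a' ∧ (p : ℤ) ∣ a - a' then (1 + 14 / (p : ℝ)) else 1) ≤
      Real.exp (224 * Real.log M / (w * Real.log w)) := by
  classical
  have hlw : 0 < Real.log w := Real.log_pos hw
  have hlM : 0 ≤ Real.log M := Real.log_nonneg hM1
  rw [← Finset.prod_filter]
  refine (NUA_exp_prod _ _ fun _ _ => by positivity).trans (Real.exp_le_exp.2 ?_)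
  rw [Finset.sum_filter]
  calc ∑ p ∈ PI w z, (if ∃ a ∈ s, ∃ a' ∈ s, a ≠ a' ∧ (p : ℤ) ∣ a - a' then 14 / (p : ℝ) else 0)
      ≤ ∑ p ∈ PI w z, ∑ q ∈ s.offDiag, (if (p : ℤ) ∣ q.1 - q.2 then 14 / (p : ℝ) else 0) := by
        refine Finset.sum_le_sum fun p _ => ?_
        split_ifs with h
        · obtain ⟨a, ha, a', ha', hne, hd⟩ := h
          have h1 := Finset.single_le_sum (s := s.offDiag)
            (f := fun q : ℤ × ℤ => if (p : ℤ) ∣ q.1 - q.2 then 14 / (p : ℝ) else 0)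
            (fun q _ => by split_ifs <;> positivity)
            (Finset.mem_offDiag.2 ⟨ha, ha', hne⟩ : (a, a') ∈ s.offDiag)
          simp only [if_pos hd] at h1
          exact h1
        · exact Finset.sum_nonneg fun q _ => by split_ifs <;> positivity
    _ = ∑ q ∈ s.offDiag, ∑ p ∈ (PI w z).filter (fun p : ℕ => (p : ℤ) ∣ q.1 - q.2), 14 / (p : ℝ) := by
        rw [Finset.sum_comm]
        exact Finset.sum_congr rfl fun q _ => (Finset.sum_filter _ _).symm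
    _ ≤ ∑ q ∈ s.offDiag, 14 * Real.log M / (w * Real.log w) := by
        refine Finset.sum_le_sum fun q hq => ?_
        obtain ⟨h1, h2, h3⟩ := Finset.mem_offDiag.1 hq
        refine NUA_sumk hw (sub_ne_zero.2 h3) (hs _ h1 _ h2) fun p hp => ?_
        rw [Finset.mem_filter, NUA_mem hz] at hp
        exact ⟨hp.1.1, hp.1.2.1, hp.2⟩
    _ ≤ 224 * Real.log M / (w * Real.log w) := by
        rw [Finset.sum_const, nsmul_eq_mul]
        have h1 : (s.offDiag.card : ℝ) ≤ 16 := by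
          have h2 : s.offDiag.card ≤ 16 := by
            rw [Finset.offDiag_card]
            have : s.card * s.card ≤ 4 * 4 := Nat.mul_le_mul hs4 hs4
            omega
          exact_mod_cast h2
        have h2 : (224 : ℝ) * Real.log M / (w * Real.log w) =
            16 * (14 * Real.log M / (w * Real.log w)) := by ring
        rw [h2]
        exact mul_le_mul_of_nonneg_right h1 (by positivity)

theorem NUA_ev (η : ℝ) (hη : 0 < η) : ∃ X : ℝ, ∀ x : ℝ, X ≤ x → 1 ≤ x ∧ 2 ≤ yy x ∧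
    1 ≤ Real.log x ∧ Real.exp (100000 / Real.log (yy x)) ≤ 1 + η / 4 := by
  have h1 : Tendsto (fun x : ℝ => Real.exp (100000 / Real.log (yy x))) atTop (nhds 1) := by
    have h2 : Tendsto (fun x : ℝ => 100000 / Real.log (yy x)) atTop (nhds 0) := by
      apply Tendsto.div_atTop tendsto_const_nhds
      exact Real.tendsto_log_atTop.comp (tendsto_natCast_atTop_atTop.comp tendsto_yy)
    have h3 := (Real.continuous_exp.tendsto 0).comp h2
    rwa [Real.exp_zero] at h3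
  have h4 := h1.eventually (ge_mem_nhds (by linarith : (1 : ℝ) < 1 + η / 4))
  obtain ⟨X, hX⟩ := Filter.eventually_atTop.1 (h4.and ((eventually_ge_atTop 1).and
    ((tendsto_yy.eventually_ge_atTop 2).and (Real.tendsto_log_atTop.eventually_ge_atTop 1))))
  exact ⟨X, fun x hx => ⟨(hX x hx).2.1, (hX x hx).2.2.1, (hX x hx).2.2.2, (hX x hx).1⟩⟩

theorem NUA (η : ℝ) (hη : 0 < η) (hη1 : η ≤ 1) : ∃ δ₀ : ℝ, 0 < δ₀ ∧ δ₀ ≤ η ∧ ∀ δ : ℝ, 0 < δ → δ ≤ δ₀ →
    ∃ X : ℝ, ∀ x : ℝ, X ≤ x → ∃ nu : ℤ → ℝ,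
      (∀ n, 0 ≤ nu n) ∧
      (∀ n : ℤ, (∀ p ∈ PI (yy x : ℝ) (x ^ δ), ¬ (p : ℤ) ∣ n) → nu n = 1) ∧
      TD (PR (yy x : ℝ) (x ^ δ)) (x ^ η) nu ∧
      (∀ s : Finset ℤ, 1 ≤ s.card → s.card ≤ 4 → (∀ a ∈ s, ∀ a' ∈ s, |((a - a' : ℤ) : ℝ)| ≤ 4 * (Real.log x) ^ 2) →
        ∀ e : ℤ → ℕ, (∀ a, 1 ≤ e a ∧ e a ≤ 4) →
        avgP (PR (yy x : ℝ) (x ^ δ)) (fun m => ∏ a ∈ s, nu (m + a) ^ e a)
          ≤ (1 + η) * EP (yy x : ℝ) (x ^ δ) ^ s.card) ∧
      EP (yy x : ℝ) (x ^ δ) ≤ avgP (PR (yy x : ℝ) (x ^ δ)) nu := by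
  classical
  obtain ⟨L, hL, hmer⟩ := mer1
  obtain ⟨b₁, hb₁⟩ := BLK L hL
  obtain ⟨n₁, hn₁⟩ := exists_pow_lt_of_lt_one
    (show (0 : ℝ) < Real.log (1 + η / 4) / 2 from by
      have := Real.log_pos (by linarith : (1 : ℝ) < 1 + η / 4)
      linarith) (by norm_num : (1 / 2 : ℝ) < 1)
  obtain ⟨b₀, hb₀⟩ : ∃ b₀ : ℕ, b₀ = max b₁ n₁ := ⟨_, rfl⟩
  have hgeo : Real.exp (2 * (1 / 2 : ℝ) ^ b₀) ≤ 1 + η / 4 := by
    have h1 : (1 / 2 : ℝ) ^ b₀ ≤ (1 / 2 : ℝ) ^ n₁ :=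
      pow_le_pow_of_le_one (by norm_num) (by norm_num) (by rw [hb₀]; exact le_max_right _ _)
    rw [← Real.le_log_iff_exp_le (by linarith)]
    linarith
  obtain ⟨X, hX⟩ := NUA_ev η hη
  refine ⟨η / (4 * b₀ + 8), by positivity, ?_, fun δ hδ hδ0 => ⟨X, fun x hx => ?_⟩⟩
  · refine div_le_self hη.le ?_
    have : (0 : ℝ) ≤ b₀ := Nat.cast_nonneg _
    linarith
  obtain ⟨hx1, hy2, hlog, hexp⟩ := hX x hx
  obtain ⟨w, hw⟩ : ∃ w : ℝ, w = (yy x : ℝ) := ⟨_, rfl⟩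
  obtain ⟨z, hzdef⟩ : ∃ z : ℝ, z = x ^ δ := ⟨_, rfl⟩
  have hz : 1 ≤ z := by
    rw [hzdef]
    exact Real.one_le_rpow hx1 hδ.le
  obtain ⟨J, hJ⟩ := NUA_exJ hz
  have hPR : PR w z = ∏ j ∈ range J, ∏ p ∈ NUA_B w z j, p := NUA_prod hz (fun p => p) hJ
  have hEP : EP w z = ∏ j ∈ range J, ∏ p ∈ NUA_B w z j, (1 - 1 / (p : ℝ)) := NUA_prod hz _ hJ
  have hBp : ∀ j, ∀ p ∈ NUA_B w z j, p.Prime := fun j p hp => ((NUA_memB hz).1 hp).1
  have hw2 : (2 : ℝ) ≤ w := by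
    rw [hw]
    exact_mod_cast hy2
  have hPRpos : 0 < PR w z := by
    rw [hPR]
    exact Finset.prod_pos fun j _ => NUA_pos w z hz j
  have hBsum : ∀ j, ∑ p ∈ NUA_B w z j, 1 / (p : ℝ) ≤ L := by
    intro j
    refine le_trans ?_ (hmer (NUA_z z j) (NUA_one_le hz j))
    refine Finset.sum_le_sum_of_subset_of_nonneg (fun p hp => ?_) fun _ _ _ => by positivity
    rw [NUA_memB hz] at hp
    rw [NUA_mem (by linarith [NUA_one_le hz j]), NUA_z_succ (by linarith)]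
    exact ⟨hp.1, hp.2.2.1, hp.2.2.2⟩
  rw [← hw, ← hzdef]
  refine ⟨fun n => ∏ j ∈ range J, gb (b₀ + j) (om (NUA_B w z j) n), fun n => ?_, fun n hn => ?_, ?_,
    fun s hs1 hs4 hsd e he => ?_, ?_⟩
  · exact Finset.prod_nonneg fun j _ => gb_nonneg _ _
  · refine Finset.prod_eq_one fun j _ => ?_
    have h1 : om (NUA_B w z j) n = 0 := by
      refine NUA_om fun p hp => hn p ?_
      have hp1 := (NUA_memB hz).1 hp
      rw [NUA_mem (by linarith)]
      refine ⟨hp1.1, hp1.2.1, hp1.2.2.2.trans ?_⟩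
      have h2 := NUA_anti hz (Nat.zero_le j)
      rwa [NUA_z_zero] at h2
    rw [h1, gb, if_pos rfl]
  · have h1 : ∀ j ∈ range J, TD (PR w z) (NUA_z z j ^ (2 * (b₀ + j)))
        (fun n => gb (b₀ + j) (om (NUA_B w z j) n)) := by
      intro j hj
      refine TD_mono (gb_TD (b₀ + j) (hBp j) (NUA_one_le hz j)
        (fun p hp => ((NUA_memB hz).1 hp).2.2.2)) ?_ le_rfl
      rw [hPR]
      exact Finset.dvd_prod_of_mem (fun j => ∏ p ∈ NUA_B w z j, p) hj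
    refine TD_mono (TD_prod (range J) hPRpos h1) dvd_rfl ?_
    have hx0 : (0 : ℝ) < x := by linarith
    have h2 : ∏ j ∈ range J, NUA_z z j ^ (2 * (b₀ + j)) =
        x ^ (∑ j ∈ range J, 2 * δ * ((1 / 2 : ℝ) ^ j * ((b₀ : ℝ) + j))) := by
      rw [Real.rpow_sum_of_pos hx0]
      refine Finset.prod_congr rfl fun j _ => ?_
      rw [NUA_z, ← Real.rpow_natCast, ← Real.rpow_mul (by linarith), hzdef,
        ← Real.rpow_mul hx0.le]
      congr 1
      push_cast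
      ring
    rw [h2]
    refine Real.rpow_le_rpow_of_exponent_le hx1 ?_
    rw [← Finset.mul_sum]
    have h3 := NUA_sumj (b₀ : ℝ) J
    have h4 : (0 : ℝ) ≤ 2 * ((b₀ : ℝ) + J + 1) * (1 / 2 : ℝ) ^ J := by positivity
    have h5 : ∑ j ∈ range J, (1 / 2 : ℝ) ^ j * ((b₀ : ℝ) + j) ≤ 2 * b₀ + 2 := by linarith
    rw [le_div_iff₀ (by positivity)] at hδ0
    have h6 : 2 * δ * ∑ j ∈ range J, (1 / 2 : ℝ) ^ j * ((b₀ : ℝ) + j) ≤ 2 * δ * (2 * b₀ + 2) :=
      mul_le_mul_of_nonneg_left h5 (by positivity)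
    nlinarith
  · have h1 : (fun m : ℤ => ∏ a ∈ s, (∏ j ∈ range J, gb (b₀ + j) (om (NUA_B w z j) (m + a))) ^ e a) =
        fun m => ∏ j ∈ range J, ∏ a ∈ s, gb (b₀ + j) (om (NUA_B w z j) (m + a)) ^ e a := by
      funext m
      rw [Finset.prod_comm]
      exact Finset.prod_congr rfl fun a _ => (Finset.prod_pow _ _ _).symm
    rw [h1, hPR, NUA_avg (fun j => ∏ p ∈ NUA_B w z j, p)
      (fun j m => ∏ a ∈ s, gb (b₀ + j) (om (NUA_B w z j) (m + a)) ^ e a) (NUA_pos w z hz)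
      (fun j n k => by
        refine Finset.prod_congr rfl fun a _ => ?_
        rw [show n + k * ((∏ p ∈ NUA_B w z j, p : ℕ) : ℤ) + a =
          (n + a) + k * ((∏ p ∈ NUA_B w z j, p : ℕ) : ℤ) by ring, NUA_om_per]) (NUA_cop hz)]
    have h2 : ∀ j ∈ range J, avgP (∏ p ∈ NUA_B w z j, p)
        (fun m => ∏ a ∈ s, gb (b₀ + j) (om (NUA_B w z j) (m + a)) ^ e a) ≤
        (1 + (1 / 2) ^ (b₀ + j)) * (∏ p ∈ NUA_B w z j, (1 - 1 / (p : ℝ))) ^ s.card *
          ∏ p ∈ NUA_B w z j, (if ∃ a ∈ s, ∃ a' ∈ s, a ≠ a' ∧ (p : ℤ) ∣ a - a' then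
            (1 + 14 / (p : ℝ)) else 1) := by
      intro j _
      rw [← Finset.prod_filter]
      exact hb₁ (b₀ + j) (by rw [hb₀]; exact (le_max_left _ _).trans (Nat.le_add_right _ _))
        (NUA_B w z j) (hBp j) (hBsum j) s hs1 hs4 e he
    refine (Finset.prod_le_prod (fun j _ => ?_) h2).trans ?_
    · refine div_nonneg (Finset.sum_nonneg fun m _ => Finset.prod_nonneg fun a _ => ?_)
        (Nat.cast_nonneg _)
      exact pow_nonneg (gb_nonneg _ _) _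
    rw [Finset.prod_mul_distrib, Finset.prod_mul_distrib, Finset.prod_pow, ← hEP,
      ← NUA_prod hz _ hJ]
    have hEP0 : 0 ≤ EP w z := (EP_pos w z).le
    have hM1 : (1 : ℝ) ≤ 4 * (Real.log x) ^ 2 := by nlinarith
    have h3 := NUA_diff (w := w) (M := 4 * (Real.log x) ^ 2) (z := z) (by linarith) hM1 s hs4 hsd
      (by linarith)
    have h4 : Real.exp (224 * Real.log (4 * (Real.log x) ^ 2) / (w * Real.log w)) ≤ 1 + η / 4 := by
      refine le_trans (Real.exp_le_exp.2 ?_) hexp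
      rw [← hw]
      have hlw : 0 < Real.log w := Real.log_pos (by linarith)
      rw [div_le_div_iff₀ (by positivity) hlw]
      have h5 : Real.log (4 * (Real.log x) ^ 2) ≤ 401 * w := by
        rw [Real.log_mul (by norm_num) (by positivity), Real.log_pow]
        have h6 := yy_lower (x := x) (by omega)
        rw [← hw] at h6
        have h7 : Real.log 4 ≤ 2 := by
          have h8 : Real.log 4 = 2 * Real.log 2 := by
            rw [show (4 : ℝ) = 2 ^ 2 by norm_num, Real.log_pow]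
            norm_num
          rw [h8]
          linarith [Real.log_two_lt_d9]
        push_cast
        linarith
      have h9 : 224 * Real.log (4 * (Real.log x) ^ 2) ≤ 100000 * w := by nlinarith
      calc 224 * Real.log (4 * (Real.log x) ^ 2) * Real.log w ≤ 100000 * w * Real.log w :=
            mul_le_mul_of_nonneg_right h9 hlw.le
        _ = 100000 * (w * Real.log w) := by ring
    have h5 := (NUA_geom b₀ J).trans hgeo
    have h6 := h3.trans h4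
    have hEs : 0 ≤ EP w z ^ s.card := pow_nonneg hEP0 _
    have h7 : (0 : ℝ) ≤ ∏ j ∈ range J, (1 + (1 / 2 : ℝ) ^ (b₀ + j)) :=
      Finset.prod_nonneg fun _ _ => by positivity
    have h8 : (0 : ℝ) ≤ ∏ p ∈ PI w z, (if ∃ a ∈ s, ∃ a' ∈ s, a ≠ a' ∧ (p : ℤ) ∣ a - a' then
        (1 + 14 / (p : ℝ)) else 1) :=
      Finset.prod_nonneg fun _ _ => by split_ifs <;> positivity
    calc (∏ j ∈ range J, (1 + (1 / 2 : ℝ) ^ (b₀ + j))) * EP w z ^ s.card *
        ∏ p ∈ PI w z, (if ∃ a ∈ s, ∃ a' ∈ s, a ≠ a' ∧ (p : ℤ) ∣ a - a' then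
        (1 + 14 / (p : ℝ)) else 1)
        ≤ (1 + η / 4) * EP w z ^ s.card * (1 + η / 4) :=
          mul_le_mul (mul_le_mul_of_nonneg_right h5 hEs) h6 h8
            (mul_nonneg (by linarith) hEs)
      _ = (1 + η / 4) * (1 + η / 4) * EP w z ^ s.card := by ring
      _ ≤ (1 + η) * EP w z ^ s.card := by
          refine mul_le_mul_of_nonneg_right ?_ hEs
          nlinarith
  · rw [hPR, NUA_avg (fun j => ∏ p ∈ NUA_B w z j, p)
      (fun j m => gb (b₀ + j) (om (NUA_B w z j) m)) (NUA_pos w z hz)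
      (fun j n k => by rw [NUA_om_per]) (NUA_cop hz), hEP]
    refine Finset.prod_le_prod (fun j _ => Finset.prod_nonneg fun p hp => ?_) fun j _ =>
      BLK_lower (b₀ + j) (hBp j)
    have h1 : (1 : ℝ) ≤ p := by exact_mod_cast (hBp j p hp).one_le
    have h2 : 1 / (p : ℝ) ≤ 1 := by
      rw [div_le_one (by linarith)]
      exact h1
    linarith

end Pool.Agent.H6.MB
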