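import Pool.Agent.H17.UPNT

/-!
# PAU: uniform upper bound for primes in progressions to very small moduli

The companion of `Pool.Agent.H17.piAP_lower` (file `Pool/Agent/H17/UPNT.lean`). The proof there bounds `psiAP` from
below by means of a bump function below the indicator of a half line and the estimate of a contour-type integral which is
uniform for `q^34 ≤ log x` (`WI.lean`, `CharBound.lean`). For the upper bound we use the Schwartz function
`g v = e^v φ(v)` with a smooth `φ`, equal to `1` on the half line `v ≤ 0` and to `0` for `v ≥ κ`: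
`psiAP a x ≤ ∑_n Λ(n) 1_{n ≡ a} φ(log n - log x)`, main term `≤ (1+ε) x/φ(q)`. Then from `ψ` to `θ` (`thetaAP ≤ psiAP`) and
from `θ` to `π`: `piAP a x ≤ x^{1-κ} + (1/((1-κ) log x)) thetaAP a x` (`piAP_le` in `PNT.lean`), where `x^{1-κ}` is
negligible because `φ(q) ≤ q ≤ log x`.
-/

set_option autoImplicit false

open Filter Topology

namespace Pool.Agent.H6.MB

open Pool.Agent.H17

open ArithmeticFunction ArithmeticFunction.vonMangoldt DirichletCharacter

/-- smooth cutoff: `1` for `v ≤ 0`, `0` for `v ≥ κ` -/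
private noncomputable def PAU_phi (κ v : ℝ) : ℝ := Real.smoothTransition (1 - v / κ)

private theorem PAU_phi_nonneg (κ v : ℝ) : 0 ≤ PAU_phi κ v := Real.smoothTransition.nonneg _

private theorem PAU_phi_le_one (κ v : ℝ) : PAU_phi κ v ≤ 1 := Real.smoothTransition.le_one _

private theorem PAU_phi_one {κ v : ℝ} (h0 : 0 < κ) (h : v ≤ 0) : PAU_phi κ v = 1 := by
  apply Real.smoothTransition.one_of_one_le
  have : v / κ ≤ 0 := div_nonpos_of_nonpos_of_nonneg h h0.le
  linarith

private theorem PAU_phi_zero {κ v : ℝ} (h0 : 0 < κ) (h : κ ≤ v) : PAU_phi κ v = 0 := by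
  apply Real.smoothTransition.zero_of_nonpos
  have : 1 ≤ v / κ := by rwa [le_div_iff₀ h0, one_mul]
  linarith

private noncomputable def PAU_f (κ v : ℝ) : ℂ := ((Real.exp v * PAU_phi κ v : ℝ) : ℂ)

private theorem PAU_f_contDiff (κ : ℝ) : ContDiff ℝ ((⊤ : ℕ∞)) (PAU_f κ) := by
  have h1 : ContDiff ℝ ((⊤ : ℕ∞)) (PAU_phi κ) := by
    unfold PAU_phi
    exact Real.smoothTransition.contDiff.comp (contDiff_const.sub (contDiff_id.div_const κ))
  have h2 : ContDiff ℝ ((⊤ : ℕ∞)) (fun v : ℝ => Real.exp v * PAU_phi κ v) :=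
    Real.contDiff_exp.mul h1
  exact Complex.ofRealCLM.contDiff.comp h2

private theorem PAU_iter_exp (n : ℕ) :
    iteratedDeriv n (fun v : ℝ => ((Real.exp v : ℝ) : ℂ)) = fun v : ℝ => ((Real.exp v : ℝ) : ℂ) := by
  induction n with
  | zero => rw [iteratedDeriv_zero]
  | succ n ih =>
    rw [iteratedDeriv_succ, ih]
    funext v
    exact ((Real.hasDerivAt_exp v).ofReal_comp).deriv

private theorem PAU_decay {κ : ℝ} (h0 : 0 < κ) (k n : ℕ) :
    ∃ C : ℝ, ∀ v, ‖v‖ ^ k * ‖iteratedFDeriv ℝ n (PAU_f κ) v‖ ≤ C := by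
  have hc : Continuous (iteratedFDeriv ℝ n (PAU_f κ)) :=
    (PAU_f_contDiff κ).continuous_iteratedFDeriv (by exact_mod_cast le_top)
  have hF : Continuous (fun v : ℝ => ‖v‖ ^ k * ‖iteratedFDeriv ℝ n (PAU_f κ) v‖) :=
    (continuous_norm.pow k).mul hc.norm
  obtain ⟨C1, hC1⟩ := (isCompact_Icc (a := (0 : ℝ)) (b := κ)).exists_bound_of_continuousOn
    hF.continuousOn
  refine ⟨max C1 (k.factorial : ℝ), fun v => ?_⟩
  rcases lt_or_ge v 0 with hv | hv
  · refine le_trans ?_ (le_max_right _ _)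
    have e1 : PAU_f κ =ᶠ[𝓝 v] fun v : ℝ => ((Real.exp v : ℝ) : ℂ) := by
      filter_upwards [eventually_lt_nhds hv] with w hw
      simp only [PAU_f, PAU_phi_one h0 hw.le, mul_one]
    have e2 : iteratedFDeriv ℝ n (PAU_f κ) v =
        iteratedFDeriv ℝ n (fun v : ℝ => ((Real.exp v : ℝ) : ℂ)) v :=
      (e1.iteratedFDeriv ℝ n).eq_of_nhds
    rw [e2, norm_iteratedFDeriv_eq_norm_iteratedDeriv, PAU_iter_exp, Complex.norm_real,
      Real.norm_of_nonneg (Real.exp_pos v).le, Real.norm_eq_abs, abs_of_neg hv]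
    have h1 := Real.pow_div_factorial_le_exp (-v) (by linarith) k
    have h2 : (0 : ℝ) < k.factorial := by exact_mod_cast Nat.factorial_pos k
    rw [div_le_iff₀ h2] at h1
    calc (-v) ^ k * Real.exp v ≤ Real.exp (-v) * k.factorial * Real.exp v := by
          gcongr
      _ = (Real.exp (-v) * Real.exp v) * k.factorial := by ring
      _ = k.factorial := by rw [← Real.exp_add, neg_add_cancel, Real.exp_zero, one_mul]
  · rcases le_or_gt v κ with hv2 | hv2
    · refine le_trans ?_ (le_max_left _ _)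
      exact (le_abs_self _).trans (hC1 v ⟨hv, hv2⟩)
    · have e1 : PAU_f κ =ᶠ[𝓝 v] fun _ : ℝ => (0 : ℂ) := by
        filter_upwards [eventually_gt_nhds hv2] with w hw
        simp only [PAU_f, PAU_phi_zero h0 hw.le, mul_zero, Complex.ofReal_zero]
      have e2 : iteratedFDeriv ℝ n (PAU_f κ) v = iteratedFDeriv ℝ n (fun _ : ℝ => (0 : ℂ)) v :=
        (e1.iteratedFDeriv ℝ n).eq_of_nhds
      have e3 : iteratedFDeriv ℝ n (fun _ : ℝ => (0 : ℂ)) = 0 := iteratedFDeriv_zero_fun
      rw [e2, e3]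
      simp only [Pi.zero_apply, norm_zero, mul_zero]
      exact le_trans (by positivity) (le_max_right _ _)

/-- the weight `e^v φ(v)` as a Schwartz function -/
private noncomputable def PAU_g (κ : ℝ) (h0 : 0 < κ) : SchwartzMap ℝ ℂ where
  toFun := PAU_f κ
  smooth' := PAU_f_contDiff κ
  decay' := PAU_decay h0

private theorem PAU_g_apply {κ : ℝ} (h0 : 0 < κ) (v : ℝ) :
    PAU_g κ h0 v = ((Real.exp v * PAU_phi κ v : ℝ) : ℂ) := rfl

/-- main inequality -/
private theorem PAU_psiAP_le_main {κ : ℝ} (h0 : 0 < κ) :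
    ∃ C : ℝ, 0 ≤ C ∧ ∀ x : ℝ, 1 < x → ∀ (q : ℕ) [NeZero q] (a : ZMod q), IsUnit a →
      q.totient * psiAP a x ≤
        Chebyshev.psi (x * Real.exp κ) + C * (q : ℝ) ^ 17 * x / Real.log x := by
  set g := PAU_g κ h0 with hg
  have hCg : 0 ≤ Cg (FourierTransform.fourier g) := by
    unfold Cg
    apply mul_nonneg (by positivity)
    apply MeasureTheory.integral_nonneg
    intro ξ
    simp only [Pi.zero_apply]
    positivity
  refine ⟨Cg (FourierTransform.fourier g), hCg, ?_⟩
  intro x hx q _ a ha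
  have hx0 : 0 < x := by linarith
  set u := Real.log x with hu
  have hu0 : 0 < u := Real.log_pos hx
  set N := ⌊x * Real.exp κ⌋₊ + 1 with hN
  have hxN : x * Real.exp κ ≤ N := by rw [hN]; push_cast; exact (Nat.lt_floor_add_one _).le
  have hN' : Real.exp (u + κ) ≤ N := by rw [Real.exp_add, hu, Real.exp_log hx0]; exact hxN
  have hxκ : x ≤ x * Real.exp κ := by
    have : 1 ≤ Real.exp κ := Real.one_le_exp h0.le
    nlinarith
  set b : ℕ → ℝ := fun n => PAU_phi κ (Real.log n - u) with hb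
  have hb0 : ∀ n, 0 ≤ b n := fun n => PAU_phi_nonneg _ _
  have hb1 : ∀ n, b n ≤ 1 := fun n => PAU_phi_le_one _ _
  have hbzero : ∀ n : ℕ, x * Real.exp κ ≤ n → b n = 0 := by
    intro n hn
    apply PAU_phi_zero h0
    have h1 := Real.log_le_log (by positivity) hn
    rw [Real.log_mul hx0.ne' (Real.exp_ne_zero _), Real.log_exp] at h1
    linarith
  have hbone : ∀ n : ℕ, 1 ≤ n → (n : ℝ) ≤ x → b n = 1 := by
    intro n hn1 hn
    apply PAU_phi_one h0
    have hn0 : (0 : ℝ) < n := by exact_mod_cast hn1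
    have h1 := Real.log_le_log hn0 hn
    linarith
  -- value of g
  have hgv : ∀ n : ℕ, 1 ≤ n → (1 / (n : ℂ)) * g (Real.log n - u) = ((b n / x : ℝ) : ℂ) := by
    intro n hn
    have hn0 : (0 : ℝ) < n := by exact_mod_cast hn
    rw [hg, PAU_g_apply, Real.exp_sub, Real.exp_log hn0, hu, Real.exp_log hx0]
    have : (n : ℂ) ≠ 0 := by exact_mod_cast (by omega : n ≠ 0)
    have hx' : (x : ℂ) ≠ 0 := by exact_mod_cast hx0.ne'
    push_cast
    field_simp
    rfl
  set T : DirichletCharacter ℂ q → ℂ := fun χ => ∑ n ∈ Finset.Icc 1 N, χ n * ((vonMangoldt n * b n : ℝ) : ℂ) with hT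
  have hTbound : ∀ χ : DirichletCharacter ℂ q, χ ≠ 1 → ‖T χ‖ ≤ x * (Cg (FourierTransform.fourier g) * q ^ 16 / u) := by
    intro χ hχ
    have h1 := smooth_bound_one hχ g (R := κ) (by
      intro v hv
      rw [hg, PAU_g_apply, PAU_phi_zero h0 hv.le]
      simp) hu0 hN'
    have h2 : T χ = x * ∑ n ∈ Finset.Icc 1 N, χ n * ((ArithmeticFunction.vonMangoldt n : ℝ) : ℂ) / n * g (Real.log n - u) := by
      rw [hT, Finset.mul_sum]
      apply Finset.sum_congr rfl
      intro n hn
      rw [Finset.mem_Icc] at hn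
      have h3 := hgv n hn.1
      have h4 : χ n * ((ArithmeticFunction.vonMangoldt n : ℝ) : ℂ) / n * g (Real.log n - u)
          = χ n * ((ArithmeticFunction.vonMangoldt n : ℝ) : ℂ) * ((1 / (n : ℂ)) * g (Real.log n - u)) := by ring
      rw [h4, h3]
      have hx' : (x : ℂ) ≠ 0 := by exact_mod_cast hx0.ne'
      push_cast
      field_simp
    rw [h2, norm_mul, Complex.norm_real, Real.norm_of_nonneg hx0.le]
    gcongr
  -- orthogonality
  have horth : ∑ χ : DirichletCharacter ℂ q, χ a⁻¹ * T χ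
      = ((q.totient * ∑ n ∈ Finset.Icc 1 N, residueClass a n * b n : ℝ) : ℂ) := by
    simp only [hT, Finset.mul_sum]
    rw [Finset.sum_comm]
    push_cast
    apply Finset.sum_congr rfl
    intro n _
    have h1 : ∀ χ : DirichletCharacter ℂ q, χ a⁻¹ * (χ n * (((vonMangoldt n : ℝ) : ℂ) * ((b n : ℝ) : ℂ)))
        = (χ a⁻¹ * χ n) * (((vonMangoldt n : ℝ) : ℂ) * ((b n : ℝ) : ℂ)) := fun χ => by ring
    simp_rw [h1]
    rw [← Finset.sum_mul, sum_char_inv_mul_char_eq ℂ ha]
    unfold residueClass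
    by_cases hn : a = n
    · rw [if_pos hn, Set.indicator_of_mem (by exact hn.symm)]
    · rw [if_neg hn, Set.indicator_of_notMem (by exact fun h => hn h.symm)]; simp
  have hlow : psiAP a x ≤ ∑ n ∈ Finset.Icc 1 N, residueClass a n * b n := by
    unfold psiAP
    have h1 : ∑ n ∈ Finset.Icc 1 ⌊x⌋₊, residueClass a n = ∑ n ∈ Finset.Icc 1 ⌊x⌋₊, residueClass a n * b n := by
      apply Finset.sum_congr rfl
      intro n hn
      rw [Finset.mem_Icc] at hn
      rw [hbone n hn.1 ((Nat.le_floor_iff hx0.le).mp hn.2), mul_one]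
    rw [h1]
    apply Finset.sum_le_sum_of_subset_of_nonneg
    · apply Finset.Icc_subset_Icc le_rfl
      rw [hN]
      exact (Nat.floor_le_floor hxκ).trans (Nat.le_succ _)
    · intro n _ _
      exact mul_nonneg (residueClass_nonneg a n) (hb0 n)
  -- principal character
  have hprin : (T 1).re ≤ Chebyshev.psi (x * Real.exp κ) := by
    have e1 : (T 1).re = ∑ n ∈ Finset.Icc 1 N, (if IsUnit (n : ZMod q) then vonMangoldt n * b n else 0) := by
      rw [hT, Complex.re_sum]
      apply Finset.sum_congr rfl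
      intro n _
      by_cases hn : IsUnit (n : ZMod q)
      · rw [if_pos hn, MulChar.one_apply hn, one_mul, Complex.ofReal_re]
      · rw [if_neg hn, MulChar.map_nonunit _ hn, zero_mul, Complex.zero_re]
    have e2 : ∑ n ∈ Finset.Icc 1 N, (if IsUnit (n : ZMod q) then vonMangoldt n * b n else 0)
        ≤ ∑ n ∈ Finset.Icc 1 N, vonMangoldt n * b n := by
      apply Finset.sum_le_sum
      intro n _
      split_ifs
      · exact le_refl _
      · exact mul_nonneg vonMangoldt_nonneg (hb0 n)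
    have e3 : ∑ n ∈ Finset.Icc 1 N, vonMangoldt n * b n
        = ∑ n ∈ Finset.Icc 1 ⌊x * Real.exp κ⌋₊, vonMangoldt n * b n := by
      rw [hN, Finset.sum_Icc_succ_top (by omega)]
      rw [hbzero (⌊x * Real.exp κ⌋₊ + 1) (by rw [← hN]; exact hxN)]
      simp
    have e4 : ∑ n ∈ Finset.Icc 1 ⌊x * Real.exp κ⌋₊, vonMangoldt n * b n ≤ Chebyshev.psi (x * Real.exp κ) := by
      unfold Chebyshev.psi
      have : Finset.Icc 1 ⌊x * Real.exp κ⌋₊ = Finset.Ioc 0 ⌊x * Real.exp κ⌋₊ := by
        ext; simp [Nat.succ_le_iff]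
      rw [this]
      apply Finset.sum_le_sum
      intro n _
      have h3 : (0 : ℝ) ≤ vonMangoldt n := vonMangoldt_nonneg
      have := hb1 n
      nlinarith
    rw [e1]
    linarith
  -- conclusion
  have hsplit : ∑ χ : DirichletCharacter ℂ q, χ a⁻¹ * T χ = T 1 + ∑ χ ∈ Finset.univ.erase (1 : DirichletCharacter ℂ q), χ a⁻¹ * T χ := by
    rw [← Finset.add_sum_erase Finset.univ _ (Finset.mem_univ (1 : DirichletCharacter ℂ q))]
    congr 1
    have hu' : IsUnit a⁻¹ := by
      have := ZMod.mul_inv_of_unit a ha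
      exact IsUnit.of_mul_eq_one a (by rw [mul_comm]; exact this)
    rw [MulChar.one_apply hu', one_mul]
  have hrest : ‖∑ χ ∈ Finset.univ.erase (1 : DirichletCharacter ℂ q), χ a⁻¹ * T χ‖ ≤ Cg (FourierTransform.fourier g) * (q : ℝ) ^ 17 * x / u := by
    have h1 : ‖∑ χ ∈ Finset.univ.erase (1 : DirichletCharacter ℂ q), χ a⁻¹ * T χ‖
        ≤ ∑ χ ∈ Finset.univ.erase (1 : DirichletCharacter ℂ q), x * (Cg (FourierTransform.fourier g) * q ^ 16 / u) := by
      apply norm_sum_le_of_le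
      intro χ hχ
      rw [norm_mul]
      have h2 := hTbound χ (Finset.ne_of_mem_erase hχ)
      have h3 := DirichletCharacter.norm_le_one χ a⁻¹
      calc ‖χ a⁻¹‖ * ‖T χ‖ ≤ 1 * ‖T χ‖ := by gcongr
        _ ≤ _ := by rw [one_mul]; exact h2
    refine h1.trans ?_
    rw [Finset.sum_const, nsmul_eq_mul]
    have h4 : ((Finset.univ.erase (1 : DirichletCharacter ℂ q)).card : ℝ) ≤ q := by
      have h5 : (Finset.univ.erase (1 : DirichletCharacter ℂ q)).card ≤ q := by
        refine (Finset.card_le_card (Finset.erase_subset _ _)).trans ?_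
        rw [Finset.card_univ, ← Nat.card_eq_fintype_card, DirichletCharacter.card_eq_totient_of_hasEnoughRootsOfUnity]
        exact Nat.totient_le q
      exact_mod_cast h5
    calc ((Finset.univ.erase (1 : DirichletCharacter ℂ q)).card : ℝ) * (x * (Cg (FourierTransform.fourier g) * q ^ 16 / u))
        ≤ q * (x * (Cg (FourierTransform.fourier g) * q ^ 16 / u)) := by
          apply mul_le_mul_of_nonneg_right h4
          apply mul_nonneg hx0.le
          apply div_nonneg _ hu0.le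
          apply mul_nonneg hCg (by positivity)
      _ = _ := by ring
  have hre : q.totient * ∑ n ∈ Finset.Icc 1 N, residueClass a n * b n ≤ (T 1).re + Cg (FourierTransform.fourier g) * (q : ℝ) ^ 17 * x / u := by
    have h1 : (∑ χ : DirichletCharacter ℂ q, χ a⁻¹ * T χ).re = q.totient * ∑ n ∈ Finset.Icc 1 N, residueClass a n * b n := by
      rw [horth, Complex.ofReal_re]
    rw [hsplit, Complex.add_re] at h1
    have h2 := (Complex.abs_re_le_norm _).trans hrest
    rw [abs_le] at h2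
    linarith [h2.2]
  have hfin : (q.totient : ℝ) * psiAP a x ≤ q.totient * ∑ n ∈ Finset.Icc 1 N, residueClass a n * b n := by
    gcongr
  linarith

/-- Upper bound for `psiAP`, uniform in moduli `q ≤ (log x)^(1/34)`. -/
private theorem PAU_psiAP_upper {ε : ℝ} (hε : 0 < ε) : ∃ X : ℝ, ∀ x : ℝ, X ≤ x →
    ∀ (q : ℕ) [NeZero q] (a : ZMod q),
    IsUnit a → (q : ℝ) ^ 34 ≤ Real.log x → q.totient * psiAP a x ≤ (1 + ε) * x := by
  have hκ : 0 < Real.log (1 + ε / 2) := Real.log_pos (by linarith)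
  obtain ⟨C, hC, hmain⟩ := PAU_psiAP_le_main hκ
  have e1 : Real.exp (Real.log (1 + ε / 2)) = 1 + ε / 2 := Real.exp_log (by linarith)
  rw [e1] at hmain
  have t1 := tendsto_psi_mul_exp (-Real.log (1 + ε / 2))
  rw [neg_neg, e1] at t1
  have t5 : Tendsto (fun x : ℝ => C * (Real.sqrt (Real.log x))⁻¹) atTop (𝓝 0) := by
    have : Tendsto (fun x : ℝ => (Real.sqrt (Real.log x))⁻¹) atTop (𝓝 0) :=
      (Real.tendsto_sqrt_atTop.comp Real.tendsto_log_atTop).inv_tendsto_atTop
    simpa using this.const_mul C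
  have t := t1.add t5
  have hlim : 1 + ε / 2 + 0 < 1 + ε := by linarith
  have hev := (t.eventually_lt_const hlim).and (eventually_gt_atTop (Real.exp 1))
  obtain ⟨X, hX⟩ := eventually_atTop.mp hev
  refine ⟨X, fun x hx q _ a ha hq => ?_⟩
  obtain ⟨h1, h2⟩ := hX x hx
  have hx1 : 1 < x := by
    have := Real.add_one_le_exp (1 : ℝ)
    linarith
  have hx0 : 0 < x := by linarith
  have hlog1 : 1 ≤ Real.log x := by
    rw [Real.le_log_iff_exp_le hx0]; exact h2.le
  have hlog0 : 0 < Real.log x := by linarith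
  have h3 := hmain x hx1 q a ha
  have hq17 : (q : ℝ) ^ 17 ≤ Real.sqrt (Real.log x) := by
    apply Real.le_sqrt_of_sq_le
    calc ((q : ℝ) ^ 17) ^ 2 = (q : ℝ) ^ 34 := by ring
      _ ≤ _ := hq
  have h6 : C * (q : ℝ) ^ 17 * x / Real.log x ≤ C * x * (Real.sqrt (Real.log x))⁻¹ := by
    rw [div_le_iff₀ hlog0]
    have h7 : Real.sqrt (Real.log x) * Real.sqrt (Real.log x) = Real.log x := Real.mul_self_sqrt hlog0.le
    have h8 : 0 < Real.sqrt (Real.log x) := Real.sqrt_pos.mpr hlog0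
    calc C * (q : ℝ) ^ 17 * x = C * x * (q : ℝ) ^ 17 := by ring
      _ ≤ C * x * Real.sqrt (Real.log x) := by gcongr
      _ = C * x * ((Real.sqrt (Real.log x))⁻¹ * (Real.sqrt (Real.log x) * Real.sqrt (Real.log x))) := by
          field_simp
      _ = _ := by rw [h7]; ring
  have h5 : (Chebyshev.psi (x * (1 + ε / 2)) / x + C * (Real.sqrt (Real.log x))⁻¹) * x
      = Chebyshev.psi (x * (1 + ε / 2)) + C * x * (Real.sqrt (Real.log x))⁻¹ := by
    field_simp
  have h4 : (Chebyshev.psi (x * (1 + ε / 2)) / x + C * (Real.sqrt (Real.log x))⁻¹) * x ≤ (1 + ε) * x := by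
    gcongr
  linarith

theorem piAP_upper {ε : ℝ} (hε : 0 < ε) : ∃ X : ℝ, ∀ x : ℝ, X ≤ x → ∀ (q : ℕ) [NeZero q] (a : ZMod q),
    IsUnit a → (q : ℝ) ^ 68 ≤ Real.log x → piAP a x ≤ (1 + ε) * x / (q.totient * Real.log x) := by
  wlog hε1 : ε ≤ 1 with H
  · obtain ⟨X, hX⟩ := H (ε := 1) one_pos le_rfl
    refine ⟨max X 2, fun x hx q _ a ha hq => ?_⟩
    have h1 := hX x ((le_max_left _ _).trans hx) q a ha hq
    have h2 : 2 ≤ x := (le_max_right _ _).trans hx
    have hlog : 0 < Real.log x := Real.log_pos (by linarith)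
    push Not at hε1
    refine h1.trans ?_
    have hφ0 : (0 : ℝ) < q.totient := by
      exact_mod_cast Nat.totient_pos.mpr (Nat.pos_of_ne_zero (NeZero.ne q))
    gcongr
  obtain ⟨X, hX⟩ := PAU_psiAP_upper (show 0 < ε / 4 by positivity)
  have hδ : 0 < ε / 8 := by positivity
  have hδ1 : ε / 8 < 1 := by linarith
  have t1 : Tendsto (fun x : ℝ => Real.log x ^ 2 / x ^ (ε / 8)) atTop (𝓝 0) := by
    have h3 := (isLittleO_log_rpow_rpow_atTop (2 : ℝ) (s := ε / 8) hδ).tendsto_div_nhds_zero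
    refine h3.congr ?_
    intro x
    norm_num
  have hev := (t1.eventually_lt_const (half_pos hε)).and (eventually_gt_atTop (Real.exp 1))
  obtain ⟨Y, hY⟩ := eventually_atTop.mp hev
  refine ⟨max X Y, fun x hx q _ a ha hq => ?_⟩
  obtain ⟨h2, h3⟩ := hY x ((le_max_right _ _).trans hx)
  have hx1 : 1 < x := by
    have := Real.add_one_le_exp (1 : ℝ)
    linarith
  have hx0 : 0 < x := by linarith
  have hlog1 : 1 ≤ Real.log x := by
    rw [Real.le_log_iff_exp_le hx0]; exact h3.le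
  have hlog0 : 0 < Real.log x := by linarith
  have hq1 : (1 : ℝ) ≤ q := by exact_mod_cast Nat.one_le_iff_ne_zero.mpr (NeZero.ne q)
  have hq34 : (q : ℝ) ^ 34 ≤ Real.log x := (pow_le_pow_right₀ hq1 (by norm_num)).trans hq
  have hq' : (q : ℝ) ≤ Real.log x := by
    calc (q : ℝ) = (q : ℝ) ^ 1 := (pow_one _).symm
      _ ≤ (q : ℝ) ^ 34 := pow_le_pow_right₀ hq1 (by norm_num)
      _ ≤ _ := hq34
  have hφ : (q.totient : ℝ) ≤ Real.log x := by
    refine le_trans ?_ hq'
    exact_mod_cast Nat.totient_le q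
  have hφ0 : (0 : ℝ) < q.totient := by
    exact_mod_cast Nat.totient_pos.mpr (Nat.pos_of_ne_zero (NeZero.ne q))
  have h1 := hX x ((le_max_left _ _).trans hx) q a ha hq34
  have h4 := thetaAP_le_psiAP a x
  have h5 : (q.totient : ℝ) * thetaAP a x ≤ (1 + ε / 4) * x :=
    (mul_le_mul_of_nonneg_left h4 hφ0.le).trans h1
  have h6 := piAP_le a hx1 hδ hδ1
  have hd : 0 < 1 - ε / 8 := by linarith
  rw [le_div_iff₀ (by positivity)]
  have h7 : x ^ (1 - ε / 8) * (q.totient * Real.log x) ≤ ε / 2 * x := by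
    have hxp : 0 < x ^ (ε / 8) := by positivity
    have e1 : x ^ (1 - ε / 8) = x / x ^ (ε / 8) := by rw [Real.rpow_sub hx0, Real.rpow_one]
    calc x ^ (1 - ε / 8) * (q.totient * Real.log x)
        ≤ x ^ (1 - ε / 8) * (Real.log x * Real.log x) := by gcongr
      _ = (Real.log x ^ 2 / x ^ (ε / 8)) * x := by rw [e1]; ring
      _ ≤ ε / 2 * x := by gcongr
  have h8 : thetaAP a x / ((1 - ε / 8) * Real.log x) * (q.totient * Real.log x) ≤ (1 + ε / 2) * x := by
    have e1 : thetaAP a x / ((1 - ε / 8) * Real.log x) * (q.totient * Real.log x)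
        = (q.totient * thetaAP a x) / (1 - ε / 8) := by field_simp
    rw [e1, div_le_iff₀ hd]
    refine h5.trans ?_
    have : (1 + ε / 4) ≤ (1 + ε / 2) * (1 - ε / 8) := by nlinarith
    calc (1 + ε / 4) * x ≤ ((1 + ε / 2) * (1 - ε / 8)) * x := by gcongr
      _ = _ := by ring
  calc (piAP a x : ℝ) * (q.totient * Real.log x)
      ≤ (x ^ (1 - ε / 8) + thetaAP a x / ((1 - ε / 8) * Real.log x)) * (q.totient * Real.log x) := by
        gcongr
    _ = x ^ (1 - ε / 8) * (q.totient * Real.log x)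
        + thetaAP a x / ((1 - ε / 8) * Real.log x) * (q.totient * Real.log x) := by ring
    _ ≤ ε / 2 * x + (1 + ε / 2) * x := by linarith
    _ = (1 + ε) * x := by ring

end Pool.Agent.H6.MB
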