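import Pool.Agent.H6.MB.NUA

/-!
# FOU: the fourth moment of the number of primes in `n + A`, in a class modulo `W`

`NUA` with `η = 1/40` (say) and `δ = δ₀`: `w = yy x`, `z = x^δ`, majorant `nu`. For `n + a > z` prime: `nu (n+a) = 1`.
`(∑_{a ∈ A} X_a)^4` with `X_a = 1[n + a prime] ∈ {0,1}` equals `∑_{s ⊆ A, 1 ≤ |s| ≤ 4} c_s ∏_{a ∈ s} X_a`, `c_s ≤ 36` (the number of
surjections of a 4-set onto `s`); a convenient form: `m^4 ≤ 36 ∑_{k=1}^4 C(m,k)` for naturals `m` and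
`C(#{a ∈ A : n+a prime}, k) = ∑_{s ∈ A.powersetCard k} ∏_{a ∈ s} X_a`. For the `n` with `n ≥ z` each
`∏_{a ∈ s} X_a ≤ ∏_{a ∈ s} nu(n+a)`, and by `TRN` (`TD` bound `x^{4η}` for the product of `≤ 4` factors)
`∑_{n ∈ cls x t} ∏_{a ∈ s} nu(n+a) ≤ (N/W) (1+η) (EP w z)^k + x^{4η}`, `EP w z = wphi x · EP 0 z ≤ wphi x/(δ log x)`
(`mer3`, `MAJ.wphi_eq` may be reproved). Sum over `s`: `≤ C (N/W) ∑_k (mA)^k + |A|^4 x^{1/10}`, and `∑_{k=1}^4 m^k ≤ 4 (m + m^4)`.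
The `n < z` contribute `≤ x^δ |A|^4`. For `A ≠ ∅`: `mA ≥ wphi x/log x ≥ 1/log x`, and `|A| ≤ 3 Λ^2 + 1`, so the two error terms
are `≤ (N/W) mA` for large `x`. For `A = ∅` both sides vanish.
-/

set_option autoImplicit false

namespace Pool.Agent.H6.MB

open Finset Pool.Agent.H17

theorem FOU_pow4 (m : ℕ) :
    m ^ 4 ≤ 36 * (m.choose 1 + m.choose 2 + m.choose 3 + m.choose 4) := by
  rcases m with _ | _ | _ | j
  · decide
  · decide
  · decide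
  · have h2 := Nat.descFactorial_eq_factorial_mul_choose (j + 3) 2
    have h3 := Nat.descFactorial_eq_factorial_mul_choose (j + 3) 3
    have h4 := Nat.descFactorial_eq_factorial_mul_choose (j + 3) 4
    have e1 : j + 3 - 1 = j + 2 := by omega
    have e2 : j + 3 - 2 = j + 1 := by omega
    have e3 : j + 3 - 3 = j := by omega
    simp only [Nat.descFactorial_succ, Nat.descFactorial_zero, Nat.sub_zero, e1, e2, e3,
      Nat.factorial, mul_one] at h2 h3 h4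
    have h1 : (j + 3).choose 1 = j + 3 := Nat.choose_one_right _
    rw [show j + 1 + 1 + 1 = j + 3 by ring, h1]
    nlinarith

theorem FOU_choose (A : Finset ℕ) (n k : ℕ) : ((NN A n).choose k : ℝ) =
    ∑ s ∈ A.powersetCard k, ∏ a ∈ s, (if (n + a).Prime then (1 : ℝ) else 0) := by
  unfold NN
  rw [← Finset.card_powersetCard]
  have h : ∀ s ∈ A.powersetCard k, ∏ a ∈ s, (if (n + a).Prime then (1 : ℝ) else 0) =
      if (∀ a ∈ s, (n + a).Prime) then 1 else 0 := fun s _ => Finset.prod_ite_zero ..|>.trans (by simp)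
  rw [Finset.sum_congr rfl h, Finset.sum_boole]
  congr 2
  ext s
  simp only [Finset.mem_powersetCard, Finset.mem_filter, Finset.subset_iff]
  constructor
  · rintro ⟨h1, h2⟩
    exact ⟨⟨fun a ha => (h1 ha).1, h2⟩, fun a ha => (h1 ha).2⟩
  · rintro ⟨⟨h1, h2⟩, h3⟩
    exact ⟨fun a ha => ⟨h1 ha, h3 a ha⟩, h2⟩

theorem FOU_nu_one {x δ : ℝ} {nu : ℤ → ℝ}
    (hnu : ∀ n : ℤ, (∀ p ∈ PI (yy x : ℝ) (x ^ δ), ¬ (p : ℤ) ∣ n) → nu n = 1) (hx : 0 ≤ x)
    {n a : ℕ} (hn : x ^ δ < (n : ℝ)) (hp : (n + a).Prime) : nu ((n : ℤ) + a) = 1 := by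
  apply hnu
  intro p hpI hdvd
  unfold PI at hpI
  rw [Finset.mem_filter, Finset.mem_range] at hpI
  have h1 : p ∣ n + a := by exact_mod_cast hdvd
  have h2 : p = n + a := (Nat.prime_dvd_prime_iff_eq hpI.2.1 hp).1 h1
  have h3 : (p : ℝ) ≤ x ^ δ :=
    le_trans (by exact_mod_cast Nat.le_of_lt_succ hpI.1) (Nat.floor_le (Real.rpow_nonneg hx δ))
  rw [h2] at h3
  push_cast at h3
  have : (0 : ℝ) ≤ a := Nat.cast_nonneg a
  linarith

theorem FOU_coprime (x z : ℝ) : (WW (yy x)).Coprime (PR (yy x : ℝ) z) := by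
  unfold PR
  rw [Nat.coprime_prod_right_iff]
  intro p hp
  unfold PI at hp
  rw [Finset.mem_filter] at hp
  rw [Nat.coprime_comm, coprime_WW]
  intro q hq hqp
  have h1 := mem_PP.mp hq
  have h2 : q = p := (Nat.prime_dvd_prime_iff_eq h1.2 hp.2.1).1 hqp
  have h3 : (yy x : ℝ) < (p : ℝ) := hp.2.2
  have h4 : yy x < p := by exact_mod_cast h3
  have h5 := h1.1
  omega

theorem FOU_wphi (x : ℝ) : wphi x * EP 0 (yy x : ℝ) = 1 := by
  have hPI : PI 0 ((yy x : ℕ) : ℝ) = PP (yy x) := by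
    ext p
    unfold PI
    rw [Finset.mem_filter, Finset.mem_range, Nat.floor_natCast, mem_PP]
    constructor
    · rintro ⟨h1, h2, -⟩
      exact ⟨by omega, h2⟩
    · rintro ⟨h1, h2⟩
      exact ⟨by omega, h2, by exact_mod_cast h2.pos⟩
  have hφ : (0 : ℝ) < ((WW (yy x)).totient : ℝ) := by
    exact_mod_cast Nat.totient_pos.mpr (WW_pos _)
  have h1 : ((WW (yy x)).totient : ℝ) = (WW (yy x) : ℝ) * EP 0 (yy x : ℝ) := by
    rw [totient_WW]
    unfold EP WW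
    rw [hPI]
    push_cast
    rw [← Finset.prod_mul_distrib]
    refine Finset.prod_congr rfl fun p hp => ?_
    have : (p : ℝ) ≠ 0 := by exact_mod_cast (mem_PP.mp hp).2.ne_zero
    field_simp
  unfold wphi
  rw [div_mul_eq_mul_div, ← h1, div_self hφ.ne']

theorem FOU_wphi_ge (x : ℝ) : 1 ≤ wphi x := by
  have h1 := FOU_wphi x
  have h2 := EP_le_one 0 (yy x : ℝ)
  have h3 := EP_pos 0 (yy x : ℝ)
  have h4 : 0 ≤ wphi x := by unfold wphi; positivity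
  nlinarith

theorem FOU_EP {x δ : ℝ} (hx : 0 < x) (hδ : 0 < δ) (h2 : 2 ≤ x ^ δ) (hy : (yy x : ℝ) ≤ x ^ δ) :
    EP (yy x : ℝ) (x ^ δ) ≤ wphi x / Real.log x / δ := by
  have h3 := mer3 (x ^ δ) h2
  rw [EP_mul (Nat.cast_nonneg (yy x)) hy, Real.log_rpow hx] at h3
  have h4 := FOU_wphi x
  have h5 := FOU_wphi_ge x
  have h6 : EP (yy x : ℝ) (x ^ δ) = wphi x * (EP 0 (yy x : ℝ) * EP (yy x : ℝ) (x ^ δ)) := by
    rw [← mul_assoc, h4, one_mul]
  rw [h6]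
  calc wphi x * (EP 0 (yy x : ℝ) * EP (yy x : ℝ) (x ^ δ)) ≤ wphi x * (1 / (δ * Real.log x)) :=
        mul_le_mul_of_nonneg_left h3 (by linarith)
    _ = wphi x / Real.log x / δ := by
        rw [div_div, mul_comm (Real.log x) δ, mul_one_div]

/-- the sum over the class for one set of shifts -/
theorem FOU_s {η δ x : ℝ} {nu : ℤ → ℝ} (hη : 0 < η) (hx : 1 ≤ x)
    (hTD : TD (PR (yy x : ℝ) (x ^ δ)) (x ^ η) nu)
    (havg : ∀ s : Finset ℤ, 1 ≤ s.card → s.card ≤ 4 →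
      (∀ a ∈ s, ∀ a' ∈ s, |((a - a' : ℤ) : ℝ)| ≤ 4 * (Real.log x) ^ 2) →
        ∀ e : ℤ → ℕ, (∀ a, 1 ≤ e a ∧ e a ≤ 4) →
        avgP (PR (yy x : ℝ) (x ^ δ)) (fun m => ∏ a ∈ s, nu (m + a) ^ e a)
          ≤ (1 + η) * EP (yy x : ℝ) (x ^ δ) ^ s.card)
    {t : ℕ} (ht : t < WW (yy x)) {A : Finset ℕ} (hA : SA x t A) {s : Finset ℕ} (hs : s ⊆ A)
    {k : ℕ} (hk : s.card = k) (hk1 : 1 ≤ k) (hk4 : k ≤ 4) :
    ∑ n ∈ cls x t, ∏ a ∈ s, nu ((n : ℤ) + a) ≤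
      ((⌊x⌋₊ : ℝ) + 1) / (WW (yy x) : ℝ) * ((1 + η) * EP (yy x : ℝ) (x ^ δ) ^ k) + (x ^ η) ^ 4 := by
  have hP : 0 < PR (yy x : ℝ) (x ^ δ) := by
    unfold PR
    refine Finset.prod_pos fun p hp => ?_
    unfold PI at hp
    rw [Finset.mem_filter] at hp
    exact hp.2.1.pos
  have hT : TD (PR (yy x : ℝ) (x ^ δ)) (∏ _a ∈ s, x ^ η) (fun n => ∏ a ∈ s, nu (n + (a : ℤ))) :=
    TD_prod s hP (fun a _ => TD_add_shift hTD (a : ℤ))
  rw [Finset.prod_const, hk] at hT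
  have h1 := (abs_le.1 (TRN hT (WW_pos (yy x)) (FOU_coprime x _) ht (⌊x⌋₊ + 1) (by first | assumption | positivity))).2
  have h2 : avgP (PR (yy x : ℝ) (x ^ δ)) (fun n => ∏ a ∈ s, nu (n + (a : ℤ))) ≤
      (1 + η) * EP (yy x : ℝ) (x ^ δ) ^ k := by
    have h3 := havg (s.map Nat.castEmbedding) (by rw [Finset.card_map]; omega)
      (by rw [Finset.card_map]; omega) (by
        intro a ha a' ha'
        rw [Finset.mem_map] at ha ha'
        obtain ⟨b, hb, rfl⟩ := ha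
        obtain ⟨b', hb', rfl⟩ := ha'
        have h4 := (hA b (hs hb)).1
        have h5 := (hA b' (hs hb')).1
        have h6 : (0 : ℝ) ≤ b := Nat.cast_nonneg b
        have h7 : (0 : ℝ) ≤ b' := Nat.cast_nonneg b'
        have h8 := sq_nonneg (Real.log x)
        simp only [Nat.castEmbedding_apply]
        push_cast
        rw [abs_le]
        constructor <;> linarith) (fun _ => 1) (fun _ => ⟨le_refl _, by norm_num⟩)
    rw [Finset.card_map, hk] at h3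
    refine le_trans (le_of_eq ?_) h3
    congr 1
    funext n
    rw [Finset.prod_map]
    refine Finset.prod_congr rfl fun a _ => ?_
    rw [pow_one]
    rfl
  have hB : (x ^ η) ^ k ≤ (x ^ η) ^ 4 :=
    pow_le_pow_right₀ (Real.one_le_rpow hx hη.le) hk4
  have hNW : (0 : ℝ) ≤ ((⌊x⌋₊ + 1 : ℕ) : ℝ) / (WW (yy x) : ℝ) := by positivity
  have h3 := mul_le_mul_of_nonneg_left h2 hNW
  have h4 : ∑ n ∈ cls x t, ∏ a ∈ s, nu ((n : ℤ) + a) =
      ∑ n ∈ (Finset.range (⌊x⌋₊ + 1)).filter (fun n => n % WW (yy x) = t),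
        (fun n : ℤ => ∏ a ∈ s, nu (n + (a : ℤ))) (n : ℤ) := rfl
  rw [h4]
  push_cast at h1 h3 ⊢
  linarith

theorem FOU_pow_le {m : ℝ} (hm : 0 ≤ m) {k : ℕ} (hk1 : 1 ≤ k) (hk4 : k ≤ 4) :
    m ^ k ≤ m ^ 4 + m := by
  rcases le_total m 1 with h | h
  · have h1 : m ^ k ≤ m ^ 1 := pow_le_pow_of_le_one hm h hk1
    have h2 := pow_nonneg hm 4
    rw [pow_one] at h1
    linarith
  · have h1 : m ^ k ≤ m ^ 4 := pow_le_pow_right₀ h hk4
    linarith

theorem FOU_card_pow (E : ℕ) {k : ℕ} (hk1 : 1 ≤ k) (hk4 : k ≤ 4) : (E : ℝ) ^ k ≤ (E : ℝ) ^ 4 := by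
  rcases Nat.eq_zero_or_pos E with h | h
  · subst h
    rw [Nat.cast_zero, zero_pow (by omega), zero_pow (by norm_num)]
  · exact pow_le_pow_right₀ (by exact_mod_cast h) hk4

theorem FOU_card {x : ℝ} (hL : 1 ≤ Real.log x) {t : ℕ} {A : Finset ℕ} (hA : SA x t A) :
    (A.card : ℝ) ≤ 4 * (Real.log x) ^ 2 := by
  have h1 : A ⊆ Finset.range (⌊3 * (Real.log x) ^ 2⌋₊ + 1) := by
    intro a ha
    rw [Finset.mem_range]
    exact Nat.lt_succ_of_le (Nat.le_floor (hA a ha).1)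
  have h2 := Finset.card_le_card h1
  rw [Finset.card_range] at h2
  have h3 : (A.card : ℝ) ≤ ((⌊3 * (Real.log x) ^ 2⌋₊ + 1 : ℕ) : ℝ) := by exact_mod_cast h2
  have h4 : ((⌊3 * (Real.log x) ^ 2⌋₊ : ℕ) : ℝ) ≤ 3 * (Real.log x) ^ 2 := Nat.floor_le (by positivity)
  push_cast at h3
  nlinarith

theorem FOU_W {x : ℝ} (hL : 1 ≤ Real.log x) : (WW (yy x) : ℝ) ≤ Real.log x := by
  have h1 := WW_yy_pow_le hL
  have h2 : (1 : ℝ) ≤ (WW (yy x) : ℝ) := by exact_mod_cast WW_pos (yy x)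
  have h3 : (WW (yy x) : ℝ) ≤ (WW (yy x) : ℝ) ^ 34 := le_self_pow₀ h2 (by norm_num)
  have h4 : Real.sqrt (Real.log x) ≤ Real.log x := by
    rw [Real.sqrt_le_left (by linarith)]
    nlinarith
  linarith

theorem FOU_event {δ : ℝ} (hδ : 0 < δ) : ∀ᶠ x : ℝ in Filter.atTop,
    1 ≤ x ∧ 1 ≤ Real.log x ∧ 2 ≤ x ^ δ ∧ Real.log x ≤ x ^ δ ∧
      9344 * (Real.log x) ^ 8 ≤ x ^ (9 / 10 : ℝ) := by
  have h1 : ∀ᶠ x : ℝ in Filter.atTop, 1 ≤ x := Filter.eventually_ge_atTop 1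
  have h2 : ∀ᶠ x : ℝ in Filter.atTop, 1 ≤ Real.log x :=
    Real.tendsto_log_atTop.eventually_ge_atTop 1
  have h3 : ∀ᶠ x : ℝ in Filter.atTop, 2 ≤ x ^ δ :=
    (tendsto_rpow_atTop hδ).eventually_ge_atTop 2
  have h4 := (isLittleO_log_rpow_atTop hδ).bound (by norm_num : (0 : ℝ) < 1)
  have h5 := (isLittleO_log_rpow_rpow_atTop (8 : ℝ) (s := 9 / 10) (by norm_num)).bound
    (by norm_num : (0 : ℝ) < 1 / 9344)
  filter_upwards [h1, h2, h3, h4, h5] with x g1 g2 g3 g4 g5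
  refine ⟨g1, g2, g3, ?_, ?_⟩
  · rw [one_mul, Real.norm_of_nonneg (by linarith), Real.norm_of_nonneg (by positivity)] at g4
    exact g4
  · rw [Real.norm_of_nonneg (by positivity), Real.norm_of_nonneg (by positivity)] at g5
    have g6 : Real.log x ^ (8 : ℝ) = Real.log x ^ 8 := by
      rw [← Real.rpow_natCast]
      norm_num
    rw [g6] at g5
    linarith

theorem FOU : ∃ C X : ℝ, 0 < C ∧ ∀ x : ℝ, X ≤ x → ∀ t : ℕ, t < WW (yy x) → ∀ A : Finset ℕ, SA x t A →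
    ∑ n ∈ cls x t, (NN A n : ℝ) ^ 4 ≤ C * (((⌊x⌋₊ : ℝ) + 1) / (WW (yy x) : ℝ) * ((mA x A) ^ 4 + mA x A)) := by
  obtain ⟨δ, hδ, hδη, hNUA⟩ := NUA (1 / 40) (by norm_num) (by norm_num)
  obtain ⟨X₀, hX₀⟩ := hNUA δ hδ le_rfl
  obtain ⟨X₁, hX₁⟩ := Filter.eventually_atTop.1 (FOU_event hδ)
  refine ⟨288 / δ ^ 4 + 1, max X₀ X₁, by positivity, ?_⟩
  intro x hx t ht A hA
  obtain ⟨hx1, hL, hz2, hLz, hL8⟩ := hX₁ x ((le_max_right _ _).trans hx)
  obtain ⟨nu, hnu0, hnu1, hTD, havg, -⟩ := hX₀ x ((le_max_left _ _).trans hx)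
  have hx0 : 0 < x := by linarith
  set Λ : ℝ := Real.log x with hΛ
  set W : ℝ := (WW (yy x) : ℝ) with hWdef
  set N : ℝ := (⌊x⌋₊ : ℝ) + 1 with hN
  set E : ℝ := (A.card : ℝ) with hE
  set ep : ℝ := EP (yy x : ℝ) (x ^ δ) with hep
  set m : ℝ := mA x A with hm
  have hW1 : 1 ≤ W := by
    rw [hWdef]
    exact_mod_cast WW_pos (yy x)
  have hWΛ : W ≤ Λ := FOU_W hL
  have hNx : x ≤ N := (Nat.lt_floor_add_one x).le
  have hE0 : 0 ≤ E := Nat.cast_nonneg _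
  have hEΛ : E ≤ 4 * Λ ^ 2 := FOU_card hL hA
  have hφ1 : 1 ≤ wphi x := FOU_wphi_ge x
  have hyz : (yy x : ℝ) ≤ x ^ δ := by
    have h1 : (yy x : ℝ) ≤ Real.log Λ / 100 := Nat.floor_le (by
      have := Real.log_nonneg hL
      positivity)
    have h2 : Real.log Λ ≤ Λ := (Real.log_le_sub_one_of_pos (by linarith)).trans (by linarith)
    linarith
  have hep0 : 0 ≤ ep := (EP_pos _ _).le
  have hepb : ep ≤ wphi x / Λ / δ := FOU_EP hx0 hδ hz2 hyz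
  have hm0 : 0 ≤ m := by
    rw [hm]
    unfold mA
    have : 0 < Real.log x := by linarith
    positivity
  have hEep : E * ep ≤ m / δ := by
    have h1 : m / δ = E * (wphi x / Λ / δ) := by
      rw [hm]
      unfold mA
      ring
    rw [h1]
    exact mul_le_mul_of_nonneg_left hepb hE0
  have hx10 : (x ^ (1 / 40 : ℝ)) ^ 4 = x ^ (1 / 10 : ℝ) := by
    rw [← Real.rpow_natCast, ← Real.rpow_mul hx0.le]
    norm_num
  have hx10' : 1 ≤ x ^ (1 / 10 : ℝ) := Real.one_le_rpow hx1 (by norm_num)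
  -- the part with `n > z`
  have hbig : ∀ k : ℕ, 1 ≤ k → k ≤ 4 →
      ∑ n ∈ (cls x t).filter (fun n : ℕ => x ^ δ < (n : ℝ)), ((NN A n).choose k : ℝ) ≤
        2 * (N / W) * (m ^ 4 + m) / δ ^ 4 + E ^ 4 * x ^ (1 / 10 : ℝ) := by
    intro k hk1 hk4
    have h1 : ∀ n ∈ (cls x t).filter (fun n : ℕ => x ^ δ < (n : ℝ)),
        ((NN A n).choose k : ℝ) ≤ ∑ s ∈ A.powersetCard k, ∏ a ∈ s, nu ((n : ℤ) + a) := by
      intro n hn
      rw [Finset.mem_filter] at hn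
      rw [FOU_choose]
      refine Finset.sum_le_sum fun s _ => Finset.prod_le_prod ?_ ?_
      · intro a _
        split_ifs <;> norm_num
      · intro a _
        split_ifs with hp
        · rw [FOU_nu_one hnu1 hx0.le hn.2 hp]
        · exact hnu0 _
    have h2 : ∑ n ∈ (cls x t).filter (fun n : ℕ => x ^ δ < (n : ℝ)),
        ∑ s ∈ A.powersetCard k, ∏ a ∈ s, nu ((n : ℤ) + a) ≤
        ∑ n ∈ cls x t, ∑ s ∈ A.powersetCard k, ∏ a ∈ s, nu ((n : ℤ) + a) :=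
      Finset.sum_le_sum_of_subset_of_nonneg (Finset.filter_subset _ _) fun n _ _ =>
        Finset.sum_nonneg fun s _ => Finset.prod_nonneg fun a _ => hnu0 _
    refine (Finset.sum_le_sum h1).trans (h2.trans ?_)
    rw [Finset.sum_comm]
    have h3 : ∀ s ∈ A.powersetCard k, ∑ n ∈ cls x t, ∏ a ∈ s, nu ((n : ℤ) + a) ≤
        N / W * ((1 + 1 / 40) * ep ^ k) + x ^ (1 / 10 : ℝ) := by
      intro s hs
      rw [Finset.mem_powersetCard] at hs
      have := FOU_s (by norm_num) hx1 hTD havg ht hA hs.1 hs.2 hk1 hk4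
      rwa [hx10] at this
    refine (Finset.sum_le_sum h3).trans ?_
    rw [Finset.sum_const, nsmul_eq_mul, Finset.card_powersetCard]
    have h4 : ((A.card.choose k : ℕ) : ℝ) ≤ E ^ k := by
      rw [hE, ← Nat.cast_pow]
      exact Nat.cast_le.2 (Nat.choose_le_pow A.card k)
    have hNW : 0 ≤ N / W := by positivity
    have h5 : 0 ≤ N / W * ((1 + 1 / 40) * ep ^ k) + x ^ (1 / 10 : ℝ) := by positivity
    refine (mul_le_mul_of_nonneg_right h4 h5).trans ?_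
    have h6 : E ^ k * ep ^ k ≤ (m ^ 4 + m) / δ ^ 4 := by
      rw [← mul_pow]
      calc (E * ep) ^ k ≤ (m / δ) ^ k := pow_le_pow_left₀ (by positivity) hEep k
        _ = m ^ k / δ ^ k := div_pow _ _ _
        _ ≤ (m ^ 4 + m) / δ ^ 4 := by
            refine div_le_div₀ (by positivity) (FOU_pow_le hm0 hk1 hk4) (by positivity) ?_
            exact pow_le_pow_of_le_one hδ.le (by linarith) hk4
    have h7 : E ^ k * x ^ (1 / 10 : ℝ) ≤ E ^ 4 * x ^ (1 / 10 : ℝ) :=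
      mul_le_mul_of_nonneg_right (FOU_card_pow A.card hk1 hk4) (by positivity)
    have h8 : 0 ≤ (m ^ 4 + m) / δ ^ 4 := by positivity
    calc E ^ k * (N / W * ((1 + 1 / 40) * ep ^ k) + x ^ (1 / 10 : ℝ))
        = N / W * (1 + 1 / 40) * (E ^ k * ep ^ k) + E ^ k * x ^ (1 / 10 : ℝ) := by ring
      _ ≤ N / W * (1 + 1 / 40) * ((m ^ 4 + m) / δ ^ 4) + E ^ 4 * x ^ (1 / 10 : ℝ) :=
          add_le_add (mul_le_mul_of_nonneg_left h6 (by positivity)) h7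
      _ ≤ 2 * (N / W) * (m ^ 4 + m) / δ ^ 4 + E ^ 4 * x ^ (1 / 10 : ℝ) := by
          have h9 := mul_nonneg hNW h8
          have h10 : 2 * (N / W) * (m ^ 4 + m) / δ ^ 4 = 2 * (N / W * ((m ^ 4 + m) / δ ^ 4)) := by
            ring
          rw [h10]
          nlinarith
  -- the part with `n ≤ z`
  have hsmall : ∑ n ∈ (cls x t).filter (fun n : ℕ => ¬ x ^ δ < (n : ℝ)), (NN A n : ℝ) ^ 4 ≤
      2 * E ^ 4 * x ^ (1 / 10 : ℝ) := by
    have h1 : ∀ n ∈ (cls x t).filter (fun n : ℕ => ¬ x ^ δ < (n : ℝ)), (NN A n : ℝ) ^ 4 ≤ E ^ 4 := by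
      intro n _
      refine pow_le_pow_left₀ (Nat.cast_nonneg _) ?_ 4
      rw [hE]
      exact Nat.cast_le.2 (Finset.card_filter_le _ _)
    refine (Finset.sum_le_sum h1).trans ?_
    rw [Finset.sum_const, nsmul_eq_mul]
    have h2 : (cls x t).filter (fun n : ℕ => ¬ x ^ δ < (n : ℝ)) ⊆
        Finset.range (⌊x ^ δ⌋₊ + 1) := by
      intro n hn
      rw [Finset.mem_filter] at hn
      rw [Finset.mem_range]
      exact Nat.lt_succ_of_le (Nat.le_floor (not_lt.1 hn.2))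
    have h3 := Finset.card_le_card h2
    rw [Finset.card_range] at h3
    have h4 : ((((cls x t).filter (fun n : ℕ => ¬ x ^ δ < (n : ℝ))).card : ℕ) : ℝ) ≤
        ((⌊x ^ δ⌋₊ + 1 : ℕ) : ℝ) := by exact_mod_cast h3
    have h5 : ((⌊x ^ δ⌋₊ : ℕ) : ℝ) ≤ x ^ δ := Nat.floor_le (by positivity)
    have h6 : x ^ δ ≤ x ^ (1 / 10 : ℝ) :=
      Real.rpow_le_rpow_of_exponent_le hx1 (by linarith)
    have h7 : ((((cls x t).filter (fun n : ℕ => ¬ x ^ δ < (n : ℝ))).card : ℕ) : ℝ) ≤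
        2 * x ^ (1 / 10 : ℝ) := by
      push_cast at h4
      linarith
    calc ((((cls x t).filter (fun n : ℕ => ¬ x ^ δ < (n : ℝ))).card : ℕ) : ℝ) * E ^ 4
        ≤ 2 * x ^ (1 / 10 : ℝ) * E ^ 4 := mul_le_mul_of_nonneg_right h7 (by positivity)
      _ = 2 * E ^ 4 * x ^ (1 / 10 : ℝ) := by ring
  -- total
  have hsplit := Finset.sum_filter_add_sum_filter_not (cls x t)
    (fun n : ℕ => x ^ δ < (n : ℝ)) (fun n => (NN A n : ℝ) ^ 4)
  have hmain : ∑ n ∈ (cls x t).filter (fun n : ℕ => x ^ δ < (n : ℝ)), (NN A n : ℝ) ^ 4 ≤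
      144 * (2 * (N / W) * (m ^ 4 + m) / δ ^ 4 + E ^ 4 * x ^ (1 / 10 : ℝ)) := by
    have h1 : ∀ n ∈ (cls x t).filter (fun n : ℕ => x ^ δ < (n : ℝ)), (NN A n : ℝ) ^ 4 ≤
        36 * ((((NN A n).choose 1 : ℕ) : ℝ) + ((NN A n).choose 2 : ℕ) + ((NN A n).choose 3 : ℕ)
          + ((NN A n).choose 4 : ℕ)) := by
      intro n _
      have h2 : (((NN A n) ^ 4 : ℕ) : ℝ) ≤ ((36 * ((NN A n).choose 1 + (NN A n).choose 2 +
        (NN A n).choose 3 + (NN A n).choose 4) : ℕ) : ℝ) := Nat.cast_le.2 (FOU_pow4 (NN A n))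
      rw [Nat.cast_pow, Nat.cast_mul, Nat.cast_add, Nat.cast_add, Nat.cast_add] at h2
      exact h2
    refine (Finset.sum_le_sum h1).trans ?_
    rw [← Finset.mul_sum, Finset.sum_add_distrib, Finset.sum_add_distrib, Finset.sum_add_distrib]
    have g1 := hbig 1 (le_refl 1) (Nat.le_of_ble_eq_true rfl)
    have g2 := hbig 2 (Nat.le_of_ble_eq_true rfl) (Nat.le_of_ble_eq_true rfl)
    have g3 := hbig 3 (Nat.le_of_ble_eq_true rfl) (Nat.le_of_ble_eq_true rfl)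
    have g4 := hbig 4 (Nat.le_of_ble_eq_true rfl) (le_refl 4)
    linarith
  have herr : 146 * (E ^ 4 * x ^ (1 / 10 : ℝ)) ≤ N / W * m := by
    have h1 : E ^ 4 ≤ 64 * Λ ^ 6 * E := by
      have h2 : E ^ 3 ≤ (4 * Λ ^ 2) ^ 3 := pow_le_pow_left₀ hE0 hEΛ 3
      calc E ^ 4 = E ^ 3 * E := by ring
        _ ≤ (4 * Λ ^ 2) ^ 3 * E := mul_le_mul_of_nonneg_right h2 hE0
        _ = 64 * Λ ^ 6 * E := by ring
    have h3 : x * E / Λ ^ 2 ≤ N / W * m := by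
      have h4 : m = E * wphi x / Λ := rfl
      rw [h4, div_mul_div_comm]
      refine div_le_div₀ (by positivity) ?_ (by positivity) ?_
      · have h5 : x * E ≤ N * E := mul_le_mul_of_nonneg_right hNx hE0
        have h6 : N * E ≤ N * (E * wphi x) := by
          refine mul_le_mul_of_nonneg_left ?_ (by linarith)
          nlinarith
        linarith
      · rw [pow_two]
        exact mul_le_mul_of_nonneg_right hWΛ (by linarith)
    refine le_trans ?_ h3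
    rw [le_div_iff₀ (by positivity)]
    have h7 : x = x ^ (1 / 10 : ℝ) * x ^ (9 / 10 : ℝ) := by
      rw [← Real.rpow_add hx0]
      norm_num
    have h8 : 0 ≤ x ^ (1 / 10 : ℝ) := by positivity
    calc 146 * (E ^ 4 * x ^ (1 / 10 : ℝ)) * Λ ^ 2
        ≤ 146 * ((64 * Λ ^ 6 * E) * x ^ (1 / 10 : ℝ)) * Λ ^ 2 := by gcongr
      _ = (x ^ (1 / 10 : ℝ) * E) * (9344 * Λ ^ 8) := by ring
      _ ≤ (x ^ (1 / 10 : ℝ) * E) * x ^ (9 / 10 : ℝ) :=
          mul_le_mul_of_nonneg_left hL8 (mul_nonneg h8 hE0)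
      _ = (x ^ (1 / 10 : ℝ) * x ^ (9 / 10 : ℝ)) * E := by ring
      _ = x * E := by rw [← h7]
  have hfin : N / W * m ≤ N / W * (m ^ 4 + m) := by
    have : 0 ≤ N / W := by positivity
    refine mul_le_mul_of_nonneg_left ?_ this
    have := pow_nonneg hm0 4
    linarith
  have hC : (288 / δ ^ 4 + 1) * (N / W * (m ^ 4 + m)) =
      144 * (2 * (N / W) * (m ^ 4 + m) / δ ^ 4) + N / W * (m ^ 4 + m) := by
    ring
  rw [hC, ← hsplit]
  linarith

end Pool.Agent.H6.MB
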