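import Pool.Agent.H6.MB.MAJ

/-!
# ASC: almost surely at most `(4 + ε)` times the expected number of primes

`m = mA x A ≥ K`, `k = |A|`, `η ≤ ε/200` small, `ν, μ` from `MAJ`, `M = k μ`, so `c m ≤ M ≤ (4 + 32 η) m`. Put
`Y(n) = ∑_{a ∈ A} ν(n+a)`, `N' = (⌊x⌋₊+1)/W`. `MAJ`: `∑_{cls} Y ≥ (1-η) N' M`, `∑_{cls} Y^2 ≤ (1+η) N' M^2 + C N' M`, and
`#cls ≤ N' + 1`. So `∑_{cls} (Y - M)^2 ≤ (1+η) N' M^2 + C N' M - 2 (1-η) N' M^2 + (N'+1) M^2 ≤ (4η + C/M) N' M^2`.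
If `n > x^(1/4)`, then `Y(n) ≥ NN A n` (every prime `n + a` is `> x^(1/4)`). If moreover `NN A n > (4+ε) m` then
`Y(n) - M ≥ (4+ε) m - (4+32η) m ≥ (ε/2) m ≥ (ε/10) M`. So the number of such `n` is
`≤ (100/ε^2) (4 η + C/M) N' ≤ (ε/2) N'` if `η` is small in terms of `ε` and then `K` large (`M ≥ c K`). The `n ≤ x^(1/4)` are
at most `x^(1/4) + 1 ≤ (ε/2) N'`.
-/

set_option autoImplicit false

namespace Pool.Agent.H6.MB

open Finset Pool.Agent.H17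

theorem ASC_cls_card (x : ℝ) (t : ℕ) :
    ((cls x t).card : ℝ) ≤ ((⌊x⌋₊ : ℝ) + 1) / (WW (yy x) : ℝ) + 1 := by
  have h1 : (cls x t).card ≤ (⌊x⌋₊ + 1) / WW (yy x) + 1 := by
    rw [← Finset.card_range ((⌊x⌋₊ + 1) / WW (yy x) + 1)]
    apply Finset.card_le_card_of_injOn (fun n => n / WW (yy x))
    · intro n hn
      have hn' := Finset.mem_coe.1 hn
      rw [cls, Finset.mem_filter, Finset.mem_range] at hn'
      rw [Finset.mem_coe, Finset.mem_range]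
      exact Nat.lt_succ_of_le (Nat.div_le_div_right hn'.1.le)
    · intro n hn m hm h
      have hn' := Finset.mem_coe.1 hn
      have hm' := Finset.mem_coe.1 hm
      rw [cls, Finset.mem_filter, Finset.mem_range] at hn' hm'
      have e1 := Nat.div_add_mod n (WW (yy x))
      have e2 := Nat.div_add_mod m (WW (yy x))
      beta_reduce at h
      rw [← e1, ← e2, h, hn'.2, hm'.2]
  calc ((cls x t).card : ℝ) ≤ (((⌊x⌋₊ + 1) / WW (yy x) + 1 : ℕ) : ℝ) := by exact_mod_cast h1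
    _ ≤ ((⌊x⌋₊ : ℝ) + 1) / (WW (yy x) : ℝ) + 1 := by
        push_cast
        have := @Nat.cast_div_le ℝ _ _ _ (⌊x⌋₊ + 1) (WW (yy x))
        push_cast at this
        linarith

/-- the second moment bound implies the bound for the number of exceptions -/
theorem ASC_cheb {S : Finset ℕ} {Y : ℕ → ℝ} {N' M η C : ℝ} (hM : 0 < M)
    (h1 : (1 - η) * N' * M ≤ ∑ n ∈ S, Y n)
    (h2 : ∑ n ∈ S, Y n ^ 2 ≤ (1 + η) * N' * M ^ 2 + C * N' * M)
    (h3 : (S.card : ℝ) ≤ N' + 1) (h4 : 1 ≤ η * N') {B : Finset ℕ} (hB : B ⊆ S) {δ : ℝ}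
    (hBY : ∀ n ∈ B, δ * M ≤ Y n - M) (hδ : 0 < δ) :
    (B.card : ℝ) * δ ^ 2 ≤ (4 * η + C / M) * N' := by
  have e1 : ∑ n ∈ S, (Y n - M) ^ 2 = ∑ n ∈ S, Y n ^ 2 - 2 * M * ∑ n ∈ S, Y n + M ^ 2 * S.card := by
    have : ∀ n ∈ S, (Y n - M) ^ 2 = Y n ^ 2 - 2 * M * Y n + M ^ 2 := fun n _ => by ring
    rw [Finset.sum_congr rfl this, Finset.sum_add_distrib, Finset.sum_sub_distrib,
      ← Finset.mul_sum, Finset.sum_const, nsmul_eq_mul]
    ring
  have e2 : (B.card : ℝ) * (δ * M) ^ 2 ≤ ∑ n ∈ S, (Y n - M) ^ 2 := by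
    calc (B.card : ℝ) * (δ * M) ^ 2 = ∑ _n ∈ B, (δ * M) ^ 2 := by
          rw [Finset.sum_const, nsmul_eq_mul]
      _ ≤ ∑ n ∈ B, (Y n - M) ^ 2 := by
          apply Finset.sum_le_sum
          intro n hn
          exact pow_le_pow_left₀ (by positivity) (hBY n hn) 2
      _ ≤ ∑ n ∈ S, (Y n - M) ^ 2 :=
          Finset.sum_le_sum_of_subset_of_nonneg hB (fun n _ _ => sq_nonneg _)
  have e3 : ∑ n ∈ S, (Y n - M) ^ 2 ≤ 4 * η * N' * M ^ 2 + C * N' * M := by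
    rw [e1]
    have a1 : 2 * M * ((1 - η) * N' * M) ≤ 2 * M * ∑ n ∈ S, Y n :=
      mul_le_mul_of_nonneg_left h1 (by positivity)
    have a2 : M ^ 2 * (S.card : ℝ) ≤ M ^ 2 * (N' + 1) :=
      mul_le_mul_of_nonneg_left h3 (by positivity)
    have a3 : M ^ 2 * 1 ≤ M ^ 2 * (η * N') := mul_le_mul_of_nonneg_left h4 (by positivity)
    nlinarith
  have e4 : ((B.card : ℝ) * δ ^ 2) * M ^ 2 ≤ ((4 * η + C / M) * N') * M ^ 2 := by
    calc ((B.card : ℝ) * δ ^ 2) * M ^ 2 = (B.card : ℝ) * (δ * M) ^ 2 := by ring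
      _ ≤ 4 * η * N' * M ^ 2 + C * N' * M := e2.trans e3
      _ = ((4 * η + C / M) * N') * M ^ 2 := by
          field_simp
  exact le_of_mul_le_mul_right e4 (by positivity)

theorem ASC_large (ε : ℝ) (hε : 0 < ε) : ∃ X : ℝ, ∀ x : ℝ, X ≤ x →
    0 ≤ x ∧ 1 ≤ ε * (((⌊x⌋₊ : ℝ) + 1) / (WW (yy x) : ℝ)) ∧
      x ^ (1 / 4 : ℝ) + 1 ≤ ε * (((⌊x⌋₊ : ℝ) + 1) / (WW (yy x) : ℝ)) := by
  have h1 : ∀ᶠ x : ℝ in Filter.atTop, (Real.log x) ^ 2 ≤ (ε / 2) ^ 2 * x :=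
    eventually_log_pow_le 2 (by positivity)
  have h2 : ∀ᶠ x : ℝ in Filter.atTop, 1 ≤ Real.log x :=
    Real.tendsto_log_atTop.eventually_ge_atTop 1
  have h3 : ∀ᶠ x : ℝ in Filter.atTop, 1 ≤ x := Filter.eventually_ge_atTop 1
  obtain ⟨X, hX⟩ := Filter.eventually_atTop.1 (h1.and (h2.and h3))
  refine ⟨X, fun x hx => ?_⟩
  obtain ⟨h4, h5, h6⟩ := hX x hx
  have hx0 : (0 : ℝ) ≤ x := by linarith
  have hW1 : (1 : ℝ) ≤ (WW (yy x) : ℝ) := by exact_mod_cast WW_pos (yy x)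
  have hW2 : (WW (yy x) : ℝ) ≤ Real.log x := by
    calc (WW (yy x) : ℝ) ≤ (WW (yy x) : ℝ) ^ 34 := le_self_pow₀ hW1 (by norm_num)
      _ ≤ Real.sqrt (Real.log x) := WW_yy_pow_le h5
      _ ≤ Real.log x := Real.sqrt_le_self_iff.2 (Or.inr h5)
  have hlog : Real.log x ≤ ε / 2 * Real.sqrt x := by
    have h7 : Real.log x ≤ Real.sqrt ((ε / 2) ^ 2 * x) := Real.le_sqrt_of_sq_le h4
    rwa [Real.sqrt_mul (by positivity), Real.sqrt_sq (by positivity)] at h7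
  have hs1 : 1 ≤ Real.sqrt x := Real.one_le_sqrt.2 h6
  have hs2 : x ^ (1 / 4 : ℝ) ≤ Real.sqrt x := by
    rw [Real.sqrt_eq_rpow]
    exact Real.rpow_le_rpow_of_exponent_le h6 (by norm_num)
  have hN : x < (⌊x⌋₊ : ℝ) + 1 := Nat.lt_floor_add_one x
  have hmain : 2 * Real.sqrt x ≤ ε * (((⌊x⌋₊ : ℝ) + 1) / (WW (yy x) : ℝ)) := by
    rw [← mul_div_assoc, le_div_iff₀ (by linarith)]
    calc 2 * Real.sqrt x * (WW (yy x) : ℝ) ≤ 2 * Real.sqrt x * (ε / 2 * Real.sqrt x) := by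
          gcongr
          exact hW2.trans hlog
      _ = ε * (Real.sqrt x * Real.sqrt x) := by ring
      _ = ε * x := by rw [Real.mul_self_sqrt hx0]
      _ ≤ ε * ((⌊x⌋₊ : ℝ) + 1) := by gcongr
  refine ⟨hx0, by linarith, by linarith⟩

theorem ASC_aux (ε : ℝ) (hε : 0 < ε) (hε1 : ε ≤ 1) : ∃ K X : ℝ, ∀ x : ℝ, X ≤ x →
    ∀ t : ℕ, t < WW (yy x) → ∀ A : Finset ℕ, SA x t A → K ≤ mA x A →
    (((cls x t).filter (fun n => (4 + ε) * mA x A < (NN A n : ℝ))).card : ℝ)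
      ≤ ε * (((⌊x⌋₊ : ℝ) + 1) / (WW (yy x) : ℝ)) := by
  classical
  set η : ℝ := ε ^ 3 / 1600 with hη
  have hε2 : ε ^ 2 ≤ 1 := pow_le_one₀ hε.le hε1
  have hε3 : ε ^ 3 ≤ ε := by nlinarith
  have hη0 : 0 < η := by positivity
  have hη1 : η ≤ 1 / 100 := by rw [hη]; linarith
  obtain ⟨C, c, X₁, hC, hc, hX₁⟩ := MAJ η hη0 hη1
  obtain ⟨X₂, hX₂⟩ := ASC_large η hη0
  obtain ⟨X₃, hX₃⟩ := ASC_large (ε / 2) (by positivity)
  refine ⟨400 * C / (c * ε ^ 3), max X₁ (max X₂ X₃), fun x hx t ht A hA hK => ?_⟩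
  obtain ⟨ν, μ, hν0, hν1, hμ1, hμ2, hM1, hM2, hM3⟩ := hX₁ x (le_trans (le_max_left _ _) hx)
  obtain ⟨hx0, hN1, -⟩ := hX₂ x (le_trans (le_trans (le_max_left _ _) (le_max_right _ _)) hx)
  obtain ⟨-, -, hN2⟩ := hX₃ x (le_trans (le_trans (le_max_right _ _) (le_max_right _ _)) hx)
  set N' : ℝ := ((⌊x⌋₊ : ℝ) + 1) / (WW (yy x) : ℝ) with hN'
  have hN'0 : 0 < N' := by
    by_contra hcon
    push Not at hcon
    nlinarith
  set m : ℝ := mA x A with hm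
  set M : ℝ := (A.card : ℝ) * μ with hM
  have hm' : m = (A.card : ℝ) * (wphi x / Real.log x) := by
    rw [hm, mA, mul_div_assoc]
  have hcard0 : (0 : ℝ) ≤ A.card := Nat.cast_nonneg _
  have hcm : c * m ≤ M := by
    rw [hm', hM]
    calc c * ((A.card : ℝ) * (wphi x / Real.log x)) = A.card * (c * (wphi x / Real.log x)) := by ring
      _ ≤ A.card * μ := mul_le_mul_of_nonneg_left hμ1 hcard0
  have hMm : M ≤ (4 + 32 * η) * m := by
    rw [hm', hM]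
    calc A.card * μ ≤ A.card * ((4 + 32 * η) * (wphi x / Real.log x)) :=
          mul_le_mul_of_nonneg_left hμ2 hcard0
      _ = (4 + 32 * η) * ((A.card : ℝ) * (wphi x / Real.log x)) := by ring
  have hKm : 400 * C / ε ^ 3 ≤ c * m := by
    have := mul_le_mul_of_nonneg_left hK hc.le
    calc 400 * C / ε ^ 3 = c * (400 * C / (c * ε ^ 3)) := by field_simp
      _ ≤ c * m := this
  have hMlow : 400 * C / ε ^ 3 ≤ M := hKm.trans hcm
  have hM0 : 0 < M := lt_of_lt_of_le (by positivity) hMlow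
  have hm0 : 0 < m := by
    by_contra hcon
    push Not at hcon
    nlinarith
  -- the function `Y`
  set Y : ℕ → ℝ := fun n => ∑ a ∈ A, ν ((n : ℤ) + a) with hY
  have hS1 : (1 - η) * N' * M ≤ ∑ n ∈ cls x t, Y n := by
    rw [hY, Finset.sum_comm]
    calc (1 - η) * N' * M = ∑ _a ∈ A, (1 - η) * N' * μ := by
          rw [Finset.sum_const, nsmul_eq_mul, hM]; ring
      _ ≤ ∑ a ∈ A, ∑ n ∈ cls x t, ν ((n : ℤ) + a) := by
          apply Finset.sum_le_sum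
          intro a ha
          have := hM1 t ht a (hA a ha).1
          rw [mul_div_assoc] at this
          exact this
  have hS2 : ∑ n ∈ cls x t, Y n ^ 2 ≤ (1 + η) * N' * M ^ 2 + C * N' * M := by
    have e1 : ∀ n ∈ cls x t, Y n ^ 2 = ∑ a ∈ A, ∑ a' ∈ A, ν ((n : ℤ) + a) * ν ((n : ℤ) + a') := by
      intro n _
      rw [hY, sq, Finset.sum_mul_sum]
    rw [Finset.sum_congr rfl e1, Finset.sum_comm]
    have e2 : ∀ a ∈ A, ∑ n ∈ cls x t, ∑ a' ∈ A, ν ((n : ℤ) + a) * ν ((n : ℤ) + a') ≤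
        (A.card : ℝ) * ((1 + η) * N' * μ ^ 2) + C * (N' * μ) := by
      intro a ha
      rw [Finset.sum_comm]
      rw [← Finset.add_sum_erase A _ ha]
      have e3 : ∑ n ∈ cls x t, ν ((n : ℤ) + a) * ν ((n : ℤ) + a) ≤ C * (N' * μ) := by
        have := hM3 t ht a (hA a ha).1
        refine le_trans (le_of_eq ?_) this
        apply Finset.sum_congr rfl
        intro n _
        ring
      have e4 : ∑ a' ∈ A.erase a, ∑ n ∈ cls x t, ν ((n : ℤ) + a) * ν ((n : ℤ) + a') ≤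
          ∑ _a' ∈ A.erase a, (1 + η) * N' * μ ^ 2 := by
        apply Finset.sum_le_sum
        intro a' ha'
        have h5 := Finset.mem_erase.1 ha'
        have := hM2 t ht a a' (Ne.symm h5.1) (hA a ha).1 (hA a' h5.2).1
        rw [mul_div_assoc] at this
        exact this
      have e5 : ∑ _a' ∈ A.erase a, (1 + η) * N' * μ ^ 2 ≤ (A.card : ℝ) * ((1 + η) * N' * μ ^ 2) := by
        rw [Finset.sum_const, nsmul_eq_mul]
        apply mul_le_mul_of_nonneg_right _ (by positivity)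
        exact_mod_cast Finset.card_erase_le
      linarith
    calc ∑ a ∈ A, ∑ n ∈ cls x t, ∑ a' ∈ A, ν ((n : ℤ) + a) * ν ((n : ℤ) + a')
        ≤ ∑ _a ∈ A, ((A.card : ℝ) * ((1 + η) * N' * μ ^ 2) + C * (N' * μ)) :=
          Finset.sum_le_sum e2
      _ = (1 + η) * N' * M ^ 2 + C * N' * M := by
          rw [Finset.sum_const, nsmul_eq_mul, hM]; ring
  -- the exceptional set
  set S := (cls x t).filter (fun n => (4 + ε) * m < (NN A n : ℝ)) with hS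
  set B := S.filter (fun n : ℕ => x ^ (1 / 4 : ℝ) < (n : ℝ)) with hB
  have hBY : ∀ n ∈ B, ε / 10 * M ≤ Y n - M := by
    intro n hn
    rw [hB, Finset.mem_filter, hS, Finset.mem_filter] at hn
    obtain ⟨⟨hn1, hn2⟩, hn3⟩ := hn
    have h6 : (NN A n : ℝ) ≤ Y n := by
      rw [NN, hY]
      calc ((A.filter (fun a => (n + a).Prime)).card : ℝ) = ∑ _a ∈ A.filter (fun a => (n + a).Prime), (1 : ℝ) := by
            rw [Finset.sum_const, nsmul_eq_mul, mul_one]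
        _ ≤ ∑ a ∈ A.filter (fun a => (n + a).Prime), ν ((n : ℤ) + a) := by
            apply Finset.sum_le_sum
            intro a ha
            have h7 := (Finset.mem_filter.1 ha).2
            have h8 := hν1 (n + a) h7 (lt_of_lt_of_le hn3 (by exact_mod_cast Nat.le_add_right n a))
            rw [Nat.cast_add] at h8
            exact h8
        _ ≤ ∑ a ∈ A, ν ((n : ℤ) + a) :=
            Finset.sum_le_sum_of_subset_of_nonneg (Finset.filter_subset _ _) (fun a _ _ => hν0 _)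
    have h9 : 32 * η ≤ ε / 2 := by rw [hη]; linarith
    have h10 : (4 + 32 * η) * m ≤ 5 * m := mul_le_mul_of_nonneg_right (by linarith) hm0.le
    have h11 : 32 * η * m ≤ ε / 2 * m := mul_le_mul_of_nonneg_right h9 hm0.le
    have h12 : ε / 10 * M ≤ ε / 10 * (5 * m) :=
      mul_le_mul_of_nonneg_left (hMm.trans h10) (by positivity)
    nlinarith
  have hBcard := ASC_cheb (S := cls x t) (Y := Y) (N' := N') (M := M) (η := η) (C := C) hM0
    hS1 hS2 (ASC_cls_card x t) hN1 (B := B)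
    ((Finset.filter_subset _ _).trans (Finset.filter_subset _ _)) hBY (by positivity)
  have hB2 : (B.card : ℝ) ≤ ε / 2 * N' := by
    have h13 : C / M ≤ ε ^ 3 / 400 := by
      rw [div_le_iff₀ hM0]
      calc C = ε ^ 3 / 400 * (400 * C / ε ^ 3) := by field_simp
        _ ≤ ε ^ 3 / 400 * M := mul_le_mul_of_nonneg_left hMlow (by positivity)
    have h14 : (4 * η + C / M) * N' ≤ (ε ^ 3 / 200) * N' := by
      apply mul_le_mul_of_nonneg_right _ hN'0.le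
      rw [hη]
      linarith
    have h15 : (B.card : ℝ) * (ε / 10) ^ 2 ≤ (ε / 2 * N') * (ε / 10) ^ 2 := by
      calc (B.card : ℝ) * (ε / 10) ^ 2 ≤ (ε ^ 3 / 200) * N' := hBcard.trans h14
        _ = (ε / 2 * N') * (ε / 10) ^ 2 := by ring
    exact le_of_mul_le_mul_right h15 (by positivity)
  have hrest : ((S.filter (fun n : ℕ => ¬ x ^ (1 / 4 : ℝ) < (n : ℝ))).card : ℝ) ≤ ε / 2 * N' := by
    have h16 : S.filter (fun n : ℕ => ¬ x ^ (1 / 4 : ℝ) < (n : ℝ)) ⊆ Finset.range (⌊x ^ (1 / 4 : ℝ)⌋₊ + 1) := by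
      intro n hn
      have h17 := (Finset.mem_filter.1 hn).2
      rw [Finset.mem_range, Nat.lt_add_one_iff]
      exact Nat.le_floor (not_lt.1 h17)
    have h18 := Finset.card_le_card h16
    rw [Finset.card_range] at h18
    have h19 : (⌊x ^ (1 / 4 : ℝ)⌋₊ : ℝ) ≤ x ^ (1 / 4 : ℝ) := Nat.floor_le (Real.rpow_nonneg hx0 _)
    have h20 : ((S.filter (fun n : ℕ => ¬ x ^ (1 / 4 : ℝ) < (n : ℝ))).card : ℝ) ≤ (⌊x ^ (1 / 4 : ℝ)⌋₊ : ℝ) + 1 := by
      exact_mod_cast h18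
    linarith
  have hsum : (S.card : ℝ) = (B.card : ℝ) + ((S.filter (fun n : ℕ => ¬ x ^ (1 / 4 : ℝ) < (n : ℝ))).card : ℝ) := by
    rw [hB]
    exact_mod_cast (Finset.card_filter_add_card_filter_not (s := S) (fun n : ℕ => x ^ (1 / 4 : ℝ) < (n : ℝ))).symm
  rw [hsum]
  linarith

theorem ASC (ε : ℝ) (hε : 0 < ε) : ∃ K X : ℝ, ∀ x : ℝ, X ≤ x → ∀ t : ℕ, t < WW (yy x) → ∀ A : Finset ℕ, SA x t A →
    K ≤ mA x A →
    (((cls x t).filter (fun n => (4 + ε) * mA x A < (NN A n : ℝ))).card : ℝ)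
      ≤ ε * (((⌊x⌋₊ : ℝ) + 1) / (WW (yy x) : ℝ)) := by
  obtain ⟨K, X, h⟩ := ASC_aux (min ε 1) (lt_min hε one_pos) (min_le_right _ _)
  refine ⟨max K 0, X, fun x hx t ht A hA hK => ?_⟩
  have h1 := h x hx t ht A hA ((le_max_left _ _).trans hK)
  have hm0 : 0 ≤ mA x A := (le_max_right _ _).trans hK
  have h2 : ((cls x t).filter (fun n => (4 + ε) * mA x A < (NN A n : ℝ))) ⊆
      ((cls x t).filter (fun n => (4 + min ε 1) * mA x A < (NN A n : ℝ))) := by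
    intro n hn
    rw [Finset.mem_filter] at hn ⊢
    refine ⟨hn.1, lt_of_le_of_lt ?_ hn.2⟩
    apply mul_le_mul_of_nonneg_right _ hm0
    linarith [min_le_left ε 1]
  have h3 : (0 : ℝ) ≤ ((⌊x⌋₊ : ℝ) + 1) / (WW (yy x) : ℝ) := by positivity
  calc (((cls x t).filter (fun n => (4 + ε) * mA x A < (NN A n : ℝ))).card : ℝ)
      ≤ (((cls x t).filter (fun n => (4 + min ε 1) * mA x A < (NN A n : ℝ))).card : ℝ) := by
        exact_mod_cast Finset.card_le_card h2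
    _ ≤ min ε 1 * (((⌊x⌋₊ : ℝ) + 1) / (WW (yy x) : ℝ)) := h1
    _ ≤ ε * (((⌊x⌋₊ : ℝ) + 1) / (WW (yy x) : ℝ)) :=
        mul_le_mul_of_nonneg_right (min_le_left _ _) h3

end Pool.Agent.H6.MB
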