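import Pool.Agent.H6.MB.AWI
import Pool.Agent.H6.MF.UCH
import Pool.Agent.H6.MF.JEN
import Pool.Agent.H6.MF.FMO

/-!
# REG: the region of the mean values of the pair and triple ratios

`M = ℓ/Λ ≥ K`, `y(n) = win 0 ℓ n/M`, `E` = average over `n < N = ⌊x⌋₊ + 1` (divide by `x`; `N/x → 1`).
* `r2 = (2 Λ^2/(ℓ^2 x)) ∑_{d ≤ ℓ} (ℓ - d) cnt x {0,d}`, `r3 = (6 Λ^3/(ℓ^3 x)) ∑_{d' < d ≤ ℓ} (ℓ - d) cnt x {0,d',d}`.
* `|r2 - E y^2| ≤ ε'` and `|r3 - E y^3| ≤ ε'` for `K`, `x` large: `choose_pairs`, `choose_triples` give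
  `∑_n C(win, 2) ≤ (ℓ^2 x/(2Λ^2)) r2`, `∑_n C(win,3) ≤ (ℓ^3 x/(6 Λ^3)) r3`. Conversely
  (`choose_pairs_ge`, `choose_triples_ge` below): the difference is at most `ℓ^3` resp. `ℓ^4` (for fixed `b₁ < b₂ (< b₃)` the `p ≤ x`
  counted in `cnt x {0, b₂-b₁, ...}` are `n - b₁` with `n ≤ N`, except for the at most `ℓ` values `p > ⌊x⌋ - b₁`). And
  `2 C(w,2) = w^2 - w`, `6 C(w,3) = w^3 - 3w^2 + 2w` with `E w ≤ 2 M`, `E w^2 ≤ C M^2` (from `AWI2`), so after division by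
  `M^2` resp. `M^3` the lower terms are `O(1/M) = O(1/K)`.
* `E y = 1 + o(1)` (`FMO`, `k = 2`).
* Let `Bad` be the set of `n` with `y(n) > 4 + ε'` (`AWI1`: `#Bad ≤ ε' x`). By Hölder and `AWI2`
  `E y^3 1_{Bad} ≤ (ε')^{1/4} (C)^{3/4}` and `E y^2 1_{Bad} ≤ (ε')^{1/2} C^{1/2}`.
* For `0 ≤ y ≤ 4 + ε'`: `y^3 ≤ 6 y^2 - 9 y + 4 + 20 ε'` (`y^3 - 6y^2 + 9y - 4 = (y-1)^2 (y-4)`), `y^3 ≤ (4+ε') y^2`, `y^2 ≤ (4+ε') y`.
  So `r3 ≤ 6 r2 - 5 + ε`, `r3 ≤ 4 r2 + ε`, `r2 ≤ 4 + ε`.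
* `(E y^2)^2 ≤ E y · E y^3` (Cauchy-Schwarz), so `r2^2 ≤ r3 + ε` (`r2 ≤ 5`), and `E y^2 ≥ (E y)^2`: `r2 ≥ 1 - ε`.
-/

set_option autoImplicit false

namespace Pool.Agent.H6.MB

open Finset Pool.Agent.H6.MF

/-- the mean of the Hardy-Littlewood ratios of the pairs `0, d`, `d < ℓ` (weights `ℓ - d`) -/
noncomputable def r2 (x : ℝ) (ℓ : ℕ) : ℝ :=
  (∑ d ∈ Finset.Icc 1 ℓ, ((ℓ : ℝ) - d) * (cnt x {0, (d : ℤ)} : ℝ)) / ((ℓ : ℝ) ^ 2 / 2 * (x / (Real.log x) ^ 2))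

/-- the mean of the Hardy-Littlewood ratios of the triples `0, d', d`, `d' < d < ℓ` (weights `ℓ - d`) -/
noncomputable def r3 (x : ℝ) (ℓ : ℕ) : ℝ :=
  (∑ d ∈ Finset.Icc 1 ℓ, ∑ d' ∈ Finset.Ico 1 d, ((ℓ : ℝ) - d) * (cnt x {0, (d' : ℤ), (d : ℤ)} : ℝ))
    / ((ℓ : ℝ) ^ 3 / 6 * (x / (Real.log x) ^ 3))

/-- translates lose at most `b` values -/
lemma REG_shift (x : ℝ) (H : Finset ℤ) (b : ℕ) : cnt x H ≤ cnt x (tr H (b : ℤ)) + b := by
  unfold cnt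
  set N := ⌊x⌋₊ + 1
  have h1 : ((range N).filter (fun n : ℕ => ∀ h ∈ H, isP ((n : ℤ) - h))) ⊆
      (((range N).filter (fun n : ℕ => ∀ h ∈ tr H (b : ℤ), isP ((n : ℤ) - h))).image (fun n => n - b))
        ∪ Ico (N - b) N := by
    intro n hn
    rw [mem_filter, mem_range] at hn
    rw [mem_union]
    by_cases h : n + b < N
    · left
      rw [mem_image]
      refine ⟨n + b, mem_filter.2 ⟨mem_range.2 h, ?_⟩, by omega⟩
      intro h' hh'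
      obtain ⟨h0, hh0, rfl⟩ := mem_image.1 hh'
      have h2 := hn.2 h0 hh0
      have h3 : (((n + b : ℕ) : ℤ)) - (h0 + (b : ℤ)) = (n : ℤ) - h0 := by push_cast; ring
      rw [h3]
      exact h2
    · right
      rw [mem_Ico]
      omega
  refine (card_le_card h1).trans ((card_union_le _ _).trans ?_)
  have h2 : (Ico (N - b) N).card ≤ b := by rw [Nat.card_Ico]; omega
  exact Nat.add_le_add card_image_le h2

lemma REG_two (n : ℤ) (ℓ : ℕ) :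
    ∑ d ∈ Finset.Icc 1 ℓ, ∑ b ∈ Finset.Ioc (0 : ℤ) ((ℓ : ℤ) - d),
      (if ∀ h ∈ ({b, b + (d : ℤ)} : Finset ℤ), isP (n - h) then 1 else 0) ≤
    (win 0 (ℓ : ℤ) n).choose 2 := by
  unfold win
  rw [← Finset.card_powersetCard]
  have e1 : ∑ d ∈ Finset.Icc 1 ℓ, ∑ b ∈ Finset.Ioc (0 : ℤ) ((ℓ : ℤ) - d),
      (if ∀ h ∈ ({b, b + (d : ℤ)} : Finset ℤ), isP (n - h) then 1 else 0) =
      (((Finset.Icc 1 ℓ).sigma (fun d : ℕ => Finset.Ioc (0 : ℤ) ((ℓ : ℤ) - d))).filter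
          (fun z : (Σ _ : ℕ, ℤ) => ∀ h ∈ ({z.2, z.2 + (z.1 : ℤ)} : Finset ℤ), isP (n - h))).card := by
    rw [Finset.card_filter, Finset.sum_sigma]
  rw [e1]
  refine Finset.card_le_card_of_injOn (fun z => ({z.2, z.2 + (z.1 : ℤ)} : Finset ℤ)) ?_ ?_
  · rintro ⟨d, b⟩ hz
    rw [Finset.mem_coe, Finset.mem_filter, Finset.mem_sigma, Finset.mem_Icc, Finset.mem_Ioc] at hz
    obtain ⟨⟨⟨h1, h2⟩, h3, h4⟩, h5⟩ := hz
    dsimp only at h1 h2 h3 h4 h5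
    rw [Finset.mem_coe, Finset.mem_powersetCard]
    refine ⟨?_, ?_⟩
    · intro h hh
      have h6 := h5 h hh
      dsimp only at hh
      rw [Finset.mem_insert, Finset.mem_singleton] at hh
      rw [Finset.mem_filter, Finset.mem_Ioc]
      refine ⟨?_, h6⟩
      omega
    · have : b ≠ b + (d : ℤ) := by omega
      exact Finset.card_pair this
  · rintro ⟨d, b⟩ hz ⟨d', b'⟩ hz' h
    rw [Finset.mem_coe, Finset.mem_filter, Finset.mem_sigma, Finset.mem_Icc, Finset.mem_Ioc] at hz hz'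
    obtain ⟨⟨⟨h1, h2⟩, h3, h4⟩, h5⟩ := hz
    obtain ⟨⟨⟨h1', h2'⟩, h3', h4'⟩, h5'⟩ := hz'
    dsimp only at h1 h2 h3 h4 h1' h2' h3' h4' h
    have g1 : b ∈ ({b', b' + (d' : ℤ)} : Finset ℤ) := by rw [← h]; simp
    have g2 : b + (d : ℤ) ∈ ({b', b' + (d' : ℤ)} : Finset ℤ) := by rw [← h]; simp
    have g3 : b' ∈ ({b, b + (d : ℤ)} : Finset ℤ) := by rw [h]; simp
    have g4 : b' + (d' : ℤ) ∈ ({b, b + (d : ℤ)} : Finset ℤ) := by rw [h]; simp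
    rw [Finset.mem_insert, Finset.mem_singleton] at g1 g2 g3 g4
    have e : b = b' := by omega
    subst e
    have e : d = d' := by omega
    subst e
    rfl

lemma REG_three (n : ℤ) (ℓ : ℕ) :
    ∑ d ∈ Finset.Icc 1 ℓ, ∑ d' ∈ Finset.Ico 1 d, ∑ b ∈ Finset.Ioc (0 : ℤ) ((ℓ : ℤ) - d),
      (if ∀ h ∈ ({b, b + (d' : ℤ), b + (d : ℤ)} : Finset ℤ), isP (n - h) then 1 else 0) ≤
    (win 0 (ℓ : ℤ) n).choose 3 := by
  unfold win
  rw [← Finset.card_powersetCard]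
  have e1 : ∑ d ∈ Finset.Icc 1 ℓ, ∑ d' ∈ Finset.Ico 1 d, ∑ b ∈ Finset.Ioc (0 : ℤ) ((ℓ : ℤ) - d),
      (if ∀ h ∈ ({b, b + (d' : ℤ), b + (d : ℤ)} : Finset ℤ), isP (n - h) then 1 else 0) =
      (((Finset.Icc 1 ℓ).sigma (fun d : ℕ => Finset.Ico 1 d ×ˢ Finset.Ioc (0 : ℤ) ((ℓ : ℤ) - d))).filter
          (fun z : (Σ _ : ℕ, ℕ × ℤ) => ∀ h ∈ ({z.2.2, z.2.2 + (z.2.1 : ℤ), z.2.2 + (z.1 : ℤ)} : Finset ℤ),
            isP (n - h))).card := by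
    rw [Finset.card_filter, Finset.sum_sigma]
    refine (Finset.sum_congr rfl (fun d _ => ?_))
    rw [Finset.sum_product]
  rw [e1]
  refine Finset.card_le_card_of_injOn
    (fun z => ({z.2.2, z.2.2 + (z.2.1 : ℤ), z.2.2 + (z.1 : ℤ)} : Finset ℤ)) ?_ ?_
  · rintro ⟨d, d', b⟩ hz
    rw [Finset.mem_coe, Finset.mem_filter, Finset.mem_sigma, Finset.mem_Icc, Finset.mem_product,
      Finset.mem_Ico, Finset.mem_Ioc] at hz
    obtain ⟨⟨⟨h1, h2⟩, ⟨h7, h8⟩, h3, h4⟩, h5⟩ := hz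
    dsimp only at h1 h2 h3 h4 h5 h7 h8
    rw [Finset.mem_coe, Finset.mem_powersetCard]
    refine ⟨?_, ?_⟩
    · intro h hh
      have h6 := h5 h hh
      dsimp only at hh
      rw [Finset.mem_insert, Finset.mem_insert, Finset.mem_singleton] at hh
      rw [Finset.mem_filter, Finset.mem_Ioc]
      refine ⟨?_, h6⟩
      omega
    · dsimp only
      rw [Finset.card_insert_of_notMem, Finset.card_pair (by omega)]
      rw [Finset.mem_insert, Finset.mem_singleton]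
      omega
  · rintro ⟨d, d1, b⟩ hz ⟨d', d1', b'⟩ hz' h
    rw [Finset.mem_coe, Finset.mem_filter, Finset.mem_sigma, Finset.mem_Icc, Finset.mem_product,
      Finset.mem_Ico, Finset.mem_Ioc] at hz hz'
    obtain ⟨⟨⟨h1, h2⟩, ⟨h7, h8⟩, h3, h4⟩, -⟩ := hz
    obtain ⟨⟨⟨h1', h2'⟩, ⟨h7', h8'⟩, h3', h4'⟩, -⟩ := hz'
    dsimp only at h1 h2 h3 h4 h7 h8 h1' h2' h3' h4' h7' h8' h
    have g1 : b ∈ ({b', b' + (d1' : ℤ), b' + (d' : ℤ)} : Finset ℤ) := by rw [← h]; simp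
    have g2 : b + (d : ℤ) ∈ ({b', b' + (d1' : ℤ), b' + (d' : ℤ)} : Finset ℤ) := by rw [← h]; simp
    have g5 : b + (d1 : ℤ) ∈ ({b', b' + (d1' : ℤ), b' + (d' : ℤ)} : Finset ℤ) := by rw [← h]; simp
    have g3 : b' ∈ ({b, b + (d1 : ℤ), b + (d : ℤ)} : Finset ℤ) := by rw [h]; simp
    have g4 : b' + (d' : ℤ) ∈ ({b, b + (d1 : ℤ), b + (d : ℤ)} : Finset ℤ) := by rw [h]; simp
    rw [Finset.mem_insert, Finset.mem_insert, Finset.mem_singleton] at g1 g2 g3 g4 g5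
    have e : b = b' := by omega
    subst e
    have e : d = d' := by omega
    subst e
    have e : d1 = d1' := by omega
    subst e
    rfl

lemma REG_card (ℓ d : ℕ) (hd : d ≤ ℓ) : ((Finset.Ioc (0 : ℤ) ((ℓ : ℤ) - d)).card : ℝ) = (ℓ : ℝ) - d := by
  rw [Int.card_Ioc, sub_zero]
  have h4 : (((ℓ : ℤ) - (d : ℤ)).toNat : ℤ) = (ℓ : ℤ) - d := Int.toNat_of_nonneg (by omega)
  exact_mod_cast h4

theorem choose_pairs_ge (x : ℝ) (ℓ : ℕ) :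
    ∑ d ∈ Finset.Icc 1 ℓ, ((ℓ : ℝ) - d) * (cnt x {0, (d : ℤ)} : ℝ)
      ≤ ∑ n ∈ Finset.range (⌊x⌋₊ + 1), ((win 0 (ℓ : ℤ) (n : ℤ)).choose 2 : ℝ) + (ℓ : ℝ) ^ 3 := by
  have h0 : ∀ d ∈ Finset.Icc 1 ℓ, ((ℓ : ℝ) - d) * (cnt x {0, (d : ℤ)} : ℝ) ≤
      ∑ b ∈ Finset.Ioc (0 : ℤ) ((ℓ : ℤ) - d), (((∑ n ∈ Finset.range (⌊x⌋₊ + 1),
      (if ∀ h ∈ ({b, b + (d : ℤ)} : Finset ℤ), isP ((n : ℤ) - h) then 1 else 0) : ℕ) : ℝ) + (ℓ : ℝ)) := by
    intro d hd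
    rw [Finset.mem_Icc] at hd
    rw [← REG_card ℓ d hd.2, ← nsmul_eq_mul, ← Finset.sum_const]
    refine Finset.sum_le_sum (fun b hb => ?_)
    rw [Finset.mem_Ioc] at hb
    have h1 := REG_shift x {0, (d : ℤ)} b.toNat
    have e1 : ((b.toNat : ℕ) : ℤ) = b := Int.toNat_of_nonneg hb.1.le
    rw [e1] at h1
    have e2 : tr {0, (d : ℤ)} b = {b, b + (d : ℤ)} := by
      unfold tr
      rw [Finset.image_insert, Finset.image_singleton, zero_add, add_comm]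
    rw [e2] at h1
    have h2 : cnt x {b, b + (d : ℤ)} = ∑ n ∈ Finset.range (⌊x⌋₊ + 1),
      (if ∀ h ∈ ({b, b + (d : ℤ)} : Finset ℤ), isP ((n : ℤ) - h) then 1 else 0) := by
      unfold cnt
      rw [Finset.card_filter]
    rw [← h2]
    have h3 : b.toNat ≤ ℓ := by omega
    have h4 : cnt x {0, (d : ℤ)} ≤ cnt x {b, b + (d : ℤ)} + ℓ := h1.trans (Nat.add_le_add_left h3 _)
    exact_mod_cast h4
  refine (Finset.sum_le_sum h0).trans ?_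
  simp_rw [Finset.sum_add_distrib]
  refine add_le_add ?_ ?_
  · have h1 : (∑ d ∈ Finset.Icc 1 ℓ, ∑ b ∈ Finset.Ioc (0 : ℤ) ((ℓ : ℤ) - d), ∑ n ∈ Finset.range (⌊x⌋₊ + 1),
      (if ∀ h ∈ ({b, b + (d : ℤ)} : Finset ℤ), isP ((n : ℤ) - h) then 1 else 0))
      ≤ (∑ n ∈ Finset.range (⌊x⌋₊ + 1), (win 0 (ℓ : ℤ) (n : ℤ)).choose 2) := by
      refine (le_of_eq ?_).trans (Finset.sum_le_sum (fun (n : ℕ) _ => REG_two (n : ℤ) ℓ))
      symm
      rw [Finset.sum_comm]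
      refine Finset.sum_congr rfl (fun d _ => ?_)
      rw [Finset.sum_comm]
    exact_mod_cast h1
  · have h1 : ∀ d ∈ Finset.Icc 1 ℓ, ∑ b ∈ Finset.Ioc (0 : ℤ) ((ℓ : ℤ) - d), (ℓ : ℝ) ≤ (ℓ : ℝ) ^ 2 := by
      intro d hd
      rw [Finset.mem_Icc] at hd
      rw [Finset.sum_const, nsmul_eq_mul, REG_card ℓ d hd.2]
      have : (0 : ℝ) ≤ d := Nat.cast_nonneg _
      have : (0 : ℝ) ≤ ℓ := Nat.cast_nonneg _
      nlinarith
    refine (Finset.sum_le_sum h1).trans ?_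
    rw [Finset.sum_const, Nat.card_Icc, nsmul_eq_mul]
    push_cast
    exact le_of_eq (by ring)

theorem choose_triples_ge (x : ℝ) (ℓ : ℕ) :
    ∑ d ∈ Finset.Icc 1 ℓ, ∑ d' ∈ Finset.Ico 1 d, ((ℓ : ℝ) - d) * (cnt x {0, (d' : ℤ), (d : ℤ)} : ℝ)
      ≤ ∑ n ∈ Finset.range (⌊x⌋₊ + 1), ((win 0 (ℓ : ℤ) (n : ℤ)).choose 3 : ℝ) + (ℓ : ℝ) ^ 4 := by
  have h0 : ∀ d ∈ Finset.Icc 1 ℓ, ∀ d' ∈ Finset.Ico 1 d, ((ℓ : ℝ) - d) * (cnt x {0, (d' : ℤ), (d : ℤ)} : ℝ) ≤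
      ∑ b ∈ Finset.Ioc (0 : ℤ) ((ℓ : ℤ) - d), (((∑ n ∈ Finset.range (⌊x⌋₊ + 1),
      (if ∀ h ∈ ({b, b + (d' : ℤ), b + (d : ℤ)} : Finset ℤ), isP ((n : ℤ) - h) then 1 else 0) : ℕ) : ℝ)
        + (ℓ : ℝ)) := by
    intro d hd d' hd'
    rw [Finset.mem_Icc] at hd
    rw [← REG_card ℓ d hd.2, ← nsmul_eq_mul, ← Finset.sum_const]
    refine Finset.sum_le_sum (fun b hb => ?_)
    rw [Finset.mem_Ioc] at hb
    have h1 := REG_shift x {0, (d' : ℤ), (d : ℤ)} b.toNat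
    have e1 : ((b.toNat : ℕ) : ℤ) = b := Int.toNat_of_nonneg hb.1.le
    rw [e1] at h1
    have e2 : tr {0, (d' : ℤ), (d : ℤ)} b = {b, b + (d' : ℤ), b + (d : ℤ)} := by
      unfold tr
      rw [Finset.image_insert, Finset.image_insert, Finset.image_singleton, zero_add, add_comm,
        add_comm (d : ℤ)]
    rw [e2] at h1
    have h2 : cnt x {b, b + (d' : ℤ), b + (d : ℤ)} = ∑ n ∈ Finset.range (⌊x⌋₊ + 1),
      (if ∀ h ∈ ({b, b + (d' : ℤ), b + (d : ℤ)} : Finset ℤ), isP ((n : ℤ) - h) then 1 else 0) := by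
      unfold cnt
      rw [Finset.card_filter]
    rw [← h2]
    have h3 : b.toNat ≤ ℓ := by omega
    have h4 : cnt x {0, (d' : ℤ), (d : ℤ)} ≤ cnt x {b, b + (d' : ℤ), b + (d : ℤ)} + ℓ :=
      h1.trans (Nat.add_le_add_left h3 _)
    exact_mod_cast h4
  refine (Finset.sum_le_sum (fun d hd => Finset.sum_le_sum (h0 d hd))).trans ?_
  simp_rw [Finset.sum_add_distrib]
  refine add_le_add ?_ ?_
  · have h1 : (∑ d ∈ Finset.Icc 1 ℓ, ∑ d' ∈ Finset.Ico 1 d, ∑ b ∈ Finset.Ioc (0 : ℤ) ((ℓ : ℤ) - d),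
      ∑ n ∈ Finset.range (⌊x⌋₊ + 1),
      (if ∀ h ∈ ({b, b + (d' : ℤ), b + (d : ℤ)} : Finset ℤ), isP ((n : ℤ) - h) then 1 else 0))
      ≤ (∑ n ∈ Finset.range (⌊x⌋₊ + 1), (win 0 (ℓ : ℤ) (n : ℤ)).choose 3) := by
      refine (le_of_eq ?_).trans (Finset.sum_le_sum (fun (n : ℕ) _ => REG_three (n : ℤ) ℓ))
      symm
      rw [Finset.sum_comm]
      refine Finset.sum_congr rfl (fun d _ => ?_)
      rw [Finset.sum_comm]
      refine Finset.sum_congr rfl (fun d' _ => ?_)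
      rw [Finset.sum_comm]
    exact_mod_cast h1
  · have h1 : ∀ d ∈ Finset.Icc 1 ℓ, ∀ d' ∈ Finset.Ico 1 d,
        ∑ b ∈ Finset.Ioc (0 : ℤ) ((ℓ : ℤ) - d), (ℓ : ℝ) ≤ (ℓ : ℝ) ^ 2 := by
      intro d hd d' _
      rw [Finset.mem_Icc] at hd
      rw [Finset.sum_const, nsmul_eq_mul, REG_card ℓ d hd.2]
      have : (0 : ℝ) ≤ d := Nat.cast_nonneg _
      have : (0 : ℝ) ≤ ℓ := Nat.cast_nonneg _
      nlinarith
    have h2 : ∀ d ∈ Finset.Icc 1 ℓ, ∑ d' ∈ Finset.Ico 1 d,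
        ∑ b ∈ Finset.Ioc (0 : ℤ) ((ℓ : ℤ) - d), (ℓ : ℝ) ≤ (ℓ : ℝ) ^ 3 := by
      intro d hd
      refine (Finset.sum_le_sum (h1 d hd)).trans ?_
      rw [Finset.mem_Icc] at hd
      rw [Finset.sum_const, Nat.card_Ico, nsmul_eq_mul]
      have h3 : ((d - 1 : ℕ) : ℝ) ≤ (ℓ : ℝ) := by exact_mod_cast (by omega : d - 1 ≤ ℓ)
      have : (0 : ℝ) ≤ (ℓ : ℝ) ^ 2 := by positivity
      nlinarith
    refine (Finset.sum_le_sum h2).trans ?_
    rw [Finset.sum_const, Nat.card_Icc, nsmul_eq_mul]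
    push_cast
    exact le_of_eq (by ring)

/-- the inequalities for the moments of a nonnegative function -/
lemma REG_abs {ι : Type*} (s : Finset ι) (y : ι → ℝ) (x η C : ℝ) (hy : ∀ i ∈ s, 0 ≤ y i) (hx : 0 < x)
    (hη : 0 < η) (hη1 : η ≤ 1) (hN1 : (s.card : ℝ) ≤ (1 + η) * x)
    (h1 : (1 - η) * x ≤ ∑ i ∈ s, y i) (h1' : ∑ i ∈ s, y i ≤ (1 + η) * x)
    (h4 : ∑ i ∈ s, (y i) ^ 4 ≤ C * x)
    (hB : ∑ i ∈ s with 4 + η < y i, (y i) ^ 3 ≤ η * x) :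
    (1 - 3 * η) * x ≤ ∑ i ∈ s, y i ^ 2 ∧ ∑ i ∈ s, y i ^ 2 ≤ (4 + 7 * η) * x ∧
    (∑ i ∈ s, y i ^ 2) ^ 2 ≤ (∑ i ∈ s, y i ^ 3 + η * (2 + C) * x) * x ∧
    ∑ i ∈ s, y i ^ 3 ≤ 6 * ∑ i ∈ s, y i ^ 2 - 5 * x + 46 * η * x ∧
    ∑ i ∈ s, y i ^ 3 ≤ 4 * ∑ i ∈ s, y i ^ 2 + η * (3 + C) * x ∧
    ∑ i ∈ s, y i ^ 2 ≤ (2 + C) * x ∧ ∑ i ∈ s, y i ^ 3 ≤ (2 + C) * x := by
  have hηx : η * η * x ≤ η * x := by
    have : 0 ≤ η * x := by positivity
    nlinarith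
  have hηx' : η * x ≤ x := by nlinarith
  rw [Finset.sum_filter] at hB
  have hcard : ∑ i ∈ s, (1 : ℝ) = s.card := by simp
  have p2 : ∀ i ∈ s, y i ^ 2 ≤ 1 + y i ^ 4 := by
    intro i _
    nlinarith [sq_nonneg (y i ^ 2 - 1), sq_nonneg (y i ^ 2)]
  have p3 : ∀ i ∈ s, y i ^ 3 ≤ 1 + y i ^ 4 := by
    intro i hi
    have h0 := hy i hi
    rcases le_total (y i) 1 with h | h
    · have : y i ^ 3 ≤ 1 := pow_le_one₀ h0 h
      have : 0 ≤ y i ^ 4 := by positivity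
      linarith
    · have : y i ^ 3 ≤ y i ^ 4 := pow_le_pow_right₀ h (by norm_num)
      linarith
  have s2 := Finset.sum_le_sum p2
  have s3 := Finset.sum_le_sum p3
  rw [Finset.sum_add_distrib, hcard] at s2 s3
  have s2' : ∑ i ∈ s, y i ^ 2 ≤ (2 + C) * x := by linarith
  have s3' : ∑ i ∈ s, y i ^ 3 ≤ (2 + C) * x := by linarith
  refine ⟨?_, ?_, ?_, ?_, ?_, s2', s3'⟩
  · have h : ∀ i ∈ s, 2 * y i - 1 ≤ y i ^ 2 := by
      intro i _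
      nlinarith [sq_nonneg (y i - 1)]
    have h2 := Finset.sum_le_sum h
    rw [Finset.sum_sub_distrib, ← Finset.mul_sum, hcard] at h2
    linarith
  · have h : ∀ i ∈ s, y i ^ 2 ≤ (4 + η) * y i + (if 4 + η < y i then (y i) ^ 3 else 0) := by
      intro i hi
      have h0 := hy i hi
      split_ifs with hc
      · have : y i ^ 2 ≤ y i ^ 3 := pow_le_pow_right₀ (by linarith) (by norm_num)
        have : 0 ≤ (4 + η) * y i := by positivity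
        linarith
      · push Not at hc
        nlinarith
    have h2 := Finset.sum_le_sum h
    rw [Finset.sum_add_distrib, ← Finset.mul_sum] at h2
    have h3 : (4 + η) * ∑ i ∈ s, y i ≤ (4 + η) * ((1 + η) * x) := by gcongr
    nlinarith
  · have h := Finset.sum_sq_le_sum_mul_sum_of_sq_le_mul s (r := fun i => y i ^ 2) (f := fun i => y i)
      (g := fun i => y i ^ 3) hy (fun i hi => pow_nonneg (hy i hi) 3) (fun i _ => le_of_eq (by ring))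
    refine h.trans ?_
    have h0 : 0 ≤ ∑ i ∈ s, y i ^ 3 := Finset.sum_nonneg (fun i hi => pow_nonneg (hy i hi) 3)
    have h2 : (∑ i ∈ s, y i) * ∑ i ∈ s, y i ^ 3 ≤ ((1 + η) * x) * ∑ i ∈ s, y i ^ 3 := by gcongr
    refine h2.trans ?_
    have h3 : η * x * ∑ i ∈ s, y i ^ 3 ≤ η * x * ((2 + C) * x) := by gcongr
    nlinarith
  · have h : ∀ i ∈ s, y i ^ 3 ≤ 6 * y i ^ 2 - 9 * y i + (4 + 16 * η) * 1 +
        (if 4 + η < y i then (y i) ^ 3 else 0) := by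
      intro i hi
      have h0 := hy i hi
      split_ifs with hc
      · have : 0 ≤ y i * (6 * y i - 9) := mul_nonneg h0 (by linarith)
        nlinarith
      · push Not at hc
        have e1 : y i ^ 3 - 6 * y i ^ 2 + 9 * y i - 4 = (y i - 1) ^ 2 * (y i - 4) := by ring
        have e2 : (y i - 1) ^ 2 ≤ 16 := by
          have h5 : y i ≤ 5 := by linarith
          nlinarith
        have e3 : (y i - 1) ^ 2 * (y i - 4) ≤ 16 * η := by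
          rcases le_total (y i) 4 with h6 | h6
          · have : 0 ≤ (y i - 1) ^ 2 * (4 - y i) := mul_nonneg (sq_nonneg _) (by linarith)
            nlinarith
          · exact mul_le_mul e2 (by linarith) (by linarith) (by norm_num)
        linarith
    have h2 := Finset.sum_le_sum h
    rw [Finset.sum_add_distrib, Finset.sum_add_distrib, Finset.sum_sub_distrib, ← Finset.mul_sum,
      ← Finset.mul_sum, ← Finset.mul_sum, hcard] at h2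
    have h3 : (4 + 16 * η) * (s.card : ℝ) ≤ (4 + 16 * η) * ((1 + η) * x) := by gcongr
    nlinarith
  · have h : ∀ i ∈ s, y i ^ 3 ≤ (4 + η) * y i ^ 2 + (if 4 + η < y i then (y i) ^ 3 else 0) := by
      intro i hi
      have h0 := hy i hi
      split_ifs with hc
      · have : 0 ≤ (4 + η) * y i ^ 2 := by positivity
        linarith
      · push Not at hc
        have : y i * y i ^ 2 ≤ (4 + η) * y i ^ 2 := mul_le_mul_of_nonneg_right hc (by positivity)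
        nlinarith
    have h2 := Finset.sum_le_sum h
    rw [Finset.sum_add_distrib, ← Finset.mul_sum] at h2
    have h3 : η * ∑ i ∈ s, y i ^ 2 ≤ η * ((2 + C) * x) := by gcongr
    nlinarith

lemma REG_bad {ι : Type*} (s : Finset ι) (y : ι → ℝ) (x T C a c : ℝ) (hy : ∀ i ∈ s, 0 ≤ y i)
    (hT : 0 < T) (h4 : ∑ i ∈ s, (y i) ^ 4 ≤ C * x) (hc : ((s.filter (fun i => c < y i)).card : ℝ) ≤ a * x) :
    ∑ i ∈ s with c < y i, (y i) ^ 3 ≤ (T ^ 3 * a + C / T) * x := by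
  have p : ∀ i ∈ s.filter (fun i => c < y i), y i ^ 3 ≤ T ^ 3 + y i ^ 4 / T := by
    intro i hi
    have h0 := hy i (Finset.mem_filter.mp hi).1
    rcases le_total (y i) T with h | h
    · have : y i ^ 3 ≤ T ^ 3 := pow_le_pow_left₀ h0 h 3
      have : 0 ≤ y i ^ 4 / T := by positivity
      linarith
    · have : y i ^ 3 ≤ y i ^ 4 / T := by
        rw [le_div_iff₀ hT]
        have : 0 ≤ y i ^ 3 := by positivity
        nlinarith
      have : 0 < T ^ 3 := by positivity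
      linarith
  refine (Finset.sum_le_sum p).trans ?_
  rw [Finset.sum_add_distrib, Finset.sum_const, nsmul_eq_mul, ← Finset.sum_div]
  have h1 : ∑ i ∈ s with c < y i, (y i) ^ 4 ≤ C * x :=
    (Finset.sum_le_sum_of_subset_of_nonneg (Finset.filter_subset _ _) (fun i hi _ =>
      pow_nonneg (hy i hi) 4)).trans h4
  have h2 : (∑ i ∈ s with c < y i, (y i) ^ 4) / T ≤ C * x / T := div_le_div_of_nonneg_right h1 hT.le
  have h3 : ((s.filter (fun i => c < y i)).card : ℝ) * T ^ 3 ≤ a * x * T ^ 3 :=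
    mul_le_mul_of_nonneg_right hc (by positivity)
  have e : (T ^ 3 * a + C / T) * x = a * x * T ^ 3 + C * x / T := by ring
  rw [e]
  exact add_le_add h3 h2

lemma REG_ch2 (w : ℕ) : 2 * ((w.choose 2 : ℕ) : ℝ) = (w : ℝ) ^ 2 - w := by
  rw [Nat.cast_choose_two]
  ring

lemma REG_ch3 (w : ℕ) : 6 * ((w.choose 3 : ℕ) : ℝ) = (w : ℝ) ^ 3 - 3 * (w : ℝ) ^ 2 + 2 * w := by
  have h3 := Nat.descFactorial_eq_factorial_mul_choose w 3
  rw [show Nat.factorial 3 = 6 from rfl] at h3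
  have h4 : (w.descFactorial 3 : ℝ) = (w : ℝ) * (w - 1) * (w - 2) := by
    rcases Nat.lt_or_ge w 2 with h | h
    · interval_cases w <;> norm_num [Nat.descFactorial]
    · obtain ⟨m, rfl⟩ := Nat.exists_eq_add_of_le' h
      have h4 : (m + 2).descFactorial 3 = (m + 2 - 2) * ((m + 2 - 1) * (m + 2)) := by
        simp [Nat.descFactorial]
      have h5 : (m + 2 - 2) * ((m + 2 - 1) * (m + 2)) = m * ((m + 1) * (m + 2)) := rfl
      rw [h4, h5]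
      push_cast
      ring
  have h6 : (w.descFactorial 3 : ℝ) = 6 * ((w.choose 3 : ℕ) : ℝ) := by exact_mod_cast h3
  rw [← h6, h4]
  ring

lemma REG_cmp (M x η C S1 S2 S3 A2 A3 c2 c3 l3 l4 : ℝ) (hM : 1 ≤ M) (hx : 0 < x) (hη : 0 < η)
    (hC : 0 < C) (hMη : 3 * (2 + C) ≤ η * M) (hS1 : 0 ≤ S1) (hS1' : S1 ≤ 2 * x) (hS2 : 0 ≤ S2)
    (hS2' : S2 ≤ (2 + C) * x) (hl3 : l3 ≤ η / 6 * x) (hl4 : l4 ≤ η / 6 * x)
    (e2 : 2 * c2 = M ^ 2 * S2 - M * S1) (e3 : 6 * c3 = M ^ 3 * S3 - 3 * M ^ 2 * S2 + 2 * M * S1)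
    (a1 : c2 ≤ A2) (a2 : A2 ≤ c2 + l3) (a3 : c3 ≤ A3) (a4 : A3 ≤ c3 + l4) :
    M ^ 2 * (S2 - η * x) ≤ 2 * A2 ∧ 2 * A2 ≤ M ^ 2 * (S2 + η * x) ∧
      M ^ 3 * (S3 - η * x) ≤ 6 * A3 ∧ 6 * A3 ≤ M ^ 3 * (S3 + 2 * (η * x)) := by
  have hM0 : 0 < M := by linarith
  have hηx : 0 < η * x := by positivity
  have g0 : 3 * (2 + C) * x ≤ (η * M) * x := mul_le_mul_of_nonneg_right hMη hx.le
  have hCx : 0 < C * x := by positivity
  have g1 : 2 * S1 ≤ M * (η * x) := by nlinarith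
  have g2 : 3 * S2 ≤ M * (η * x) := by nlinarith
  have hS1M : M * S1 ≤ M ^ 2 * (η * x) := by
    calc M * S1 ≤ M * (M * (η * x)) := by gcongr; linarith
      _ = _ := by ring
  have hS2M : 3 * M ^ 2 * S2 ≤ M ^ 3 * (η * x) := by
    calc 3 * M ^ 2 * S2 = M ^ 2 * (3 * S2) := by ring
      _ ≤ M ^ 2 * (M * (η * x)) := by gcongr
      _ = _ := by ring
  have hS1M3 : 2 * M * S1 ≤ M ^ 3 * (η * x) := by
    calc 2 * M * S1 = M * (2 * S1) := by ring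
      _ ≤ M * (M * (η * x)) := by gcongr
      _ = M ^ 2 * (η * x) := by ring
      _ ≤ M ^ 3 * (η * x) := by gcongr; norm_num
  have h2 : 1 * (η * x) ≤ M ^ 2 * (η * x) := by gcongr; exact one_le_pow₀ hM
  have h3 : 1 * (η * x) ≤ M ^ 3 * (η * x) := by gcongr; exact one_le_pow₀ hM
  have p1 : 0 ≤ M * S1 := by positivity
  have p2 : 0 ≤ M ^ 2 * S2 := by positivity
  have x1 : M ^ 2 * (S2 - η * x) = M ^ 2 * S2 - M ^ 2 * (η * x) := by ring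
  have x2 : M ^ 2 * (S2 + η * x) = M ^ 2 * S2 + M ^ 2 * (η * x) := by ring
  have x3 : M ^ 3 * (S3 - η * x) = M ^ 3 * S3 - M ^ 3 * (η * x) := by ring
  have x4 : M ^ 3 * (S3 + 2 * (η * x)) = M ^ 3 * S3 + 2 * (M ^ 3 * (η * x)) := by ring
  have x5 : 2 * M * S1 = 2 * (M * S1) := by ring
  have x6 : 3 * M ^ 2 * S2 = 3 * (M ^ 2 * S2) := by ring
  rw [x1, x2, x3, x4]
  rw [x5, x6] at e3
  rw [x6] at hS2M
  rw [x5] at hS1M3
  refine ⟨by linarith, by linarith, by linarith, by linarith⟩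

/-- the final arithmetic -/
lemma REG_fin (e2 e3 a2 a3 η C ε : ℝ) (hη : 0 < η) (hη1 : η ≤ 1) (hC : 0 < C) (hε : η * (200 * (C + 3)) ≤ ε)
    (h0 : 0 ≤ a2) (g1 : |a2 - e2| ≤ η) (g2 : e3 - η ≤ a3) (g3 : a3 ≤ e3 + 2 * η)
    (k1 : 1 - 3 * η ≤ e2) (k2 : e2 ≤ 4 + 7 * η) (k3 : e2 ^ 2 ≤ e3 + η * (2 + C))
    (k4 : e3 ≤ 6 * e2 - 5 + 46 * η) (k5 : e3 ≤ 4 * e2 + η * (3 + C)) (k6 : e2 ≤ 2 + C) :
    1 - ε ≤ a2 ∧ a2 ≤ 4 + ε ∧ a2 ^ 2 - ε ≤ a3 ∧ a3 ≤ 6 * a2 - 5 + ε ∧ a3 ≤ 4 * a2 + ε := by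
  obtain ⟨g4, g5⟩ := abs_le.mp g1
  have hηC : 0 < η * C := by positivity
  refine ⟨by nlinarith, by nlinarith, ?_, by nlinarith, by nlinarith⟩
  have h1 : a2 ^ 2 ≤ (e2 + η) ^ 2 := pow_le_pow_left₀ h0 (by linarith) 2
  have h2 : (e2 + η) ^ 2 = e2 ^ 2 + 2 * (η * e2) + η * η := by ring
  have h3 : η * e2 ≤ η * (2 + C) := by gcongr
  have h4 : η * η ≤ η := by nlinarith
  nlinarith

theorem REG (ε : ℝ) (hε : 0 < ε) : ∃ K X : ℝ, ∀ x : ℝ, X ≤ x → ∀ ℓ : ℕ, K * Real.log x ≤ (ℓ : ℝ) →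
    (ℓ : ℝ) ≤ (Real.log x) ^ 2 →
    1 - ε ≤ r2 x ℓ ∧ r2 x ℓ ≤ 4 + ε ∧ (r2 x ℓ) ^ 2 - ε ≤ r3 x ℓ ∧ r3 x ℓ ≤ 6 * r2 x ℓ - 5 + ε ∧
      r3 x ℓ ≤ 4 * r2 x ℓ + ε := by
  obtain ⟨C, X2, hC, hA2⟩ := AWI2
  set δ : ℝ := min ε 1 with hδ
  have hδ0 : 0 < δ := lt_min hε one_pos
  have hδ1 : δ ≤ 1 := min_le_right _ _
  have hδε : δ ≤ ε := min_le_left _ _
  set η : ℝ := δ / (200 * (C + 3)) with hη
  have hη0 : 0 < η := by positivity
  have hηe : η * (200 * (C + 3)) = δ := by rw [hη]; field_simp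
  have hη1 : η ≤ 1 := by
    have : 0 < η * C := by positivity
    nlinarith
  set T : ℝ := 2 * C / η with hT
  have hT0 : 0 < T := by positivity
  set ε' : ℝ := min η (η / (2 * T ^ 3)) with hε'
  have hε'0 : 0 < ε' := lt_min hη0 (by positivity)
  have hε'1 : ε' ≤ η := min_le_left _ _
  have hε'2 : T ^ 3 * ε' ≤ η / 2 := by
    have : ε' ≤ η / (2 * T ^ 3) := min_le_right _ _
    calc T ^ 3 * ε' ≤ T ^ 3 * (η / (2 * T ^ 3)) := by gcongr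
      _ = η / 2 := by field_simp
  have hCT : C / T = η / 2 := by rw [hT]; field_simp
  obtain ⟨K1, X1, hK1, hA1⟩ := AWI1 ε' hε'0
  obtain ⟨X3, hF⟩ := FMO 2 η hη0
  have e2 := (Real.isLittleO_pow_log_id_atTop (n := 8)).def (show (0 : ℝ) < η / 6 by positivity)
  obtain ⟨X4, hX4⟩ := Filter.eventually_atTop.mp e2
  refine ⟨max (max K1 1) (3 * (2 + C) / η), max (max X1 X2) (max (max X3 X4) (max (Real.exp 1) (1 / η))),
    fun x hx ℓ hℓ1 hℓ2 => ?_⟩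
  have hx1 : X1 ≤ x := (le_max_left _ _).trans ((le_max_left _ _).trans hx)
  have hx2 : X2 ≤ x := (le_max_right _ _).trans ((le_max_left _ _).trans hx)
  have hx3 : X3 ≤ x := (le_max_left _ _).trans ((le_max_left _ _).trans ((le_max_right _ _).trans hx))
  have hx4 : X4 ≤ x := (le_max_right _ _).trans ((le_max_left _ _).trans ((le_max_right _ _).trans hx))
  have hx5 : Real.exp 1 ≤ x := (le_max_left _ _).trans ((le_max_right _ _).trans ((le_max_right _ _).trans hx))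
  have hx6 : 1 / η ≤ x := (le_max_right _ _).trans ((le_max_right _ _).trans ((le_max_right _ _).trans hx))
  have hx0 : 0 < x := (Real.exp_pos 1).trans_le hx5
  have hΛ1 : 1 ≤ Real.log x := by rw [Real.le_log_iff_exp_le hx0]; exact hx5
  have hΛ0 : 0 < Real.log x := by linarith
  set Λ : ℝ := Real.log x with hΛ
  have hK1' : K1 * Λ ≤ ℓ := le_trans (by gcongr; exact (le_max_left _ _).trans (le_max_left _ _)) hℓ1
  have hK2' : 1 * Λ ≤ ℓ := le_trans (by gcongr; exact (le_max_right _ _).trans (le_max_left _ _)) hℓ1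
  have hK3' : 3 * (2 + C) / η * Λ ≤ ℓ := le_trans (by gcongr; exact le_max_right _ _) hℓ1
  rw [one_mul] at hK2'
  have hℓ3 : (ℓ : ℝ) ≤ 2 * Λ ^ 2 := by nlinarith [sq_nonneg Λ]
  set M : ℝ := (ℓ : ℝ) / Λ with hM
  have hM1 : 1 ≤ M := by rw [hM, le_div_iff₀ hΛ0]; linarith
  have hM0 : 0 < M := by linarith
  have hM3 : 3 * (2 + C) / η ≤ M := by rw [hM, le_div_iff₀ hΛ0]; exact hK3'
  have hM4 : 3 * (2 + C) / M ≤ η := by
    rw [div_le_iff₀ hM0]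
    rw [div_le_iff₀ hη0] at hM3
    linarith
  have hℓ8 : (ℓ : ℝ) ^ 4 ≤ η / 6 * x := by
    have h1 := hX4 x hx4
    rw [Real.norm_of_nonneg (by positivity), id, Real.norm_of_nonneg hx0.le] at h1
    calc (ℓ : ℝ) ^ 4 ≤ (Λ ^ 2) ^ 4 := by gcongr
      _ = Λ ^ 8 := by ring
      _ ≤ _ := h1
  have hℓ0 : (1 : ℝ) ≤ ℓ := by linarith
  have hℓ7 : (ℓ : ℝ) ^ 3 ≤ η / 6 * x := (pow_le_pow_right₀ hℓ0 (by norm_num)).trans hℓ8
  set s := Finset.range (⌊x⌋₊ + 1) with hs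
  set y : ℕ → ℝ := fun n => (win 0 (ℓ : ℤ) (n : ℤ) : ℝ) / M with hy
  have hy0 : ∀ i ∈ s, 0 ≤ y i := fun i _ => by rw [hy]; positivity
  have hcard : (s.card : ℝ) ≤ (1 + η) * x := by
    rw [hs, Finset.card_range]
    push_cast
    have h1 := Nat.floor_le hx0.le
    have h2 : 1 ≤ η * x := by
      rw [div_le_iff₀ hη0] at hx6
      linarith
    linarith
  have hS1 := hF x hx3 0 (ℓ : ℤ) (by simp only [Int.cast_zero, abs_zero]; positivity)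
    (by
      rw [Int.cast_natCast, abs_of_nonneg (by positivity)]
      nlinarith [sq_nonneg Λ]) (by positivity)
  rw [Int.cast_natCast, Int.cast_zero, sub_zero, ← hΛ] at hS1
  have eM : (ℓ : ℝ) * x / Λ = M * x := by rw [hM]; ring
  rw [eM] at hS1
  obtain ⟨hS1a, hS1b⟩ := abs_le.mp hS1
  have ey1 : ∑ i ∈ s, y i = (∑ n ∈ s, (win 0 (ℓ : ℤ) (n : ℤ) : ℝ)) / M := by rw [hy, Finset.sum_div]
  have h1 : (1 - η) * x ≤ ∑ i ∈ s, y i := by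
    rw [ey1, le_div_iff₀ hM0]
    nlinarith
  have h1' : ∑ i ∈ s, y i ≤ (1 + η) * x := by
    rw [ey1, div_le_iff₀ hM0]
    nlinarith
  have h4 : ∑ i ∈ s, (y i) ^ 4 ≤ C * x := by
    have h5 := hA2 x hx2 ℓ hK2' hℓ3
    have e : ∑ i ∈ s, (y i) ^ 4 = (∑ n ∈ s, (win 0 (ℓ : ℤ) (n : ℤ) : ℝ) ^ 4) / M ^ 4 := by
      rw [hy, Finset.sum_div]
      exact Finset.sum_congr rfl (fun n _ => div_pow _ _ _)
    rw [e, div_le_iff₀ (by positivity)]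
    refine h5.trans (le_of_eq ?_)
    rw [← hM]
    ring
  have hBc : ((s.filter (fun i => 4 + η < y i)).card : ℝ) ≤ ε' * x := by
    refine le_trans ?_ (hA1 x hx1 ℓ hK1' hℓ3)
    have : s.filter (fun i => 4 + η < y i) ⊆ (Finset.range (⌊x⌋₊ + 1)).filter
        (fun n : ℕ => (4 + ε') * ((ℓ : ℝ) / Real.log x) < (win 0 (ℓ : ℤ) (n : ℤ) : ℝ)) := by
      intro n hn
      rw [Finset.mem_filter] at hn ⊢
      refine ⟨hn.1, ?_⟩
      have h2 := hn.2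
      rw [hy] at h2
      dsimp only at h2
      rw [lt_div_iff₀ hM0] at h2
      rw [← hΛ, ← hM]
      refine lt_of_le_of_lt ?_ h2
      gcongr
    exact_mod_cast Finset.card_le_card this
  have hB := REG_bad s y x T C ε' (4 + η) hy0 hT0 h4 hBc
  have hB' : ∑ i ∈ s with 4 + η < y i, (y i) ^ 3 ≤ η * x := by
    refine hB.trans ?_
    rw [hCT]
    gcongr
    linarith
  obtain ⟨k1, k2, k3, k4, k5, k6, k7⟩ := REG_abs s y x η C hy0 hx0 hη0 hη1 hcard h1 h1' h4 hB'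
  -- comparison of `r2`, `r3` with the moments
  have ey2 : ∑ i ∈ s, y i ^ 2 = (∑ n ∈ s, (win 0 (ℓ : ℤ) (n : ℤ) : ℝ) ^ 2) / M ^ 2 := by
    rw [hy, Finset.sum_div]
    exact Finset.sum_congr rfl (fun n _ => div_pow _ _ _)
  have ey3 : ∑ i ∈ s, y i ^ 3 = (∑ n ∈ s, (win 0 (ℓ : ℤ) (n : ℤ) : ℝ) ^ 3) / M ^ 3 := by
    rw [hy, Finset.sum_div]
    exact Finset.sum_congr rfl (fun n _ => div_pow _ _ _)
  have c2 : 2 * ∑ n ∈ s, ((win 0 (ℓ : ℤ) (n : ℤ)).choose 2 : ℝ) =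
      M ^ 2 * ∑ i ∈ s, y i ^ 2 - M * ∑ i ∈ s, y i := by
    rw [ey1, ey2, Finset.mul_sum]
    rw [Finset.sum_congr rfl (fun (n : ℕ) _ => REG_ch2 (win 0 (ℓ : ℤ) (n : ℤ))), Finset.sum_sub_distrib]
    field_simp
  have c3 : 6 * ∑ n ∈ s, ((win 0 (ℓ : ℤ) (n : ℤ)).choose 3 : ℝ) =
      M ^ 3 * ∑ i ∈ s, y i ^ 3 - 3 * M ^ 2 * ∑ i ∈ s, y i ^ 2 + 2 * M * ∑ i ∈ s, y i := by
    rw [ey1, ey2, ey3, Finset.mul_sum]
    rw [Finset.sum_congr rfl (fun (n : ℕ) _ => REG_ch3 (win 0 (ℓ : ℤ) (n : ℤ))), Finset.sum_add_distrib,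
      Finset.sum_sub_distrib, ← Finset.mul_sum, ← Finset.mul_sum]
    field_simp
  have a1 := choose_pairs x ℓ
  have a2 := choose_pairs_ge x ℓ
  have a3 := choose_triples x ℓ
  have a4 := choose_triples_ge x ℓ
  rw [← hs] at a1 a2 a3 a4
  set A2 : ℝ := ∑ d ∈ Finset.Icc 1 ℓ, ((ℓ : ℝ) - d) * (cnt x {0, (d : ℤ)} : ℝ) with hA2'
  set A3 : ℝ := ∑ d ∈ Finset.Icc 1 ℓ, ∑ d' ∈ Finset.Ico 1 d,
    ((ℓ : ℝ) - d) * (cnt x {0, (d' : ℤ), (d : ℤ)} : ℝ) with hA3'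
  set S1 := ∑ i ∈ s, y i with hS1'
  set S2 := ∑ i ∈ s, y i ^ 2 with hS2'
  set S3 := ∑ i ∈ s, y i ^ 3 with hS3'
  have hS10 : 0 ≤ S1 := Finset.sum_nonneg hy0
  have hS20 : 0 ≤ S2 := Finset.sum_nonneg (fun i hi => pow_nonneg (hy0 i hi) 2)
  have hS30 : 0 ≤ S3 := Finset.sum_nonneg (fun i hi => pow_nonneg (hy0 i hi) 3)
  have er2 : r2 x ℓ = 2 * A2 / M ^ 2 / x := by
    unfold r2
    rw [← hA2', ← hΛ, hM]
    field_simp
  have er3 : r3 x ℓ = 6 * A3 / M ^ 3 / x := by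
    unfold r3
    rw [← hA3', ← hΛ, hM]
    field_simp
  obtain ⟨b1, b2, b3, b4⟩ := REG_cmp M x η C S1 S2 S3 A2 A3 _ _ ((ℓ : ℝ) ^ 3) ((ℓ : ℝ) ^ 4) hM1 hx0 hη0
    hC (by rwa [div_le_iff₀ hM0] at hM4) hS10 (h1'.trans (mul_le_mul_of_nonneg_right (by linarith) hx0.le))
    hS20 k6 hℓ7 hℓ8 c2 c3 a1 a2 a3 a4
  have hA20 : 0 ≤ A2 := by
    refine Finset.sum_nonneg (fun d hd => mul_nonneg ?_ (Nat.cast_nonneg _))
    rw [Finset.mem_Icc] at hd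
    have : (d : ℝ) ≤ ℓ := by exact_mod_cast hd.2
    linarith
  apply REG_fin (S2 / x) (S3 / x) (r2 x ℓ) (r3 x ℓ) η C ε hη0 hη1 hC (by rw [hηe]; exact hδε)
  · rw [er2]; positivity
  · rw [er2, abs_le]
    constructor
    · rw [← sub_nonneg]
      have : 2 * A2 / M ^ 2 / x - S2 / x - -η = (2 * A2 - M ^ 2 * (S2 - η * x)) / (M ^ 2 * x) := by
        field_simp
        ring
      rw [this]
      exact div_nonneg (by linarith) (by positivity)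
    · rw [← sub_nonneg]
      have : η - (2 * A2 / M ^ 2 / x - S2 / x) = (M ^ 2 * (S2 + η * x) - 2 * A2) / (M ^ 2 * x) := by
        field_simp
        ring
      rw [this]
      exact div_nonneg (by linarith) (by positivity)
  · rw [er3, ← sub_nonneg]
    have : 6 * A3 / M ^ 3 / x - (S3 / x - η) = (6 * A3 - M ^ 3 * (S3 - η * x)) / (M ^ 3 * x) := by
      field_simp
    rw [this]
    exact div_nonneg (by linarith) (by positivity)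
  · rw [er3, ← sub_nonneg]
    have : S3 / x + 2 * η - 6 * A3 / M ^ 3 / x = (M ^ 3 * (S3 + 2 * (η * x)) - 6 * A3) / (M ^ 3 * x) := by
      field_simp
    rw [this]
    exact div_nonneg (by linarith) (by positivity)
  · rw [le_div_iff₀ hx0]; exact k1
  · rw [div_le_iff₀ hx0]; exact k2
  · rw [← sub_nonneg]
    have : S3 / x + η * (2 + C) - (S2 / x) ^ 2 = ((S3 + η * (2 + C) * x) * x - S2 ^ 2) / x ^ 2 := by
      field_simp
    rw [this]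
    exact div_nonneg (by linarith) (by positivity)
  · rw [← sub_nonneg]
    have : 6 * (S2 / x) - 5 + 46 * η - S3 / x = (6 * S2 - 5 * x + 46 * η * x - S3) / x := by
      field_simp
    rw [this]
    exact div_nonneg (by linarith) hx0.le
  · rw [← sub_nonneg]
    have : 4 * (S2 / x) + η * (3 + C) - S3 / x = (4 * S2 + η * (3 + C) * x - S3) / x := by
      field_simp
    rw [this]
    exact div_nonneg (by linarith) hx0.le
  · rw [div_le_iff₀ hx0]; exact k6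

end Pool.Agent.H6.MB
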