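import Pool.Agent.H6.MB.Defs

/-!
# TDT: calculus of finite combinations of indicators of residue classes

* `TD_mono`: a divisor of `P` divides `Q`.
* `TD_one`: `D = {(1, 0)}`, `lam = 1`.
* `TD_add_shift`: replace the residues `r` by `r - a`.
* `TD_mul`: the product of the indicators of `n ≡ r (q)` and `n ≡ r' (q')` is `0` or the indicator of one class
  modulo `lcm(q, q') ∣ P` (Chinese remainder theorem). To index the product take
  `D'' = ` the image of pairs; different pairs may give the same class, so it is convenient to first prove the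
  statement for families: if `F n = ∑_{i ∈ s} (if (q i : ℤ) ∣ n - r i then c i else 0)` (`s` a `Finset` of any
  type, `0 < q i`, `q i ∣ P`, `∑ |c i| ≤ B`) then `TD P B F` (collect equal `(q i, r i)`:
  `lam d = ∑_{i : (q i, r i) = d} c i`, `Finset.sum_fiberwise`).
* `TD_sum`, `TD_smul` similarly. `TD_prod`: induction.
* `TD_ind`: `P = q`.
* `TD_period`: every indicator has period `P`.
* `avg_shift`: periodicity.
* `avg_ind`: exactly `P/q` of the `m ∈ [0, P)` lie in a class modulo `q ∣ P`.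
* `TRN`: for one indicator of a class mod `q ∣ P`, `gcd(W, P) = 1`: the `n` with `n ≡ t (W)`, `n ≡ r (q)` form one
  class modulo `W q`; the number of them in `[0, N)` is `N/(W q) + θ`, `|θ| ≤ 1`. Multiply by `lam` and sum.
* `avg_mul`: for coprime `P, Q` the map `m ↦ (m mod P, m mod Q)` is a bijection of `[0, P Q)` onto
  `[0,P) × [0,Q)`.
-/

set_option autoImplicit false

namespace Pool.Agent.H6.MB

open Finset

private theorem TDT_fam {ι : Type*} (s : Finset ι) {P : ℕ} {B : ℝ} {F : ℤ → ℝ} (q : ι → ℕ) (r : ι → ℤ)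
    (c : ι → ℝ) (hq : ∀ i ∈ s, 0 < q i ∧ q i ∣ P)
    (hF : ∀ n : ℤ, F n = ∑ i ∈ s, if (q i : ℤ) ∣ n - r i then c i else 0) (hB : ∑ i ∈ s, |c i| ≤ B) :
    TD P B F := by
  classical
  set key : ι → ℕ × ℤ := fun i => (q i, r i) with hkey
  refine ⟨s.image key, fun d => ∑ i ∈ s with key i = d, c i, ?_, ?_, ?_⟩
  · intro d hd
    obtain ⟨i, hi, rfl⟩ := Finset.mem_image.mp hd
    exact hq i hi
  · intro n
    rw [hF n, ← Finset.sum_fiberwise_of_maps_to (g := key) (t := s.image key)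
      (fun i hi => Finset.mem_image_of_mem key hi)]
    apply Finset.sum_congr rfl
    intro d _
    by_cases h : (d.1 : ℤ) ∣ n - d.2
    · rw [if_pos h]
      apply Finset.sum_congr rfl
      intro i hi
      have hk : key i = d := (Finset.mem_filter.mp hi).2
      have : (q i : ℤ) ∣ n - r i := by
        rw [← hk] at h
        exact h
      rw [if_pos this]
    · rw [if_neg h]
      apply Finset.sum_eq_zero
      intro i hi
      have hk : key i = d := (Finset.mem_filter.mp hi).2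
      have : ¬ (q i : ℤ) ∣ n - r i := by
        rw [← hk] at h
        exact h
      rw [if_neg this]
  · calc ∑ d ∈ s.image key, |∑ i ∈ s with key i = d, c i|
        ≤ ∑ d ∈ s.image key, ∑ i ∈ s with key i = d, |c i| :=
          Finset.sum_le_sum fun d _ => Finset.abs_sum_le_sum_abs _ _
      _ = ∑ i ∈ s, |c i| :=
          Finset.sum_fiberwise_of_maps_to (g := key) (t := s.image key)
            (fun i hi => Finset.mem_image_of_mem key hi) _
      _ ≤ B := hB

theorem TD_mono {P Q : ℕ} {B B' : ℝ} {F : ℤ → ℝ} (h : TD P B F) (hPQ : P ∣ Q) (hB : B ≤ B') : TD Q B' F := by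
  obtain ⟨D, lam, h1, h2, h3⟩ := h
  exact ⟨D, lam, fun d hd => ⟨(h1 d hd).1, (h1 d hd).2.trans hPQ⟩, h2, h3.trans hB⟩

theorem TD_ind {P q : ℕ} (hq : 0 < q) (hqP : q ∣ P) (r : ℤ) (c : ℝ) :
    TD P |c| (fun n => if (q : ℤ) ∣ n - r then c else 0) := by
  refine ⟨{(q, r)}, fun _ => c, ?_, ?_, ?_⟩
  · intro d hd
    rw [Finset.mem_singleton] at hd
    subst hd
    exact ⟨hq, hqP⟩
  · intro n
    simp
  · simp

theorem TD_one {P : ℕ} : TD P 1 (fun _ => 1) := by
  have h := TD_ind (P := P) (q := 1) one_pos (one_dvd P) 0 1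
  simpa using h

theorem TD_add_shift {P : ℕ} {B : ℝ} {F : ℤ → ℝ} (h : TD P B F) (a : ℤ) : TD P B (fun n => F (n + a)) := by
  obtain ⟨D, lam, h1, h2, h3⟩ := h
  refine TDT_fam D (fun d => d.1) (fun d => d.2 - a) lam h1 ?_ h3
  intro n
  change F (n + a) = _
  rw [h2 (n + a)]
  apply Finset.sum_congr rfl
  intro d _
  rw [show n + a - d.2 = n - (d.2 - a) by ring]

theorem TD_sum {ι : Type*} (s : Finset ι) {P : ℕ} {B : ι → ℝ} {F : ι → ℤ → ℝ} (h : ∀ i ∈ s, TD P (B i) (F i)) :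
    TD P (∑ i ∈ s, B i) (fun n => ∑ i ∈ s, F i n) := by
  classical
  choose! D lam h1 h2 h3 using h
  refine TDT_fam (s.sigma D) (fun d => d.2.1) (fun d => d.2.2) (fun d => lam d.1 d.2) ?_ ?_ ?_
  · intro d hd
    rw [Finset.mem_sigma] at hd
    exact h1 d.1 hd.1 d.2 hd.2
  · intro n
    rw [Finset.sum_sigma]
    exact Finset.sum_congr rfl fun i hi => h2 i hi n
  · rw [Finset.sum_sigma]
    exact Finset.sum_le_sum fun i hi => h3 i hi

private theorem TDT_lcm (a b : ℕ) (m : ℤ) : ((Nat.lcm a b : ℕ) : ℤ) ∣ m ↔ (a : ℤ) ∣ m ∧ (b : ℤ) ∣ m := by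
  rw [Int.natCast_dvd, Int.natCast_dvd, Int.natCast_dvd, Nat.lcm_dvd_iff]

theorem TD_mul {P : ℕ} {B B' : ℝ} {F G : ℤ → ℝ} (hP : 0 < P) (h : TD P B F) (h' : TD P B' G) :
    TD P (B * B') (fun n => F n * G n) := by
  classical
  obtain ⟨D, lam, h1, h2, h3⟩ := h
  obtain ⟨E, mu, g1, g2, g3⟩ := h'
  set comp : (ℕ × ℤ) × (ℕ × ℤ) → Prop := fun p =>
    ∃ n : ℤ, (p.1.1 : ℤ) ∣ n - p.1.2 ∧ (p.2.1 : ℤ) ∣ n - p.2.2 with hcomp
  set n0 : (ℕ × ℤ) × (ℕ × ℤ) → ℤ := fun p => if hh : comp p then hh.choose else 0 with hn0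
  have hn0s : ∀ p, comp p → (p.1.1 : ℤ) ∣ n0 p - p.1.2 ∧ (p.2.1 : ℤ) ∣ n0 p - p.2.2 := by
    intro p hp
    have e : n0 p = hp.choose := by rw [hn0]; exact dif_pos hp
    rw [e]
    exact hp.choose_spec
  refine TDT_fam (D ×ˢ E) (fun p => if comp p then Nat.lcm p.1.1 p.2.1 else 1) n0
    (fun p => if comp p then lam p.1 * mu p.2 else 0) ?_ ?_ ?_
  · intro p hp
    rw [Finset.mem_product] at hp
    by_cases hc : comp p
    · simp only [if_pos hc]
      exact ⟨Nat.lcm_pos (h1 _ hp.1).1 (g1 _ hp.2).1, Nat.lcm_dvd (h1 _ hp.1).2 (g1 _ hp.2).2⟩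
    · simp only [if_neg hc]
      exact ⟨one_pos, one_dvd _⟩
  · intro n
    change F n * G n = _
    rw [h2 n, g2 n, Finset.sum_mul_sum, ← Finset.sum_product']
    apply Finset.sum_congr rfl
    intro p hp
    by_cases hc : comp p
    · simp only [if_pos hc]
      obtain ⟨e1, e2⟩ := hn0s p hc
      have k1 : (p.1.1 : ℤ) ∣ n - n0 p ↔ (p.1.1 : ℤ) ∣ n - p.1.2 := by
        constructor
        · intro h
          have := dvd_add h e1
          rwa [show n - n0 p + (n0 p - p.1.2) = n - p.1.2 by ring] at this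
        · intro h
          have := dvd_sub h e1
          rwa [show n - p.1.2 - (n0 p - p.1.2) = n - n0 p by ring] at this
      have k2 : (p.2.1 : ℤ) ∣ n - n0 p ↔ (p.2.1 : ℤ) ∣ n - p.2.2 := by
        constructor
        · intro h
          have := dvd_add h e2
          rwa [show n - n0 p + (n0 p - p.2.2) = n - p.2.2 by ring] at this
        · intro h
          have := dvd_sub h e2
          rwa [show n - p.2.2 - (n0 p - p.2.2) = n - n0 p by ring] at this
      by_cases c1 : (p.1.1 : ℤ) ∣ n - p.1.2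
      · by_cases c2 : (p.2.1 : ℤ) ∣ n - p.2.2
        · rw [if_pos c1, if_pos c2, if_pos ((TDT_lcm _ _ _).mpr ⟨k1.mpr c1, k2.mpr c2⟩)]
        · rw [if_neg c2, mul_zero, if_neg (fun h => c2 (k2.mp ((TDT_lcm _ _ _).mp h).2))]
      · rw [if_neg c1, zero_mul, if_neg (fun h => c1 (k1.mp ((TDT_lcm _ _ _).mp h).1))]
    · simp only [if_neg hc, ite_self]
      by_cases c1 : (p.1.1 : ℤ) ∣ n - p.1.2
      · by_cases c2 : (p.2.1 : ℤ) ∣ n - p.2.2
        · exact absurd ⟨n, c1, c2⟩ hc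
        · rw [if_neg c2, mul_zero]
      · rw [if_neg c1, zero_mul]
  · calc ∑ p ∈ D ×ˢ E, |if comp p then lam p.1 * mu p.2 else 0|
        ≤ ∑ p ∈ D ×ˢ E, |lam p.1| * |mu p.2| := by
          apply Finset.sum_le_sum
          intro p _
          split_ifs
          · rw [abs_mul]
          · rw [abs_zero]; positivity
      _ = (∑ d ∈ D, |lam d|) * ∑ e ∈ E, |mu e| := by
          rw [Finset.sum_mul_sum, ← Finset.sum_product']
      _ ≤ B * B' := by
          apply mul_le_mul h3 g3 (Finset.sum_nonneg fun _ _ => abs_nonneg _)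
          exact (Finset.sum_nonneg fun _ _ => abs_nonneg _).trans h3

theorem TD_prod {ι : Type*} (s : Finset ι) {P : ℕ} (hP : 0 < P) {B : ι → ℝ} {F : ι → ℤ → ℝ}
    (h : ∀ i ∈ s, TD P (B i) (F i)) : TD P (∏ i ∈ s, B i) (fun n => ∏ i ∈ s, F i n) := by
  classical
  induction s using Finset.induction_on with
  | empty =>
    simp only [Finset.prod_empty]
    exact TD_one
  | insert i s his ih =>
    simp only [Finset.prod_insert his]
    exact TD_mul hP (h i (Finset.mem_insert_self _ _)) (ih fun j hj => h j (Finset.mem_insert_of_mem hj))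

theorem TD_pow {P : ℕ} (hP : 0 < P) {B : ℝ} {F : ℤ → ℝ} (h : TD P B F) (k : ℕ) : TD P (B ^ k) (fun n => F n ^ k) := by
  have := TD_prod (Finset.range k) hP (B := fun _ => B) (F := fun _ => F) (fun _ _ => h)
  simpa using this

theorem TD_period {P : ℕ} {B : ℝ} {F : ℤ → ℝ} (h : TD P B F) (n k : ℤ) : F (n + k * P) = F n := by
  obtain ⟨D, lam, h1, h2, h3⟩ := h
  rw [h2, h2]
  apply Finset.sum_congr rfl
  intro d hd
  have hdP : (d.1 : ℤ) ∣ k * P := (Int.natCast_dvd_natCast.mpr (h1 d hd).2).mul_left k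
  have : (d.1 : ℤ) ∣ n + k * P - d.2 ↔ (d.1 : ℤ) ∣ n - d.2 := by
    rw [show n + k * P - d.2 = (n - d.2) + k * P by ring]
    exact (dvd_add_left hdP)
  simp only [this]

theorem avg_shift {P : ℕ} (hP : 0 < P) {G : ℤ → ℝ} (h : ∀ n k : ℤ, G (n + k * P) = G n) (a : ℤ) :
    avgP P (fun m => G (m + a)) = avgP P G := by
  have step : ∀ a : ℤ, ∑ m ∈ Finset.range P, G ((m : ℤ) + (a + 1)) = ∑ m ∈ Finset.range P, G ((m : ℤ) + a) := by
    intro a
    have e1 := Finset.sum_range_succ (fun m : ℕ => G ((m : ℤ) + a)) P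
    have e2 := Finset.sum_range_succ' (fun m : ℕ => G ((m : ℤ) + a)) P
    have e3 : G ((P : ℤ) + a) = G (((0 : ℕ) : ℤ) + a) := by
      have := h (((0 : ℕ) : ℤ) + a) 1
      rw [← this]
      congr 1
      push_cast; ring
    have e4 : ∀ m : ℕ, G (((m + 1 : ℕ) : ℤ) + a) = G ((m : ℤ) + (a + 1)) := by
      intro m
      congr 1
      push_cast; ring
    simp only [e4] at e2
    linarith
  have key : ∑ m ∈ Finset.range P, G ((m : ℤ) + a) = ∑ m ∈ Finset.range P, G (m : ℤ) := by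
    induction a using Int.induction_on with
    | zero => simp
    | succ i ih => rw [step i, ih]
    | pred i ih =>
      rw [← ih]
      have := step (-(i : ℤ) - 1)
      rw [sub_add_cancel] at this
      exact this.symm
  unfold avgP
  rw [key]

theorem avg_mul {P Q : ℕ} (hP : 0 < P) (hQ : 0 < Q) (hc : P.Coprime Q) {F G : ℤ → ℝ}
    (hF : ∀ n k : ℤ, F (n + k * P) = F n) (hG : ∀ n k : ℤ, G (n + k * Q) = G n) :
    avgP (P * Q) (fun n => F n * G n) = avgP P F * avgP Q G := by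
  have modF : ∀ m : ℕ, F (m : ℤ) = F ((m % P : ℕ) : ℤ) := by
    intro m
    rw [← hF ((m % P : ℕ) : ℤ) ((m / P : ℕ) : ℤ)]
    congr 1
    have := Nat.mod_add_div m P
    have h2 : ((m % P + P * (m / P) : ℕ) : ℤ) = (m : ℤ) := by rw [this]
    rw [← h2]; push_cast; ring
  have modG : ∀ m : ℕ, G (m : ℤ) = G ((m % Q : ℕ) : ℤ) := by
    intro m
    rw [← hG ((m % Q : ℕ) : ℤ) ((m / Q : ℕ) : ℤ)]
    congr 1
    have := Nat.mod_add_div m Q
    have h2 : ((m % Q + Q * (m / Q) : ℕ) : ℤ) = (m : ℤ) := by rw [this]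
    rw [← h2]; push_cast; ring
  have key : ∑ m ∈ Finset.range (P * Q), F (m : ℤ) * G (m : ℤ)
      = ∑ ab ∈ Finset.range P ×ˢ Finset.range Q, F (ab.1 : ℤ) * G (ab.2 : ℤ) := by
    apply Finset.sum_nbij' (fun m => (m % P, m % Q))
      (fun ab => (Nat.chineseRemainder hc ab.1 ab.2 : ℕ))
    · intro m _
      rw [Finset.mem_product]
      exact ⟨Finset.mem_range.mpr (Nat.mod_lt _ hP), Finset.mem_range.mpr (Nat.mod_lt _ hQ)⟩
    · intro ab _
      rw [Finset.mem_range]
      exact Nat.chineseRemainder_lt_mul hc ab.1 ab.2 hP.ne' hQ.ne'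
    · intro m hm
      rw [Finset.mem_range] at hm
      have h1 : m ≡ m % P [MOD P] := (Nat.mod_modEq m P).symm
      have h2 : m ≡ m % Q [MOD Q] := (Nat.mod_modEq m Q).symm
      have h3 := Nat.chineseRemainder_modEq_unique hc h1 h2
      exact (Nat.ModEq.eq_of_lt_of_lt h3 hm (Nat.chineseRemainder_lt_mul hc _ _ hP.ne' hQ.ne')).symm
    · intro ab hab
      rw [Finset.mem_product, Finset.mem_range, Finset.mem_range] at hab
      have h1 := (Nat.chineseRemainder hc ab.1 ab.2).2.1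
      have h2 := (Nat.chineseRemainder hc ab.1 ab.2).2.2
      apply Prod.ext
      · change _ % P = ab.1
        rw [h1, Nat.mod_eq_of_lt hab.1]
      · change _ % Q = ab.2
        rw [h2, Nat.mod_eq_of_lt hab.2]
    · intro m _
      change F (m : ℤ) * G (m : ℤ) = F ((m % P : ℕ) : ℤ) * G ((m % Q : ℕ) : ℤ)
      rw [← modF, ← modG]
  unfold avgP
  rw [key, Finset.sum_product]
  have e3 : ∑ x ∈ Finset.range P, ∑ y ∈ Finset.range Q, F ((x, y).1 : ℤ) * G ((x, y).2 : ℤ)
      = (∑ x ∈ Finset.range P, F (x : ℤ)) * ∑ y ∈ Finset.range Q, G (y : ℤ) := by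
    rw [Finset.sum_mul_sum]
  rw [e3]
  have hP' : (P : ℝ) ≠ 0 := by exact_mod_cast hP.ne'
  have hQ' : (Q : ℝ) ≠ 0 := by exact_mod_cast hQ.ne'
  push_cast
  field_simp

private theorem TDT_iff {q : ℕ} (hq : 0 < q) (r : ℤ) (n : ℕ) :
    (q : ℤ) ∣ (n : ℤ) - r ↔ n ≡ (r % q).toNat [MOD q] := by
  have h0 : (0 : ℤ) ≤ r % q := Int.emod_nonneg _ (by exact_mod_cast hq.ne')
  rw [← Int.natCast_modEq_iff, Int.toNat_of_nonneg h0]
  constructor
  · intro h
    have h1 : r ≡ n [ZMOD q] := (Int.modEq_iff_dvd).mpr h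
    exact h1.symm.trans (Int.mod_modEq r q).symm
  · intro h
    have h1 : (n : ℤ) ≡ r [ZMOD q] := h.trans (Int.mod_modEq r q)
    exact (Int.modEq_iff_dvd).mp h1.symm

private theorem TDT_count (N M v : ℕ) (hM : 0 < M) :
    |(((Finset.range N).filter (fun n => n ≡ v [MOD M])).card : ℝ) - (N : ℝ) / M| ≤ 1 := by
  have h := Nat.count_modEq_card N hM v
  rw [Nat.count_eq_card_filter_range] at h
  rw [h]
  have hM' : (0 : ℝ) < M := by exact_mod_cast hM
  have h1 : (N : ℝ) = M * ((N / M : ℕ) : ℝ) + ((N % M : ℕ) : ℝ) := by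
    exact_mod_cast (Nat.div_add_mod N M).symm
  have h2 : ((N % M : ℕ) : ℝ) < M := by exact_mod_cast Nat.mod_lt N hM
  have h3 : (0 : ℝ) ≤ ((N % M : ℕ) : ℝ) := Nat.cast_nonneg _
  have h4 : (N : ℝ) / M = ((N / M : ℕ) : ℝ) + ((N % M : ℕ) : ℝ) / M := by
    rw [eq_comm, ← sub_eq_zero]
    field_simp
    linarith
  have h5 : ((N % M : ℕ) : ℝ) / M < 1 := (div_lt_one hM').mpr h2
  have h6 : 0 ≤ ((N % M : ℕ) : ℝ) / M := by positivity
  rw [h4, abs_le]
  split_ifs
  · push_cast
    constructor <;> linarith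
  · push_cast
    constructor <;> linarith

private theorem TDT_avg {P q : ℕ} (hq : 0 < q) (hqP : q ∣ P) (hP : 0 < P) (r : ℤ) :
    avgP P (fun n => if (q : ℤ) ∣ n - r then (1 : ℝ) else 0) = 1 / q := by
  unfold avgP
  have e : ∑ m ∈ Finset.range P, (if (q : ℤ) ∣ (m : ℤ) - r then (1 : ℝ) else 0)
      = (((Finset.range P).filter (fun n => n ≡ (r % q).toNat [MOD q])).card : ℝ) := by
    rw [Finset.card_filter]
    push_cast
    apply Finset.sum_congr rfl
    intro m _
    simp only [TDT_iff hq r m]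
  have h := Nat.count_modEq_card P hq (r % q).toNat
  rw [Nat.count_eq_card_filter_range, Nat.mod_eq_zero_of_dvd hqP] at h
  simp only [not_lt_zero', if_false, add_zero] at h
  rw [e, h]
  obtain ⟨k, rfl⟩ := hqP
  rw [Nat.mul_div_cancel_left _ hq]
  have hq' : (q : ℝ) ≠ 0 := by exact_mod_cast hq.ne'
  have hk : (k : ℝ) ≠ 0 := by
    rintro h0
    have : k = 0 := by exact_mod_cast h0
    subst this
    simp at hP
  push_cast
  field_simp

theorem TRN {P : ℕ} {B : ℝ} {F : ℤ → ℝ} (h : TD P B F) {W : ℕ} (hW : 0 < W) (hc : W.Coprime P) {t : ℕ} (ht : t < W)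
    (N : ℕ) (hP : 0 < P) :
    |∑ n ∈ (Finset.range N).filter (fun n => n % W = t), F (n : ℤ) - (N : ℝ) / W * avgP P F| ≤ B := by
  obtain ⟨D, lam, h1, h2, h3⟩ := h
  have hex : ∀ d ∈ D, ∃ θ : ℝ, |θ| ≤ 1 ∧
      ∑ n ∈ (Finset.range N).filter (fun n => n % W = t), (if (d.1 : ℤ) ∣ (n : ℤ) - d.2 then (1 : ℝ) else 0)
        = (N : ℝ) / W * (1 / d.1) + θ := by
    intro d hd
    obtain ⟨hd0, hdP⟩ := h1 d hd
    have hcd : W.Coprime d.1 := Nat.Coprime.coprime_dvd_right hdP hc
    set v := (d.2 % d.1).toNat with hv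
    set u := (Nat.chineseRemainder hcd t v : ℕ) with hu
    have hu1 : u ≡ t [MOD W] := (Nat.chineseRemainder hcd t v).2.1
    have hu2 : u ≡ v [MOD d.1] := (Nat.chineseRemainder hcd t v).2.2
    have e : ∑ n ∈ (Finset.range N).filter (fun n => n % W = t), (if (d.1 : ℤ) ∣ (n : ℤ) - d.2 then (1 : ℝ) else 0)
        = (((Finset.range N).filter (fun n => n ≡ u [MOD W * d.1])).card : ℝ) := by
      rw [Finset.sum_filter, Finset.card_filter]
      push_cast
      apply Finset.sum_congr rfl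
      intro n _
      have hiff : n ≡ u [MOD W * d.1] ↔ (n % W = t ∧ (d.1 : ℤ) ∣ (n : ℤ) - d.2) := by
        rw [TDT_iff hd0 d.2 n, ← Nat.modEq_and_modEq_iff_modEq_mul hcd]
        constructor
        · rintro ⟨a1, a2⟩
          refine ⟨?_, a2.trans hu2⟩
          have := a1.trans hu1
          rw [Nat.ModEq, Nat.mod_eq_of_lt ht] at this
          exact this
        · rintro ⟨a1, a2⟩
          refine ⟨?_, a2.trans hu2.symm⟩
          apply Nat.ModEq.trans _ hu1.symm
          rw [Nat.ModEq, Nat.mod_eq_of_lt ht]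
          exact a1
      by_cases c1 : n % W = t
      · by_cases c2 : (d.1 : ℤ) ∣ (n : ℤ) - d.2
        · rw [if_pos c1, if_pos c2, if_pos (hiff.mpr ⟨c1, c2⟩)]
        · rw [if_pos c1, if_neg c2, if_neg (fun h => c2 (hiff.mp h).2)]
      · rw [if_neg c1, if_neg (fun h => c1 (hiff.mp h).1)]
    refine ⟨_, ?_, (add_sub_cancel ((N : ℝ) / W * (1 / d.1)) _).symm⟩
    rw [e]
    have := TDT_count N (W * d.1) u (Nat.mul_pos hW hd0)
    rw [show (N : ℝ) / W * (1 / (d.1 : ℝ)) = (N : ℝ) / ((W * d.1 : ℕ) : ℝ) by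
      push_cast
      rw [div_mul_div_comm, mul_one]]
    exact this
  choose! θ hθ1 hθ2 using hex
  have hsum : ∑ n ∈ (Finset.range N).filter (fun n => n % W = t), F (n : ℤ)
      = ∑ d ∈ D, lam d * ((N : ℝ) / W * (1 / d.1) + θ d) := by
    simp_rw [h2]
    rw [Finset.sum_comm]
    apply Finset.sum_congr rfl
    intro d hd
    rw [← hθ2 d hd, Finset.mul_sum]
    apply Finset.sum_congr rfl
    intro n _
    split_ifs <;> simp
  have havg : avgP P F = ∑ d ∈ D, lam d * (1 / d.1) := by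
    have e1 : ∀ d ∈ D, lam d * (1 / (d.1 : ℝ))
        = lam d * avgP P (fun n => if (d.1 : ℤ) ∣ n - d.2 then (1 : ℝ) else 0) := by
      intro d hd
      rw [TDT_avg (h1 d hd).1 (h1 d hd).2 hP]
    rw [Finset.sum_congr rfl e1]
    unfold avgP
    simp_rw [h2]
    rw [Finset.sum_comm, Finset.sum_div]
    apply Finset.sum_congr rfl
    intro d hd
    rw [← mul_div_assoc, Finset.mul_sum]
    congr 1
    apply Finset.sum_congr rfl
    intro n _
    split_ifs <;> simp
  rw [hsum, havg, Finset.mul_sum, ← Finset.sum_sub_distrib]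
  calc |∑ d ∈ D, (lam d * ((N : ℝ) / W * (1 / d.1) + θ d) - (N : ℝ) / W * (lam d * (1 / d.1)))|
      = |∑ d ∈ D, lam d * θ d| := by
        congr 1
        apply Finset.sum_congr rfl
        intro d _
        ring
    _ ≤ ∑ d ∈ D, |lam d * θ d| := Finset.abs_sum_le_sum_abs _ _
    _ ≤ ∑ d ∈ D, |lam d| := by
        apply Finset.sum_le_sum
        intro d hd
        rw [abs_mul]
        exact mul_le_of_le_one_right (abs_nonneg _) (hθ1 d hd)
    _ ≤ B := h3

end Pool.Agent.H6.MB
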