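import Pool.Agent.H6.MB.TDT

/-!
# BLK: one block of the Brun-Hooley sieve

`B` a finite set of primes with `∑_{p ∈ B} 1/p ≤ L`, `P = ∏_{p ∈ B} p`, `b ≥ b₀(L)`.

* `gb_eq`: `gb b m = ∑_{i ≤ 2b} (-1)^i C(m,i)` (`Int.alternating_sum_range_choose_of_ne`-like identity
  `∑_{i ≤ r} (-1)^i C(m,i) = (-1)^r C(m-1,r)` for `m ≥ 1`, induction on `r`).
* `gb_TD`: `gb b (om B n) = ∑_{D ⊆ B, |D| ≤ 2b} (-1)^{|D|} 1[∏_{p ∈ D} p ∣ n]` (the `D` with `∏ D ∣ n` are the subsets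
  of `{p ∈ B : p ∣ n}`, group by cardinality), so `TD P K` with `K = #{D ⊆ B : |D| ≤ 2b}`; if all `p ∈ B` are `≤ z` the
  numbers `∏ D` are distinct integers in `[1, z^{2b}]`, so `K ≤ z^{2b}` (`z ≥ 1`).
* `gb_zero_of`: `gb b m = 0` for `1 ≤ m ≤ 2b`; `gb b 0 = 1`; `0 ≤ gb b m ≤ 2^m`.
* `BLK` (upper bound). Let `k = |s| ≤ 4`, `o(a) = om B (m+a)`. If all `o(a) = 0` the product is `1`; otherwise, if it is
  not `0`, some `a` has `o(a) > 2b`, and the product is `≤ ∏_{a'} 16^{o(a')}` (`gb^e ≤ 2^{4 o}`). For every `T ≥ 1`: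
  `1[o(a) > 2b] ≤ T^{o(a)-2b}`. So the product is
  `≤ 1[all o = 0] + ∑_{a ∈ s} T^{-2b} T^{o(a)} ∏_{a'} 16^{o(a')}`.
  Averages over `m mod P` factor over the primes (`avg_mul`, induction on `B`; each factor depends on `m mod p`):
  - `avg 1[all o = 0] = ∏_{p ∈ B} (1 - ν_p/p)`, `ν_p` = number of classes of `s` mod `p`. If `p` divides no difference
    then `ν_p = k` and `1 - k/p ≤ (1-1/p)^k`; if `p` divides some difference then
    `1 - ν_p/p ≤ 1 - 1/p ≤ (1-1/p)^k (1-1/p)^{-3} ≤ (1-1/p)^k (1 + 14/p)`. Take `C = 14`.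
  - `avg T^{o(a)} ∏ 16^{o(a')} ≤ ∏_p (1 + 4 T 16^4/p) ≤ exp (4·16^4 T L)`.
  With `T = max 1 (b/(4·16^4 L))` the second part is `≤ 4 T^{-2b} e^b ≤ (1/2)^b exp(-8 L)` for `b ≥ b₀(L)`, and
  `∏_{p ∈ B} (1-1/p)^k ≥ exp (-2 k L) ≥ exp (-8 L)` (`1 - u ≥ exp(-2u)` for `0 ≤ u ≤ 1/2`). The factor
  `∏ (1 + 14/p) ≥ 1` may be inserted in the second part.
* `BLK_lower`: `gb b (om B n) ≥ 1[om B n = 0]`, whose average is `∏ (1-1/p)`.
-/

set_option autoImplicit false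

namespace Pool.Agent.H6.MB

open Finset

theorem gb_nonneg (b m : ℕ) : 0 ≤ gb b m := by
  unfold gb
  split_ifs <;> positivity

theorem BLK_alt (k r : ℕ) : ∑ i ∈ Finset.range (r + 1), (-1 : ℝ) ^ i * ((k + 1).choose i : ℝ) =
    (-1) ^ r * (k.choose r : ℝ) := by
  induction r with
  | zero => simp
  | succ r ih =>
    rw [Finset.sum_range_succ, ih, Nat.choose_succ_succ k r]
    push_cast
    ring

theorem gb_eq (b m : ℕ) : gb b m = ∑ i ∈ Finset.range (2 * b + 1), (-1 : ℝ) ^ i * (m.choose i : ℝ) := by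
  unfold gb
  rcases m with _ | k
  · simp only [if_true]
    rw [Finset.sum_range_succ']
    simp
  · rw [BLK_alt, if_neg (Nat.succ_ne_zero k)]
    simp

theorem BLK_ind_sum (B : Finset ℕ) (hB : ∀ p ∈ B, p.Prime) (b : ℕ) (n : ℤ) :
    gb b (om B n) = ∑ D ∈ B.powerset.filter (fun D => D.card ≤ 2 * b),
      (if ((∏ p ∈ D, p : ℕ) : ℤ) ∣ n - 0 then (-1 : ℝ) ^ D.card else 0) := by
  rw [gb_eq]
  have hdvd : ∀ D ∈ B.powerset, (((∏ p ∈ D, p : ℕ) : ℤ) ∣ n - 0 ↔ D ∈ (B.filter (fun p : ℕ => (p : ℤ) ∣ n)).powerset) := by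
    intro D hD
    rw [Finset.mem_powerset] at hD
    rw [sub_zero, Finset.mem_powerset]
    constructor
    · intro h p hp
      rw [Finset.mem_filter]
      refine ⟨hD hp, dvd_trans ?_ h⟩
      exact_mod_cast Finset.dvd_prod_of_mem (fun p => p) hp
    · intro h
      rw [Int.natCast_dvd]
      refine Finset.prod_primes_dvd _ (fun p hp => (hB p (hD hp)).prime) (fun p hp => ?_)
      have := (Finset.mem_filter.mp (h hp)).2
      rwa [Int.natCast_dvd] at this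
  rw [← Finset.sum_filter, Finset.filter_filter]
  have hset : B.powerset.filter (fun D => D.card ≤ 2 * b ∧ ((∏ p ∈ D, p : ℕ) : ℤ) ∣ n - 0) =
      ((B.filter (fun p : ℕ => (p : ℤ) ∣ n)).powerset).filter (fun D => D.card ∈ Finset.range (2 * b + 1)) := by
    ext D
    simp only [Finset.mem_filter, Finset.mem_range]
    constructor
    · rintro ⟨h1, h2, h3⟩
      exact ⟨(hdvd D h1).mp h3, by omega⟩
    · rintro ⟨h1, h2⟩
      have h4 : D ∈ B.powerset := by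
        rw [Finset.mem_powerset] at h1 ⊢
        exact h1.trans (Finset.filter_subset _ _)
      exact ⟨h4, by omega, (hdvd D h4).mpr h1⟩
  rw [hset]
  rw [← Finset.sum_fiberwise_of_maps_to (s := ((B.filter (fun p : ℕ => (p : ℤ) ∣ n)).powerset).filter
    (fun D => D.card ∈ Finset.range (2 * b + 1))) (t := Finset.range (2 * b + 1)) (g := fun D => D.card)
    (fun D hD => (Finset.mem_filter.mp hD).2)]
  refine Finset.sum_congr rfl fun i hi => ?_
  rw [Finset.filter_filter]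
  have h5 : ((B.filter (fun p : ℕ => (p : ℤ) ∣ n)).powerset).filter
      (fun D => D.card ∈ Finset.range (2 * b + 1) ∧ D.card = i) =
      (B.filter (fun p : ℕ => (p : ℤ) ∣ n)).powersetCard i := by
    ext D
    simp only [Finset.mem_filter, Finset.mem_powerset, Finset.mem_powersetCard]
    constructor
    · rintro ⟨h1, h2, h3⟩
      exact ⟨h1, h3⟩
    · rintro ⟨h1, h3⟩
      exact ⟨h1, by rw [h3]; exact hi, h3⟩
  rw [h5, Finset.sum_congr rfl (fun D hD => by rw [(Finset.mem_powersetCard.mp hD).2]), Finset.sum_const,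
    Finset.card_powersetCard, nsmul_eq_mul]
  unfold om
  ring

theorem BLK_card (b : ℕ) {B : Finset ℕ} (hB : ∀ p ∈ B, p.Prime) {z : ℝ} (hz : 1 ≤ z) (hBz : ∀ p ∈ B, (p : ℝ) ≤ z) :
    ((B.powerset.filter (fun D => D.card ≤ 2 * b)).card : ℝ) ≤ z ^ (2 * b) := by
  have hz0 : 0 ≤ z ^ (2 * b) := by positivity
  have h1 : (B.powerset.filter (fun D => D.card ≤ 2 * b)).card ≤ (Finset.Icc 1 ⌊z ^ (2 * b)⌋₊).card := by
    refine Finset.card_le_card_of_injOn (fun D => ∏ p ∈ D, p) ?_ ?_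
    · intro D hD
      have hD' := Finset.mem_filter.mp (Finset.mem_coe.mp hD)
      have hsub := Finset.mem_powerset.mp hD'.1
      rw [Finset.mem_coe, Finset.mem_Icc]
      refine ⟨Finset.prod_pos fun p hp => (hB p (hsub hp)).pos, Nat.le_floor ?_⟩
      push_cast
      calc ∏ p ∈ D, (p : ℝ) ≤ ∏ p ∈ D, z :=
            Finset.prod_le_prod (fun p _ => by positivity) (fun p hp => hBz p (hsub hp))
        _ = z ^ D.card := by rw [Finset.prod_const]
        _ ≤ z ^ (2 * b) := pow_le_pow_right₀ hz hD'.2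
    · intro D hD D' hD' h
      have hD1 := Finset.mem_powerset.mp (Finset.mem_filter.mp (Finset.mem_coe.mp hD)).1
      have hD2 := Finset.mem_powerset.mp (Finset.mem_filter.mp (Finset.mem_coe.mp hD')).1
      have hp : ∀ D : Finset ℕ, D ⊆ B → (∏ p ∈ D, p).primeFactors = D := by
        intro D hD
        exact Nat.primeFactors_prod (fun p hp => hB p (hD hp))
      have h' : (∏ p ∈ D, p) = ∏ p ∈ D', p := h
      rw [← hp D hD1, h', hp D' hD2]
  calc ((B.powerset.filter (fun D => D.card ≤ 2 * b)).card : ℝ)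
      ≤ ((Finset.Icc 1 ⌊z ^ (2 * b)⌋₊).card : ℝ) := by exact_mod_cast h1
    _ = (⌊z ^ (2 * b)⌋₊ : ℝ) := by rw [Nat.card_Icc]; simp
    _ ≤ z ^ (2 * b) := Nat.floor_le hz0

theorem gb_TD (b : ℕ) {B : Finset ℕ} (hB : ∀ p ∈ B, p.Prime) {z : ℝ} (hz : 1 ≤ z) (hBz : ∀ p ∈ B, (p : ℝ) ≤ z) :
    TD (∏ p ∈ B, p) (z ^ (2 * b)) (fun n => gb b (om B n)) := by
  have h1 := TD_sum (P := ∏ p ∈ B, p) (B.powerset.filter (fun D => D.card ≤ 2 * b))
    (B := fun D => |(-1 : ℝ) ^ D.card|)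
    (F := fun D n => if ((∏ p ∈ D, p : ℕ) : ℤ) ∣ n - 0 then (-1 : ℝ) ^ D.card else 0)
    (fun D hD => by
      have hsub := Finset.mem_powerset.mp (Finset.mem_filter.mp hD).1
      exact TD_ind (Finset.prod_pos fun p hp => (hB p (hsub hp)).pos)
        (Finset.prod_dvd_prod_of_subset _ _ _ hsub) 0 _)
  have h2 : (fun n => gb b (om B n)) = fun n => ∑ D ∈ B.powerset.filter (fun D => D.card ≤ 2 * b),
      (if ((∏ p ∈ D, p : ℕ) : ℤ) ∣ n - 0 then (-1 : ℝ) ^ D.card else 0) := by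
    funext n
    exact BLK_ind_sum B hB b n
  rw [h2]
  refine TD_mono h1 dvd_rfl ?_
  calc ∑ D ∈ B.powerset.filter (fun D => D.card ≤ 2 * b), |(-1 : ℝ) ^ D.card|
      = ((B.powerset.filter (fun D => D.card ≤ 2 * b)).card : ℝ) := by
        rw [Finset.sum_congr rfl (fun D _ => by rw [abs_pow, abs_neg, abs_one, one_pow]), Finset.sum_const,
          nsmul_eq_mul, mul_one]
    _ ≤ z ^ (2 * b) := BLK_card b hB hz hBz

/-! ### averages -/

theorem BLK_mono {P : ℕ} {F G : ℤ → ℝ} (h : ∀ n, F n ≤ G n) : avgP P F ≤ avgP P G := by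
  unfold avgP
  exact div_le_div_of_nonneg_right (Finset.sum_le_sum fun m _ => h m) (Nat.cast_nonneg P)

theorem BLK_add {P : ℕ} (F G : ℤ → ℝ) : avgP P (fun n => F n + G n) = avgP P F + avgP P G := by
  unfold avgP
  rw [Finset.sum_add_distrib, add_div]

theorem BLK_sum {P : ℕ} {ι : Type*} (s : Finset ι) (F : ι → ℤ → ℝ) :
    avgP P (fun n => ∑ i ∈ s, F i n) = ∑ i ∈ s, avgP P (F i) := by
  unfold avgP
  rw [Finset.sum_comm, Finset.sum_div]

theorem BLK_smul {P : ℕ} (c : ℝ) (F : ℤ → ℝ) : avgP P (fun n => c * F n) = c * avgP P F := by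
  unfold avgP
  rw [← Finset.mul_sum, mul_div_assoc]

theorem BLK_avg_prod (B : Finset ℕ) (hB : ∀ p ∈ B, p.Prime) (g : ℕ → ℤ → ℝ)
    (hg : ∀ p ∈ B, ∀ n k : ℤ, g p (n + k * p) = g p n) :
    avgP (∏ p ∈ B, p) (fun n => ∏ p ∈ B, g p n) = ∏ p ∈ B, avgP p (g p) := by
  classical
  induction B using Finset.induction_on with
  | empty => simp [avgP]
  | insert q B hq ih =>
    have hB' : ∀ p ∈ B, p.Prime := fun p hp => hB p (Finset.mem_insert_of_mem hp)
    have hqp := hB q (Finset.mem_insert_self q B)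
    have hpos : 0 < ∏ p ∈ B, p := Finset.prod_pos fun p hp => (hB' p hp).pos
    rw [Finset.prod_insert hq, Finset.prod_insert hq]
    have h1 : (fun n => ∏ p ∈ insert q B, g p n) = fun n => g q n * ∏ p ∈ B, g p n := by
      funext n
      rw [Finset.prod_insert hq]
    rw [h1, avg_mul hqp.pos hpos ?_ (hg q (Finset.mem_insert_self q B)) ?_,
      ih hB' (fun p hp => hg p (Finset.mem_insert_of_mem hp))]
    · refine Nat.Coprime.prod_right fun p hp => ?_
      rw [Nat.coprime_primes hqp (hB' p hp)]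
      rintro rfl
      exact hq hp
    · intro n k
      refine Finset.prod_congr rfl fun p hp => ?_
      have h2 : p ∣ ∏ p ∈ B, p := Finset.dvd_prod_of_mem (fun p => p) hp
      obtain ⟨c, hc⟩ := h2
      have h3 : n + k * ((∏ p ∈ B, p : ℕ) : ℤ) = n + (k * c) * p := by
        rw [hc]
        push_cast
        ring
      rw [h3, hg p (Finset.mem_insert_of_mem hp)]

theorem BLK_one {p : ℕ} (hp : 0 < p) (a : ℤ) :
    ((Finset.range p).filter (fun m : ℕ => (p : ℤ) ∣ (m : ℤ) + a)).card = 1 := by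
  rw [Finset.card_eq_one]
  have hp0 : (p : ℤ) ≠ 0 := by exact_mod_cast hp.ne'
  have hpp : (0 : ℤ) < p := by exact_mod_cast hp
  have h0 := Int.emod_nonneg (-a) hp0
  have h1 := Int.emod_lt_of_pos (-a) hpp
  refine ⟨((-a) % (p : ℤ)).toNat, ?_⟩
  ext m
  simp only [Finset.mem_filter, Finset.mem_range, Finset.mem_singleton]
  constructor
  · rintro ⟨hm, hd⟩
    have h2 : (-a) ≡ (m : ℤ) [ZMOD p] := by
      rw [Int.modEq_iff_dvd]
      rwa [sub_neg_eq_add]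
    have h3 : (-a) % (p : ℤ) = (m : ℤ) % p := h2
    rw [Int.emod_eq_of_lt (Int.natCast_nonneg m) (by exact_mod_cast hm)] at h3
    rw [h3]
    simp
  · rintro rfl
    refine ⟨by omega, ?_⟩
    rw [Int.toNat_of_nonneg h0]
    have h2 : (-a) % (p : ℤ) ≡ -a [ZMOD p] := Int.mod_modEq _ _
    have h3 := (Int.modEq_iff_dvd.mp h2.symm)
    rwa [sub_neg_eq_add] at h3

theorem BLK_hit_le {p : ℕ} (hp : 0 < p) (s : Finset ℤ) :
    ((Finset.range p).filter (fun m : ℕ => ∃ a ∈ s, (p : ℤ) ∣ (m : ℤ) + a)).card ≤ s.card := by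
  classical
  have h1 : (Finset.range p).filter (fun m : ℕ => ∃ a ∈ s, (p : ℤ) ∣ (m : ℤ) + a) =
      s.biUnion (fun a => (Finset.range p).filter (fun m : ℕ => (p : ℤ) ∣ (m : ℤ) + a)) := by
    ext m
    simp only [Finset.mem_filter, Finset.mem_biUnion]
    constructor
    · rintro ⟨h, a, ha, hd⟩
      exact ⟨a, ha, h, hd⟩
    · rintro ⟨a, ha, h, hd⟩
      exact ⟨h, a, ha, hd⟩
  rw [h1]
  refine Finset.card_biUnion_le.trans ?_
  rw [Finset.sum_congr rfl (fun a _ => BLK_one hp a)]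
  simp

theorem BLK_hit_eq {p : ℕ} (hp : 0 < p) (s : Finset ℤ) (hs : ∀ a ∈ s, ∀ a' ∈ s, a ≠ a' → ¬ (p : ℤ) ∣ a - a') :
    ((Finset.range p).filter (fun m : ℕ => ∃ a ∈ s, (p : ℤ) ∣ (m : ℤ) + a)).card = s.card := by
  classical
  have h1 : (Finset.range p).filter (fun m : ℕ => ∃ a ∈ s, (p : ℤ) ∣ (m : ℤ) + a) =
      s.biUnion (fun a => (Finset.range p).filter (fun m : ℕ => (p : ℤ) ∣ (m : ℤ) + a)) := by
    ext m
    simp only [Finset.mem_filter, Finset.mem_biUnion]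
    constructor
    · rintro ⟨h, a, ha, hd⟩
      exact ⟨a, ha, h, hd⟩
    · rintro ⟨a, ha, h, hd⟩
      exact ⟨h, a, ha, hd⟩
  rw [h1, Finset.card_biUnion, Finset.sum_congr rfl (fun a _ => BLK_one hp a)]
  · simp
  · intro a ha a' ha' hne
    simp only [Function.onFun]
    rw [Finset.disjoint_left]
    intro m hm hm'
    have h2 := (Finset.mem_filter.mp hm).2
    have h3 := (Finset.mem_filter.mp hm').2
    refine hs a ha a' ha' hne ?_
    have h4 := dvd_sub h2 h3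
    have h5 : (m : ℤ) + a - (m + a') = a - a' := by ring
    rwa [h5] at h4

theorem BLK_hit_pos {p : ℕ} (hp : 0 < p) (s : Finset ℤ) (hs : 1 ≤ s.card) :
    1 ≤ ((Finset.range p).filter (fun m : ℕ => ∃ a ∈ s, (p : ℤ) ∣ (m : ℤ) + a)).card := by
  obtain ⟨a, ha⟩ := Finset.card_pos.mp hs
  rw [← BLK_one hp a]
  refine Finset.card_le_card fun m hm => ?_
  rw [Finset.mem_filter] at hm ⊢
  exact ⟨hm.1, a, ha, hm.2⟩

theorem BLK_avg0 {p : ℕ} (hp : 0 < p) (s : Finset ℤ) :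
    avgP p (fun n => if ∃ a ∈ s, (p : ℤ) ∣ n + a then (0 : ℝ) else 1) =
      1 - ((Finset.range p).filter (fun m : ℕ => ∃ a ∈ s, (p : ℤ) ∣ (m : ℤ) + a)).card / (p : ℝ) := by
  have hp0 : (p : ℝ) ≠ 0 := by exact_mod_cast hp.ne'
  unfold avgP
  have h1 : ∀ m ∈ Finset.range p, (if ∃ a ∈ s, (p : ℤ) ∣ (m : ℤ) + a then (0 : ℝ) else 1) =
      1 - (if ∃ a ∈ s, (p : ℤ) ∣ (m : ℤ) + a then (1 : ℝ) else 0) := by
    intro m _
    split_ifs <;> norm_num
  rw [Finset.sum_congr rfl h1, Finset.sum_sub_distrib, Finset.sum_boole]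
  simp only [Finset.sum_const, Finset.card_range, nsmul_eq_mul, mul_one]
  rw [sub_div, div_self hp0]

theorem BLK_avgT {p : ℕ} (hp : 0 < p) (s : Finset ℤ) (hs : s.card ≤ 4) {a : ℤ} (ha : a ∈ s) {T : ℝ} (hT : 1 ≤ T) :
    avgP p (fun n => (if (p : ℤ) ∣ n + a then T else 1) * ∏ a' ∈ s, (if (p : ℤ) ∣ n + a' then (16 : ℝ) else 1)) ≤
      1 + 4 * T * 16 ^ 4 / (p : ℝ) := by
  have hp0 : (0 : ℝ) < p := by exact_mod_cast hp
  have hle : ∀ n : ℤ, (if (p : ℤ) ∣ n + a then T else 1) * ∏ a' ∈ s, (if (p : ℤ) ∣ n + a' then (16 : ℝ) else 1) ≤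
      1 + T * 16 ^ 4 * (if ∃ a ∈ s, (p : ℤ) ∣ n + a then (1 : ℝ) else 0) := by
    intro n
    by_cases h : ∃ a ∈ s, (p : ℤ) ∣ n + a
    · rw [if_pos h]
      have h1 : (if (p : ℤ) ∣ n + a then T else 1) ≤ T := by split_ifs <;> linarith
      have h1' : 0 ≤ (if (p : ℤ) ∣ n + a then T else 1) := by split_ifs <;> linarith
      have h2 : ∏ a' ∈ s, (if (p : ℤ) ∣ n + a' then (16 : ℝ) else 1) ≤ 16 ^ 4 := by
        calc ∏ a' ∈ s, (if (p : ℤ) ∣ n + a' then (16 : ℝ) else 1) ≤ ∏ a' ∈ s, (16 : ℝ) :=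
              Finset.prod_le_prod (fun a' _ => by split_ifs <;> norm_num) (fun a' _ => by split_ifs <;> norm_num)
          _ = 16 ^ s.card := by rw [Finset.prod_const]
          _ ≤ 16 ^ 4 := pow_le_pow_right₀ (by norm_num) hs
      have h2' : 0 ≤ ∏ a' ∈ s, (if (p : ℤ) ∣ n + a' then (16 : ℝ) else 1) :=
        Finset.prod_nonneg fun a' _ => by split_ifs <;> norm_num
      have h3 := mul_le_mul h1 h2 h2' (by linarith)
      linarith
    · rw [if_neg h]
      push Not at h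
      rw [if_neg (h a ha), Finset.prod_eq_one (fun a' ha' => if_neg (h a' ha'))]
      linarith
  refine (BLK_mono hle).trans ?_
  rw [BLK_add, BLK_smul]
  have h1 : avgP p (fun _ => (1 : ℝ)) = 1 := by
    unfold avgP
    simp [hp0.ne']
  have h2 : avgP p (fun n => if ∃ a ∈ s, (p : ℤ) ∣ n + a then (1 : ℝ) else 0) ≤ 4 / p := by
    unfold avgP
    rw [Finset.sum_boole]
    refine div_le_div_of_nonneg_right ?_ hp0.le
    exact_mod_cast (BLK_hit_le hp s).trans hs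
  rw [h1]
  have h3 : T * 16 ^ 4 * avgP p (fun n => if ∃ a ∈ s, (p : ℤ) ∣ n + a then (1 : ℝ) else 0) ≤ T * 16 ^ 4 * (4 / p) :=
    mul_le_mul_of_nonneg_left h2 (by positivity)
  have h4 : T * 16 ^ 4 * (4 / (p : ℝ)) = 4 * T * 16 ^ 4 / (p : ℝ) := by ring
  linarith

theorem BLK_pow_om (B : Finset ℕ) (c : ℝ) (n : ℤ) : c ^ om B n = ∏ p ∈ B, (if (p : ℤ) ∣ n then c else 1) := by
  unfold om
  rw [Finset.prod_ite, Finset.prod_const, Finset.prod_const_one, mul_one]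

theorem BLK_dvd_shift (p : ℕ) (n k a : ℤ) : (p : ℤ) ∣ n + k * p + a ↔ (p : ℤ) ∣ n + a := by
  have h1 : n + k * p + a = (n + a) + k * p := by ring
  rw [h1]
  exact (Int.dvd_add_left (Dvd.intro_left k rfl))

theorem gb_le (b m : ℕ) : gb b m ≤ 2 ^ m := by
  unfold gb
  split_ifs with h
  · rw [h]; norm_num
  · calc ((m - 1).choose (2 * b) : ℝ) ≤ 2 ^ (m - 1) := by exact_mod_cast Nat.choose_le_two_pow _ _
      _ ≤ 2 ^ m := pow_le_pow_right₀ (by norm_num) (by omega)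

theorem BLK_point (b : ℕ) (B : Finset ℕ) (s : Finset ℤ) (e : ℤ → ℕ) (he : ∀ a, 1 ≤ e a ∧ e a ≤ 4) {T : ℝ}
    (hT : 1 ≤ T) (n : ℤ) :
    ∏ a ∈ s, gb b (om B (n + a)) ^ e a ≤
      (∏ p ∈ B, if ∃ a ∈ s, (p : ℤ) ∣ n + a then (0 : ℝ) else 1) +
      ∑ a ∈ s, (T ^ (2 * b))⁻¹ * ∏ p ∈ B, ((if (p : ℤ) ∣ n + a then T else 1) *
        ∏ a' ∈ s, (if (p : ℤ) ∣ n + a' then (16 : ℝ) else 1)) := by
  have hT0 : 0 < T := by linarith
  have hF0 : 0 ≤ ∏ p ∈ B, if ∃ a ∈ s, (p : ℤ) ∣ n + a then (0 : ℝ) else 1 :=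
    Finset.prod_nonneg fun p _ => by split_ifs <;> norm_num
  have hFa : ∀ a ∈ s, 0 ≤ (T ^ (2 * b))⁻¹ * ∏ p ∈ B, ((if (p : ℤ) ∣ n + a then T else 1) *
        ∏ a' ∈ s, (if (p : ℤ) ∣ n + a' then (16 : ℝ) else 1)) := by
    intro a _
    refine mul_nonneg (by positivity) (Finset.prod_nonneg fun p _ => mul_nonneg ?_ ?_)
    · split_ifs <;> linarith
    · exact Finset.prod_nonneg fun a' _ => by split_ifs <;> norm_num
  by_cases h0 : ∀ a ∈ s, om B (n + a) = 0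
  · have h1 : ∏ a ∈ s, gb b (om B (n + a)) ^ e a = 1 := by
      refine Finset.prod_eq_one fun a ha => ?_
      rw [h0 a ha]
      simp [gb]
    have h2 : (∏ p ∈ B, if ∃ a ∈ s, (p : ℤ) ∣ n + a then (0 : ℝ) else 1) = 1 := by
      refine Finset.prod_eq_one fun p hp => ?_
      rw [if_neg]
      rintro ⟨a, ha, hd⟩
      have h3 := h0 a ha
      unfold om at h3
      rw [Finset.card_eq_zero, Finset.filter_eq_empty_iff] at h3
      exact h3 hp hd
    rw [h1, h2]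
    linarith [Finset.sum_nonneg hFa]
  · push Not at h0
    obtain ⟨a, ha, hne⟩ := h0
    by_cases hz : gb b (om B (n + a)) = 0
    · have h1 : ∏ a ∈ s, gb b (om B (n + a)) ^ e a = 0 := by
        refine Finset.prod_eq_zero ha ?_
        rw [hz, zero_pow (by have := (he a).1; omega)]
      rw [h1]
      linarith [Finset.sum_nonneg hFa]
    · have h1 : 2 * b < om B (n + a) := by
        unfold gb at hz
        rw [if_neg hne] at hz
        have h2 : (om B (n + a) - 1).choose (2 * b) ≠ 0 := by exact_mod_cast hz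
        have h3 := Nat.choose_ne_zero_iff.mp h2
        omega
      have h2 : ∏ a ∈ s, gb b (om B (n + a)) ^ e a ≤ ∏ a ∈ s, (16 : ℝ) ^ om B (n + a) := by
        refine Finset.prod_le_prod (fun a _ => pow_nonneg (gb_nonneg _ _) _) (fun a _ => ?_)
        calc gb b (om B (n + a)) ^ e a ≤ (2 ^ om B (n + a)) ^ e a := pow_le_pow_left₀ (gb_nonneg _ _) (gb_le _ _) _
          _ ≤ ((2 : ℝ) ^ om B (n + a)) ^ 4 := pow_le_pow_right₀ (one_le_pow₀ (by norm_num)) (he a).2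
          _ = (16 : ℝ) ^ om B (n + a) := by
            rw [← pow_mul, mul_comm, pow_mul]
            norm_num
      have h3 : ∏ p ∈ B, ((if (p : ℤ) ∣ n + a then T else 1) *
          ∏ a' ∈ s, (if (p : ℤ) ∣ n + a' then (16 : ℝ) else 1)) =
          T ^ om B (n + a) * ∏ a ∈ s, (16 : ℝ) ^ om B (n + a) := by
        rw [Finset.prod_mul_distrib, ← BLK_pow_om, Finset.prod_comm]
        congr 1
        refine Finset.prod_congr rfl fun a' _ => ?_
        rw [BLK_pow_om]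
      have h4 : (1 : ℝ) ≤ (T ^ (2 * b))⁻¹ * T ^ om B (n + a) := by
        rw [inv_mul_eq_div, le_div_iff₀ (by positivity), one_mul]
        exact pow_le_pow_right₀ hT h1.le
      have h5 : 0 ≤ ∏ a ∈ s, (16 : ℝ) ^ om B (n + a) := by positivity
      have h6 := Finset.single_le_sum hFa ha
      have h7 : ∏ a ∈ s, (16 : ℝ) ^ om B (n + a) ≤ (T ^ (2 * b))⁻¹ * ∏ p ∈ B, ((if (p : ℤ) ∣ n + a then T else 1) *
          ∏ a' ∈ s, (if (p : ℤ) ∣ n + a' then (16 : ℝ) else 1)) := by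
        rw [h3, ← mul_assoc]
        exact le_mul_of_one_le_left h5 h4
      linarith

theorem BLK_real {u : ℝ} (hu0 : 0 ≤ u) (hu : u ≤ 1 / 2) : 1 ≤ (1 - u) ^ 3 * (1 + 14 * u) := by
  have h1 : (1 - u) ^ 3 * (1 + 14 * u) = 1 + u * ((1 - 2 * u) * (11 - 17 * u + 7 * u ^ 2)) := by ring
  have h2 : 0 ≤ 11 - 17 * u + 7 * u ^ 2 := by nlinarith
  have h3 : 0 ≤ u * ((1 - 2 * u) * (11 - 17 * u + 7 * u ^ 2)) :=
    mul_nonneg hu0 (mul_nonneg (by linarith) h2)
  rw [h1]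
  linarith

theorem BLK_exp_le {u : ℝ} (hu0 : 0 ≤ u) (hu : u ≤ 1 / 2) : Real.exp (-(2 * u)) ≤ 1 - u := by
  have h1 : (1 + 2 * u) ≤ Real.exp (2 * u) := by linarith [Real.add_one_le_exp (2 * u)]
  have h2 : 1 ≤ (1 - u) * (1 + 2 * u) := by nlinarith
  rw [Real.exp_neg]
  have h3 : 0 < Real.exp (2 * u) := Real.exp_pos _
  rw [inv_le_iff_one_le_mul₀ h3]
  calc (1 : ℝ) ≤ (1 - u) * (1 + 2 * u) := h2
    _ ≤ (1 - u) * Real.exp (2 * u) := mul_le_mul_of_nonneg_left h1 (by linarith)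

theorem BLK_main_factor {p : ℕ} (hp : p.Prime) (s : Finset ℤ) (hs1 : 1 ≤ s.card) (hs4 : s.card ≤ 4) :
    avgP p (fun n => if ∃ a ∈ s, (p : ℤ) ∣ n + a then (0 : ℝ) else 1) ≤
      (1 - 1 / (p : ℝ)) ^ s.card *
        (if ∃ a ∈ s, ∃ a' ∈ s, a ≠ a' ∧ (p : ℤ) ∣ a - a' then (1 + 14 / (p : ℝ)) else 1) := by
  have hp0 : (0 : ℝ) < p := by exact_mod_cast hp.pos
  have hp2 : (2 : ℝ) ≤ p := by exact_mod_cast hp.two_le
  have hu0 : (0 : ℝ) ≤ 1 / p := by positivity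
  have hu : 1 / (p : ℝ) ≤ 1 / 2 := one_div_le_one_div_of_le (by norm_num) hp2
  rw [BLK_avg0 hp.pos s]
  split_ifs with h
  · have h1 : (1 : ℝ) ≤ ((Finset.range p).filter (fun m : ℕ => ∃ a ∈ s, (p : ℤ) ∣ (m : ℤ) + a)).card := by
      exact_mod_cast BLK_hit_pos hp.pos s hs1
    have h2 : 1 - (((Finset.range p).filter (fun m : ℕ => ∃ a ∈ s, (p : ℤ) ∣ (m : ℤ) + a)).card : ℝ) / (p : ℝ) ≤
        1 - 1 / (p : ℝ) := by
      have := div_le_div_of_nonneg_right h1 hp0.le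
      linarith
    refine h2.trans ?_
    have h3 := BLK_real hu0 hu
    have h4 : (0 : ℝ) ≤ 1 - 1 / p := by linarith
    have h5 : (1 - 1 / (p : ℝ)) ^ 4 ≤ (1 - 1 / (p : ℝ)) ^ s.card := pow_le_pow_of_le_one h4 (by linarith) hs4
    have h6 : (0 : ℝ) ≤ 1 + 14 / p := by positivity
    calc 1 - 1 / (p : ℝ) ≤ (1 - 1 / p) * ((1 - 1 / p) ^ 3 * (1 + 14 * (1 / p))) := le_mul_of_one_le_right h4 h3
      _ = (1 - 1 / p) ^ 4 * (1 + 14 / p) := by ring
      _ ≤ (1 - 1 / (p : ℝ)) ^ s.card * (1 + 14 / (p : ℝ)) := mul_le_mul_of_nonneg_right h5 h6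
  · push Not at h
    rw [BLK_hit_eq hp.pos s (fun a ha a' ha' hne => h a ha a' ha' hne), mul_one]
    have h1 := one_add_mul_le_pow (a := -(1 / (p : ℝ))) (by linarith) s.card
    have h2 : 1 + (s.card : ℝ) * -(1 / (p : ℝ)) = 1 - (s.card : ℝ) / p := by ring
    rw [h2, ← sub_eq_add_neg] at h1
    exact h1

theorem BLK (L : ℝ) (hL : 0 < L) : ∃ b₀ : ℕ, ∀ b : ℕ, b₀ ≤ b → ∀ B : Finset ℕ, (∀ p ∈ B, p.Prime) →
    ∑ p ∈ B, 1 / (p : ℝ) ≤ L → ∀ s : Finset ℤ, 1 ≤ s.card → s.card ≤ 4 → ∀ e : ℤ → ℕ, (∀ a, 1 ≤ e a ∧ e a ≤ 4) →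
    avgP (∏ p ∈ B, p) (fun m => ∏ a ∈ s, gb b (om B (m + a)) ^ e a)
      ≤ (1 + (1 / 2) ^ b) * (∏ p ∈ B, (1 - 1 / (p : ℝ))) ^ s.card *
          ∏ p ∈ B.filter (fun p : ℕ => ∃ a ∈ s, ∃ a' ∈ s, a ≠ a' ∧ (p : ℤ) ∣ a - a'), (1 + 14 / (p : ℝ)) := by
  classical
  set K : ℝ := 4 * 16 ^ 4 * L with hK
  have hK0 : 0 < K := by positivity
  set T₀ : ℝ := 8 * Real.exp (8 * L + 1) with hT₀
  have hT₀1 : 1 ≤ T₀ := by
    have := Real.add_one_le_exp (8 * L + 1)
    rw [hT₀]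
    linarith
  refine ⟨⌈K * T₀⌉₊ + 1, fun b hb B hB hBL s hs1 hs4 e he => ?_⟩
  have hbK : K * T₀ ≤ b := by
    have h1 : K * T₀ ≤ (⌈K * T₀⌉₊ : ℝ) := Nat.le_ceil _
    have h2 : ((⌈K * T₀⌉₊ + 1 : ℕ) : ℝ) ≤ b := by exact_mod_cast hb
    push_cast at h2
    linarith
  have hb1 : 1 ≤ b := by omega
  set T : ℝ := b / K with hT
  have hTT : T₀ ≤ T := by
    rw [hT, le_div_iff₀ hK0]
    linarith
  have hT1 : 1 ≤ T := hT₀1.trans hTT
  have hT0 : 0 < T := by linarith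
  have hKT : K * T = b := by
    rw [hT]
    field_simp
  -- the average of the majorant
  have hstep := BLK_mono (P := ∏ p ∈ B, p) (BLK_point b B s e he hT1)
  refine hstep.trans ?_
  rw [BLK_add, BLK_sum]
  simp only [BLK_smul]
  rw [BLK_avg_prod B hB (fun p n => if ∃ a ∈ s, (p : ℤ) ∣ n + a then (0 : ℝ) else 1)
    (fun p _ n k => by simp only [BLK_dvd_shift])]
  have hsec : ∀ a ∈ s, (T ^ (2 * b))⁻¹ * avgP (∏ p ∈ B, p) (fun n => ∏ p ∈ B, ((if (p : ℤ) ∣ n + a then T else 1) *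
        ∏ a' ∈ s, (if (p : ℤ) ∣ n + a' then (16 : ℝ) else 1))) ≤ (T ^ (2 * b))⁻¹ * Real.exp b := by
    intro a ha
    refine mul_le_mul_of_nonneg_left ?_ (by positivity)
    rw [BLK_avg_prod B hB (fun p n => (if (p : ℤ) ∣ n + a then T else 1) *
        ∏ a' ∈ s, (if (p : ℤ) ∣ n + a' then (16 : ℝ) else 1))
      (fun p _ n k => by simp only [BLK_dvd_shift])]
    calc ∏ p ∈ B, avgP p (fun n => (if (p : ℤ) ∣ n + a then T else 1) *
            ∏ a' ∈ s, (if (p : ℤ) ∣ n + a' then (16 : ℝ) else 1))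
        ≤ ∏ p ∈ B, Real.exp (4 * T * 16 ^ 4 / (p : ℝ)) := by
          refine Finset.prod_le_prod (fun p hp => ?_) (fun p hp => ?_)
          · unfold avgP
            refine div_nonneg (Finset.sum_nonneg fun m _ => mul_nonneg ?_ ?_) (Nat.cast_nonneg p)
            · split_ifs <;> linarith
            · exact Finset.prod_nonneg fun a' _ => by split_ifs <;> norm_num
          · refine (BLK_avgT (hB p hp).pos s hs4 ha hT1).trans ?_
            linarith [Real.add_one_le_exp (4 * T * 16 ^ 4 / (p : ℝ))]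
      _ = Real.exp (4 * T * 16 ^ 4 * ∑ p ∈ B, 1 / (p : ℝ)) := by
          rw [← Real.exp_sum, Finset.mul_sum]
          congr 1
          refine Finset.sum_congr rfl fun p _ => ?_
          ring
      _ ≤ Real.exp b := by
          refine Real.exp_le_exp.mpr ?_
          calc 4 * T * 16 ^ 4 * ∑ p ∈ B, 1 / (p : ℝ) ≤ 4 * T * 16 ^ 4 * L :=
                mul_le_mul_of_nonneg_left hBL (by positivity)
            _ = K * T := by rw [hK]; ring
            _ = b := hKT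
  have hsecsum := Finset.sum_le_sum hsec
  rw [Finset.sum_const, nsmul_eq_mul] at hsecsum
  -- the main factor
  have hfac : ∏ p ∈ B, avgP p (fun n => if ∃ a ∈ s, (p : ℤ) ∣ n + a then (0 : ℝ) else 1) ≤
      (∏ p ∈ B, (1 - 1 / (p : ℝ))) ^ s.card *
        ∏ p ∈ B.filter (fun p : ℕ => ∃ a ∈ s, ∃ a' ∈ s, a ≠ a' ∧ (p : ℤ) ∣ a - a'), (1 + 14 / (p : ℝ)) := by
    rw [← Finset.prod_pow, Finset.prod_filter, ← Finset.prod_mul_distrib]
    refine Finset.prod_le_prod (fun p hp => ?_) (fun p hp => BLK_main_factor (hB p hp) s hs1 hs4)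
    unfold avgP
    exact div_nonneg (Finset.sum_nonneg fun m _ => by dsimp only; split_ifs <;> norm_num) (Nat.cast_nonneg p)
  set M : ℝ := (∏ p ∈ B, (1 - 1 / (p : ℝ))) ^ s.card with hM
  set X : ℝ := ∏ p ∈ B.filter (fun p : ℕ => ∃ a ∈ s, ∃ a' ∈ s, a ≠ a' ∧ (p : ℤ) ∣ a - a'), (1 + 14 / (p : ℝ)) with hX
  have hX1 : 1 ≤ X := by
    calc (1 : ℝ) = ∏ p ∈ B.filter (fun p : ℕ => ∃ a ∈ s, ∃ a' ∈ s, a ≠ a' ∧ (p : ℤ) ∣ a - a'), (1 : ℝ) := by
          rw [Finset.prod_const_one]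
      _ ≤ X := by
          refine Finset.prod_le_prod (fun p _ => by norm_num) (fun p _ => ?_)
          have : (0 : ℝ) ≤ 14 / p := by positivity
          linarith
  have hMlow : Real.exp (-(8 * L)) ≤ M := by
    have h1 : Real.exp (-(2 * L)) ≤ ∏ p ∈ B, (1 - 1 / (p : ℝ)) := by
      calc Real.exp (-(2 * L)) ≤ Real.exp (∑ p ∈ B, (-(2 * (1 / (p : ℝ))))) := by
            refine Real.exp_le_exp.mpr ?_
            rw [Finset.sum_neg_distrib, ← Finset.mul_sum]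
            linarith
        _ = ∏ p ∈ B, Real.exp (-(2 * (1 / (p : ℝ)))) := Real.exp_sum _ _
        _ ≤ ∏ p ∈ B, (1 - 1 / (p : ℝ)) := by
            refine Finset.prod_le_prod (fun p _ => (Real.exp_pos _).le) (fun p hp => ?_)
            have hp2 : (2 : ℝ) ≤ p := by exact_mod_cast (hB p hp).two_le
            exact BLK_exp_le (by positivity) (one_div_le_one_div_of_le (by norm_num) hp2)
    have h2 : (0 : ℝ) < Real.exp (-(2 * L)) := Real.exp_pos _
    calc Real.exp (-(8 * L)) = Real.exp (-(2 * L)) ^ 4 := by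
          rw [← Real.exp_nat_mul]
          congr 1
          push_cast
          ring
      _ ≤ Real.exp (-(2 * L)) ^ s.card := by
          refine pow_le_pow_of_le_one h2.le ?_ hs4
          rw [Real.exp_le_one_iff]
          linarith
      _ ≤ M := pow_le_pow_left₀ h2.le h1 _
  have hM0 : 0 < M := (Real.exp_pos _).trans_le hMlow
  -- the second part is small
  have hsmall : (s.card : ℝ) * ((T ^ (2 * b))⁻¹ * Real.exp b) ≤ (1 / 2) ^ b * (M * X) := by
    have h1 : 8 * Real.exp (8 * L + 1) ≤ T := hTT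
    have h2 : 4 * Real.exp (8 * L) * (2 * Real.exp 1 / T ^ 2) ^ b ≤ 1 := by
      have h3 : 2 * Real.exp 1 / T ^ 2 ≤ 1 / (4 * Real.exp (8 * L)) := by
        rw [div_le_div_iff₀ (by positivity) (by positivity)]
        have h4 : 2 * Real.exp 1 * (4 * Real.exp (8 * L)) = 8 * Real.exp (8 * L + 1) := by
          rw [Real.exp_add]
          ring
        rw [h4]
        nlinarith
      have h5 : (1 : ℝ) ≤ 4 * Real.exp (8 * L) := by
        have := Real.one_le_exp (by positivity : (0 : ℝ) ≤ 8 * L)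
        linarith
      have h6 : 1 / (4 * Real.exp (8 * L)) ≤ 1 := by
        rw [div_le_one (by positivity)]
        exact h5
      have h7 : (0 : ℝ) ≤ 2 * Real.exp 1 / T ^ 2 := by positivity
      calc 4 * Real.exp (8 * L) * (2 * Real.exp 1 / T ^ 2) ^ b
          ≤ 4 * Real.exp (8 * L) * (1 / (4 * Real.exp (8 * L))) ^ b := by
            refine mul_le_mul_of_nonneg_left (pow_le_pow_left₀ h7 h3 b) (by positivity)
        _ ≤ 4 * Real.exp (8 * L) * (1 / (4 * Real.exp (8 * L))) ^ 1 := by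
            refine mul_le_mul_of_nonneg_left (pow_le_pow_of_le_one (by positivity) h6 hb1) (by positivity)
        _ = 1 := by
            rw [pow_one]
            field_simp
    have h3 : (2 * Real.exp 1 / T ^ 2) ^ b = 2 ^ b * ((T ^ (2 * b))⁻¹ * Real.exp b) := by
      rw [div_pow, mul_pow, ← Real.exp_nat_mul, ← pow_mul, mul_one, div_eq_mul_inv]
      ring
    rw [h3] at h2
    have h4 : (s.card : ℝ) ≤ 4 := by exact_mod_cast hs4
    have h5 : 0 ≤ (T ^ (2 * b))⁻¹ * Real.exp b := by positivity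
    have h6 : Real.exp (8 * L) * Real.exp (-(8 * L)) = 1 := by
      rw [← Real.exp_add]
      simp
    have h7 : (0 : ℝ) < 2 ^ b := by positivity
    have h8 : (s.card : ℝ) * ((T ^ (2 * b))⁻¹ * Real.exp b) ≤ (1 / 2) ^ b * Real.exp (-(8 * L)) := by
      calc (s.card : ℝ) * ((T ^ (2 * b))⁻¹ * Real.exp b) ≤ 4 * ((T ^ (2 * b))⁻¹ * Real.exp b) :=
            mul_le_mul_of_nonneg_right h4 h5
        _ = (1 / 2) ^ b * (4 * (2 ^ b * ((T ^ (2 * b))⁻¹ * Real.exp b))) := by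
            rw [one_div, inv_pow]
            field_simp
        _ = (1 / 2) ^ b * (Real.exp (-(8 * L)) * (4 * Real.exp (8 * L) * (2 ^ b * ((T ^ (2 * b))⁻¹ * Real.exp b)))) := by
            linear_combination (-(1 / 2) ^ b * (4 * (2 ^ b * ((T ^ (2 * b))⁻¹ * Real.exp b)))) * h6
        _ ≤ (1 / 2) ^ b * (Real.exp (-(8 * L)) * 1) := by
            refine mul_le_mul_of_nonneg_left (mul_le_mul_of_nonneg_left h2 (Real.exp_pos _).le) (by positivity)
        _ = (1 / 2) ^ b * Real.exp (-(8 * L)) := by rw [mul_one]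
    refine h8.trans (mul_le_mul_of_nonneg_left ?_ (by positivity))
    exact hMlow.trans (le_mul_of_one_le_right hM0.le hX1)
  calc _ ≤ M * X + (s.card : ℝ) * ((T ^ (2 * b))⁻¹ * Real.exp b) := add_le_add hfac hsecsum
    _ ≤ M * X + (1 / 2) ^ b * (M * X) := by linarith
    _ = (1 + (1 / 2) ^ b) * M * X := by ring

theorem BLK_lower (b : ℕ) {B : Finset ℕ} (hB : ∀ p ∈ B, p.Prime) :
    ∏ p ∈ B, (1 - 1 / (p : ℝ)) ≤ avgP (∏ p ∈ B, p) (fun m => gb b (om B m)) := by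
  classical
  have h1 : ∀ n : ℤ, (∏ p ∈ B, if ∃ a ∈ ({0} : Finset ℤ), (p : ℤ) ∣ n + a then (0 : ℝ) else 1) ≤ gb b (om B n) := by
    intro n
    by_cases h0 : om B n = 0
    · rw [h0]
      have : gb b 0 = 1 := by simp [gb]
      rw [this]
      exact Finset.prod_le_one (fun p _ => by split_ifs <;> norm_num) (fun p _ => by split_ifs <;> norm_num)
    · obtain ⟨p, hp⟩ := Finset.card_pos.mp (Nat.pos_of_ne_zero h0)
      rw [Finset.mem_filter] at hp
      have h2 : (∏ p ∈ B, if ∃ a ∈ ({0} : Finset ℤ), (p : ℤ) ∣ n + a then (0 : ℝ) else 1) = 0 := by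
        refine Finset.prod_eq_zero hp.1 ?_
        rw [if_pos]
        exact ⟨0, Finset.mem_singleton_self 0, by rw [add_zero]; exact hp.2⟩
      rw [h2]
      exact gb_nonneg _ _
  refine le_trans (le_of_eq ?_) (BLK_mono h1)
  rw [BLK_avg_prod B hB (fun p n => if ∃ a ∈ ({0} : Finset ℤ), (p : ℤ) ∣ n + a then (0 : ℝ) else 1)
    (fun p _ n k => by simp only [BLK_dvd_shift])]
  refine Finset.prod_congr rfl fun p hp => ?_
  rw [BLK_avg0 (hB p hp).pos, BLK_hit_eq (hB p hp).pos]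
  · simp
  · intro a ha a' ha' hne
    rw [Finset.mem_singleton] at ha ha'
    exact absurd (ha.trans ha'.symm) hne

end Pool.Agent.H6.MB
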