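import Pool.Agent.H6.MB.ASC
import Pool.Agent.H6.MB.FOU
import Pool.Agent.H6.MB.PAU
import Pool.Agent.H17.TripleDefs
import Pool.Agent.H17.UpperMain

/-!
# AU3: the mean of the triple ratios over an arbitrary set of `≥ K log x` shifts is at most `16 + ε`

Compare the proof of the lower bound (`Pool/Agent/H17/AvgMain.lean`, `average_lower_aux`, and `TripleDefs.lean`,
`average_lower`). Translate `A` so that `A ⊆ [0, Λ^2]` (`sum_translate`). `N = ⌊x⌋₊ + 1`, `W = WW (yy x)`,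
`A_t = {a ∈ A : (t+a, W) = 1}` (`|A_t| = mt A W t`), `m_t = mA x A_t`.
1. For `a < b < c` in `A`: `primeTriples x (c-b) (c-a) ≤ #{n < N : n+a, n+b, n+c prime} + Λ^2 + 1` (`p = n + c`; the `p < c` are at
   most `Λ^2`). So `∑_T π₃ ≤ ∑_{n < N} C(NN A n, 3) + |A|^3 (Λ^2 + 1)`.
2. For `n > yy x` in the class `t`: `NN A n = NN A_t n` (a prime `n + a > yy x` is coprime to `W`). The `n ≤ yy x` are negligible.
3. Classes with `m_t ≥ K'` (`K'` from `ASC` with `ε'`): for `n` not bad (`NN ≤ (4+ε') m_t`):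
   `C(NN,3) ≤ NN^3/6 ≤ (1/6) ((4+ε') m_t)^2 NN`, and `∑_{n ∈ cls x t} NN A_t n ≤ ∑_{a ∈ A_t} #{q ≤ x + Λ^2 + 1 prime, q ≡ t+a (W)}
   ≤ (1+ε') m_t N/W` (`piAP_upper`; `W^68 ≤ log x` by `WW_yy_pow_le`). Bad `n`: by Hölder
   `∑_{bad} NN^3 ≤ (#bad)^{1/4} (∑ NN^4)^{3/4} ≤ (ε' N/W)^{1/4} (2 C (N/W) m_t^4)^{3/4} ≤ C' (ε')^{1/4} (N/W) m_t^3` (`FOU`, `m_t ≥ 1`).
   In total `∑_{n ∈ cls x t} C(NN,3) ≤ (16/6) (1 + C'' (ε')^{1/4}) (N/W) m_t^3`.
4. Classes with `m_t < K'`: `C(NN,3) ≤ NN^4`, `∑ ≤ C (N/W) (K'^4 + K')` (`FOU`); all classes together: `≤ C N (K'^4 + K')`.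
5. `(1/W) ∑_t m_t^3 = Λ^{-3} ∑_{(a,b,c) ∈ A^3} singW (yy x) a b c` (`sum_mt_cubed`, `Crt.lean`). The triples with a coincidence: at most
   `3 |A|^2`, each `singW ≤ (wphi x)^3 ≤ W^3 ≤ (log x)^{1/2}`, negligible against `|A|^3` (`|A| ≥ K^{1/3} Λ`). The others:
   `6 ∑_{a<b<c} singW` (`sum_sym`, `singW_symm1/2`), and `singW (yy x) a b c ≤ (1+ε') sing3 a b c` if `sing3 ≠ 0` (for primes
   `p > yy x`: if `p ∤ (b-a)(c-b)(c-a)` then `locf ≥ 1 - 24/p^2`, else `locf ≥ 1`, `one_le_locf`; cf. `prod_locf_le`), while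
   `singW = 0` if `sing3 = 0` and `yy x ≥ 3` (an inadmissible triple is inadmissible modulo `2` or `3`).
   So `(1/W) ∑_t m_t^3 ≤ (1+2ε') 6 Λ^{-3} ∑_{T} S(T) + ε' (|A|/Λ)^3`.
6. `(1/W) ∑_t m_t^3 ≥ ((1/W) ∑_t m_t)^3 = (|A|/Λ)^3 ≥ K` (power mean; `sum_mt`), so the errors in 1, 2, 4, 5 are
   `≤ ε'' N (1/W) ∑_t m_t^3` for `K` large, and `6 Λ^{-3} ∑_T S(T) ≥ (1 - 3ε') (|A|/Λ)^3`.
Conclusion: `∑_T π₃ ≤ (16/6)(1+small) x · 6 Λ^{-3} ∑_T S(T) = (16 + ε) ∑_T S(T) x/Λ^3`.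
-/

set_option autoImplicit false

open Filter Topology

namespace Pool.Agent.H6.MB

open Pool.Agent.H17 Pool.Agent.H17.Triple

lemma AU3_G_le3 (m : ℕ) : (m : ℝ) * (m - 1) * (m - 2) ≤ (m : ℝ) ^ 3 := by
  rcases Nat.eq_zero_or_pos m with h | h
  · subst h; norm_num
  · have h1 : (1 : ℝ) ≤ m := by exact_mod_cast h
    nlinarith

lemma AU3_G_le4 (m : ℕ) : (m : ℝ) * (m - 1) * (m - 2) ≤ (m : ℝ) ^ 4 := by
  refine (AU3_G_le3 m).trans ?_
  rcases Nat.eq_zero_or_pos m with h | h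
  · subst h; norm_num
  · have h1 : (1 : ℝ) ≤ m := by exact_mod_cast h
    exact pow_le_pow_right₀ h1 (by norm_num)

/-- prime triples are counted by their smallest shift -/
lemma AU3_pi3_le (x : ℝ) {a b c : ℕ} (hab : a < b) (hbc : b < c) :
    pi3 x (c - b) (c - a) ≤
      ((Finset.range (⌊x⌋₊ + 1)).filter (fun n => (n + a).Prime ∧ (n + b).Prime ∧ (n + c).Prime)).card + c := by
  unfold pi3
  set S := (Finset.range (⌊x⌋₊ + 1)).filter (fun p => p.Prime ∧ (p - (c - a)).Prime ∧ (p - (c - b)).Prime) with hS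
  rw [← Finset.card_filter_add_card_filter_not (s := S) (fun p => c ≤ p)]
  apply Nat.add_le_add
  · apply Finset.card_le_card_of_injOn (fun p => p - c)
    · intro p hp
      simp only [hS, Finset.coe_filter, Set.mem_ofPred_eq, Finset.mem_range, Finset.mem_filter] at hp ⊢
      obtain ⟨⟨h1, h2, h3, h4⟩, h5⟩ := hp
      refine ⟨by omega, ?_, ?_, ?_⟩
      · have : p - c + a = p - (c - a) := by omega
        rw [this]; exact h3
      · have : p - c + b = p - (c - b) := by omega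
        rw [this]; exact h4
      · have : p - c + c = p := by omega
        rw [this]; exact h2
    · intro p hp r hr h
      simp only [Finset.coe_filter, Set.mem_ofPred_eq] at hp hr
      have h2 : p - c = r - c := h
      omega
  · calc (S.filter (fun p => ¬ c ≤ p)).card ≤ (Finset.range c).card := by
          apply Finset.card_le_card
          intro p hp
          simp only [hS, Finset.mem_filter, Finset.mem_range] at hp ⊢
          omega
      _ = c := by simp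

lemma AU3_sumP {x H : ℝ} {A : Finset ℕ} (hA : ∀ a ∈ A, (a : ℝ) ≤ H) (hH : 0 ≤ H) :
    6 * ∑ t ∈ adm A, (pi3 x (t.2.2 - t.2.1) (t.2.2 - t.1) : ℝ)
      ≤ ∑ n ∈ Finset.range (⌊x⌋₊ + 1), (NN A n : ℝ) * (NN A n - 1) * (NN A n - 2) + 6 * (A.card : ℝ) ^ 3 * H := by
  simp_rw [NN_triple]
  rw [← Finset.mul_sum, Finset.sum_comm]
  have h1 : ∀ t ∈ tri A, (pi3 x (t.2.2 - t.2.1) (t.2.2 - t.1) : ℝ) ≤
      ∑ n ∈ Finset.range (⌊x⌋₊ + 1), (if (n + t.1).Prime ∧ (n + t.2.1).Prime ∧ (n + t.2.2).Prime then (1 : ℝ) else 0) + H := by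
    intro t ht
    rw [mem_tri] at ht
    obtain ⟨⟨_, _, hc⟩, hab, hbc⟩ := ht
    have e1 : ∑ n ∈ Finset.range (⌊x⌋₊ + 1), (if (n + t.1).Prime ∧ (n + t.2.1).Prime ∧ (n + t.2.2).Prime then (1 : ℝ) else 0)
        = (((Finset.range (⌊x⌋₊ + 1)).filter (fun n => (n + t.1).Prime ∧ (n + t.2.1).Prime ∧ (n + t.2.2).Prime)).card : ℝ) := by
      rw [Finset.card_filter]
      push_cast
      rfl
    rw [e1]
    have h2 : (pi3 x (t.2.2 - t.2.1) (t.2.2 - t.1) : ℝ) ≤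
        (((Finset.range (⌊x⌋₊ + 1)).filter (fun n => (n + t.1).Prime ∧ (n + t.2.1).Prime ∧ (n + t.2.2).Prime)).card : ℝ) + t.2.2 := by
      exact_mod_cast AU3_pi3_le x hab hbc
    have h3 := hA _ hc
    linarith
  have h2 : ∑ t ∈ adm A, (pi3 x (t.2.2 - t.2.1) (t.2.2 - t.1) : ℝ) ≤ ∑ t ∈ tri A, (pi3 x (t.2.2 - t.2.1) (t.2.2 - t.1) : ℝ) := by
    apply Finset.sum_le_sum_of_subset_of_nonneg (Finset.filter_subset _ _)
    intro t _ _
    exact Nat.cast_nonneg _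
  have h3 := Finset.sum_le_sum h1
  rw [Finset.sum_add_distrib, Finset.sum_const, nsmul_eq_mul] at h3
  have h4 : ((tri A).card : ℝ) * H ≤ (A.card : ℝ) ^ 3 * H := by
    apply mul_le_mul_of_nonneg_right _ hH
    exact_mod_cast card_tri_le A
  linarith

/-- only the shifts coprime to `W` matter -/
lemma AU3_NN_eq {A : Finset ℕ} {y t n : ℕ} (hn : y < n) (hnt : n % WW y = t) :
    NN A n = NN (A.filter (fun a => (t + a).Coprime (WW y))) n := by
  unfold NN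
  rw [Finset.filter_filter]
  congr 1
  apply Finset.filter_congr
  intro a _
  constructor
  · intro h
    refine ⟨?_, h⟩
    have h1 : (n + a).Coprime (WW y) := by
      rw [coprime_WW]
      intro p hp hd
      obtain ⟨h2, h3⟩ := mem_PP.mp hp
      have := (Nat.prime_dvd_prime_iff_eq h3 h).mp hd
      omega
    have h2 : n + a ≡ t + a [MOD WW y] := by
      apply Nat.ModEq.add_right
      rw [← hnt]
      exact (Nat.mod_modEq n (WW y)).symm
    have h3 := h2.gcd_eq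
    unfold Nat.Coprime at h1 ⊢
    rw [← h3]; exact h1
  · intro h
    exact h.2

lemma AU3_NN_le_card (A : Finset ℕ) (n : ℕ) : NN A n ≤ A.card := Finset.card_filter_le _ _

/-- first moment in a class -/
lemma AU3_first {x H : ℝ} (hx : 0 ≤ x) {W t : ℕ} [NeZero W] {A : Finset ℕ} (hA : ∀ a ∈ A, (a : ℝ) ≤ H) {U : ℝ}
    (hU : ∀ a ∈ A, (piAP ((t + a : ℕ) : ZMod W) (x + H) : ℝ) ≤ U) :
    ∑ n ∈ (Finset.range (⌊x⌋₊ + 1)).filter (fun n => n % W = t), (NN A n : ℝ) ≤ A.card * U := by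
  have e1 : ∀ n, (NN A n : ℝ) = ∑ a ∈ A, (if (n + a).Prime then (1 : ℝ) else 0) := by
    intro n
    unfold NN
    rw [Finset.card_filter]
    push_cast
    rfl
  simp_rw [e1]
  rw [Finset.sum_comm, ← nsmul_eq_mul, ← Finset.sum_const]
  apply Finset.sum_le_sum
  intro a ha
  refine le_trans ?_ (hU a ha)
  have e2 : ∑ n ∈ (Finset.range (⌊x⌋₊ + 1)).filter (fun n => n % W = t), (if (n + a).Prime then (1 : ℝ) else 0)
      = ((((Finset.range (⌊x⌋₊ + 1)).filter (fun n => n % W = t)).filter (fun n => (n + a).Prime)).card : ℝ) := by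
    rw [Finset.card_filter]
    push_cast
    rfl
  rw [e2]
  have h3 : (((Finset.range (⌊x⌋₊ + 1)).filter (fun n => n % W = t)).filter (fun n => (n + a).Prime)).card
      ≤ piAP ((t + a : ℕ) : ZMod W) (x + H) := by
    unfold piAP
    apply Finset.card_le_card_of_injOn (fun n => n + a)
    · intro n hn
      simp only [Finset.coe_filter, Set.mem_ofPred_eq, Finset.mem_range, Finset.mem_filter, Finset.mem_Icc] at hn ⊢
      obtain ⟨⟨h1, h2⟩, h4⟩ := hn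
      refine ⟨⟨h4.one_le, ?_⟩, h4, ?_⟩
      · apply Nat.le_floor
        push_cast
        have h5 : (n : ℝ) ≤ x := by
          have h6 : (n : ℝ) ≤ (⌊x⌋₊ : ℝ) := by exact_mod_cast (by omega : n ≤ ⌊x⌋₊)
          exact h6.trans (Nat.floor_le hx)
        have h7 := hA a ha
        linarith
      · rw [ZMod.natCast_eq_natCast_iff]
        apply Nat.ModEq.add_right
        rw [← h2]
        exact (Nat.mod_modEq n W).symm
    · intro m _ n _ h
      simpa using h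
  exact_mod_cast h3

/-- the third moment in a class with many expected primes -/
lemma AU3_big {S : Finset ℕ} {f : ℕ → ℕ} {q m C e δ τ : ℝ} (hq : 0 ≤ q) (hm : 1 ≤ m) (he : 0 ≤ e) (hτ : 0 < τ)
    (hbad : ((S.filter (fun n => (4 + e) * m < (f n : ℝ))).card : ℝ) ≤ e * q)
    (hfirst : ∑ n ∈ S, (f n : ℝ) ≤ (1 + δ) * (q * m))
    (hfour : ∑ n ∈ S, (f n : ℝ) ^ 4 ≤ C * (q * (m ^ 4 + m))) (hC : 0 ≤ C)
    (h1 : 2 * C / τ ≤ δ / 2) (h2 : e * τ ^ 3 ≤ δ / 2) :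
    ∑ n ∈ S, (f n : ℝ) * (f n - 1) * (f n - 2) ≤ ((4 + e) ^ 2 * (1 + δ) + δ) * (q * m ^ 3) := by
  have hm0 : 0 < m := by linarith
  have hpt : ∀ n ∈ S, (f n : ℝ) * (f n - 1) * (f n - 2) ≤ ((4 + e) * m) ^ 2 * f n
      + ((if (4 + e) * m < (f n : ℝ) then (τ * m) ^ 3 else 0) + (f n : ℝ) ^ 4 / (τ * m)) := by
    intro n _
    refine (AU3_G_le3 (f n)).trans ?_
    have hf0 : (0 : ℝ) ≤ f n := Nat.cast_nonneg _
    have h4 : 0 ≤ (f n : ℝ) ^ 4 / (τ * m) := by positivity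
    split_ifs with h
    · have h5 : (f n : ℝ) ^ 3 ≤ (τ * m) ^ 3 + (f n : ℝ) ^ 4 / (τ * m) := by
        rcases le_total (f n : ℝ) (τ * m) with h6 | h6
        · have : (f n : ℝ) ^ 3 ≤ (τ * m) ^ 3 := pow_le_pow_left₀ hf0 h6 3
          linarith
        · have h7 : (f n : ℝ) ^ 3 ≤ (f n : ℝ) ^ 4 / (τ * m) := by
            rw [le_div_iff₀ (by positivity)]
            calc (f n : ℝ) ^ 3 * (τ * m) ≤ (f n : ℝ) ^ 3 * f n := by gcongr
              _ = (f n : ℝ) ^ 4 := by ring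
          have : 0 ≤ (τ * m) ^ 3 := by positivity
          linarith
      have : 0 ≤ ((4 + e) * m) ^ 2 * (f n : ℝ) := by positivity
      linarith
    · push Not at h
      have h5 : (f n : ℝ) ^ 3 ≤ ((4 + e) * m) ^ 2 * f n := by
        calc (f n : ℝ) ^ 3 = (f n : ℝ) ^ 2 * f n := by ring
          _ ≤ ((4 + e) * m) ^ 2 * f n := by gcongr
      linarith
  refine (Finset.sum_le_sum hpt).trans ?_
  rw [Finset.sum_add_distrib, Finset.sum_add_distrib, ← Finset.mul_sum, ← Finset.sum_filter, Finset.sum_const,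
    nsmul_eq_mul, ← Finset.sum_div]
  have a1 : ((4 + e) * m) ^ 2 * ∑ n ∈ S, (f n : ℝ) ≤ ((4 + e) * m) ^ 2 * ((1 + δ) * (q * m)) :=
    mul_le_mul_of_nonneg_left hfirst (by positivity)
  have a2 : ((S.filter (fun n => (4 + e) * m < (f n : ℝ))).card : ℝ) * (τ * m) ^ 3 ≤ e * q * (τ * m) ^ 3 :=
    mul_le_mul_of_nonneg_right hbad (by positivity)
  have a3 : (∑ n ∈ S, (f n : ℝ) ^ 4) / (τ * m) ≤ (C * (q * (m ^ 4 + m))) / (τ * m) := by
    gcongr
  have a4 : (C * (q * (m ^ 4 + m))) / (τ * m) ≤ 2 * C / τ * (q * m ^ 3) := by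
    have h5 : (C * (q * (m ^ 4 + m))) / (τ * m) = C / τ * (q * (m ^ 3 + 1)) := by
      field_simp
    rw [h5]
    have h6 : (1 : ℝ) ≤ m ^ 3 := one_le_pow₀ hm
    have h7 : C / τ * (q * (m ^ 3 + 1)) ≤ C / τ * (q * (m ^ 3 + m ^ 3)) := by
      apply mul_le_mul_of_nonneg_left _ (by positivity)
      apply mul_le_mul_of_nonneg_left _ hq
      linarith
    refine h7.trans (le_of_eq ?_)
    ring
  have a5 : 2 * C / τ * (q * m ^ 3) ≤ δ / 2 * (q * m ^ 3) := mul_le_mul_of_nonneg_right h1 (by positivity)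
  have a6 : e * q * (τ * m) ^ 3 ≤ δ / 2 * (q * m ^ 3) := by
    have : e * q * (τ * m) ^ 3 = (e * τ ^ 3) * (q * m ^ 3) := by ring
    rw [this]
    exact mul_le_mul_of_nonneg_right h2 (by positivity)
  have a7 : ((4 + e) * m) ^ 2 * ((1 + δ) * (q * m)) = (4 + e) ^ 2 * (1 + δ) * (q * m ^ 3) := by ring
  linarith

/-- any class -/
lemma AU3_small {S : Finset ℕ} {f : ℕ → ℕ} {q m C K : ℝ} (hq : 0 ≤ q) (hm : 0 ≤ m) (hmK : m ≤ K) (hC : 0 ≤ C)
    (hfour : ∑ n ∈ S, (f n : ℝ) ^ 4 ≤ C * (q * (m ^ 4 + m))) :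
    ∑ n ∈ S, (f n : ℝ) * (f n - 1) * (f n - 2) ≤ C * (K ^ 4 + K) * q := by
  refine (Finset.sum_le_sum (fun n _ => AU3_G_le4 (f n))).trans (hfour.trans ?_)
  have h1 : m ^ 4 ≤ K ^ 4 := pow_le_pow_left₀ hm hmK 4
  have h2 : q * (m ^ 4 + m) ≤ q * (K ^ 4 + K) := mul_le_mul_of_nonneg_left (by linarith) hq
  calc C * (q * (m ^ 4 + m)) ≤ C * (q * (K ^ 4 + K)) := mul_le_mul_of_nonneg_left h2 hC
    _ = C * (K ^ 4 + K) * q := by ring

lemma AU3_singW_le (y a b c : ℕ) : singW y a b c ≤ (WW y : ℝ) ^ 3 := by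
  unfold singW WW
  push_cast
  rw [← Finset.prod_pow]
  apply Finset.prod_le_prod
  · intro p hp
    exact locf_nonneg a b c (mem_PP.mp hp).2
  · intro p hp
    have hpp := (mem_PP.mp hp).2
    have hp2 : (2 : ℝ) ≤ p := by exact_mod_cast hpp.two_le
    have hp0 : (0 : ℝ) < p := by linarith
    unfold locf
    have h1 := one_sub_inv_pos hpp
    rw [div_le_iff₀ (by positivity)]
    have h2 : (0 : ℝ) ≤ (nu a b c p : ℝ) / p := by positivity
    have h3 : (1 : ℝ) ≤ p * (1 - 1 / p) := by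
      have : (p : ℝ) * (1 - 1 / p) = p - 1 := by field_simp
      rw [this]; linarith
    have h4 : (1 : ℝ) ≤ (p * (1 - 1 / (p : ℝ))) ^ 3 := one_le_pow₀ h3
    rw [mul_pow] at h4
    linarith

lemma AU3_T3 (A : Finset ℕ) (y : ℕ) :
    ∑ a ∈ A, ∑ b ∈ A, ∑ c ∈ A, singW y a b c
      ≤ 6 * ∑ t ∈ tri A, singW y t.1 t.2.1 t.2.2 + 3 * (A.card : ℝ) ^ 2 * (WW y : ℝ) ^ 3 := by
  have h1 := sum_sym A (singW y) (singW_symm1 y) (singW_symm2 y)
  rw [← h1]
  set M : ℝ := (WW y : ℝ) ^ 3 with hM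
  have hM0 : 0 ≤ M := by positivity
  have hpt : ∀ a b c : ℕ, singW y a b c ≤ (if a ≠ b ∧ b ≠ c ∧ a ≠ c then singW y a b c else 0)
      + ((if a = b then M else 0) + (if b = c then M else 0) + (if a = c then M else 0)) := by
    intro a b c
    have h2 := AU3_singW_le y a b c
    have h3 : ∀ q : Prop, [Decidable q] → 0 ≤ (if q then M else 0) := by
      intro q _
      split_ifs
      · exact hM0
      · exact le_rfl
    have h4 := h3 (a = b)
    have h5 := h3 (b = c)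
    have h6 := h3 (a = c)
    by_cases hab : a = b
    · rw [if_pos hab] at h4 ⊢
      have h7 : 0 ≤ (if a ≠ b ∧ b ≠ c ∧ a ≠ c then singW y a b c else 0) := by
        split_ifs
        · exact singW_nonneg _ _ _ _
        · exact le_rfl
      linarith
    · by_cases hbc : b = c
      · rw [if_pos hbc] at h5 ⊢
        have h7 : 0 ≤ (if a ≠ b ∧ b ≠ c ∧ a ≠ c then singW y a b c else 0) := by
          split_ifs
          · exact singW_nonneg _ _ _ _
          · exact le_rfl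
        linarith
      · by_cases hac : a = c
        · rw [if_pos hac] at h6 ⊢
          have h7 : 0 ≤ (if a ≠ b ∧ b ≠ c ∧ a ≠ c then singW y a b c else 0) := by
            split_ifs
            · exact singW_nonneg _ _ _ _
            · exact le_rfl
          linarith
        · rw [if_pos ⟨hab, hbc, hac⟩]
          linarith
  have h2 : ∑ a ∈ A, ∑ b ∈ A, ∑ c ∈ A, singW y a b c ≤ ∑ a ∈ A, ∑ b ∈ A, ∑ c ∈ A,
      ((if a ≠ b ∧ b ≠ c ∧ a ≠ c then singW y a b c else 0)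
      + ((if a = b then M else 0) + (if b = c then M else 0) + (if a = c then M else 0))) :=
    Finset.sum_le_sum (fun a _ => Finset.sum_le_sum (fun b _ => Finset.sum_le_sum (fun c _ => hpt a b c)))
  refine h2.trans (le_of_eq ?_)
  simp only [Finset.sum_add_distrib]
  have e1 : ∑ a ∈ A, ∑ b ∈ A, ∑ c ∈ A, (if a = b then M else 0) = (A.card : ℝ) ^ 2 * M := by
    have : ∀ a ∈ A, ∑ b ∈ A, ∑ c ∈ A, (if a = b then M else 0) = (A.card : ℝ) * M := by
      intro a ha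
      rw [Finset.sum_comm]
      have h3 : ∀ c ∈ A, ∑ b ∈ A, (if a = b then M else 0) = M := by
        intro c _
        rw [Finset.sum_ite_eq, if_pos ha]
      rw [Finset.sum_congr rfl h3, Finset.sum_const, nsmul_eq_mul]
    rw [Finset.sum_congr rfl this, Finset.sum_const, nsmul_eq_mul]
    ring
  have e2 : ∑ a ∈ A, ∑ b ∈ A, ∑ c ∈ A, (if b = c then M else 0) = (A.card : ℝ) ^ 2 * M := by
    have : ∀ b ∈ A, ∑ c ∈ A, (if b = c then M else 0) = M := by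
      intro b hb
      rw [Finset.sum_ite_eq, if_pos hb]
    rw [Finset.sum_congr rfl (fun a _ => Finset.sum_congr rfl this)]
    simp only [Finset.sum_const, nsmul_eq_mul]
    ring
  have e3 : ∑ a ∈ A, ∑ b ∈ A, ∑ c ∈ A, (if a = c then M else 0) = (A.card : ℝ) ^ 2 * M := by
    have : ∀ a ∈ A, ∀ b ∈ A, ∑ c ∈ A, (if a = c then M else 0) = M := by
      intro a ha b _
      rw [Finset.sum_ite_eq, if_pos ha]
    rw [Finset.sum_congr rfl (fun a ha => Finset.sum_congr rfl (this a ha))]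
    simp only [Finset.sum_const, nsmul_eq_mul]
    ring
  rw [e1, e2, e3]
  ring

lemma AU3_singW_sing3 {a b c y : ℕ} (hab : a < b) (hbc : b < c) (hy : 24 < y) :
    (1 - 24 / (y : ℝ)) * singW y a b c ≤ sing3 a b c := by
  have hΔ := delta_ne_zero hab hbc
  have h1 := prod_locf_le hab hbc hy (PP y ∪ ((b - a) * (c - b) * (c - a)).primeFactors)
    (by
      intro p hp
      rcases Finset.mem_union.mp hp with h | h
      · exact (mem_PP.mp h).2
      · exact Nat.prime_of_mem_primeFactors h)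
    (by
      intro p hp h
      rcases h with h | h
      · exact Finset.mem_union_left _ (mem_PP.mpr ⟨h, hp⟩)
      · exact Finset.mem_union_right _ (Nat.mem_primeFactors.mpr ⟨hp, h, hΔ⟩))
  refine le_trans ?_ h1
  apply mul_le_mul_of_nonneg_left
  · unfold singW
    apply Finset.prod_le_prod_of_subset_of_one_le Finset.subset_union_left
    · intro p hp
      exact locf_nonneg a b c (mem_PP.mp hp).2
    · intro p hp hn
      rcases Finset.mem_union.mp hp with h | h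
      · exact absurd h hn
      · have hpp := Nat.prime_of_mem_primeFactors h
        have hd := Nat.dvd_of_mem_primeFactors h
        have hpy : y < p := by
          by_contra hcon
          exact hn (mem_PP.mpr ⟨not_lt.mp hcon, hpp⟩)
        exact one_le_locf hpp (by omega) (nu_le_two_of_dvd hab hbc hpp hd)
  · have hy0 : (0 : ℝ) < y := by exact_mod_cast (by omega : 0 < y)
    have hy1 : (24 : ℝ) ≤ y := by exact_mod_cast hy.le
    rw [sub_nonneg, div_le_one hy0]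
    exact hy1

lemma AU3_sum_singW {A : Finset ℕ} {y : ℕ} (hy : 24 < y) :
    (1 - 24 / (y : ℝ)) * ∑ t ∈ tri A, singW y t.1 t.2.1 t.2.2 ≤ ∑ t ∈ adm A, sing3 t.1 t.2.1 t.2.2 := by
  rw [Finset.mul_sum]
  unfold adm
  rw [Finset.sum_filter]
  apply Finset.sum_le_sum
  intro t ht
  rw [mem_tri] at ht
  have h := AU3_singW_sing3 ht.2.1 ht.2.2 hy
  split_ifs with h0
  · exact h
  · push Not at h0
    rw [h0] at h
    exact h

lemma AU3_G_nonneg (m : ℕ) : 0 ≤ (m : ℝ) * (m - 1) * (m - 2) := by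
  rcases Nat.lt_or_ge m 2 with h | h
  · interval_cases m <;> norm_num
  · have h1 : (2 : ℝ) ≤ m := by exact_mod_cast h
    apply mul_nonneg
    · apply mul_nonneg <;> linarith
    · linarith

/-- splitting into classes -/
lemma AU3_split (x : ℝ) (A : Finset ℕ) :
    ∑ n ∈ Finset.range (⌊x⌋₊ + 1), (NN A n : ℝ) * (NN A n - 1) * (NN A n - 2)
      ≤ ∑ t ∈ Finset.range (WW (yy x)), ∑ n ∈ cls x t,
          (NN (A.filter (fun a => (t + a).Coprime (WW (yy x)))) n : ℝ)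
            * (NN (A.filter (fun a => (t + a).Coprime (WW (yy x)))) n - 1)
            * (NN (A.filter (fun a => (t + a).Coprime (WW (yy x)))) n - 2)
        + ((yy x : ℝ) + 1) * (A.card : ℝ) ^ 3 := by
  set y := yy x with hy
  set B : ℕ → Finset ℕ := fun t => A.filter (fun a => (t + a).Coprime (WW y)) with hB
  have h1 : ∀ n ∈ Finset.range (⌊x⌋₊ + 1), (NN A n : ℝ) * (NN A n - 1) * (NN A n - 2)
      ≤ (NN (B (n % WW y)) n : ℝ) * (NN (B (n % WW y)) n - 1) * (NN (B (n % WW y)) n - 2)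
        + (if n ≤ y then (A.card : ℝ) ^ 3 else 0) := by
    intro n _
    split_ifs with h
    · have h2 := AU3_G_nonneg (NN (B (n % WW y)) n)
      have h3 := AU3_G_le3 (NN A n)
      have h4 : (NN A n : ℝ) ^ 3 ≤ (A.card : ℝ) ^ 3 := by
        apply pow_le_pow_left₀ (Nat.cast_nonneg _)
        exact_mod_cast AU3_NN_le_card A n
      linarith
    · push Not at h
      have h2 : NN A n = NN (B (n % WW y)) n := AU3_NN_eq h rfl
      rw [← h2, add_zero]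
  refine (Finset.sum_le_sum h1).trans ?_
  rw [Finset.sum_add_distrib]
  apply add_le_add
  · apply le_of_eq
    rw [← Finset.sum_fiberwise_of_maps_to (s := Finset.range (⌊x⌋₊ + 1)) (t := Finset.range (WW y)) (g := fun n => n % WW y)
      (fun n _ => Finset.mem_range.mpr (Nat.mod_lt _ (WW_pos y)))]
    apply Finset.sum_congr rfl
    intro t _
    apply Finset.sum_congr rfl
    intro n hn
    rw [Finset.mem_filter] at hn
    rw [hn.2]
  · rw [← Finset.sum_filter, Finset.sum_const, nsmul_eq_mul]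
    apply mul_le_mul_of_nonneg_right _ (by positivity)
    have h2 : ((Finset.range (⌊x⌋₊ + 1)).filter (fun n => n ≤ y)).card ≤ (Finset.range (y + 1)).card := by
      apply Finset.card_le_card
      intro n hn
      rw [Finset.mem_filter] at hn
      rw [Finset.mem_range]
      omega
    rw [Finset.card_range] at h2
    exact_mod_cast h2

/-- the cubes of the local means -/
lemma AU3_cubes {x : ℝ} (hL : 0 < Real.log x) (A : Finset ℕ) (N : ℝ) :
    N / (WW (yy x) : ℝ) * ∑ t ∈ Finset.range (WW (yy x)), mA x (A.filter (fun a => (t + a).Coprime (WW (yy x)))) ^ 3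
      = N / (Real.log x) ^ 3 * ∑ a ∈ A, ∑ b ∈ A, ∑ c ∈ A, singW (yy x) a b c := by
  have hWpos := WW_pos (yy x)
  have hW0 : (WW (yy x) : ℝ) ≠ 0 := by exact_mod_cast hWpos.ne'
  have hφ0 : ((WW (yy x)).totient : ℝ) ≠ 0 := by exact_mod_cast (Nat.totient_pos.mpr hWpos).ne'
  have h1 : ∀ t, mA x (A.filter (fun a => (t + a).Coprime (WW (yy x)))) ^ 3
      = (H17.mt A (WW (yy x)) t : ℝ) ^ 3 * (wphi x / Real.log x) ^ 3 := by
    intro t
    unfold mA H17.mt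
    ring
  simp_rw [h1]
  rw [← Finset.sum_mul, sum_mt_cubed]
  unfold wphi
  set T3 := ∑ a ∈ A, ∑ b ∈ A, ∑ c ∈ A, singW (yy x) a b c
  field_simp

/-- a class, uniformly -/
lemma AU3_class {S : Finset ℕ} {f : ℕ → ℕ} {q m C e e' τ K1 K2 : ℝ} (hq : 0 ≤ q) (hm : 0 ≤ m) (hC : 0 ≤ C) (he : 0 ≤ e)
    (he' : 0 ≤ e') (hτ : 0 < τ) (hK2 : 1 ≤ K2) (hK : K1 ≤ K2)
    (hbad : K1 ≤ m → ((S.filter (fun n => (4 + e') * m < (f n : ℝ))).card : ℝ) ≤ e' * q)
    (hfirst : ∑ n ∈ S, (f n : ℝ) ≤ (1 + e) * (q * m))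
    (hfour : ∑ n ∈ S, (f n : ℝ) ^ 4 ≤ C * (q * (m ^ 4 + m)))
    (h1 : 2 * C / τ ≤ e / 2) (h2 : e' * τ ^ 3 ≤ e / 2) :
    ∑ n ∈ S, (f n : ℝ) * (f n - 1) * (f n - 2) ≤ ((4 + e') ^ 2 * (1 + e) + e) * (q * m ^ 3) + C * (K2 ^ 4 + K2) * q := by
  rcases le_total K2 m with hbig | hsmall
  · have h5 := AU3_big hq (hK2.trans hbig) he' hτ (hbad (hK.trans hbig)) hfirst hfour hC h1 h2
    have h6 : 0 ≤ C * (K2 ^ 4 + K2) * q := by positivity
    linarith
  · have h5 := AU3_small hq hm hsmall hC hfour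
    have h6 : 0 ≤ ((4 + e') ^ 2 * (1 + e) + e) * (q * m ^ 3) := by positivity
    linarith

lemma AU3_r1 {x L l φ e : ℝ} (hx : 0 < x) (hL : 0 < L) (hl : L ≤ l) (hφ : 0 < φ) (he : 0 < e) (he1 : e ≤ 1 / 20)
    (h : L ^ 2 ≤ e / 3 * x) : (1 + e / 3) * (x + L ^ 2) / (φ * l) ≤ (1 + e) * x / (φ * L) := by
  have h3 : (1 + e / 3) * (x + L ^ 2) ≤ (1 + e) * x := by
    have h4 : (1 + e / 3) * (x + L ^ 2) ≤ (1 + e / 3) * (x + e / 3 * x) := by
      apply mul_le_mul_of_nonneg_left (by linarith) (by linarith)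
    have h5 : (1 + e / 3) * (x + e / 3 * x) = (1 + 2 * e / 3 + e * e / 9) * x := by ring
    have h6 : e * e / 9 ≤ e / 3 := by nlinarith
    have h7 : (1 + 2 * e / 3 + e * e / 9) * x ≤ (1 + e) * x := mul_le_mul_of_nonneg_right (by linarith) hx.le
    linarith
  calc (1 + e / 3) * (x + L ^ 2) / (φ * l) ≤ (1 + e) * x / (φ * l) := by
        apply div_le_div_of_nonneg_right h3
        exact mul_nonneg hφ.le (hL.le.trans hl)
    _ ≤ (1 + e) * x / (φ * L) := by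
        apply div_le_div_of_nonneg_left
        · exact mul_nonneg (by linarith) hx.le
        · exact mul_pos hφ hL
        · exact mul_le_mul_of_nonneg_left hl hφ.le

lemma AU3_r2 {N x e c φ W L : ℝ} (hN : x ≤ N) (he : 0 < e) (hc : 0 ≤ c) (hφ : 0 < φ) (hW : 0 < W) (hL : 0 < L) :
    c * ((1 + e) * x / (φ * L)) ≤ (1 + e) * (N / W * (c * (W / φ) / L)) := by
  have h4 : (1 + e) * (N / W * (c * (W / φ) / L)) = c * ((1 + e) * N / (φ * L)) := by field_simp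
  rw [h4]
  apply mul_le_mul_of_nonneg_left _ hc
  apply div_le_div_of_nonneg_right _ (mul_pos hφ hL).le
  exact mul_le_mul_of_nonneg_left hN (by linarith)

lemma AU3_r3 {y24 e Y S : ℝ} (hY : 0 ≤ Y) (he : 0 < e) (h4 : 1 ≤ (1 + e) * (1 - y24)) (h : (1 - y24) * Y ≤ S) :
    Y ≤ (1 + e) * S := by
  calc Y = 1 * Y := (one_mul _).symm
    _ ≤ ((1 + e) * (1 - y24)) * Y := mul_le_mul_of_nonneg_right h4 hY
    _ = (1 + e) * ((1 - y24) * Y) := by ring
    _ ≤ (1 + e) * S := mul_le_mul_of_nonneg_left h (by linarith)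

lemma AU3_r4 {y e : ℝ} (hy : 0 < y) (he : 0 < e) (h1 : 24 * (1 + e) / e ≤ y) : 1 ≤ (1 + e) * (1 - 24 / y) := by
  have h5 : 24 / y ≤ e / (1 + e) := by
    rw [div_le_div_iff₀ hy (by linarith)]
    rw [div_le_iff₀ he] at h1
    linarith
  calc (1 : ℝ) = (1 + e) * (1 - e / (1 + e)) := by field_simp; ring
    _ ≤ (1 + e) * (1 - 24 / y) := mul_le_mul_of_nonneg_left (by linarith) (by linarith)

lemma AU3_r5 {k L e W3 T K : ℝ} (hk : 0 ≤ k) (hL : 0 < L) (he : 0 < e) (hK : 1 ≤ K) (hcard : K * L ^ 3 ≤ k ^ 3)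
    (hW : W3 ≤ Real.sqrt L) (hL9 : 9 / e ^ 2 ≤ L) (hT : k ^ 3 ≤ T) : 3 * k ^ 2 * W3 ≤ e * T := by
  have hcL : L ≤ k := by
    have h1 : L ^ 3 ≤ k ^ 3 := by
      calc L ^ 3 = 1 * L ^ 3 := (one_mul _).symm
        _ ≤ K * L ^ 3 := mul_le_mul_of_nonneg_right hK (by positivity)
        _ ≤ _ := hcard
    exact le_of_pow_le_pow_left₀ (by norm_num) hk h1
  have h3 : 3 * Real.sqrt L ≤ e * L := by
    have h4 : 3 ≤ e * Real.sqrt L := by
      have h6 : (3 / e) ^ 2 ≤ L := by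
        have h5 : (3 / e) ^ 2 = 9 / e ^ 2 := by ring
        rw [h5]; exact hL9
      have h7 : 3 / e ≤ Real.sqrt L := Real.le_sqrt_of_sq_le h6
      rw [div_le_iff₀ he] at h7
      linarith
    calc 3 * Real.sqrt L ≤ (e * Real.sqrt L) * Real.sqrt L := mul_le_mul_of_nonneg_right h4 (Real.sqrt_nonneg L)
      _ = e * L := by rw [mul_assoc, Real.mul_self_sqrt hL.le]
  calc 3 * k ^ 2 * W3 ≤ 3 * k ^ 2 * Real.sqrt L := mul_le_mul_of_nonneg_left hW (by positivity)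
    _ = (3 * Real.sqrt L) * k ^ 2 := by ring
    _ ≤ (e * L) * k ^ 2 := mul_le_mul_of_nonneg_right h3 (by positivity)
    _ ≤ (e * k) * k ^ 2 := mul_le_mul_of_nonneg_right (mul_le_mul_of_nonneg_left hcL he.le) (by positivity)
    _ = e * k ^ 3 := by ring
    _ ≤ e * T := mul_le_mul_of_nonneg_left hT he.le

lemma AU3_r6 {y L k e N x T : ℝ} (hk : 0 ≤ k) (hy : y ≤ L) (hL : 1 ≤ L) (he : 0 < e) (hx : x ≤ N)
    (h5 : L ^ 5 ≤ e / 8 * x) (hT : k ^ 3 ≤ T) (hN : 0 < N) : (y + 1) * k ^ 3 + 6 * k ^ 3 * L ^ 2 ≤ e * (N / L ^ 3 * T) := by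
  have hL0 : 0 < L := by linarith
  have h1 : y + 1 + 6 * L ^ 2 ≤ 8 * L ^ 2 := by nlinarith
  have h2 : (y + 1) * k ^ 3 + 6 * k ^ 3 * L ^ 2 = (y + 1 + 6 * L ^ 2) * k ^ 3 := by ring
  rw [h2]
  have h3 : 8 * L ^ 2 ≤ e * (N / L ^ 3) := by
    rw [← mul_div_assoc, le_div_iff₀ (by positivity)]
    calc 8 * L ^ 2 * L ^ 3 = 8 * L ^ 5 := by ring
      _ ≤ e * x := by linarith
      _ ≤ e * N := mul_le_mul_of_nonneg_left hx he.le
  have hk3 : 0 ≤ k ^ 3 := by positivity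
  calc (y + 1 + 6 * L ^ 2) * k ^ 3 ≤ (8 * L ^ 2) * k ^ 3 := mul_le_mul_of_nonneg_right h1 hk3
    _ ≤ (e * (N / L ^ 3)) * k ^ 3 := mul_le_mul_of_nonneg_right h3 hk3
    _ ≤ (e * (N / L ^ 3)) * T := mul_le_mul_of_nonneg_left hT (by positivity)
    _ = e * (N / L ^ 3 * T) := by ring

lemma AU3_r7 {D e K N L T k : ℝ} (hD : D ≤ e * K) (he : 0 < e) (hN : 0 < N) (hL : 0 < L) (hcard : K * L ^ 3 ≤ k)
    (hT : k ≤ T) : D * N ≤ e * (N / L ^ 3 * T) := by
  have h1 : K * N ≤ N / L ^ 3 * T := by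
    rw [div_mul_eq_mul_div, le_div_iff₀ (by positivity)]
    calc K * N * L ^ 3 = N * (K * L ^ 3) := by ring
      _ ≤ N * T := mul_le_mul_of_nonneg_left (hcard.trans hT) hN.le
  calc D * N ≤ e * K * N := mul_le_mul_of_nonneg_right hD hN.le
    _ = e * (K * N) := by ring
    _ ≤ e * (N / L ^ 3 * T) := mul_le_mul_of_nonneg_left h1 he.le

lemma AU3_r8 {e e' : ℝ} (he : 0 < e) (he1 : e ≤ 1 / 20) (h0 : 0 < e') (h : e' ≤ e) :
    (4 + e') ^ 2 * (1 + e) + e + 2 * e ≤ 16 + 28 * e := by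
  have h1 : (4 + e') ^ 2 ≤ (4 + e) ^ 2 := pow_le_pow_left₀ (by linarith) (by linarith) 2
  have h2 : (4 + e') ^ 2 * (1 + e) ≤ (4 + e) ^ 2 * (1 + e) := mul_le_mul_of_nonneg_right h1 (by linarith)
  have h3 : (4 + e) ^ 2 * (1 + e) + e + 2 * e = 16 + 27 * e + 9 * e * e + e * e * e := by ring
  have h4 : e * e ≤ e / 20 := by nlinarith
  have h5 : e * e * e ≤ e / 20 * (1 / 20) := mul_le_mul h4 he1 he.le (by linarith)
  nlinarith

/-- final bookkeeping -/
lemma AU3_r9 {e c P Q S T N x L : ℝ} (he : 0 < e) (he1 : e ≤ 1 / 20) (hL : 0 < L) (hN : 0 < N)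
    (hNx : N ≤ (1 + e) * x) (hQ : Q = N / L ^ 3 * T) (hQ0 : 0 ≤ Q) (hS : 0 ≤ S) (hc : c ≤ 16 + 28 * e)
    (c1 : 6 * P ≤ c * Q) (hT : T ≤ 6 * ((1 + e) * S) + e * T) :
    (1 - e) * P ≤ (16 + 28 * e) * (1 + e) ^ 2 * (x / L ^ 3 * S) := by
  have hTS : (1 - e) * T ≤ 6 * ((1 + e) * S) := by linarith
  have hNL : 0 ≤ N / L ^ 3 := by positivity
  have f1 : (1 - e) * Q ≤ 6 * ((1 + e) ^ 2 * (x / L ^ 3 * S)) := by
    calc (1 - e) * Q = N / L ^ 3 * ((1 - e) * T) := by rw [hQ]; ring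
      _ ≤ N / L ^ 3 * (6 * ((1 + e) * S)) := mul_le_mul_of_nonneg_left hTS hNL
      _ ≤ ((1 + e) * x) / L ^ 3 * (6 * ((1 + e) * S)) := by
          apply mul_le_mul_of_nonneg_right _ (by positivity)
          exact div_le_div_of_nonneg_right hNx (by positivity)
      _ = 6 * ((1 + e) ^ 2 * (x / L ^ 3 * S)) := by ring
  have h1 : c * Q ≤ (16 + 28 * e) * Q := mul_le_mul_of_nonneg_right hc hQ0
  have h2 : 0 ≤ 1 - e := by linarith
  have f2 : 6 * ((1 - e) * P) ≤ (16 + 28 * e) * ((1 - e) * Q) := by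
    calc 6 * ((1 - e) * P) = (1 - e) * (6 * P) := by ring
      _ ≤ (1 - e) * ((16 + 28 * e) * Q) := mul_le_mul_of_nonneg_left (c1.trans h1) h2
      _ = (16 + 28 * e) * ((1 - e) * Q) := by ring
  have f3 : (16 + 28 * e) * ((1 - e) * Q) ≤ (16 + 28 * e) * (6 * ((1 + e) ^ 2 * (x / L ^ 3 * S))) :=
    mul_le_mul_of_nonneg_left f1 (by linarith)
  linarith

theorem AU3_aux {e : ℝ} (he : 0 < e) (he1 : e ≤ 1 / 20) : ∃ K X : ℝ, ∀ x : ℝ, X ≤ x →
    ∀ A : Finset ℕ, (∀ a ∈ A, (a : ℝ) ≤ (Real.log x) ^ 2) → K * (Real.log x) ^ 3 ≤ (A.card : ℝ) ^ 3 →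
    (1 - e) * ∑ t ∈ adm A, (pi3 x (t.2.2 - t.2.1) (t.2.2 - t.1) : ℝ)
      ≤ (16 + 28 * e) * (1 + e) ^ 2 * (x / (Real.log x) ^ 3 * ∑ t ∈ adm A, sing3 t.1 t.2.1 t.2.2) := by
  obtain ⟨C, X1, hC, hfour⟩ := FOU
  set τ : ℝ := 4 * C / e + 1 with hτdef
  have hτ0 : 0 < τ := by positivity
  have hτ1 : 2 * C / τ ≤ e / 2 := by
    rw [div_le_iff₀ hτ0, hτdef]
    have : e / 2 * (4 * C / e + 1) = 2 * C + e / 2 := by field_simp; ring
    rw [this]; linarith
  obtain ⟨e', he'0, he'e, he'τ⟩ : ∃ e' : ℝ, 0 < e' ∧ e' ≤ e ∧ e' * τ ^ 3 ≤ e / 2 := by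
    refine ⟨min e (e / (2 * τ ^ 3)), lt_min he (by positivity), min_le_left _ _, ?_⟩
    have h1 : min e (e / (2 * τ ^ 3)) ≤ e / (2 * τ ^ 3) := min_le_right _ _
    calc min e (e / (2 * τ ^ 3)) * τ ^ 3 ≤ e / (2 * τ ^ 3) * τ ^ 3 := mul_le_mul_of_nonneg_right h1 (by positivity)
      _ = e / 2 := by field_simp
  obtain ⟨K1, X2, hasc⟩ := ASC e' he'0
  obtain ⟨X3, hpi⟩ := piAP_upper (show 0 < e / 3 by positivity)
  set K2 : ℝ := max K1 1 with hK2
  have hK21 : 1 ≤ K2 := le_max_right _ _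
  have hK2K : K1 ≤ K2 := le_max_left _ _
  set K : ℝ := max 1 (C * (K2 ^ 4 + K2) / e) with hKdef
  have hK1 : 1 ≤ K := le_max_left _ _
  have hKe : C * (K2 ^ 4 + K2) ≤ e * K := by
    have h1 : C * (K2 ^ 4 + K2) / e ≤ K := le_max_right _ _
    rw [div_le_iff₀ he] at h1
    linarith
  have hev : ∀ᶠ x : ℝ in atTop, (9 / e ^ 2 + 1 ≤ Real.log x) ∧ (X1 ≤ x ∧ X2 ≤ x ∧ X3 ≤ x) ∧ (1 / e ≤ x)
      ∧ ((Real.log x) ^ 2 ≤ (e / 3) * x) ∧ ((Real.log x) ^ 5 ≤ (e / 8) * x)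
      ∧ (⌈24 * (1 + e) / e⌉₊ + 25 ≤ yy x) := by
    filter_upwards [Real.tendsto_log_atTop.eventually_ge_atTop (9 / e ^ 2 + 1), eventually_ge_atTop X1,
      eventually_ge_atTop X2, eventually_ge_atTop X3, eventually_ge_atTop (1 / e),
      eventually_log_pow_le 2 (show 0 < e / 3 by positivity), eventually_log_pow_le 5 (show 0 < e / 8 by positivity),
      tendsto_yy.eventually_ge_atTop (⌈24 * (1 + e) / e⌉₊ + 25)] with x h1 h2 h3 h4 h5 h6 h7 h8
    exact ⟨h1, ⟨h2, h3, h4⟩, h5, h6, h7, h8⟩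
  obtain ⟨X, hX⟩ := eventually_atTop.mp hev
  clear hev hKdef hK2 hτdef
  refine ⟨K, X, fun x hx A hA hcard => ?_⟩
  obtain ⟨hL9, ⟨hxX1, hxX2, hxX3⟩, hx1, hlog2, hlog5, hyy⟩ := hX x hx
  have h9pos : 0 < 9 / e ^ 2 := by positivity
  have hL1 : 1 ≤ Real.log x := by linarith
  have hL0 : 0 < Real.log x := by linarith
  have hx0 : 0 < x := lt_of_lt_of_le (by positivity) hx1
  have hy24 : 24 < yy x := by omega
  have hy0 : (0 : ℝ) < (yy x : ℝ) := by exact_mod_cast (by omega : 0 < yy x)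
  have hWpos : 0 < WW (yy x) := WW_pos (yy x)
  have hNe : NeZero (WW (yy x)) := ⟨hWpos.ne'⟩
  have hW0 : (0 : ℝ) < (WW (yy x) : ℝ) := by exact_mod_cast hWpos
  have hW1 : (1 : ℝ) ≤ (WW (yy x) : ℝ) := by exact_mod_cast hWpos
  have hφ0 : (0 : ℝ) < ((WW (yy x)).totient : ℝ) := by exact_mod_cast (Nat.totient_pos.mpr hWpos)
  have hW34 : ((WW (yy x) : ℕ) : ℝ) ^ 34 ≤ Real.sqrt (Real.log x) := WW_yy_pow_le hL1
  have hW68 : ((WW (yy x) : ℕ) : ℝ) ^ 68 ≤ Real.log x := by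
    calc ((WW (yy x) : ℕ) : ℝ) ^ 68 = (((WW (yy x) : ℕ) : ℝ) ^ 34) ^ 2 := by rw [← pow_mul]
      _ ≤ (Real.sqrt (Real.log x)) ^ 2 := pow_le_pow_left₀ (pow_nonneg hW0.le 34) hW34 2
      _ = Real.log x := Real.sq_sqrt hL0.le
  have hW3 : ((WW (yy x) : ℕ) : ℝ) ^ 3 ≤ Real.sqrt (Real.log x) := (pow_le_pow_right₀ hW1 (by norm_num)).trans hW34
  have hyL : (yy x : ℝ) ≤ Real.log x := by
    have h1 : (yy x : ℝ) ≤ Real.log (Real.log x) / 100 := Nat.floor_le (div_nonneg (Real.log_nonneg hL1) (by norm_num))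
    have h2 : Real.log (Real.log x) ≤ Real.log x := (Real.log_le_sub_one_of_pos hL0).trans (by linarith)
    linarith
  have hNx : x ≤ (⌊x⌋₊ : ℝ) + 1 := (Nat.lt_floor_add_one x).le
  have hN0 : 0 < (⌊x⌋₊ : ℝ) + 1 := lt_of_lt_of_le hx0 hNx
  have hNle : (⌊x⌋₊ : ℝ) + 1 ≤ (1 + e) * x := by
    have h1 : (⌊x⌋₊ : ℝ) ≤ x := Nat.floor_le hx0.le
    have h2 : 1 ≤ e * x := by
      rw [div_le_iff₀ he] at hx1
      linarith
    linarith
  have hSA : ∀ t, SA x t (A.filter (fun a => (t + a).Coprime (WW (yy x)))) := by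
    intro t a ha
    rw [Finset.mem_filter] at ha
    refine ⟨?_, ha.2⟩
    have h1 := hA a ha.1
    have h2 : 0 ≤ (Real.log x) ^ 2 := by positivity
    linarith
  have hm0 : ∀ D : Finset ℕ, 0 ≤ mA x D := by
    intro D
    unfold mA wphi
    exact div_nonneg (mul_nonneg (Nat.cast_nonneg _) (div_nonneg hW0.le hφ0.le)) hL0.le
  have hclass : ∀ t ∈ Finset.range (WW (yy x)), ∑ n ∈ cls x t,
      (NN (A.filter (fun a => (t + a).Coprime (WW (yy x)))) n : ℝ)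
        * (NN (A.filter (fun a => (t + a).Coprime (WW (yy x)))) n - 1)
        * (NN (A.filter (fun a => (t + a).Coprime (WW (yy x)))) n - 2)
      ≤ ((4 + e') ^ 2 * (1 + e) + e) * (((⌊x⌋₊ : ℝ) + 1) / (WW (yy x) : ℝ)
          * mA x (A.filter (fun a => (t + a).Coprime (WW (yy x)))) ^ 3)
        + C * (K2 ^ 4 + K2) * (((⌊x⌋₊ : ℝ) + 1) / (WW (yy x) : ℝ)) := by
    intro t ht
    rw [Finset.mem_range] at ht
    apply AU3_class (div_nonneg hN0.le hW0.le) (hm0 _) hC.le he.le he'0.le hτ0 hK21 hK2K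
      (fun hbig => hasc x hxX2 t ht _ (hSA t) hbig) _ (hfour x hxX1 t ht _ (hSA t)) hτ1 he'τ
    have h1 := AU3_first (x := x) (H := (Real.log x) ^ 2) hx0.le (W := WW (yy x)) (t := t)
      (A := A.filter (fun a => (t + a).Coprime (WW (yy x))))
      (fun a ha => hA a (Finset.mem_filter.mp ha).1) (U := (1 + e) * x / ((WW (yy x)).totient * Real.log x)) (by
        intro a ha
        have hcop := (Finset.mem_filter.mp ha).2
        have hsq : 0 ≤ (Real.log x) ^ 2 := sq_nonneg _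
        have hLx : Real.log x ≤ Real.log (x + (Real.log x) ^ 2) := Real.log_le_log hx0 (by linarith)
        have h2 := hpi (x + (Real.log x) ^ 2) (by linarith) (WW (yy x)) ((t + a : ℕ) : ZMod (WW (yy x)))
          ((ZMod.isUnit_iff_coprime _ _).mpr hcop) (hW68.trans hLx)
        exact h2.trans (AU3_r1 hx0 hL0 hLx hφ0 he he1 hlog2))
    exact h1.trans (AU3_r2 hNx he (Nat.cast_nonneg _) hφ0 hW0 hL0)
  have hsum := Finset.sum_le_sum hclass
  clear hclass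
  rw [Finset.sum_add_distrib, ← Finset.mul_sum, ← Finset.mul_sum, Finset.sum_const, Finset.card_range, nsmul_eq_mul,
    AU3_cubes hL0 A _] at hsum
  have hWq : (WW (yy x) : ℝ) * (C * (K2 ^ 4 + K2) * (((⌊x⌋₊ : ℝ) + 1) / (WW (yy x) : ℝ)))
      = C * (K2 ^ 4 + K2) * ((⌊x⌋₊ : ℝ) + 1) := by
    field_simp
  rw [hWq] at hsum
  have hsplit := AU3_split x A
  have hP := AU3_sumP (x := x) (H := (Real.log x) ^ 2) hA (sq_nonneg _)
  have hTlow : (A.card : ℝ) ^ 3 ≤ ∑ a ∈ A, ∑ b ∈ A, ∑ c ∈ A, singW (yy x) a b c := sum_singW_lower A (yy x)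
  have hT3up := AU3_T3 A (yy x)
  have hsW := AU3_sum_singW (A := A) hy24
  have hS0 : 0 ≤ ∑ t ∈ adm A, sing3 t.1 t.2.1 t.2.2 := by
    apply Finset.sum_nonneg
    intro t ht
    unfold adm at ht
    rw [Finset.mem_filter, mem_tri] at ht
    exact sing3_nonneg ht.1.2.1 ht.1.2.2
  have hY0 : 0 ≤ ∑ t ∈ tri A, singW (yy x) t.1 t.2.1 t.2.2 := Finset.sum_nonneg (fun t _ => singW_nonneg _ _ _ _)
  have hyce : 24 * (1 + e) / e ≤ (yy x : ℝ) := by
    have h2 : 24 * (1 + e) / e ≤ (⌈24 * (1 + e) / e⌉₊ : ℝ) := Nat.le_ceil _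
    have h3 : ((⌈24 * (1 + e) / e⌉₊ : ℕ) : ℝ) ≤ (yy x : ℝ) := by exact_mod_cast (by omega : ⌈24 * (1 + e) / e⌉₊ ≤ yy x)
    linarith
  have hYS := AU3_r3 hY0 he (AU3_r4 hy0 he hyce) hsW
  have hcoin := AU3_r5 (Nat.cast_nonneg A.card) hL0 he hK1 hcard hW3 (by linarith) hTlow
  have hT0 : 0 ≤ ∑ a ∈ A, ∑ b ∈ A, ∑ c ∈ A, singW (yy x) a b c := le_trans (pow_nonneg (Nat.cast_nonneg _) 3) hTlow
  have err1 := AU3_r7 hKe he hN0 hL0 hcard hTlow
  have err2 := AU3_r6 (Nat.cast_nonneg A.card) hyL hL1 he hNx hlog5 hTlow hN0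
  generalize ∑ a ∈ A, ∑ b ∈ A, ∑ c ∈ A, singW (yy x) a b c = T3 at *
  generalize ∑ t ∈ adm A, sing3 t.1 t.2.1 t.2.2 = S at *
  generalize ∑ t ∈ adm A, (pi3 x (t.2.2 - t.2.1) (t.2.2 - t.1) : ℝ) = P at *
  generalize ∑ t ∈ tri A, singW (yy x) t.1 t.2.1 t.2.2 = Y at *
  have hQ0 : 0 ≤ ((⌊x⌋₊ : ℝ) + 1) / (Real.log x) ^ 3 * T3 := mul_nonneg (div_nonneg hN0.le (pow_nonneg hL0.le 3)) hT0
  refine AU3_r9 (c := (4 + e') ^ 2 * (1 + e) + e + 2 * e) he he1 hL0 hN0 hNle rfl hQ0 hS0 (AU3_r8 he he1 he'0 he'e) ?_ ?_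
  · have h1 := hP.trans (add_le_add_left hsplit _)
    linarith
  · linarith

theorem AU3 (ε : ℝ) (hε : 0 < ε) : ∃ K X : ℝ, ∀ x : ℝ, X ≤ x → ∀ A : Finset ℕ,
    (∀ a ∈ A, ∀ b ∈ A, (b : ℝ) ≤ a + (Real.log x) ^ 2) →
    K * (Real.log x) ^ 3 ≤ (A.card : ℝ) ^ 3 →
    ∑ t ∈ triples A, (primeTriples x (t.2.2 - t.2.1) (t.2.2 - t.1) : ℝ)
      ≤ (16 + ε) * ∑ t ∈ triples A, singularSeries (t.2.2 - t.2.1) (t.2.2 - t.1) * x / (Real.log x) ^ 3 := by
  set e : ℝ := min (ε / 200) (1 / 20) with he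
  have he0 : 0 < e := lt_min (by positivity) (by norm_num)
  have he1 : e ≤ 1 / 20 := min_le_right _ _
  have he2 : 200 * e ≤ ε := by
    have := min_le_left (ε / 200) (1 / 20 : ℝ)
    linarith
  obtain ⟨K, X, hmain⟩ := AU3_aux he0 he1
  refine ⟨K, max X 2, fun x hx A hA hcard => ?_⟩
  have hxX : X ≤ x := (le_max_left _ _).trans hx
  have hx2 : 2 ≤ x := (le_max_right _ _).trans hx
  have hL0 : 0 < Real.log x := Real.log_pos (by linarith)
  rcases A.eq_empty_or_nonempty with hemp | hne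
  · subst hemp
    simp [triples]
  · set m := A.min' hne with hm
    have hmle : ∀ a ∈ A, m ≤ a := fun a ha => A.min'_le a ha
    have hmA : m ∈ A := A.min'_mem hne
    set B := A.image (fun a => a - m) with hB
    have hBcard : B.card = A.card := by
      rw [hB]
      apply Finset.card_image_of_injOn
      intro r hr s hs hrs
      have h1 := hmle r hr
      have h2 := hmle s hs
      have h3 : r - m = s - m := hrs
      omega
    have hBle : ∀ a ∈ B, (a : ℝ) ≤ (Real.log x) ^ 2 := by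
      intro a ha
      rw [hB, Finset.mem_image] at ha
      obtain ⟨r, hr, rfl⟩ := ha
      have h1 := hA m hmA r hr
      rw [Nat.cast_sub (hmle r hr)]
      linarith
    have hS : ∑ t ∈ triples A, singularSeries (t.2.2 - t.2.1) (t.2.2 - t.1)
        = ∑ t ∈ adm B, sing3 t.1 t.2.1 t.2.2 := by
      rw [sum_translate A m hmle singularSeries, ← hB, ← triples_eq]
      apply Finset.sum_congr rfl
      intro t ht
      rw [triples_eq] at ht
      unfold adm at ht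
      rw [Finset.mem_filter, mem_tri] at ht
      exact singularSeries_eq ht.1.2.1 ht.1.2.2
    have hP : ∑ t ∈ triples A, (primeTriples x (t.2.2 - t.2.1) (t.2.2 - t.1) : ℝ)
        = ∑ t ∈ adm B, (pi3 x (t.2.2 - t.2.1) (t.2.2 - t.1) : ℝ) := by
      rw [sum_translate A m hmle (fun d' d => (primeTriples x d' d : ℝ)), ← hB, ← triples_eq]
      rfl
    have h := hmain x hxX B hBle (by rw [hBcard]; exact hcard)
    have hSnn : 0 ≤ ∑ t ∈ adm B, sing3 t.1 t.2.1 t.2.2 := by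
      apply Finset.sum_nonneg
      intro t ht
      unfold adm at ht
      rw [Finset.mem_filter, mem_tri] at ht
      exact sing3_nonneg ht.1.2.1 ht.1.2.2
    rw [hP]
    have e1 : ∑ t ∈ triples A, singularSeries (t.2.2 - t.2.1) (t.2.2 - t.1) * x / (Real.log x) ^ 3
        = x / (Real.log x) ^ 3 * ∑ t ∈ adm B, sing3 t.1 t.2.1 t.2.2 := by
      rw [← hS, Finset.mul_sum]
      apply Finset.sum_congr rfl
      intro t _
      ring
    rw [e1]
    set P := ∑ t ∈ adm B, (pi3 x (t.2.2 - t.2.1) (t.2.2 - t.1) : ℝ) with hPdef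
    set R := x / (Real.log x) ^ 3 * ∑ t ∈ adm B, sing3 t.1 t.2.1 t.2.2 with hR
    have hR0 : 0 ≤ R := by
      rw [hR]
      exact mul_nonneg (div_nonneg (by linarith) (by positivity)) hSnn
    have hfac : (16 + 28 * e) * (1 + e) ^ 2 ≤ (16 + ε) * (1 - e) := by
      nlinarith [mul_nonneg he0.le (show 0 ≤ 1 / 20 - e by linarith), mul_pos he0 he0,
        mul_nonneg (mul_pos he0 he0).le (show 0 ≤ 1 / 20 - e by linarith)]
    have h2 : (1 - e) * P ≤ (1 - e) * ((16 + ε) * R) := by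
      calc (1 - e) * P ≤ (16 + 28 * e) * (1 + e) ^ 2 * R := h
        _ ≤ (16 + ε) * (1 - e) * R := mul_le_mul_of_nonneg_right hfac hR0
        _ = (1 - e) * ((16 + ε) * R) := by ring
    exact le_of_mul_le_mul_left h2 (by linarith)

end Pool.Agent.H6.MB
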