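import Pool.Agent.H6.MB.ASC
import Pool.Agent.H6.MB.FOU
import Pool.Agent.H6.MF.BAS

/-!
# AWI: the almost sure bound and the fourth moment for windows

`win 0 ℓ n` counts the primes `n - b`, `0 < b ≤ ℓ`. With `n' = n - ℓ ≥ 0` and `a = ℓ - b ∈ [0, ℓ)`: `n - b = n' + a`, so
`win 0 ℓ n = NN (range ℓ) n'`. For `n'` in the class `t` mod `W` and `n' > yy x` a prime `n' + a` is coprime to `W`, so
`NN (range ℓ) n' = NN A_t n'` with `A_t = {a < ℓ : (t + a, W) = 1}`, and `|A_t| = ℓ φ(W)/W + θ W`, `|θ| ≤ 1` (full periods).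
Hence `mA x A_t = ℓ/log x + θ W wphi x/log x`, and `W · wphi x ≤ W^2 ≤ (log x)^(1/2)`, so `mA x A_t` differs from `ℓ/log x` by at most
`(log x)^(-1/2)`.
* `AWI1`: apply `ASC` with `ε/4` in each class (`K` from there plus `1`): the number of `n' < N` with
  `NN (range ℓ) n' > (4+ε) ℓ/log x` is `≤ W (ε/4) N/W + yy x + 1`; add the `n < ℓ`.
* `AWI2`: apply `FOU` in each class, `m^4 + m ≤ C (ℓ/log x)^4` because `ℓ/log x ≥ 1`; sum over the `W` classes; the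
  `n' ≤ yy x` and the `n < ℓ` contribute at most `(yy x + 1 + ℓ) ℓ^4`, negligible.
-/

set_option autoImplicit false

namespace Pool.Agent.H6.MB

open Finset Pool.Agent.H6.MF
open Pool.Agent.H17 hiding adm

/-- the shifts `a < ℓ` which are coprime to `W` in the class `t` -/
noncomputable def AWI_A (x : ℝ) (ℓ t : ℕ) : Finset ℕ :=
  (range ℓ).filter (fun a => (t + a).Coprime (WW (yy x)))

theorem AWI_win {ℓ n : ℕ} (h : ℓ ≤ n) : win 0 (ℓ : ℤ) (n : ℤ) = NN (range ℓ) (n - ℓ) := by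
  unfold win NN
  refine card_bij' (fun b _ => ((ℓ : ℤ) - b).toNat) (fun a _ => (ℓ : ℤ) - a) ?_ ?_ ?_ ?_
  · intro b hb
    rw [mem_filter, mem_Ioc] at hb
    rw [mem_filter, mem_range]
    refine ⟨by omega, ?_⟩
    have h1 : ((n : ℤ) - b).toNat.Prime := hb.2
    have h2 : n - ℓ + ((ℓ : ℤ) - b).toNat = ((n : ℤ) - b).toNat := by omega
    rw [h2]
    exact h1
  · intro a ha
    rw [mem_filter, mem_range] at ha
    rw [mem_filter, mem_Ioc]
    refine ⟨by omega, ?_⟩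
    show ((n : ℤ) - ((ℓ : ℤ) - a)).toNat.Prime
    have h2 : ((n : ℤ) - ((ℓ : ℤ) - a)).toNat = n - ℓ + a := by omega
    rw [h2]
    exact ha.2
  · intro b hb
    rw [mem_filter, mem_Ioc] at hb
    omega
  · intro a ha
    omega

theorem AWI_win_le (ℓ : ℕ) (n : ℤ) : win 0 (ℓ : ℤ) n ≤ ℓ := by
  have h := win_le 0 (ℓ : ℤ) n
  omega

theorem AWI_NN_le (A : Finset ℕ) (n : ℕ) : NN A n ≤ A.card := card_filter_le _ _

theorem AWI_NN {x : ℝ} {ℓ t n : ℕ} (hn : n % WW (yy x) = t) (h : yy x < n) :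
    NN (range ℓ) n = NN (AWI_A x ℓ t) n := by
  unfold NN AWI_A
  rw [filter_filter]
  refine congrArg card (filter_congr fun a _ => ?_)
  constructor
  · intro hp
    refine ⟨?_, hp⟩
    have h1 : (n + a).Coprime (WW (yy x)) := by
      rw [coprime_WW]
      intro p hp1 hp2
      rw [mem_PP] at hp1
      have h3 := (Nat.prime_dvd_prime_iff_eq hp1.2 hp).1 hp2
      omega
    have h2 : Nat.gcd (t + a) (WW (yy x)) = Nat.gcd (n + a) (WW (yy x)) := by
      refine Nat.ModEq.gcd_eq ?_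
      refine Nat.ModEq.add_right a ?_
      rw [← hn]
      exact Nat.mod_modEq _ _
    unfold Nat.Coprime at h1 ⊢
    rw [h2]
    exact h1
  · intro hp
    exact hp.2

theorem AWI_sum (x : ℝ) (ℓ : ℕ) (F : ℕ → ℝ) (B : ℝ) (hF : ∀ k, 0 ≤ F k) (hB : ∀ k, k ≤ ℓ → F k ≤ B) :
    ∑ n ∈ range (⌊x⌋₊ + 1), F (win 0 (ℓ : ℤ) (n : ℤ)) ≤
      ((ℓ : ℝ) + yy x + 1) * B + ∑ t ∈ range (WW (yy x)), ∑ n ∈ cls x t, F (NN (AWI_A x ℓ t) n) := by
  have hB0 : 0 ≤ B := (hF 0).trans (hB 0 (Nat.zero_le _))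
  have h1 : ∑ n ∈ range (⌊x⌋₊ + 1), F (win 0 (ℓ : ℤ) (n : ℤ)) ≤
      (ℓ : ℝ) * B + ∑ n ∈ range (⌊x⌋₊ + 1), F (NN (range ℓ) n) := by
    rw [← sum_filter_add_sum_filter_not (range (⌊x⌋₊ + 1)) (fun n => n < ℓ)]
    refine add_le_add ?_ ?_
    · have h2 : ∑ n ∈ (range (⌊x⌋₊ + 1)).filter (fun n => n < ℓ), F (win 0 (ℓ : ℤ) (n : ℤ)) ≤
          ∑ n ∈ (range (⌊x⌋₊ + 1)).filter (fun n => n < ℓ), B :=
        sum_le_sum fun n _ => hB _ (AWI_win_le ℓ n)
      refine h2.trans ?_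
      rw [sum_const, nsmul_eq_mul]
      refine mul_le_mul_of_nonneg_right ?_ hB0
      have h3 : ((range (⌊x⌋₊ + 1)).filter (fun n => n < ℓ)) ⊆ range ℓ := by
        intro n hn
        rw [mem_filter] at hn
        exact mem_range.2 hn.2
      have h4 := card_le_card h3
      rw [card_range] at h4
      exact_mod_cast h4
    · have h2 : ∑ n ∈ (range (⌊x⌋₊ + 1)).filter (fun n => ¬ n < ℓ), F (win 0 (ℓ : ℤ) (n : ℤ)) =
          ∑ n ∈ (range (⌊x⌋₊ + 1)).filter (fun n => ¬ n < ℓ), F (NN (range ℓ) (n - ℓ)) := by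
        refine sum_congr rfl fun n hn => ?_
        rw [mem_filter] at hn
        rw [AWI_win (by omega)]
      rw [h2]
      have h3 : ∑ n ∈ (range (⌊x⌋₊ + 1)).filter (fun n => ¬ n < ℓ), F (NN (range ℓ) (n - ℓ)) =
          ∑ m ∈ ((range (⌊x⌋₊ + 1)).filter (fun n => ¬ n < ℓ)).image (fun n => n - ℓ), F (NN (range ℓ) m) := by
        rw [sum_image]
        intro a ha b hb hab
        have ha' := (mem_filter.1 (mem_coe.1 ha)).2
        have hb' := (mem_filter.1 (mem_coe.1 hb)).2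
        have hab' : a - ℓ = b - ℓ := hab
        omega
      rw [h3]
      refine sum_le_sum_of_subset_of_nonneg ?_ (fun n _ _ => hF _)
      intro m hm
      rw [mem_image] at hm
      obtain ⟨n, hn, rfl⟩ := hm
      rw [mem_filter, mem_range] at hn
      rw [mem_range]
      omega
  have h2 : ∑ n ∈ range (⌊x⌋₊ + 1), F (NN (range ℓ) n) ≤
      ((yy x : ℝ) + 1) * B + ∑ n ∈ range (⌊x⌋₊ + 1), F (NN (AWI_A x ℓ (n % WW (yy x))) n) := by
    rw [← sum_filter_add_sum_filter_not (range (⌊x⌋₊ + 1)) (fun n => n ≤ yy x)]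
    refine add_le_add ?_ ?_
    · have h2 : ∑ n ∈ (range (⌊x⌋₊ + 1)).filter (fun n => n ≤ yy x), F (NN (range ℓ) n) ≤
          ∑ n ∈ (range (⌊x⌋₊ + 1)).filter (fun n => n ≤ yy x), B :=
        sum_le_sum fun n _ => hB _ ((AWI_NN_le _ _).trans (by rw [card_range]))
      refine h2.trans ?_
      rw [sum_const, nsmul_eq_mul]
      refine mul_le_mul_of_nonneg_right ?_ hB0
      have h3 : ((range (⌊x⌋₊ + 1)).filter (fun n => n ≤ yy x)) ⊆ range (yy x + 1) := by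
        intro n hn
        rw [mem_filter] at hn
        exact mem_range.2 (by omega)
      have h4 := card_le_card h3
      rw [card_range] at h4
      exact_mod_cast h4
    · have h2 : ∑ n ∈ (range (⌊x⌋₊ + 1)).filter (fun n => ¬ n ≤ yy x), F (NN (range ℓ) n) =
          ∑ n ∈ (range (⌊x⌋₊ + 1)).filter (fun n => ¬ n ≤ yy x),
            F (NN (AWI_A x ℓ (n % WW (yy x))) n) := by
        refine sum_congr rfl fun n hn => ?_
        rw [mem_filter] at hn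
        rw [AWI_NN (x := x) rfl (by omega)]
      rw [h2]
      exact sum_le_sum_of_subset_of_nonneg (filter_subset _ _) (fun n _ _ => hF _)
  have h3 : ∑ n ∈ range (⌊x⌋₊ + 1), F (NN (AWI_A x ℓ (n % WW (yy x))) n) =
      ∑ t ∈ range (WW (yy x)), ∑ n ∈ cls x t, F (NN (AWI_A x ℓ t) n) := by
    rw [← sum_fiberwise_of_maps_to (s := range (⌊x⌋₊ + 1)) (t := range (WW (yy x)))
      (g := fun n => n % WW (yy x)) (fun n _ => mem_range.2 (Nat.mod_lt _ (WW_pos _)))]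
    refine sum_congr rfl fun t _ => ?_
    unfold cls
    refine sum_congr rfl fun n hn => ?_
    rw [(mem_filter.1 hn).2]
  rw [h3] at h2
  have h4 : ((ℓ : ℝ) + yy x + 1) * B = (ℓ : ℝ) * B + ((yy x : ℝ) + 1) * B := by ring
  rw [h4]
  linarith

theorem AWI_cnt (W : ℕ) (hW : 0 < W) (t : ℕ) (ℓ : ℕ) :
    (W : ℝ) * (((range ℓ).filter (fun a => (t + a).Coprime W)).card : ℝ) ≤ ((ℓ : ℝ) + W) * (W.totient : ℝ) ∧
    ((ℓ : ℝ) - W) * (W.totient : ℝ) ≤ (W : ℝ) * (((range ℓ).filter (fun a => (t + a).Coprime W)).card : ℝ) := by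
  have hper : ∀ q : ℕ, ((range (W * q)).filter (fun a => (t + a).Coprime W)).card = q * W.totient := by
    intro q
    induction q with
    | zero => simp
    | succ q ih =>
      have h1 : range (W * (q + 1)) = range (W * q) ∪ Ico (W * q) (W * q + W) := by
        rw [range_eq_Ico, range_eq_Ico, Ico_union_Ico_eq_Ico (Nat.zero_le _) (by omega)]
        congr 1
      rw [h1, filter_union, card_union_of_disjoint]
      · rw [ih]
        have h2 : ((Ico (W * q) (W * q + W)).filter (fun a => (t + a).Coprime W)).card = W.totient := by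
          have h3 := Nat.filter_coprime_Ico_eq_totient W (t + W * q)
          rw [← h3]
          refine card_bij' (fun a _ => t + a) (fun b _ => b - t) ?_ ?_ ?_ ?_
          · intro a ha
            rw [mem_filter, mem_Ico] at ha ⊢
            exact ⟨by omega, (Nat.coprime_comm.1 ha.2)⟩
          · intro b hb
            rw [mem_filter, mem_Ico] at hb ⊢
            have h4 : t + (b - t) = b := by omega
            rw [h4]
            exact ⟨by omega, (Nat.coprime_comm.1 hb.2)⟩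
          · intro a _
            omega
          · intro b hb
            rw [mem_filter, mem_Ico] at hb
            omega
        rw [h2]
        ring
      · refine disjoint_filter_filter ?_
        rw [disjoint_left]
        intro a ha hb
        rw [mem_range] at ha
        rw [mem_Ico] at hb
        omega
  have hdiv := Nat.div_add_mod ℓ W
  have hmod := Nat.mod_lt ℓ hW
  have hW' : (0 : ℝ) < W := by exact_mod_cast hW
  have hdivR : (W : ℝ) * ((ℓ / W : ℕ) : ℝ) + ((ℓ % W : ℕ) : ℝ) = (ℓ : ℝ) := by exact_mod_cast hdiv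
  have hmodR : ((ℓ % W : ℕ) : ℝ) ≤ (W : ℝ) := by exact_mod_cast hmod.le
  have hmod0 : (0 : ℝ) ≤ ((ℓ % W : ℕ) : ℝ) := Nat.cast_nonneg _
  have hT0 : (0 : ℝ) ≤ (W.totient : ℝ) := Nat.cast_nonneg _
  constructor
  · have h1 : (range ℓ).filter (fun a => (t + a).Coprime W) ⊆
        (range (W * (ℓ / W + 1))).filter (fun a => (t + a).Coprime W) := by
      refine filter_subset_filter _ (range_subset_range.2 ?_)
      rw [Nat.mul_add, Nat.mul_one]
      omega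
    have h2 := card_le_card h1
    rw [hper] at h2
    have h3 : (((range ℓ).filter (fun a => (t + a).Coprime W)).card : ℝ) ≤
        (((ℓ / W : ℕ) : ℝ) + 1) * (W.totient : ℝ) := by exact_mod_cast h2
    calc (W : ℝ) * (((range ℓ).filter (fun a => (t + a).Coprime W)).card : ℝ)
        ≤ (W : ℝ) * ((((ℓ / W : ℕ) : ℝ) + 1) * (W.totient : ℝ)) := by gcongr
      _ = ((W : ℝ) * ((ℓ / W : ℕ) : ℝ) + W) * (W.totient : ℝ) := by ring
      _ ≤ ((ℓ : ℝ) + W) * (W.totient : ℝ) := by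
          refine mul_le_mul_of_nonneg_right ?_ hT0
          linarith
  · have h1 : (range (W * (ℓ / W))).filter (fun a => (t + a).Coprime W) ⊆
        (range ℓ).filter (fun a => (t + a).Coprime W) := by
      refine filter_subset_filter _ (range_subset_range.2 ?_)
      omega
    have h2 := card_le_card h1
    rw [hper] at h2
    have h3 : ((ℓ / W : ℕ) : ℝ) * (W.totient : ℝ) ≤
        (((range ℓ).filter (fun a => (t + a).Coprime W)).card : ℝ) := by exact_mod_cast h2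
    calc ((ℓ : ℝ) - W) * (W.totient : ℝ) ≤ ((W : ℝ) * ((ℓ / W : ℕ) : ℝ)) * (W.totient : ℝ) := by
          refine mul_le_mul_of_nonneg_right ?_ hT0
          linarith
      _ = (W : ℝ) * (((ℓ / W : ℕ) : ℝ) * (W.totient : ℝ)) := by ring
      _ ≤ (W : ℝ) * (((range ℓ).filter (fun a => (t + a).Coprime W)).card : ℝ) := by gcongr

theorem AWI_mA {x : ℝ} (hx : 1 ≤ Real.log x) (t ℓ : ℕ) :
    mA x (AWI_A x ℓ t) ≤ (ℓ : ℝ) / Real.log x + 1 ∧ (ℓ : ℝ) / Real.log x - 1 ≤ mA x (AWI_A x ℓ t) := by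
  have hW := WW_pos (yy x)
  have hW' : (0 : ℝ) < (WW (yy x) : ℝ) := by exact_mod_cast hW
  have hT' : (0 : ℝ) < ((WW (yy x)).totient : ℝ) := by exact_mod_cast Nat.totient_pos.mpr hW
  have hL0 : 0 < Real.log x := by linarith
  have hWL : (WW (yy x) : ℝ) ≤ Real.log x := by
    have h1 := WW_yy_pow_le hx
    have h2 : (1 : ℝ) ≤ (WW (yy x) : ℝ) := by exact_mod_cast hW
    have h3 : (WW (yy x) : ℝ) ≤ (WW (yy x) : ℝ) ^ 34 := le_self_pow₀ h2 (by norm_num)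
    have h4 : Real.sqrt (Real.log x) ≤ Real.log x := by
      rw [Real.sqrt_le_left hL0.le]
      nlinarith
    linarith
  obtain ⟨h1, h2⟩ := AWI_cnt (WW (yy x)) hW t ℓ
  have hm : mA x (AWI_A x ℓ t) = ((WW (yy x) : ℝ) *
      (((range ℓ).filter (fun a => (t + a).Coprime (WW (yy x)))).card : ℝ)) /
      ((WW (yy x)).totient : ℝ) / Real.log x := by
    unfold mA wphi AWI_A
    ring
  rw [hm]
  constructor
  · rw [div_le_iff₀ hL0, div_le_iff₀ hT']
    refine h1.trans ?_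
    refine mul_le_mul_of_nonneg_right ?_ hT'.le
    rw [add_mul, div_mul_cancel₀ _ hL0.ne']
    linarith
  · rw [le_div_iff₀ hL0, le_div_iff₀ hT']
    refine le_trans ?_ h2
    refine mul_le_mul_of_nonneg_right ?_ hT'.le
    rw [sub_mul, div_mul_cancel₀ _ hL0.ne']
    linarith

theorem AWI_SA {x : ℝ} {ℓ : ℕ} (hℓ : (ℓ : ℝ) ≤ 2 * (Real.log x) ^ 2) (t : ℕ) : SA x t (AWI_A x ℓ t) := by
  intro a ha
  unfold AWI_A at ha
  rw [mem_filter, mem_range] at ha
  refine ⟨?_, ha.2⟩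
  have h1 : (a : ℝ) ≤ (ℓ : ℝ) := by exact_mod_cast ha.1.le
  nlinarith [sq_nonneg (Real.log x)]

theorem AWI_yy {x : ℝ} (hx : 1 ≤ Real.log x) : (yy x : ℝ) ≤ Real.log x := by
  unfold yy
  have h0 : 0 ≤ Real.log (Real.log x) := Real.log_nonneg hx
  have h1 := Nat.floor_le (a := Real.log (Real.log x) / 100) (by positivity)
  have h2 : Real.log (Real.log x) ≤ Real.log x - 1 := Real.log_le_sub_one_of_pos (by linarith)
  linarith

theorem AWI1 (ε : ℝ) (hε : 0 < ε) : ∃ K X : ℝ, 0 < K ∧ ∀ x : ℝ, X ≤ x → ∀ ℓ : ℕ, K * Real.log x ≤ (ℓ : ℝ) →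
    (ℓ : ℝ) ≤ 2 * (Real.log x) ^ 2 →
    (((Finset.range (⌊x⌋₊ + 1)).filter
        (fun n : ℕ => (4 + ε) * ((ℓ : ℝ) / Real.log x) < (win 0 (ℓ : ℤ) (n : ℤ) : ℝ))).card : ℝ) ≤ ε * x := by
  obtain ⟨K0, X0, h0⟩ := ASC (ε / 2) (by positivity)
  have hev := (Real.tendsto_log_atTop.eventually_ge_atTop 1).and
    ((eventually_log_pow_le 2 (show 0 < ε / 16 by positivity)).and
      (Filter.eventually_ge_atTop (2 : ℝ)))
  obtain ⟨X1, hX1⟩ := Filter.eventually_atTop.1 hev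
  refine ⟨max (K0 + 1) (8 / ε + 1), max X0 X1, ?_, ?_⟩
  · refine lt_of_lt_of_le ?_ (le_max_right _ _)
    positivity
  intro x hx ℓ hℓ1 hℓ2
  obtain ⟨hL1, hL2, hx1⟩ := hX1 x ((le_max_right _ _).trans hx)
  have hL0 : 0 < Real.log x := by linarith
  have hu : max (K0 + 1) (8 / ε + 1) ≤ (ℓ : ℝ) / Real.log x := by
    rw [le_div_iff₀ hL0]
    exact hℓ1
  have hu1 : K0 + 1 ≤ (ℓ : ℝ) / Real.log x := (le_max_left _ _).trans hu
  have hu2 : 8 / ε + 1 ≤ (ℓ : ℝ) / Real.log x := (le_max_right _ _).trans hu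
  set u : ℝ := (ℓ : ℝ) / Real.log x with hu_def
  have hsum := AWI_sum x ℓ (fun k => if (4 + ε) * u < (k : ℝ) then 1 else 0) 1
    (fun k => by split_ifs <;> norm_num) (fun k _ => by split_ifs <;> norm_num)
  rw [Finset.card_filter]
  push_cast
  refine hsum.trans ?_
  have hN : (⌊x⌋₊ : ℝ) ≤ x := Nat.floor_le (by linarith)
  have hWp : (0 : ℝ) < (WW (yy x) : ℝ) := by exact_mod_cast WW_pos (yy x)
  have hcl : ∀ t ∈ range (WW (yy x)), ∑ n ∈ cls x t,
      (if (4 + ε) * u < (NN (AWI_A x ℓ t) n : ℝ) then (1 : ℝ) else 0) ≤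
      (ε / 2) * (((⌊x⌋₊ : ℝ) + 1) / (WW (yy x) : ℝ)) := by
    intro t ht
    obtain ⟨h1, h2⟩ := AWI_mA hL1 t ℓ
    have h3 := h0 x ((le_max_left _ _).trans hx) t (mem_range.1 ht) (AWI_A x ℓ t) (AWI_SA hℓ2 t)
      (by linarith)
    refine le_trans ?_ h3
    rw [Finset.card_filter]
    push_cast
    refine sum_le_sum fun n _ => ?_
    have h4 : (4 + ε / 2) * mA x (AWI_A x ℓ t) ≤ (4 + ε) * u := by
      have h5 : (4 + ε / 2) * mA x (AWI_A x ℓ t) ≤ (4 + ε / 2) * (u + 1) :=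
        mul_le_mul_of_nonneg_left h1 (by positivity)
      have h6 : 8 + ε ≤ ε * u := by
        have h7 : ε * (8 / ε + 1) ≤ ε * u := mul_le_mul_of_nonneg_left hu2 hε.le
        have h8 : ε * (8 / ε + 1) = 8 + ε := by field_simp
        linarith
      nlinarith
    by_cases h5 : (4 + ε) * u < (NN (AWI_A x ℓ t) n : ℝ)
    · rw [if_pos h5, if_pos (lt_of_le_of_lt h4 h5)]
    · rw [if_neg h5]
      split_ifs <;> norm_num
  have h5 := sum_le_sum hcl
  rw [sum_const, card_range, nsmul_eq_mul] at h5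
  have h6 : (WW (yy x) : ℝ) * ((ε / 2) * (((⌊x⌋₊ : ℝ) + 1) / (WW (yy x) : ℝ))) =
      (ε / 2) * ((⌊x⌋₊ : ℝ) + 1) := by
    field_simp
  rw [h6] at h5
  have h7 := AWI_yy hL1
  have h8 : (ε / 2) * ((⌊x⌋₊ : ℝ) + 1) ≤ (ε / 2) * (x + 1) := by gcongr
  have h9 : 16 * (Real.log x) ^ 2 ≤ ε * x := by linarith
  have h10 : 1 ≤ (Real.log x) ^ 2 := one_le_pow₀ hL1
  have h11 : Real.log x ≤ (Real.log x) ^ 2 := by nlinarith
  have h12 : ε ≤ (ε / 2) * x := by nlinarith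
  nlinarith

theorem AWI2 : ∃ C X : ℝ, 0 < C ∧ ∀ x : ℝ, X ≤ x → ∀ ℓ : ℕ, Real.log x ≤ (ℓ : ℝ) →
    (ℓ : ℝ) ≤ 2 * (Real.log x) ^ 2 →
    ∑ n ∈ Finset.range (⌊x⌋₊ + 1), (win 0 (ℓ : ℤ) (n : ℤ) : ℝ) ^ 4 ≤ C * (((ℓ : ℝ) / Real.log x) ^ 4 * x) := by
  obtain ⟨C0, X0, hC0, h0⟩ := FOU
  have hev := (Real.tendsto_log_atTop.eventually_ge_atTop 1).and
    ((eventually_log_pow_le 6 (show (0 : ℝ) < 1 / 4 by norm_num)).and
      (Filter.eventually_ge_atTop (2 : ℝ)))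
  obtain ⟨X1, hX1⟩ := Filter.eventually_atTop.1 hev
  refine ⟨36 * C0 + 1, max X0 X1, by positivity, ?_⟩
  intro x hx ℓ hℓ1 hℓ2
  obtain ⟨hL1, hL2, hx1⟩ := hX1 x ((le_max_right _ _).trans hx)
  have hL0 : 0 < Real.log x := by linarith
  have hu1 : 1 ≤ (ℓ : ℝ) / Real.log x := by
    rw [le_div_iff₀ hL0]
    linarith
  have hℓu : (ℓ : ℝ) = (ℓ : ℝ) / Real.log x * Real.log x := by field_simp
  set u : ℝ := (ℓ : ℝ) / Real.log x with hu_def
  have hsum := AWI_sum x ℓ (fun k => (k : ℝ) ^ 4) ((ℓ : ℝ) ^ 4)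
    (fun k => by positivity) (fun k hk => by
      have : (k : ℝ) ≤ (ℓ : ℝ) := by exact_mod_cast hk
      gcongr)
  refine hsum.trans ?_
  have hN : (⌊x⌋₊ : ℝ) ≤ x := Nat.floor_le (by linarith)
  have hWp : (0 : ℝ) < (WW (yy x) : ℝ) := by exact_mod_cast WW_pos (yy x)
  have hcl : ∀ t ∈ range (WW (yy x)), ∑ n ∈ cls x t, (NN (AWI_A x ℓ t) n : ℝ) ^ 4 ≤
      C0 * (((⌊x⌋₊ : ℝ) + 1) / (WW (yy x) : ℝ) * (18 * u ^ 4)) := by
    intro t ht
    obtain ⟨h1, h2⟩ := AWI_mA hL1 t ℓ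
    have h3 := h0 x ((le_max_left _ _).trans hx) t (mem_range.1 ht) (AWI_A x ℓ t) (AWI_SA hℓ2 t)
    refine h3.trans ?_
    have hm0 : 0 ≤ mA x (AWI_A x ℓ t) := by
      unfold mA wphi
      exact div_nonneg (mul_nonneg (Nat.cast_nonneg _)
        (div_nonneg (Nat.cast_nonneg _) (Nat.cast_nonneg _))) hL0.le
    have hm2 : mA x (AWI_A x ℓ t) ≤ 2 * u := by
      have : (ℓ : ℝ) / Real.log x = u := hu_def.symm
      linarith
    have h4 : (mA x (AWI_A x ℓ t)) ^ 4 ≤ (2 * u) ^ 4 := by gcongr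
    have h5 : u ≤ u ^ 4 := le_self_pow₀ hu1 (by norm_num)
    have h6 : (mA x (AWI_A x ℓ t)) ^ 4 + mA x (AWI_A x ℓ t) ≤ 18 * u ^ 4 := by
      have h7 : (2 * u) ^ 4 = 16 * u ^ 4 := by ring
      linarith
    gcongr
  have h5 := sum_le_sum hcl
  rw [sum_const, card_range, nsmul_eq_mul] at h5
  have h6 : (WW (yy x) : ℝ) * (C0 * (((⌊x⌋₊ : ℝ) + 1) / (WW (yy x) : ℝ) * (18 * u ^ 4))) =
      C0 * ((⌊x⌋₊ : ℝ) + 1) * (18 * u ^ 4) := by
    field_simp
  rw [h6] at h5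
  have h7 := AWI_yy hL1
  have hu4 : 0 ≤ u ^ 4 := by positivity
  have h8 : C0 * ((⌊x⌋₊ : ℝ) + 1) * (18 * u ^ 4) ≤ C0 * (2 * x) * (18 * u ^ 4) := by
    have : (⌊x⌋₊ : ℝ) + 1 ≤ 2 * x := by linarith
    gcongr
  have h10 : 1 ≤ (Real.log x) ^ 2 := one_le_pow₀ hL1
  have h11 : Real.log x ≤ (Real.log x) ^ 2 := by nlinarith
  have h12 : ((ℓ : ℝ) + yy x + 1) * (ℓ : ℝ) ^ 4 ≤ u ^ 4 * x := by
    have h13 : (ℓ : ℝ) + yy x + 1 ≤ 4 * (Real.log x) ^ 2 := by linarith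
    calc ((ℓ : ℝ) + yy x + 1) * (ℓ : ℝ) ^ 4 ≤ (4 * (Real.log x) ^ 2) * (ℓ : ℝ) ^ 4 := by gcongr
      _ = (4 * (Real.log x) ^ 2) * (u * Real.log x) ^ 4 := by rw [← hℓu]
      _ = u ^ 4 * (4 * (Real.log x) ^ 6) := by ring
      _ ≤ u ^ 4 * x := by
          refine mul_le_mul_of_nonneg_left ?_ hu4
          linarith
  calc ((ℓ : ℝ) + yy x + 1) * (ℓ : ℝ) ^ 4 +
        ∑ t ∈ range (WW (yy x)), ∑ n ∈ cls x t, (NN (AWI_A x ℓ t) n : ℝ) ^ 4
      ≤ u ^ 4 * x + C0 * (2 * x) * (18 * u ^ 4) := by linarith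
    _ = (36 * C0 + 1) * (u ^ 4 * x) := by ring

end Pool.Agent.H6.MB
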