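import Pool.Agent.H6.MF.Defs
import Pool.Agent.H17.AvgMain

/-!
# MB: unconditional bounds for the mean values of the Hardy-Littlewood ratios (MP_1039f5_nt). Definitions.

`Λ = log x`, `N = ⌊x⌋₊ + 1`, `W = WW (yy x)` is the product of the primes `≤ yy x = ⌊log log x / 100⌋₊`
(`Pool/Agent/H17/AvgMain.lean`; `W ≤ Λ^(1/68)`, `yy x → ∞`, `log log x ≤ 200 yy x`).
-/

set_option autoImplicit false

namespace Pool.Agent.H6.MB

open Pool.Agent.H17 Pool.Agent.H6.MF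

/-- average of `G` over a full period -/
noncomputable def avgP (P : ℕ) (G : ℤ → ℝ) : ℝ := (∑ m ∈ Finset.range P, G (m : ℤ)) / (P : ℝ)

/-- `F` is a combination of indicators of residue classes to moduli dividing `P`, with coefficients of total
size `≤ B` -/
def TD (P : ℕ) (B : ℝ) (F : ℤ → ℝ) : Prop :=
  ∃ (D : Finset (ℕ × ℤ)) (lam : ℕ × ℤ → ℝ), (∀ d ∈ D, 0 < d.1 ∧ d.1 ∣ P) ∧
    (∀ n : ℤ, F n = ∑ d ∈ D, if (d.1 : ℤ) ∣ n - d.2 then lam d else 0) ∧ ∑ d ∈ D, |lam d| ≤ B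

/-- the primes in `(w, z]` -/
noncomputable def PI (w z : ℝ) : Finset ℕ := (Finset.range (⌊z⌋₊ + 1)).filter (fun p => p.Prime ∧ w < (p : ℝ))

/-- their product -/
noncomputable def PR (w z : ℝ) : ℕ := ∏ p ∈ PI w z, p

/-- `∏_{w < p ≤ z} (1 - 1/p)` -/
noncomputable def EP (w z : ℝ) : ℝ := ∏ p ∈ PI w z, (1 - 1 / (p : ℝ))

/-- `∑_{i ≤ 2b} (-1)^i C(m,i)` -/
noncomputable def gb (b m : ℕ) : ℝ := if m = 0 then 1 else ((m - 1).choose (2 * b) : ℝ)

/-- the number of primes in `B` dividing `n` -/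
def om (B : Finset ℕ) (n : ℤ) : ℕ := (B.filter (fun p : ℕ => (p : ℤ) ∣ n)).card

/-- `W / φ(W)` -/
noncomputable def wphi (x : ℝ) : ℝ := (WW (yy x) : ℝ) / ((WW (yy x)).totient : ℝ)

/-- the `n < ⌊x⌋₊ + 1` in the class `t` modulo `W` -/
noncomputable def cls (x : ℝ) (t : ℕ) : Finset ℕ := (Finset.range (⌊x⌋₊ + 1)).filter (fun n => n % WW (yy x) = t)

/-- sets of shifts which are admissible for the class `t` -/
def SA (x : ℝ) (t : ℕ) (A : Finset ℕ) : Prop :=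
  ∀ a ∈ A, (a : ℝ) ≤ 3 * (Real.log x) ^ 2 ∧ (t + a).Coprime (WW (yy x))

/-- the expected number of primes `n + a`, `a ∈ A`, for `n` in the class `t` -/
noncomputable def mA (x : ℝ) (A : Finset ℕ) : ℝ := (A.card : ℝ) * wphi x / Real.log x

end Pool.Agent.H6.MB
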