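import Pool.Agent.H6.MB.AWI
import Pool.Agent.H6.MF.ROW
import Pool.Agent.H6.MF.SAT

/-!
# RUP: the unconditional row inequality

`H = {0, e}` (`adm_pair`), `S = sing H ≥ c`, `D = v - u ∈ [t Λ^2, Λ^2]`, `T = ∑_{good n} win u v n`, `L = ⌊η Λ^2⌋₊`. By
`sum_insert_le` the left side is `≤ T`, by `row_upper` `L T ≤ ∑_{m < N+L} tt(m) win u (v+L) m`, `N = ⌊x⌋₊ + 1`. As in
`ROW.lean` (`k = 2`): `∑ tt = L cnt x H`, `∑ tt^2 ≤ C₃ S^2 x` (`sum_tt_sq`, `SMB`, `SIE`, `sing_lower`).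
Let `ℓ' = D + L ≤ 2 Λ^2`, `Bad` the set of `m < N + L` with `win u (v+L) m > (4+ε') ℓ'/Λ`. `win u (v+L) m = win 0 ℓ' (m - u)`
(`win_shift`), so by `AWI1` `#Bad ≤ ε' x + L + |u| ≤ 2 ε' x` (for large `x`, as `ℓ'/Λ ≥ t Λ ≥ K`), and by `AWI2`
`∑_{m < N+L} (win u (v+L) m)^4 ≤ 2 C (ℓ'/Λ)^4 x`. So
`∑_{Bad} tt win ≤ (∑ tt^2)^{1/2} (∑_{Bad} win^2)^{1/2} ≤ (C₃ S^2 x)^{1/2} ((2ε' x)^{1/2} (2C)^{1/2} (ℓ'/Λ)^2 x^{1/2})^{1/2}
 = C₄ (ε')^{1/4} S (ℓ'/Λ) x`,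
`∑_{not Bad} tt win ≤ (4+ε') (ℓ'/Λ) L cnt x H`. Divide by `L ≥ (η/2) Λ^2`; `ℓ' ≤ (1 + η/t) D`,
`cnt x H ≤ C S x/Λ^2` (`SIE`): the total is `≤ (4 + ε') (D/Λ) cnt x H + [5 C η/t + (2 C₄ (ε')^{1/4}/η) (1 + η/t)] D S x/Λ^3`.
Choose `η`, then `ε'`; the `ε' (D/Λ) cnt x H` is absorbed in the first term.
-/

set_option autoImplicit false

namespace Pool.Agent.H6.MB

open Finset Pool.Agent.H6.MF

private lemma RUP_bad (s : Finset ℕ) (f w : ℕ → ℝ) (M A B E Z : ℝ) (hf : ∀ i ∈ s, 0 ≤ f i)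
    (hw : ∀ i ∈ s, 0 ≤ w i) (hM : 0 ≤ M)
    (hA : ∑ i ∈ s, f i ^ 2 ≤ A) (hB : ((s.filter (fun i => M < w i)).card : ℝ) ≤ B)
    (hE : ∑ i ∈ s, w i ^ 4 ≤ E) (hZ : 0 ≤ Z) (hABE : A ^ 2 * (B * E) ≤ Z ^ 4) :
    ∑ i ∈ s, f i * w i ≤ M * ∑ i ∈ s, f i + Z := by
  classical
  obtain ⟨b, hb⟩ : ∃ b, b = s.filter (fun i => M < w i) := ⟨_, rfl⟩
  rw [← hb] at hB
  have hbs : b ⊆ s := by rw [hb]; exact Finset.filter_subset _ _
  have h1 : ∑ i ∈ s, f i * w i = ∑ i ∈ b, f i * w i + ∑ i ∈ s.filter (fun i => ¬ M < w i), f i * w i := by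
    rw [hb]; exact (Finset.sum_filter_add_sum_filter_not s _ _).symm
  have h2 : ∑ i ∈ s.filter (fun i => ¬ M < w i), f i * w i ≤ M * ∑ i ∈ s, f i := by
    calc ∑ i ∈ s.filter (fun i => ¬ M < w i), f i * w i
        ≤ ∑ i ∈ s.filter (fun i => ¬ M < w i), M * f i := by
          refine Finset.sum_le_sum fun i hi => ?_
          obtain ⟨hi1, hi2⟩ := Finset.mem_filter.1 hi
          rw [mul_comm M]
          exact mul_le_mul_of_nonneg_left (not_lt.1 hi2) (hf i hi1)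
      _ = M * ∑ i ∈ s.filter (fun i => ¬ M < w i), f i := (Finset.mul_sum _ _ _).symm
      _ ≤ M * ∑ i ∈ s, f i := mul_le_mul_of_nonneg_left
          (Finset.sum_le_sum_of_subset_of_nonneg (Finset.filter_subset _ _) fun i hi _ => hf i hi) hM
  obtain ⟨G, hG⟩ : ∃ G, G = ∑ i ∈ b, f i * w i := ⟨_, rfl⟩
  obtain ⟨V, hV⟩ : ∃ V, V = ∑ i ∈ b, w i ^ 2 := ⟨_, rfl⟩
  have hG0 : 0 ≤ G := by
    rw [hG]; exact Finset.sum_nonneg fun i hi => mul_nonneg (hf i (hbs hi)) (hw i (hbs hi))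
  have hV0 : 0 ≤ V := by rw [hV]; exact Finset.sum_nonneg fun i _ => sq_nonneg _
  have hA' : ∑ i ∈ b, f i ^ 2 ≤ A :=
    (Finset.sum_le_sum_of_subset_of_nonneg hbs fun i _ _ => sq_nonneg _).trans hA
  have hE' : ∑ i ∈ b, w i ^ 4 ≤ E :=
    (Finset.sum_le_sum_of_subset_of_nonneg hbs fun i _ _ => by positivity).trans hE
  have hA0 : 0 ≤ A := (Finset.sum_nonneg fun i _ => sq_nonneg _).trans hA'
  have h3 : G ^ 2 ≤ A * V := by
    rw [hG]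
    refine (Finset.sum_mul_sq_le_sq_mul_sq b f w).trans ?_
    rw [hV]
    exact mul_le_mul_of_nonneg_right hA' (Finset.sum_nonneg fun i _ => sq_nonneg _)
  have h4 : V ^ 2 ≤ B * E := by
    have h5 := Finset.sum_mul_sq_le_sq_mul_sq b (fun _ => (1 : ℝ)) (fun i => w i ^ 2)
    simp only [one_mul, one_pow, Finset.sum_const, nsmul_eq_mul, mul_one] at h5
    rw [hV]
    refine h5.trans ?_
    have h6 : ∑ i ∈ b, (w i ^ 2) ^ 2 = ∑ i ∈ b, w i ^ 4 :=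
      Finset.sum_congr rfl fun i _ => by ring
    rw [h6]
    have h7 : 0 ≤ ∑ i ∈ b, w i ^ 4 := Finset.sum_nonneg fun i _ => by positivity
    exact mul_le_mul hB hE' h7 ((Nat.cast_nonneg _).trans hB)
  have h5 : G ^ 4 ≤ Z ^ 4 := by
    calc G ^ 4 = (G ^ 2) ^ 2 := by ring
      _ ≤ (A * V) ^ 2 := by gcongr
      _ = A ^ 2 * V ^ 2 := by ring
      _ ≤ A ^ 2 * (B * E) := mul_le_mul_of_nonneg_left h4 (sq_nonneg _)
      _ ≤ Z ^ 4 := hABE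
  have h6 : G ≤ Z := (pow_le_pow_iff_left₀ hG0 hZ (by norm_num)).1 h5
  rw [h1, ← hG]
  linarith

private lemma RUP_win (u v L : ℕ) (huv : u ≤ v) (m : ℕ) (hm : u ≤ m) :
    win (u : ℤ) ((v : ℤ) + (L : ℤ)) (m : ℤ) = win 0 ((v - u + L : ℕ) : ℤ) ((m - u : ℕ) : ℤ) := by
  have h := win_shift 0 ((v - u + L : ℕ) : ℤ) ((m - u : ℕ) : ℤ) (u : ℤ)
  rw [← h]
  congr 1
  · simp
  · push_cast [Nat.cast_sub huv]; ring
  · push_cast [Nat.cast_sub hm]; ring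

private lemma RUP_win0 (u w m : ℤ) (hm : m < u) : win u w m = 0 := by
  unfold win
  rw [Finset.card_eq_zero, Finset.filter_eq_empty_iff]
  intro b hb
  rw [Finset.mem_Ioc] at hb
  unfold isP
  have : (m - b).toNat = 0 := Int.toNat_of_nonpos (by omega)
  rw [this]
  exact Nat.not_prime_zero

private lemma RUP_cover (N L u m : ℕ) (hm : m < N + L) (hu : u ≤ m) :
    m ∈ (Finset.range N).image (fun n => n + u) ∪ Finset.Ico N (N + L) := by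
  rw [Finset.mem_union]
  by_cases h : m - u < N
  · left
    exact Finset.mem_image.2 ⟨m - u, Finset.mem_range.2 h, by omega⟩
  · right
    rw [Finset.mem_Ico]
    omega

private lemma RUP_card (N u v L : ℕ) (huv : u ≤ v) (M : ℝ) (hM : 0 ≤ M) :
    (((Finset.range (N + L)).filter
      (fun m : ℕ => M < (win (u : ℤ) ((v : ℤ) + (L : ℤ)) (m : ℤ) : ℝ))).card : ℝ) ≤
    (((Finset.range N).filter (fun n : ℕ => M < (win 0 ((v - u + L : ℕ) : ℤ) (n : ℤ) : ℝ))).card : ℝ)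
      + L := by
  classical
  have h1 : (Finset.range (N + L)).filter
      (fun m : ℕ => M < (win (u : ℤ) ((v : ℤ) + (L : ℤ)) (m : ℤ) : ℝ)) ⊆
      ((Finset.range N).filter
        (fun n : ℕ => M < (win 0 ((v - u + L : ℕ) : ℤ) (n : ℤ) : ℝ))).image (fun n => n + u) ∪
      Finset.Ico N (N + L) := by
    intro m hm
    obtain ⟨hm1, hm2⟩ := Finset.mem_filter.1 hm
    have hum : u ≤ m := by
      by_contra hcon
      rw [RUP_win0 _ _ _ (by omega)] at hm2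
      simp at hm2
      linarith
    rw [Finset.mem_union]
    by_cases h : m - u < N
    · left
      refine Finset.mem_image.2 ⟨m - u, Finset.mem_filter.2 ⟨Finset.mem_range.2 h, ?_⟩, by
        omega⟩
      rwa [RUP_win u v L huv m hum] at hm2
    · right
      rw [Finset.mem_Ico]
      have := Finset.mem_range.1 hm1
      omega
  have h2 := (Finset.card_le_card h1).trans (Finset.card_union_le _ _)
  rw [Nat.card_Ico, Nat.add_sub_cancel_left] at h2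
  have h3 := h2.trans (Nat.add_le_add_right Finset.card_image_le L)
  exact_mod_cast h3

private lemma RUP_four (N u v L : ℕ) (huv : u ≤ v) :
    ∑ m ∈ Finset.range (N + L), (win (u : ℤ) ((v : ℤ) + (L : ℤ)) (m : ℤ)) ^ 4 ≤
    ∑ n ∈ Finset.range N, (win 0 ((v - u + L : ℕ) : ℤ) (n : ℤ)) ^ 4 + L * (v - u + L) ^ 4 := by
  classical
  have h1 : ∑ m ∈ Finset.range (N + L), (win (u : ℤ) ((v : ℤ) + (L : ℤ)) (m : ℤ)) ^ 4 ≤
      ∑ m ∈ (Finset.range N).image (fun n => n + u) ∪ Finset.Ico N (N + L),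
        (win (u : ℤ) ((v : ℤ) + (L : ℤ)) (m : ℤ)) ^ 4 := by
    refine Finset.sum_le_sum_of_ne_zero fun m hm hne => ?_
    refine RUP_cover N L u m (Finset.mem_range.1 hm) ?_
    by_contra hcon
    exact hne (by rw [RUP_win0 _ _ _ (by omega)]; norm_num)
  have h2 := Finset.sum_union_inter (s₁ := (Finset.range N).image (fun n => n + u))
    (s₂ := Finset.Ico N (N + L)) (f := fun m : ℕ => (win (u : ℤ) ((v : ℤ) + (L : ℤ)) (m : ℤ)) ^ 4)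
  have h3 : ∑ m ∈ (Finset.range N).image (fun n => n + u),
      (win (u : ℤ) ((v : ℤ) + (L : ℤ)) (m : ℤ)) ^ 4
      = ∑ n ∈ Finset.range N, (win 0 ((v - u + L : ℕ) : ℤ) (n : ℤ)) ^ 4 := by
    rw [Finset.sum_image (fun a _ b _ hab => by simpa using hab)]
    refine Finset.sum_congr rfl fun n _ => ?_
    rw [RUP_win u v L huv (n + u) (by omega), Nat.add_sub_cancel]
  have h4 : ∑ m ∈ Finset.Ico N (N + L), (win (u : ℤ) ((v : ℤ) + (L : ℤ)) (m : ℤ)) ^ 4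
      ≤ L * (v - u + L) ^ 4 := by
    have h5 := Finset.sum_le_card_nsmul (Finset.Ico N (N + L))
      (fun m : ℕ => (win (u : ℤ) ((v : ℤ) + (L : ℤ)) (m : ℤ)) ^ 4) ((v - u + L) ^ 4) (fun m _ => by
        have h6 := win_le (u : ℤ) ((v : ℤ) + (L : ℤ)) (m : ℤ)
        have h7 : ((v : ℤ) + (L : ℤ) - (u : ℤ)).toNat = v - u + L := by omega
        rw [h7] at h6
        exact Nat.pow_le_pow_left h6 4)
    rwa [Nat.card_Ico, Nat.add_sub_cancel_left, smul_eq_mul] at h5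
  omega

private lemma RUP_tt {x P S C1 C2 c : ℝ} {H : Finset ℤ} {L : ℕ} (hx : 0 ≤ x) (hP : 0 < P)
    (hc : 0 < c) (hS : c ≤ S) (hLP : (L : ℝ) ≤ P)
    (hC1 : 0 ≤ C1) (hC2 : 0 ≤ C2)
    (h1 : (cnt x H : ℝ) ≤ C1 * (S * x / P))
    (h2 : ∑ r ∈ Finset.Ico 1 L, (cnt x (H ∪ tr H (r : ℤ)) : ℝ)
      ≤ C2 * (S * x / P + (L : ℝ) * S ^ 2 * x / P ^ 2)) :
    ∑ m ∈ Finset.range (⌊x⌋₊ + 1 + L), (tt x H L m : ℝ) ^ 2
      ≤ ((C1 + 2 * C2) / c + 2 * C2) * S ^ 2 * x := by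
  have h3 : ∑ m ∈ Finset.range (⌊x⌋₊ + 1 + L), (tt x H L m : ℝ) ^ 2
      ≤ L * ((cnt x H : ℝ) + 2 * ∑ r ∈ Finset.Ico 1 L, (cnt x (H ∪ tr H (r : ℤ)) : ℝ)) := by
    have := sum_tt_sq x H L
    exact_mod_cast this
  refine h3.trans ?_
  have hL0 : (0 : ℝ) ≤ L := Nat.cast_nonneg _
  have hS0 : 0 < S := lt_of_lt_of_le hc hS
  have h4 : (L : ℝ) * (S * x / P) ≤ S * x := by
    rw [← mul_div_assoc, div_le_iff₀ hP]
    nlinarith [mul_nonneg hS0.le hx]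
  have h5 : (L : ℝ) * ((L : ℝ) * S ^ 2 * x / P ^ 2) ≤ S ^ 2 * x := by
    rw [← mul_div_assoc, div_le_iff₀ (by positivity)]
    have h6 : (L : ℝ) ^ 2 ≤ P ^ 2 := by gcongr
    calc (L : ℝ) * ((L : ℝ) * S ^ 2 * x) = (L : ℝ) ^ 2 * (S ^ 2 * x) := by ring
      _ ≤ P ^ 2 * (S ^ 2 * x) := mul_le_mul_of_nonneg_right h6 (by positivity)
      _ = S ^ 2 * x * P ^ 2 := by ring
  have h6 : S * x ≤ S ^ 2 * x / c := by
    rw [le_div_iff₀ hc]
    nlinarith [mul_nonneg (mul_nonneg hS0.le hx) (sub_nonneg.2 hS)]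
  calc (L : ℝ) * ((cnt x H : ℝ) + 2 * ∑ r ∈ Finset.Ico 1 L, (cnt x (H ∪ tr H (r : ℤ)) : ℝ))
      ≤ (L : ℝ) * (C1 * (S * x / P) + 2 * (C2 * (S * x / P + (L : ℝ) * S ^ 2 * x / P ^ 2))) := by
        gcongr
    _ = (C1 + 2 * C2) * ((L : ℝ) * (S * x / P)) + 2 * C2 * ((L : ℝ) * ((L : ℝ) * S ^ 2 * x / P ^ 2)) := by
        ring
    _ ≤ (C1 + 2 * C2) * (S ^ 2 * x / c) + 2 * C2 * (S ^ 2 * x) := by
        gcongr
        exact h4.trans h6
    _ = ((C1 + 2 * C2) / c + 2 * C2) * S ^ 2 * x := by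
        field_simp

/-- the real-number bookkeeping at the end -/
private lemma RUP_end {ε ε' t κ η δ lam P S x D L C C1 T R : ℝ} (hε : 0 < ε) (hε' : 0 < ε')
    (hε1 : ε' ≤ ε) (hε2 : ε' ≤ 1)
    (hlam : 1 ≤ lam) (hP : P = lam ^ 2) (hx : 0 ≤ x) (hS : 0 ≤ S) (hC0 : 0 ≤ C) (ht : 0 < t)
    (hC1 : 0 ≤ C1)
    (hκ : 0 ≤ κ) (hκ1 : κ ≤ 1) (hκC : κ * C1 ≤ ε / 10) (hη : η = κ * t) (hη0 : 0 < η)
    (hδ : δ = ε * η / 8)
    (hD : t * P ≤ D)
    (hL1 : L ≤ η * P) (hL2 : η * P / 2 ≤ L)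
    (hC : C ≤ C1 * (S * x / P))
    (hU : L * T ≤ (4 + ε') * ((D + L) / lam) * (L * C) + δ * (S * x * ((D + L) / lam)))
    (hR1 : R ≤ T) :
    R ≤ (4 + ε) * (D / lam * C) + ε * (D * S * x / lam ^ 3) := by
  have hlam0 : 0 < lam := by linarith
  have hP0 : 0 < P := by rw [hP]; positivity
  have hηP : 0 < η * P := mul_pos hη0 hP0
  have hL0 : 0 < L := by linarith
  have hLD : L ≤ κ * D := by
    calc L ≤ η * P := hL1
      _ = κ * (t * P) := by rw [hη]; ring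
      _ ≤ κ * D := mul_le_mul_of_nonneg_left hD hκ
  have hD0 : 0 < D := lt_of_lt_of_le (mul_pos ht hP0) hD
  have hLD' : L ≤ D := hLD.trans (by nlinarith)
  have hSx : 0 ≤ S * x := mul_nonneg hS hx
  obtain ⟨q, hqd⟩ : ∃ q, q = S * x / P := ⟨_, rfl⟩
  obtain ⟨y, hyd⟩ : ∃ y, y = D / lam := ⟨_, rfl⟩
  have hy0 : 0 ≤ y := by rw [hyd]; positivity
  have hq0 : 0 ≤ q := by rw [hqd]; positivity
  have hQ : D * S * x / lam ^ 3 = y * q := by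
    rw [hyd, hqd, hP]; field_simp
  have hqP : q * P = S * x := by rw [hqd]; field_simp
  rw [← hqd] at hC
  rw [hQ, ← hyd]
  obtain ⟨l, hld⟩ : ∃ l, l = L / lam := ⟨_, rfl⟩
  have hl0 : 0 ≤ l := by rw [hld]; positivity
  have hly : l ≤ κ * y := by
    rw [hld, hyd, ← mul_div_assoc]
    gcongr
  have hp : (D + L) / lam = y + l := by rw [hyd, hld]; ring
  rw [hp] at hU
  have hyq : 0 ≤ y * q := mul_nonneg hy0 hq0
  have e1 : l * C ≤ ε / 10 * (y * q) := by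
    calc l * C ≤ (κ * y) * (C1 * q) := mul_le_mul hly hC hC0 (mul_nonneg hκ hy0)
      _ = (κ * C1) * (y * q) := by ring
      _ ≤ ε / 10 * (y * q) := mul_le_mul_of_nonneg_right hκC hyq
  have hly' : l ≤ y := by
    rw [hld, hyd]; gcongr
  have e2 : δ * (S * x * (y + l)) ≤ L * (ε / 2 * (y * q)) := by
    have hδ0 : 0 ≤ δ := by rw [hδ]; positivity
    calc δ * (S * x * (y + l)) ≤ δ * (S * x * (2 * y)) := by
          refine mul_le_mul_of_nonneg_left (mul_le_mul_of_nonneg_left ?_ hSx) hδ0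
          linarith
      _ = (η * P / 2) * (ε / 2 * (y * q)) := by
          rw [← hqP, hδ]; ring
      _ ≤ L * (ε / 2 * (y * q)) := by
          refine mul_le_mul_of_nonneg_right hL2 ?_
          positivity
  have e3 : (4 + ε') * (y + l) * C ≤ (4 + ε) * (y * C) + ε / 2 * (y * q) := by
    have hyC : 0 ≤ y * C := mul_nonneg hy0 hC0
    have hlC : 0 ≤ l * C := mul_nonneg hl0 hC0
    have f1 : ε' * (y * C) ≤ ε * (y * C) := mul_le_mul_of_nonneg_right hε1 hyC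
    have f2 : ε' * (l * C) ≤ 1 * (l * C) := mul_le_mul_of_nonneg_right hε2 hlC
    nlinarith
  have e4 : L * T ≤ L * ((4 + ε) * (y * C) + ε * (y * q)) := by
    have f3 : L * ((4 + ε') * (y + l) * C) ≤ L * ((4 + ε) * (y * C) + ε / 2 * (y * q)) :=
      mul_le_mul_of_nonneg_left e3 hL0.le
    nlinarith
  exact hR1.trans (le_of_mul_le_mul_left e4 hL0)

theorem RUP (ε : ℝ) (hε : 0 < ε) (t : ℝ) (ht : 0 < t) : ∃ X : ℝ, ∀ x : ℝ, X ≤ x → ∀ e : ℕ, Even e → 2 ≤ e →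
    (e : ℝ) ≤ (Real.log x) ^ 2 → ∀ u v : ℕ, (v : ℝ) ≤ (Real.log x) ^ 2 → t * (Real.log x) ^ 2 ≤ (v : ℝ) - u →
    ∑ b ∈ Finset.Ioc (u : ℤ) (v : ℤ) \ {0, (e : ℤ)}, (cnt x (insert b {0, (e : ℤ)}) : ℝ)
      ≤ (4 + ε) * (((v : ℝ) - u) / Real.log x * (cnt x {0, (e : ℤ)} : ℝ))
        + ε * (((v : ℝ) - u) * sing {0, (e : ℤ)} * x / (Real.log x) ^ 3) := by
  obtain ⟨C1, X1, hC1, hSIE⟩ := SIE 2 2 (by omega)
  obtain ⟨c, hc, hsl⟩ := sing_lower 2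
  obtain ⟨C2, hC2, hSMB⟩ := SMB 2 le_rfl
  obtain ⟨C4, X5, hC4, hF4⟩ := AWI2
  obtain ⟨κ, hκd⟩ : ∃ κ : ℝ, κ = min (min (1 / 2) (ε / (10 * C1))) (1 / (t + 1)) := ⟨_, rfl⟩
  have hκ0 : 0 < κ := by
    rw [hκd]
    exact lt_min (lt_min (by norm_num) (by positivity)) (by positivity)
  have hκ1 : κ ≤ 1 / 2 := by
    rw [hκd]; exact (min_le_left _ _).trans (min_le_left _ _)
  have hκ2 : κ * C1 ≤ ε / 10 := by
    have : κ ≤ ε / (10 * C1) := by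
      rw [hκd]; exact (min_le_left _ _).trans (min_le_right _ _)
    rw [le_div_iff₀ (by positivity)] at this
    linarith
  have hκ3 : κ * t ≤ 1 := by
    have : κ ≤ 1 / (t + 1) := by rw [hκd]; exact min_le_right _ _
    rw [le_div_iff₀ (by positivity)] at this
    linarith
  obtain ⟨η, hηd⟩ : ∃ η : ℝ, η = κ * t := ⟨_, rfl⟩
  have hη0 : 0 < η := by rw [hηd]; positivity
  have hη1 : η ≤ 1 := by rw [hηd]; exact hκ3
  obtain ⟨X2, hX2⟩ := hSMB η hη0 hη1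
  obtain ⟨C3, hC3d⟩ : ∃ C3 : ℝ, C3 = (C1 + 2 * C2) / c + 2 * C2 := ⟨_, rfl⟩
  have hC3 : 0 < C3 := by rw [hC3d]; positivity
  obtain ⟨δ, hδd⟩ : ∃ δ : ℝ, δ = ε * η / 8 := ⟨_, rfl⟩
  have hδ0 : 0 < δ := by rw [hδd]; positivity
  obtain ⟨ε', hε'd⟩ : ∃ ε' : ℝ, ε' = min (min ε 1) (δ ^ 4 / (4 * C4 * C3 ^ 2)) := ⟨_, rfl⟩
  have hε'0 : 0 < ε' := by
    rw [hε'd]; exact lt_min (lt_min hε one_pos) (by positivity)
  have hε'1 : ε' ≤ ε := by rw [hε'd]; exact (min_le_left _ _).trans (min_le_left _ _)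
  have hε'2 : ε' ≤ 1 := by rw [hε'd]; exact (min_le_left _ _).trans (min_le_right _ _)
  have hε'C : 4 * C4 * C3 ^ 2 * ε' ≤ δ ^ 4 := by
    have : ε' ≤ δ ^ 4 / (4 * C4 * C3 ^ 2) := by rw [hε'd]; exact min_le_right _ _
    rw [le_div_iff₀ (by positivity)] at this
    linarith
  obtain ⟨K, X3, hK0, hF1⟩ := AWI1 ε' hε'0
  have hg : ∀ᶠ x : ℝ in Filter.atTop, (Real.log x) ^ 6 ≤ min ε' C4 * x := by
    have h1 := (Real.isLittleO_pow_log_id_atTop (n := 6)).def (lt_min hε'0 hC4)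
    filter_upwards [h1, Filter.eventually_ge_atTop (0 : ℝ)] with x h2 h3
    simp only [id, Real.norm_eq_abs] at h2
    rw [abs_of_nonneg h3] at h2
    exact (le_abs_self _).trans h2
  have hl : ∀ᶠ x : ℝ in Filter.atTop,
      max (max 1 (K / t)) (max (1 / t) (2 / η)) ≤ Real.log x :=
    Real.tendsto_log_atTop.eventually_ge_atTop _
  obtain ⟨X4, hX4⟩ := Filter.eventually_atTop.1 (hg.and hl)
  refine ⟨max (max (max X1 X2) X5) (max X3 (max X4 1)), fun x hx e he he2 heL u v hv huv => ?_⟩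
  have hx1 : X1 ≤ x :=
    ((le_max_left _ _).trans ((le_max_left _ _).trans (le_max_left _ _))).trans hx
  have hx2 : X2 ≤ x :=
    ((le_max_right _ _).trans ((le_max_left _ _).trans (le_max_left _ _))).trans hx
  have hx6 : X5 ≤ x := ((le_max_right _ _).trans (le_max_left _ _)).trans hx
  have hx3 : X3 ≤ x := ((le_max_left _ _).trans (le_max_right _ _)).trans hx
  have hx4 : X4 ≤ x :=
    ((le_max_left _ _).trans ((le_max_right _ _).trans (le_max_right _ _))).trans hx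
  have hx5 : (1 : ℝ) ≤ x :=
    ((le_max_right _ _).trans ((le_max_right _ _).trans (le_max_right _ _))).trans hx
  have hx0 : 0 ≤ x := by linarith
  obtain ⟨hgx, hlx⟩ := hX4 x hx4
  obtain ⟨H, hHd⟩ : ∃ H : Finset ℤ, H = {0, (e : ℤ)} := ⟨_, rfl⟩
  have hH : H.card = 2 := by
    rw [hHd, Finset.card_pair]
    omega
  have hadm : adm H := by rw [hHd]; exact adm_pair he
  have hHb : ∀ h ∈ H, |(h : ℝ)| ≤ (Real.log x) ^ 2 := by
    intro h0 hh0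
    rw [hHd] at hh0
    simp only [Finset.mem_insert, Finset.mem_singleton] at hh0
    rcases hh0 with hh0 | hh0
    · rw [hh0]; simp; positivity
    · rw [hh0]; simpa using heL
  rw [← hHd]
  have hS := hsl H hH hadm
  have hC := hSIE x hx1 H hH hadm hHb
  have hM := hX2 x hx2 H hH hadm hHb
  have hA1 := hF1 x hx3
  have hA2 := hF4 x hx6
  obtain ⟨lam, hlamd⟩ : ∃ lam : ℝ, lam = Real.log x := ⟨_, rfl⟩
  rw [← hlamd] at hgx hlx hC hM hv huv hHb hA1 hA2 ⊢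
  have hlam : 1 ≤ lam := ((le_max_left _ _).trans (le_max_left _ _)).trans hlx
  have hlam0 : 0 < lam := by linarith
  have hlam1 : K ≤ t * lam := by
    have h1 : K / t ≤ lam := ((le_max_right _ _).trans (le_max_left _ _)).trans hlx
    rw [div_le_iff₀ ht] at h1
    linarith
  have hlam2 : 1 ≤ t * lam := by
    have h1 : 1 / t ≤ lam := ((le_max_left _ _).trans (le_max_right _ _)).trans hlx
    rw [div_le_iff₀ ht] at h1
    linarith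
  have hlam3 : 2 ≤ η * lam := by
    have h1 : 2 / η ≤ lam := ((le_max_right _ _).trans (le_max_right _ _)).trans hlx
    rw [div_le_iff₀ hη0] at h1
    linarith
  obtain ⟨P, hPd⟩ : ∃ P : ℝ, P = lam ^ 2 := ⟨_, rfl⟩
  have hP0 : 0 < P := by rw [hPd]; positivity
  have hlP : lam ≤ P := by rw [hPd]; nlinarith
  have hPP : lam ^ (2 * 2) = P ^ 2 := by rw [hPd]; ring
  rw [hPP] at hM
  rw [← hPd] at hC hM hv huv hHb
  obtain ⟨S, hSd⟩ : ∃ S : ℝ, S = sing H := ⟨_, rfl⟩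
  rw [← hSd] at hS hC hM ⊢
  have hS0 : 0 < S := lt_of_lt_of_le hc hS
  obtain ⟨L, hLd⟩ : ∃ L : ℕ, L = ⌊η * P⌋₊ := ⟨_, rfl⟩
  rw [← hLd] at hM
  have hηP : 2 ≤ η * P := hlam3.trans (mul_le_mul_of_nonneg_left hlP hη0.le)
  have hL1 : (L : ℝ) ≤ η * P := by rw [hLd]; exact Nat.floor_le (by positivity)
  have hL2 : η * P / 2 ≤ (L : ℝ) := by
    have h1 : η * P < (L : ℝ) + 1 := by rw [hLd]; exact Nat.lt_floor_add_one _
    linarith
  have hLP : (L : ℝ) ≤ P := hL1.trans (by nlinarith)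
  have hL0 : (0 : ℝ) ≤ L := Nat.cast_nonneg _
  have htt : ∑ m ∈ Finset.range (⌊x⌋₊ + 1 + L), (tt x H L m : ℝ) ^ 2 ≤ C3 * S ^ 2 * x := by
    rw [hC3d]
    exact RUP_tt hx0 hP0 hc hS hLP hC1.le hC2.le hC hM
  have hD0 : 0 < (v : ℝ) - u := lt_of_lt_of_le (by positivity) huv
  have huvN : u ≤ v := by
    have : (u : ℝ) ≤ v := by linarith
    exact_mod_cast this
  have hℓc : (((v - u + L : ℕ)) : ℝ) = (v : ℝ) - u + L := by
    push_cast [Nat.cast_sub huvN]; ring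
  have hu0 : (0 : ℝ) ≤ u := Nat.cast_nonneg _
  have hℓ2 : (((v - u + L : ℕ)) : ℝ) ≤ 2 * lam ^ 2 := by
    rw [hℓc, ← hPd]; linarith
  have hℓ1 : t * (lam * lam) ≤ (((v - u + L : ℕ)) : ℝ) := by
    rw [hℓc]
    have : t * (lam * lam) = t * P := by rw [hPd]; ring
    rw [this]; linarith
  have hA1' := hA1 (v - u + L) (by nlinarith) hℓ2
  have hA2' := hA2 (v - u + L) (by nlinarith) hℓ2
  obtain ⟨Y, hYd⟩ : ∃ Y : ℝ, Y = (((v - u + L : ℕ)) : ℝ) / lam := ⟨_, rfl⟩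
  have hY0 : 0 ≤ Y := by rw [hYd]; positivity
  rw [← hYd] at hA1' hA2'
  have hYl : Y * lam = (((v - u + L : ℕ)) : ℝ) := by rw [hYd]; field_simp
  have hgx1 : lam ^ 6 ≤ ε' * x := hgx.trans (mul_le_mul_of_nonneg_right (min_le_left _ _) hx0)
  have hgx2 : lam ^ 6 ≤ C4 * x := hgx.trans (mul_le_mul_of_nonneg_right (min_le_right _ _) hx0)
  have hLx : (L : ℝ) ≤ ε' * x := by
    refine hLP.trans (le_trans ?_ hgx1)
    rw [hPd]
    exact pow_le_pow_right₀ hlam (by norm_num)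
  have hL4 : (L : ℝ) * (((v - u + L : ℕ)) : ℝ) ^ 4 ≤ C4 * (Y ^ 4 * x) := by
    rw [← hYl]
    have h1 : (L : ℝ) * lam ^ 4 ≤ C4 * x := by
      refine le_trans (mul_le_mul_of_nonneg_right hLP (by positivity)) ?_
      rw [hPd, ← pow_add]
      exact hgx2
    calc (L : ℝ) * (Y * lam) ^ 4 = Y ^ 4 * ((L : ℝ) * lam ^ 4) := by ring
      _ ≤ Y ^ 4 * (C4 * x) := mul_le_mul_of_nonneg_left h1 (by positivity)
      _ = C4 * (Y ^ 4 * x) := by ring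
  have hcard := RUP_card (⌊x⌋₊ + 1) u v L huvN ((4 + ε') * Y) (by positivity)
  have hfour : ∑ m ∈ Finset.range (⌊x⌋₊ + 1 + L), (win (u : ℤ) ((v : ℤ) + (L : ℤ)) (m : ℤ) : ℝ) ^ 4
      ≤ ∑ n ∈ Finset.range (⌊x⌋₊ + 1), (win 0 ((v - u + L : ℕ) : ℤ) (n : ℤ) : ℝ) ^ 4
        + (L : ℝ) * (((v - u + L : ℕ)) : ℝ) ^ 4 := by
    exact_mod_cast RUP_four (⌊x⌋₊ + 1) u v L huvN
  have hmain := RUP_bad (Finset.range (⌊x⌋₊ + 1 + L)) (fun m => (tt x H L m : ℝ))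
    (fun m => (win (u : ℤ) ((v : ℤ) + (L : ℤ)) (m : ℤ) : ℝ)) ((4 + ε') * Y) (C3 * S ^ 2 * x)
    (2 * ε' * x) (2 * C4 * (Y ^ 4 * x)) (δ * (S * x * Y)) (fun _ _ => Nat.cast_nonneg _)
    (fun _ _ => Nat.cast_nonneg _) (by positivity) htt
    (hcard.trans (by linarith)) (hfour.trans (by linarith)) (by positivity) (by
      calc (C3 * S ^ 2 * x) ^ 2 * (2 * ε' * x * (2 * C4 * (Y ^ 4 * x)))
          = (4 * C4 * C3 ^ 2 * ε') * (S * x * Y) ^ 4 := by ring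
        _ ≤ δ ^ 4 * (S * x * Y) ^ 4 := mul_le_mul_of_nonneg_right hε'C (by positivity)
        _ = (δ * (S * x * Y)) ^ 4 := by ring)
  have hsum : ∑ m ∈ Finset.range (⌊x⌋₊ + 1 + L), (tt x H L m : ℝ) = L * cnt x H := by
    have := sum_tt x H L
    exact_mod_cast this
  rw [hsum] at hmain
  have r1 : (L : ℝ) * ∑ n ∈ goodS x H, (win (u : ℤ) (v : ℤ) (n : ℤ) : ℝ)
      ≤ ∑ m ∈ Finset.range (⌊x⌋₊ + 1 + L), (tt x H L m : ℝ) * (win (u : ℤ) ((v : ℤ) + (L : ℤ)) (m : ℤ) : ℝ) := by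
    exact_mod_cast row_upper x H L (u : ℤ) (v : ℤ)
  have r3 : ∑ b ∈ Finset.Ioc (u : ℤ) (v : ℤ) \ H, (cnt x (insert b H) : ℝ)
      ≤ ∑ n ∈ goodS x H, (win (u : ℤ) (v : ℤ) (n : ℤ) : ℝ) := by
    exact_mod_cast sum_insert_le x H (u : ℤ) (v : ℤ)
  have hYY : Y = ((v : ℝ) - u + L) / lam := by rw [hYd, hℓc]
  rw [hYY] at hmain
  exact RUP_end hε hε'0 hε'1 hε'2 hlam hPd hx0 hS0.le (Nat.cast_nonneg _) ht hC1.le hκ0.le
    (by linarith) hκ2 hηd hη0 hδd huv hL1 hL2 hC (r1.trans hmain) r3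

end Pool.Agent.H6.MB
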